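import Pool.Agent.Lib.MP_8f595d_ag.TUH

/-!
# Module TEX: tubes around the (punctured) exceptional curves
-/

set_option autoImplicit false

open scoped Topology LinearAlgebra.Projectivization

open Pool.Agent.SH (pt1 PTube H)

open Pool.Agent.SH.HptM

namespace Pool.Agent.MP_8f595d_ag

namespace TexM

open TubM

lemma mk1_rep1 (a : ℂ) : (mk1 a 1).rep 1 ≠ 0 ∧ (mk1 a 1).rep 0 / (mk1 a 1).rep 1 = a := by
  obtain ⟨k, hk, h⟩ := VCHM.mk1_rep (a := a) (c := 1) (VCHM.vec_ne (fun h => one_ne_zero h.2))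
  rw [h]
  simp [hk]

lemma eq_mk1 {m : P1} (h : m.rep 1 ≠ 0) : mk1 (m.rep 0 / m.rep 1) 1 = m := by
  apply VCHM.mk1_eq
  · rintro ⟨_, h1⟩; exact one_ne_zero h1
  · field_simp

lemma eq_pt0 {m : P1} (h : m.rep 1 = 0) : m = pt1 0 := by
  rw [pt1_eq_mk1]
  symm
  apply VCHM.mk1_eq
  · rintro ⟨h1, _⟩; exact one_ne_zero h1
  · rw [h]; ring

lemma mk1_ne (a : ℂ) : mk1 a 1 ≠ pt1 0 := by
  intro h
  have h1 := (mk1_rep1 a).1
  rw [h] at h1
  have h2 := (pt1_rep 0).2
  rcases div_eq_zero_iff.mp h2 with h3 | h3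
  · exact h1 h3
  · exact (pt1_rep 0).1 h3

section

variable {n : ℕ} {P : Fin n → ℂ × ℂ}

lemma em2 (i : Fin n) (p : ℂ × ℂ) : (excMap P i p).1.2 i = mk1 p.1 1 := if_pos rfl

lemma em3 (i : Fin n) (p : ℂ × ℂ) {j : Fin n} (hj : j ≠ i) :
    (excMap P i p).1.2 j = mk1 ((ep P i p).1 - (P j).1) ((ep P i p).2 - (P j).2) := if_neg hj

lemma ep_cont (i : Fin n) : Continuous (ep P i) := by
  unfold ep
  fun_prop

lemma OmE_open (i : Fin n) : IsOpen (OmE P i) := by
  have : OmE P i = ⋂ j : Fin n, {p | j ≠ i → ep P i p ≠ P j} := by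
    ext p; simp [OmE]
  rw [this]
  apply isOpen_iInter_of_finite
  intro j
  by_cases hj : j = i
  · simp [hj]
  · have h2 : {p | j ≠ i → ep P i p ≠ P j} = {p | ep P i p ≠ P j} := by
      ext p
      exact ⟨fun h => h hj, fun h _ => h⟩
    rw [h2]
    exact isOpen_ne_fun (ep_cont i) continuous_const

lemma ep_zero (i : Fin n) (z : ℂ) : ep P i (z, 0) = P i := by
  apply Prod.ext
  · show (P i).1 + 0 * z = _
    ring
  · show (P i).2 + 0 = _
    ring

lemma OmE_zero (hP : Function.Injective P) (i : Fin n) (z : ℂ) : (z, (0 : ℂ)) ∈ OmE P i := by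
  intro j hj h
  apply hj
  rw [ep_zero] at h
  exact (hP h).symm

lemma em_cont (i : Fin n) : ContinuousOn (excMap P i) (OmE P i) := by
  rw [Topology.IsInducing.subtypeVal.continuousOn_iff]
  refine ContinuousOn.prodMk (ep_cont i).continuousOn (continuousOn_pi.mpr fun j => ?_)
  by_cases hj : j = i
  · subst hj
    have h : (fun y => (excMap P j y).1.2 j) = fun p => mk1 p.1 1 := by
      funext p; exact em2 j p
    show ContinuousOn (fun y => (excMap P j y).1.2 j) _
    rw [h]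
    apply VCHM.mk1_contAt continuousOn_fst continuousOn_const
    rintro p _ ⟨_, h4⟩
    exact one_ne_zero h4
  · have h : (fun y => (excMap P i y).1.2 j) =
        fun p => mk1 ((ep P i p).1 - (P j).1) ((ep P i p).2 - (P j).2) := by
      funext p; exact em3 i p hj
    show ContinuousOn (fun y => (excMap P i y).1.2 j) _
    rw [h]
    have h2 := ep_cont (P := P) i
    apply VCHM.mk1_contAt
    · exact ((continuous_fst.comp h2).sub continuous_const).continuousOn
    · exact ((continuous_snd.comp h2).sub continuous_const).continuousOn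
    · rintro p hp ⟨h3, h4⟩
      exact hp j hj (Prod.ext (sub_eq_zero.mp h3) (sub_eq_zero.mp h4))

lemma em_inj (i : Fin n) : Set.InjOn (excMap P i) (OmE P i) := by
  intro p _ p' _ h
  have h0 : ep P i p = ep P i p' := congrArg (fun q : Bl P => q.1.1) h
  have h2 : (ep P i p).2 = (ep P i p').2 := by rw [h0]
  change (P i).2 + p.2 = (P i).2 + p'.2 at h2
  have h3 : (excMap P i p).1.2 i = (excMap P i p').1.2 i := by rw [h]
  rw [em2, em2] at h3
  apply Prod.ext
  · rw [← (mk1_rep1 p.1).2, ← (mk1_rep1 p'.1).2, h3]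
  · exact add_left_cancel h2

lemma fst_cont : Continuous (fun q : Bl P => q.1.1) := by fun_prop

lemma slope_cont (i : Fin n) : Continuous (fun q : Bl P => q.1.2 i) := by fun_prop

lemma ev_ne (i : Fin n) (p : ℂ × ℂ) (hp : p ∈ OmE P i) :
    ∀ᶠ q in 𝓝 (excMap P i p), ∀ j, j ≠ i → q.1.1 ≠ P j := by
  rw [Filter.eventually_all]
  intro j
  by_cases hj : j = i
  · exact Filter.Eventually.of_forall fun q h => absurd hj h
  · have h : ∀ᶠ q in 𝓝 (excMap P i p), q.1.1 ≠ P j :=
      (isOpen_ne_fun (fst_cont (P := P)) continuous_const).mem_nhds (hp j hj)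
    filter_upwards [h] with q hq _
    exact hq

/-- The inverse of `excMap`. -/
lemma em_back (i : Fin n) (q : Bl P) (q0 : ∀ j, j ≠ i → q.1.1 ≠ P j)
    (q1 : (q.1.2 i).rep 1 ≠ 0) :
    excMap P i ((q.1.2 i).rep 0 / (q.1.2 i).rep 1, q.1.1.2 - (P i).2) = q := by
  have h11 : (excMap P i ((q.1.2 i).rep 0 / (q.1.2 i).rep 1, q.1.1.2 - (P i).2)).1.1
      = q.1.1 := by
    apply Prod.ext
    · show (P i).1 + (q.1.1.2 - (P i).2) * ((q.1.2 i).rep 0 / (q.1.2 i).rep 1) = q.1.1.1
      have h := q.2 i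
      field_simp
      linear_combination -h
    · show (P i).2 + (q.1.1.2 - (P i).2) = q.1.1.2
      ring
  apply ext_of _ _ h11
  intro j hj
  rw [h11] at hj
  by_cases hji : j = i
  · subst hji
    rw [em2]
    exact eq_mk1 q1
  · exact absurd hj (q0 j hji)

lemma em_rinv (i : Fin n) (p : ℂ × ℂ) (hp : p ∈ OmE P i) :
    ∃ g : Bl P → ℂ × ℂ, ContinuousAt g (excMap P i p) ∧ g (excMap P i p) = p ∧
      ∀ᶠ q in 𝓝 (excMap P i p), excMap P i (g q) = q := by
  have hev := ev_ne i p hp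
  have hr := mk1_rep1 p.1
  rw [← em2 (P := P) i p] at hr
  have hs : ContinuousAt (fun q : Bl P => (q.1.2 i).rep 0 / (q.1.2 i).rep 1)
      (excMap P i p) := by
    have h1 : ContinuousAt (fun m : P1 => m.rep 0 / m.rep 1) ((excMap P i p).1.2 i) :=
      sl_cont'.continuousAt (rep1_open.mem_nhds hr.1)
    exact ContinuousAt.comp (f := fun q : Bl P => q.1.2 i) h1 (slope_cont i).continuousAt
  have hy' : ContinuousAt (fun q : Bl P => q.1.1.2 - (P i).2) (excMap P i p) :=
    (Continuous.continuousAt (by fun_prop))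
  refine ⟨fun q => ((q.1.2 i).rep 0 / (q.1.2 i).rep 1, q.1.1.2 - (P i).2),
    hs.prodMk hy', ?_, ?_⟩
  · apply Prod.ext
    · exact hr.2
    · show (P i).2 + p.2 - (P i).2 = p.2
      ring
  · have e1 : ∀ᶠ q in 𝓝 (excMap P i p), (q.1.2 i).rep 1 ≠ 0 :=
      (rep1_open.preimage (slope_cont i)).mem_nhds hr.1
    filter_upwards [hev, e1] with q q0 q1
    exact em_back i q q0 q1

end

end TexM

open TubM TexM

theorem specTex : SpecTex := by
  intro n P hP i
  refine ⟨⟨OmE_open i, OmE_zero hP i, openEmb _ _ (OmE_open i) (em_cont i) (em_inj i)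
    (em_rinv i), Set.subset_univ _, ?_, ?_⟩, ?_⟩
  · rintro q ⟨hq1, hq2⟩
    have h1 : (q.1.2 i).rep 1 ≠ 0 := fun h => hq2 (eq_pt0 h)
    refine ⟨((q.1.2 i).rep 0 / (q.1.2 i).rep 1, 0), OmE_zero hP i _, ?_⟩
    have h2 := em_back i q (fun j hj h => hj (hP (h.symm.trans hq1))) h1
    have h3 : q.1.1.2 - (P i).2 = 0 := by rw [hq1]; ring
    rw [h3] at h2
    exact h2
  · intro p hp
    constructor
    · rintro ⟨h1, _⟩
      have h2 : (ep P i p).2 = (P i).2 := congrArg (fun z : ℂ × ℂ => z.2) h1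
      change (P i).2 + p.2 = (P i).2 at h2
      linear_combination h2
    · intro h
      have hp' : p = (p.1, 0) := Prod.ext rfl h
      rw [hp']
      refine ⟨ep_zero i p.1, ?_⟩
      rw [em2]
      exact mk1_ne _
  · exact isClosed_eq (by fun_prop) continuous_const

end Pool.Agent.MP_8f595d_ag
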