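import Pool.Agent.Lib.MP_8f595d_ag.VSpec
import Pool.Agent.Lib.MP_8f595d_ag.SH.HSH

/-!
# Module VCH: the charts of the surface `V`
-/

set_option autoImplicit false

open scoped Topology LinearAlgebra.Projectivization

namespace Pool.Agent.MP_8f595d_ag

namespace VCHM

open Pool.Agent.SH Pool.Agent.SH.HptM

/-! ### functions on projective spaces -/

lemma mk_rep' {n : ℕ} (v : Fin n → ℂ) (hv : v ≠ 0) :
    ∃ a : ℂ, a ≠ 0 ∧ (Projectivization.mk ℂ v hv).rep = a • v := by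
  obtain ⟨a, ha⟩ := Projectivization.exists_smul_eq_mk_rep ℂ v hv
  exact ⟨a, a.ne_zero, ha.symm⟩

lemma isOpen_ne {n : ℕ} (M : (Fin n → ℂ) → ℂ) (hM : Continuous M)
    (hMs : ∀ (a : ℂ) v, M (a • v) = a * M v) : IsOpen {p : ℙ ℂ (Fin n → ℂ) | M p.rep ≠ 0} := by
  rw [← (quot n).isOpen_preimage]
  have : prj n ⁻¹' {p : ℙ ℂ (Fin n → ℂ) | M p.rep ≠ 0}
      = {v : {v : Fin n → ℂ // v ≠ 0} | M v.1 ≠ 0} := by
    ext v
    obtain ⟨a, ha, hv⟩ := mk_rep' v.1 v.2
    change M (Projectivization.mk ℂ v.1 v.2).rep ≠ 0 ↔ M v.1 ≠ 0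
    rw [hv, hMs]
    simp [ha]
  rw [this]
  exact isOpen_ne_fun (hM.comp continuous_subtype_val) continuous_const

lemma contOn_div {n : ℕ} (L M : (Fin n → ℂ) → ℂ) (hL : Continuous L) (hM : Continuous M)
    (hLs : ∀ (a : ℂ) v, L (a • v) = a * L v) (hMs : ∀ (a : ℂ) v, M (a • v) = a * M v) :
    ContinuousOn (fun p : ℙ ℂ (Fin n → ℂ) => L p.rep / M p.rep) {p | M p.rep ≠ 0} := by
  rw [(quot n).continuousOn_isOpen_iff (isOpen_ne M hM hMs)]
  have h1 : ∀ v : {v : Fin n → ℂ // v ≠ 0},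
      ((fun p : ℙ ℂ (Fin n → ℂ) => L p.rep / M p.rep) ∘ prj n) v = L v.1 / M v.1 := by
    intro v
    obtain ⟨a, ha, hv⟩ := mk_rep' v.1 v.2
    change L (Projectivization.mk ℂ v.1 v.2).rep / M (Projectivization.mk ℂ v.1 v.2).rep
      = L v.1 / M v.1
    rw [hv, hLs, hMs, mul_div_mul_left _ _ ha]
  have h2 : ContinuousOn (fun v : {v : Fin n → ℂ // v ≠ 0} => L v.1 / M v.1)
      (prj n ⁻¹' {p : ℙ ℂ (Fin n → ℂ) | M p.rep ≠ 0}) := by
    intro v hv
    apply ContinuousAt.continuousWithinAt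
    apply ContinuousAt.div
    · exact (hL.comp continuous_subtype_val).continuousAt
    · exact (hM.comp continuous_subtype_val).continuousAt
    · intro h0
      obtain ⟨a, ha, hv'⟩ := mk_rep' v.1 v.2
      apply hv
      change M (Projectivization.mk ℂ v.1 v.2).rep = 0
      rw [hv', hMs, h0, mul_zero]
  exact h2.congr (fun v _ => h1 v)

/-! ### the total class maps -/

lemma mk2_of_ne {z : Fin 3 → ℂ} (hz : z ≠ 0) : mk2 z = Projectivization.mk ℂ z hz := by
  unfold mk2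
  rw [dif_pos hz]

lemma mk1_of_ne {a c : ℂ} (h : (![a, c] : Fin 2 → ℂ) ≠ 0) :
    mk1 a c = Projectivization.mk ℂ ![a, c] h := by
  unfold mk1
  rw [dif_pos h]

lemma mk2_rep {z : Fin 3 → ℂ} (hz : z ≠ 0) : ∃ a : ℂ, a ≠ 0 ∧ (mk2 z).rep = a • z := by
  rw [mk2_of_ne hz]
  exact mk_rep' z hz

lemma mk1_rep {a c : ℂ} (h : (![a, c] : Fin 2 → ℂ) ≠ 0) :
    ∃ k : ℂ, k ≠ 0 ∧ (mk1 a c).rep = k • ![a, c] := by
  rw [mk1_of_ne h]
  exact mk_rep' _ h

lemma vec_ne {a c : ℂ} (h : ¬ (a = 0 ∧ c = 0)) : (![a, c] : Fin 2 → ℂ) ≠ 0 := by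
  intro h0
  apply h
  have h1 := congrFun h0 0
  have h2 := congrFun h0 1
  simpa using ⟨h1, h2⟩

lemma mk2_smul (p : P2) {k : ℂ} (hk : k ≠ 0) : mk2 (k • p.rep) = p := by
  have hz : k • p.rep ≠ 0 := smul_ne_zero hk p.rep_nonzero
  rw [mk2_of_ne hz]
  have h1 : Projectivization.mk ℂ (k • p.rep) hz = Projectivization.mk ℂ p.rep p.rep_nonzero :=
    (Projectivization.mk_eq_mk_iff ℂ _ _ _ _).2 ⟨Units.mk0 k hk, rfl⟩
  rw [h1, Projectivization.mk_rep]

lemma mk1_eq (m : P1) {a c : ℂ} (h : ¬ (a = 0 ∧ c = 0)) (he : a * m.rep 1 = c * m.rep 0) :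
    mk1 a c = m := by
  rw [mk1_of_ne (vec_ne h)]
  have h1 : Projectivization.mk ℂ ![a, c] (vec_ne h)
      = Projectivization.mk ℂ m.rep m.rep_nonzero := by
    have := (eq_iff_minors 2 ⟨![a, c], vec_ne h⟩ ⟨m.rep, m.rep_nonzero⟩).2
    apply this
    intro i j
    fin_cases i <;> fin_cases j <;> simp <;>
      first | linear_combination he | linear_combination -he
  rw [h1, Projectivization.mk_rep]

/-! ### the linear coordinates -/

lemma w0_smul (b : Fin 12) (a : ℂ) (z : Fin 3 → ℂ) : w0 b (a • z) = a * w0 b z := by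
  unfold w0
  split_ifs <;> simp

lemma w1_smul (b : Fin 12) (a : ℂ) (z : Fin 3 → ℂ) : w1 b (a • z) = a * w1 b z := by
  unfold w1
  split_ifs <;> simp [mul_sub, mul_left_comm]

lemma w2_smul (b : Fin 12) (a : ℂ) (z : Fin 3 → ℂ) : w2 b (a • z) = a * w2 b z := by
  unfold w2
  split_ifs <;> simp [mul_sub, mul_left_comm]

lemma w0_cont (b : Fin 12) : Continuous (w0 b) := by
  unfold w0
  split_ifs <;> fun_prop

lemma w1_cont (b : Fin 12) : Continuous (w1 b) := by
  unfold w1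
  split_ifs <;> fun_prop

lemma w2_cont (b : Fin 12) : Continuous (w2 b) := by
  unfold w2
  split_ifs <;> fun_prop

lemma zz_cont (b : Fin 12) (ε : Fin 2) : Continuous (zz b ε) := by
  unfold zz
  split_ifs <;> fun_prop

lemma mm_cont (ε : Fin 2) (j : Fin 2) : Continuous (fun y => mm ε y j) := by
  unfold mm
  split_ifs
  · fin_cases j
    · simpa using continuous_const
    · simpa using continuous_snd
  · fin_cases j
    · simpa using continuous_snd
    · simpa using continuous_const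

lemma mm_ne (ε : Fin 2) (y : ℂ × ℂ) : ¬ (mm ε y 0 = 0 ∧ mm ε y 1 = 0) := by
  unfold mm
  split_ifs <;> simp

lemma w0_zz (h1 : SpecLin) (b : Fin 12) (ε : Fin 2) (y : ℂ × ℂ) : w0 b (zz b ε y) = 1 := by
  obtain ⟨-, -, -, -, h, -⟩ := h1
  obtain ⟨h0, -, -, h3, -⟩ := h b y
  fin_cases ε
  · exact h0
  · exact h3

lemma zz_ne (h1 : SpecLin) (b : Fin 12) (ε : Fin 2) (y : ℂ × ℂ) : zz b ε y ≠ 0 := by
  intro h
  have h2 := w0_zz h1 b ε y
  rw [h] at h2
  have h3 := w0_smul b 0 0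
  rw [zero_smul, zero_mul] at h3
  rw [h3] at h2
  exact zero_ne_one h2

/-- the relation defining `V` at `b`, in the chart -/
lemma w_mm (h1 : SpecLin) (b : Fin 12) (ε : Fin 2) (y : ℂ × ℂ) :
    w1 b (zz b ε y) * mm ε y 1 = w2 b (zz b ε y) * mm ε y 0 := by
  obtain ⟨-, -, -, -, h, -⟩ := h1
  obtain ⟨-, h2, h3, -, h5, h6⟩ := h b y
  fin_cases ε
  · change w1 b (zz b 0 y) * mm 0 y 1 = w2 b (zz b 0 y) * mm 0 y 0
    rw [h2, h3]
    simp [mm]
  · change w1 b (zz b 1 y) * mm 1 y 1 = w2 b (zz b 1 y) * mm 1 y 0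
    rw [h5, h6]
    simp [mm]

/-- KEY: on the source of the chart, `zz (co q)` is a multiple of the point -/
lemma zz_co (h1 : SpecLin) (b : Fin 12) (ε : Fin 2) (q : V) (hq : q ∈ Src b ε) :
    zz b ε (co b ε q) = (w0 b q.1.1.rep)⁻¹ • q.1.1.rep := by
  obtain ⟨hw, hm, -⟩ := hq
  have hV := q.2 b
  obtain ⟨-, hdec, -⟩ := h1
  have hz := hdec b q.1.1.rep
  set z := q.1.1.rep with hzdef
  set m := (q.1.2 b).rep with hmdef
  have hV' : w1 b z * m 1 = w2 b z * m 0 := hV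
  have hzi : ∀ i, z i = w0 b z * bv b i + w1 b z * d1 b i + w2 b z * d2 b i := by
    intro i
    have := congrFun hz i
    simpa only [Pi.add_apply, Pi.smul_apply, smul_eq_mul] using this
  fin_cases ε
  · change m 0 ≠ 0 at hm
    change zz b 0 (w1 b z / w0 b z, m 1 / m 0) = _
    unfold zz
    rw [if_pos rfl]
    have e1 : w1 b z / w0 b z * (m 1 / m 0) = w2 b z / w0 b z := by
      field_simp
      linear_combination hV'
    simp only [e1]
    funext i
    simp only [Pi.add_apply, Pi.smul_apply, smul_eq_mul]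
    rw [hzi i]
    generalize w0 b z = W0 at *
    field_simp
  · change m 1 ≠ 0 at hm
    change zz b 1 (w2 b z / w0 b z, m 0 / m 1) = _
    unfold zz
    rw [if_neg (by decide)]
    have e1 : w2 b z / w0 b z * (m 0 / m 1) = w1 b z / w0 b z := by
      field_simp
      linear_combination -hV'
    simp only [e1]
    funext i
    simp only [Pi.add_apply, Pi.smul_apply, smul_eq_mul]
    rw [hzi i]
    generalize w0 b z = W0 at *
    field_simp

lemma co_mem (h1 : SpecLin) (b : Fin 12) (ε : Fin 2) (q : V) (hq : q ∈ Src b ε) :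
    co b ε q ∈ Tgt b ε := by
  intro b' hb'
  rw [zz_co h1 b ε q hq, w1_smul, w2_smul]
  obtain ⟨hw, -, h3⟩ := hq
  have hi : (w0 b q.1.1.rep)⁻¹ ≠ 0 := inv_ne_zero hw
  intro h
  apply h3 b' hb'
  exact ⟨(mul_eq_zero.1 h.1).resolve_left hi, (mul_eq_zero.1 h.2).resolve_left hi⟩

lemma slp_rep (b : Fin 12) (ε : Fin 2) (y : ℂ × ℂ) :
    ∃ k : ℂ, k ≠ 0 ∧ (slp b ε y b).rep = k • mm ε y := by
  unfold slp
  rw [if_pos rfl]
  obtain ⟨k, hk, h⟩ := mk1_rep (vec_ne (mm_ne ε y))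
  refine ⟨k, hk, ?_⟩
  rw [h]
  congr 1
  funext j
  fin_cases j <;> rfl

lemma slp_rep' (b : Fin 12) (ε : Fin 2) (y : ℂ × ℂ) (hy : y ∈ Tgt b ε)
    (b' : Fin 12) (hb' : b' ≠ b) :
    ∃ k : ℂ, k ≠ 0 ∧ (slp b ε y b').rep = k • ![w1 b' (zz b ε y), w2 b' (zz b ε y)] := by
  unfold slp
  rw [if_neg hb']
  exact mk1_rep (vec_ne (hy b' hb'))

lemma ptS_mem (h1 : SpecLin) (b : Fin 12) (ε : Fin 2) (y : ℂ × ℂ) : ptS b ε y ∈ Vset := by
  intro b'
  obtain ⟨a, ha, hz⟩ := mk2_rep (zz_ne h1 b ε y)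
  change w1 b' (mk2 (zz b ε y)).rep * (slp b ε y b').rep 1
    = w2 b' (mk2 (zz b ε y)).rep * (slp b ε y b').rep 0
  rw [hz, w1_smul, w2_smul]
  by_cases hb : b' = b
  · subst hb
    obtain ⟨k, hk, hs⟩ := slp_rep b' ε y
    rw [hs]
    have := w_mm h1 b' ε y
    simp only [Pi.smul_apply, smul_eq_mul]
    linear_combination (a * k) * this
  · by_cases h0 : w1 b' (zz b ε y) = 0 ∧ w2 b' (zz b ε y) = 0
    · rw [h0.1, h0.2]
      simp
    · have hs : ∃ k : ℂ, k ≠ 0 ∧
          (slp b ε y b').rep = k • ![w1 b' (zz b ε y), w2 b' (zz b ε y)] := by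
        unfold slp
        rw [if_neg hb]
        exact mk1_rep (vec_ne h0)
      obtain ⟨k, hk, hs⟩ := hs
      rw [hs]
      simp only [Pi.smul_apply, smul_eq_mul, Matrix.cons_val_zero, Matrix.cons_val_one]
      ring

lemma ptS_src (h1 : SpecLin) (b : Fin 12) (ε : Fin 2) (y : ℂ × ℂ) (hy : y ∈ Tgt b ε) :
    (⟨ptS b ε y, ptS_mem h1 b ε y⟩ : V) ∈ Src b ε := by
  obtain ⟨a, ha, hz⟩ := mk2_rep (zz_ne h1 b ε y)
  refine ⟨?_, ?_, ?_⟩
  · change w0 b (mk2 (zz b ε y)).rep ≠ 0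
    rw [hz, w0_smul, w0_zz h1, mul_one]
    exact ha
  · change (slp b ε y b).rep ε ≠ 0
    obtain ⟨k, hk, hs⟩ := slp_rep b ε y
    rw [hs, Pi.smul_apply, smul_eq_mul]
    apply mul_ne_zero hk
    fin_cases ε <;> simp [mm]
  · intro b' hb'
    change ¬ (w1 b' (mk2 (zz b ε y)).rep = 0 ∧ w2 b' (mk2 (zz b ε y)).rep = 0)
    rw [hz, w1_smul, w2_smul]
    intro h
    exact hy b' hb' ⟨(mul_eq_zero.1 h.1).resolve_left ha, (mul_eq_zero.1 h.2).resolve_left ha⟩

lemma co_ptS (h1 : SpecLin) (b : Fin 12) (ε : Fin 2) (y : ℂ × ℂ) (hy : y ∈ Tgt b ε) :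
    co b ε ⟨ptS b ε y, ptS_mem h1 b ε y⟩ = y := by
  obtain ⟨a, ha, hz⟩ := mk2_rep (zz_ne h1 b ε y)
  obtain ⟨k, hk, hs⟩ := slp_rep b ε y
  have hw0 := w0_zz h1 b ε y
  obtain ⟨-, -, -, -, h, -⟩ := h1
  obtain ⟨-, h2, h3, -, h5, h6⟩ := h b y
  fin_cases ε
  · change (w1 b (mk2 (zz b 0 y)).rep / w0 b (mk2 (zz b 0 y)).rep,
      (slp b 0 y b).rep 1 / (slp b 0 y b).rep 0) = y
    change (mk2 (zz b 0 y)).rep = a • zz b 0 y at hz
    change (slp b 0 y b).rep = k • mm 0 y at hs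
    change w0 b (zz b 0 y) = 1 at hw0
    rw [hz, hs, w1_smul, w0_smul, hw0, h2]
    ext
    · simp [ha]
    · simp [mm, hk]
  · change (w2 b (mk2 (zz b 1 y)).rep / w0 b (mk2 (zz b 1 y)).rep,
      (slp b 1 y b).rep 0 / (slp b 1 y b).rep 1) = y
    change (mk2 (zz b 1 y)).rep = a • zz b 1 y at hz
    change (slp b 1 y b).rep = k • mm 1 y at hs
    change w0 b (zz b 1 y) = 1 at hw0
    rw [hz, hs, w2_smul, w0_smul, hw0, h6]
    ext
    · simp [ha]
    · simp [mm, hk]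

lemma ptS_co (h1 : SpecLin) (b : Fin 12) (ε : Fin 2) (q : V) (hq : q ∈ Src b ε) :
    ptS b ε (co b ε q) = q.1 := by
  have hzz := zz_co h1 b ε q hq
  have hco := co_mem h1 b ε q hq
  have hi : (w0 b q.1.1.rep)⁻¹ ≠ 0 := inv_ne_zero hq.1
  refine Prod.ext ?_ ?_
  · change mk2 (zz b ε (co b ε q)) = q.1.1
    rw [hzz]
    exact mk2_smul _ hi
  · funext b'
    change slp b ε (co b ε q) b' = q.1.2 b'
    unfold slp
    by_cases hb : b' = b
    · rw [if_pos hb, hb]
      apply mk1_eq _ (mm_ne _ _)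
      have hm := hq.2.1
      fin_cases ε
      · change (q.1.2 b).rep 0 ≠ 0 at hm
        simp only [mm, co]
        simp
        field_simp
      · change (q.1.2 b).rep 1 ≠ 0 at hm
        simp only [mm, co]
        simp
        field_simp
    · rw [if_neg hb]
      apply mk1_eq _ (hco b' hb)
      rw [hzz, w1_smul, w2_smul]
      have := q.2 b'
      have h2 : w1 b' q.1.1.rep * (q.1.2 b').rep 1 = w2 b' q.1.1.rep * (q.1.2 b').rep 0 := this
      linear_combination (w0 b q.1.1.rep)⁻¹ * h2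

/-! ### topology -/

lemma src_open (b : Fin 12) (ε : Fin 2) : IsOpen (Src b ε) := by
  have c1 : Continuous (fun q : V => q.1.1) := continuous_fst.comp continuous_subtype_val
  have c2 : ∀ b' : Fin 12, Continuous (fun q : V => q.1.2 b') := fun b' =>
    (continuous_apply b').comp (continuous_snd.comp continuous_subtype_val)
  have o1 : IsOpen {q : V | w0 b q.1.1.rep ≠ 0} :=
    (isOpen_ne (w0 b) (w0_cont b) (w0_smul b)).preimage c1
  have o2 : IsOpen {q : V | (q.1.2 b).rep ε ≠ 0} :=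
    (isOpen_ne (fun v : Fin 2 → ℂ => v ε) (continuous_apply ε) (fun a v => rfl)).preimage (c2 b)
  have o3 : ∀ b' : Fin 12, IsOpen {q : V | b' ≠ b →
      ¬ (w1 b' q.1.1.rep = 0 ∧ w2 b' q.1.1.rep = 0)} := by
    intro b'
    by_cases hb : b' = b
    · have : {q : V | b' ≠ b → ¬ (w1 b' q.1.1.rep = 0 ∧ w2 b' q.1.1.rep = 0)} = Set.univ := by
        ext q
        simp [hb]
      rw [this]
      exact isOpen_univ
    · have : {q : V | b' ≠ b → ¬ (w1 b' q.1.1.rep = 0 ∧ w2 b' q.1.1.rep = 0)}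
          = {q : V | w1 b' q.1.1.rep ≠ 0} ∪ {q : V | w2 b' q.1.1.rep ≠ 0} := by
        ext q
        simp only [Set.mem_ofPred_eq, Set.mem_union]
        tauto
      rw [this]
      exact ((isOpen_ne (w1 b') (w1_cont b') (w1_smul b')).preimage c1).union
        ((isOpen_ne (w2 b') (w2_cont b') (w2_smul b')).preimage c1)
  have : Src b ε = {q : V | w0 b q.1.1.rep ≠ 0} ∩ ({q : V | (q.1.2 b).rep ε ≠ 0} ∩
      ⋂ b' : Fin 12, {q : V | b' ≠ b → ¬ (w1 b' q.1.1.rep = 0 ∧ w2 b' q.1.1.rep = 0)}) := by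
    ext q
    simp only [Src, Set.mem_ofPred_eq, Set.mem_inter_iff, Set.mem_iInter]
  rw [this]
  exact o1.inter (o2.inter (isOpen_iInter_of_finite o3))

lemma tgt_open (b : Fin 12) (ε : Fin 2) : IsOpen (Tgt b ε) := by
  have o3 : ∀ b' : Fin 12, IsOpen {y : ℂ × ℂ | b' ≠ b →
      ¬ (w1 b' (zz b ε y) = 0 ∧ w2 b' (zz b ε y) = 0)} := by
    intro b'
    by_cases hb : b' = b
    · have : {y : ℂ × ℂ | b' ≠ b → ¬ (w1 b' (zz b ε y) = 0 ∧ w2 b' (zz b ε y) = 0)}
          = Set.univ := by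
        ext q
        simp [hb]
      rw [this]
      exact isOpen_univ
    · have : {y : ℂ × ℂ | b' ≠ b → ¬ (w1 b' (zz b ε y) = 0 ∧ w2 b' (zz b ε y) = 0)}
          = {y : ℂ × ℂ | w1 b' (zz b ε y) ≠ 0} ∪ {y : ℂ × ℂ | w2 b' (zz b ε y) ≠ 0} := by
        ext q
        simp only [Set.mem_ofPred_eq, Set.mem_union]
        tauto
      rw [this]
      exact (isOpen_ne_fun ((w1_cont b').comp (zz_cont b ε)) continuous_const).union
        (isOpen_ne_fun ((w2_cont b').comp (zz_cont b ε)) continuous_const)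
  have : Tgt b ε = ⋂ b' : Fin 12, {y : ℂ × ℂ | b' ≠ b →
      ¬ (w1 b' (zz b ε y) = 0 ∧ w2 b' (zz b ε y) = 0)} := by
    ext y
    simp only [Tgt, Set.mem_ofPred_eq, Set.mem_iInter]
  rw [this]
  exact isOpen_iInter_of_finite o3

lemma co_cont (b : Fin 12) (ε : Fin 2) : ContinuousOn (co b ε) (Src b ε) := by
  have c1 : Continuous (fun q : V => q.1.1) := continuous_fst.comp continuous_subtype_val
  have c2 : Continuous (fun q : V => q.1.2 b) :=
    (continuous_apply b).comp (continuous_snd.comp continuous_subtype_val)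
  have d1 := (contOn_div (w1 b) (w0 b) (w1_cont b) (w0_cont b) (w1_smul b) (w0_smul b)).comp
    c1.continuousOn (s := Src b ε) (fun q hq => hq.1)
  have d2 := (contOn_div (w2 b) (w0 b) (w2_cont b) (w0_cont b) (w2_smul b) (w0_smul b)).comp
    c1.continuousOn (s := Src b ε) (fun q hq => hq.1)
  unfold co
  fin_cases ε
  · have d3 := (contOn_div (fun v : Fin 2 → ℂ => v 1) (fun v : Fin 2 → ℂ => v 0)
      (continuous_apply 1) (continuous_apply 0) (fun a v => rfl) (fun a v => rfl)).comp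
      c2.continuousOn (s := Src b 0) (fun q hq => hq.2.1)
    exact d1.prodMk d3
  · have d3 := (contOn_div (fun v : Fin 2 → ℂ => v 0) (fun v : Fin 2 → ℂ => v 1)
      (continuous_apply 0) (continuous_apply 1) (fun a v => rfl) (fun a v => rfl)).comp
      c2.continuousOn (s := Src b 1) (fun q hq => hq.2.1)
    exact d2.prodMk d3

lemma mk2_cont : ContinuousOn mk2 {z | z ≠ 0} := by
  rw [continuousOn_iff_continuous_domRestrict]
  have : (Set.domRestrict {z | z ≠ 0} mk2) = fun z : {z : Fin 3 → ℂ // z ≠ 0} => prj 3 z := by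
    funext z
    exact mk2_of_ne z.2
  rw [this]
  exact (quot 3).continuous

lemma mk1_contAt {X : Type} [TopologicalSpace X] {s : Set X} {f g : X → ℂ}
    (hf : ContinuousOn f s) (hg : ContinuousOn g s) (h : ∀ x ∈ s, ¬ (f x = 0 ∧ g x = 0)) :
    ContinuousOn (fun x => mk1 (f x) (g x)) s := by
  rw [continuousOn_iff_continuous_domRestrict]
  have hv : ∀ x : s, (![f x, g x] : Fin 2 → ℂ) ≠ 0 := fun x => vec_ne (h x.1 x.2)
  have : (Set.domRestrict s (fun x => mk1 (f x) (g x)))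
      = fun x : s => prj 2 ⟨![f x, g x], hv x⟩ := by
    funext x
    exact mk1_of_ne (hv x)
  rw [this]
  refine (quot 2).continuous.comp (Continuous.subtype_mk ?_ _)
  apply continuous_pi
  intro j
  fin_cases j
  · exact continuousOn_iff_continuous_domRestrict.1 hf
  · exact continuousOn_iff_continuous_domRestrict.1 hg

lemma ptS_cont (h1 : SpecLin) (b : Fin 12) (ε : Fin 2) : ContinuousOn (ptS b ε) (Tgt b ε) := by
  unfold ptS
  apply ContinuousOn.prodMk
  · exact mk2_cont.comp (zz_cont b ε).continuousOn (fun y _ => zz_ne h1 b ε y)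
  · rw [continuousOn_pi]
    intro b'
    unfold slp
    by_cases hb : b' = b
    · simp only [if_pos hb]
      exact mk1_contAt (mm_cont ε 0).continuousOn (mm_cont ε 1).continuousOn
        (fun y _ => mm_ne ε y)
    · simp only [if_neg hb]
      exact mk1_contAt ((w1_cont b').comp (zz_cont b ε)).continuousOn
        ((w2_cont b').comp (zz_cont b ε)).continuousOn (fun y hy => hy b' hb)

/-- the chart `(b, ε)` -/
noncomputable def cht (h1 : SpecLin) (b : Fin 12) (ε : Fin 2) : Cht V where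
  toFun := co b ε
  invFun := fun y => ⟨ptS b ε y, ptS_mem h1 b ε y⟩
  source := Src b ε
  target := Tgt b ε
  map_source' := fun q hq => co_mem h1 b ε q hq
  map_target' := fun y hy => ptS_src h1 b ε y hy
  left_inv' := fun q hq => Subtype.ext (ptS_co h1 b ε q hq)
  right_inv' := fun y hy => co_ptS h1 b ε y hy
  open_source := src_open b ε
  open_target := tgt_open b ε
  continuousOn_toFun := co_cont b ε
  continuousOn_invFun := by
    rw [continuousOn_iff_continuous_domRestrict]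
    exact Continuous.subtype_mk (continuousOn_iff_continuous_domRestrict.1 (ptS_cont h1 b ε)) _

/-- the atlas -/
noncomputable def charts (h1 : SpecLin) : Charts where
  ch := cht h1
  source := fun _ _ => rfl
  target := fun _ _ => rfl
  coe := fun _ _ _ _ => rfl
  symm := fun _ _ _ _ => rfl

end VCHM

theorem specCharts (h1 : SpecLin) : SpecCharts := ⟨VCHM.charts h1⟩

end Pool.Agent.MP_8f595d_ag
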