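import Pool.Agent.Lib.MP_8f595d_ag.TSpec
import Pool.Agent.Lib.MP_8f595d_ag.VCH

/-!
# Module TPC: the complement of the eight lines is path connected
-/

set_option autoImplicit false

open scoped Topology LinearAlgebra.Projectivization

open Pool.Agent.SH (pt1 PTube H)

namespace Pool.Agent.MP_8f595d_ag.TPCM

open Pool.Agent.SH

lemma mk1_smul {x : ℂ} (hx : x ≠ 0) (a : ℂ) : mk1 x (a * x) = pt1 a := by
  have h : (![x, a * x] : Fin 2 → ℂ) ≠ 0 := by
    intro h; have := congrFun h 0; simp at this; exact hx this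
  rw [mk1, dif_pos h, pt1, Projectivization.mk_eq_mk_iff']
  refine ⟨x, ?_⟩
  funext k
  fin_cases k
  · simp
  · simp [mul_comm]

/-- The defining function of the line `j`. -/
noncomputable def vl (j : Fin 8) (p : ℂ × ℂ) : ℂ := p.2 - ((la j).1 * p.1 + (la j).2)

/-- The point `p + t w`. -/
def pl (p w : ℂ × ℂ) (t : ℂ) : ℂ × ℂ := (p.1 + t * w.1, p.2 + t * w.2)

lemma pl_cont (p w : ℂ × ℂ) : Continuous (pl p w) := by
  unfold pl
  fun_prop

lemma fin_zero (j : Fin 8) (p w : ℂ × ℂ) (h : vl j p ≠ 0) :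
    {t : ℂ | vl j (pl p w t) = 0}.Finite := by
  apply Set.Subsingleton.finite
  intro t ht t' ht'
  simp only [vl, pl, Set.mem_ofPred_eq] at ht ht' h
  by_contra hne
  have h1 : (t - t') * (w.2 - (la j).1 * w.1) = 0 := by linear_combination ht - ht'
  have h2 : w.2 - (la j).1 * w.1 = 0 := (mul_eq_zero.mp h1).resolve_left (sub_ne_zero.mpr hne)
  apply h
  linear_combination ht - t * h2

lemma compl_pc {F : Set ℂ} (hF : F.Finite) : IsPathConnected Fᶜ :=
  hF.countable.isPathConnected_compl_of_one_lt_rank (by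
    rw [Complex.rank_real_complex]; exact Cardinal.one_lt_two)

lemma joined {F : Set ℂ} (hF : F.Finite) {g : ℂ → Bl Pt} (hg : ContinuousOn g Fᶜ)
    (hX : ∀ t ∈ Fᶜ, g t ∈ Xp) {t₀ t₁ : ℂ} (h0 : t₀ ∈ Fᶜ) (h1 : t₁ ∈ Fᶜ) :
    JoinedIn Xp (g t₀) (g t₁) := by
  have h := (compl_pc hF).image' hg
  have h2 := h.joinedIn (g t₀) ⟨t₀, h0, rfl⟩ (g t₁) ⟨t₁, h1, rfl⟩
  exact h2.mono (by rintro _ ⟨t, ht, rfl⟩; exact hX t ht)

/-- The section off the eight points. -/
noncomputable def sec (p : ℂ × ℂ) : Bl Pt :=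
  ⟨(p, fun i => mk1 (p.1 - (Pt i).1) (p.2 - (Pt i).2)), fun _ => mk1_eq _ _⟩

lemma exists_line (i : Fin 8) : ∃ j, i ∈ inl j := by revert i; decide

lemma exists_line' (i i' : Fin 8) (h : i' ≠ i) : ∃ j, i' ∈ inl j ∧ i ∉ inl j := by
  revert i i'; decide

lemma on_iff (hL : SpecLines) (i j : Fin 8) : vl j (Pt i) = 0 ↔ i ∈ inl j := by
  rw [vl, sub_eq_zero]
  exact hL.2.2.1 i j

lemma ne_zero_of {p : ℂ × ℂ} {i : Fin 8} (h : p ≠ Pt i) :
    ¬ (p.1 - (Pt i).1 = 0 ∧ p.2 - (Pt i).2 = 0) := by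
  rintro ⟨h1, h2⟩
  exact h (Prod.ext (sub_eq_zero.mp h1) (sub_eq_zero.mp h2))

lemma sec_mem {p : ℂ × ℂ} (h : ∀ j, vl j p ≠ 0) : sec p ∈ Xp := by
  refine ⟨Set.mem_univ _, fun h1 => ?_⟩
  obtain ⟨j, hj⟩ := Set.mem_iUnion.mp h1
  exact h j (sub_eq_zero.mpr hj.1)

lemma joined_sec (hL : SpecLines) {p p' : ℂ × ℂ} (h : ∀ j, vl j p ≠ 0) (h' : ∀ j, vl j p' ≠ 0) :
    JoinedIn Xp (sec p) (sec p') := by
  set w : ℂ × ℂ := (p'.1 - p.1, p'.2 - p.2) with hw
  have hF : {t : ℂ | ∃ j, vl j (pl p w t) = 0}.Finite := by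
    have : {t : ℂ | ∃ j, vl j (pl p w t) = 0} = ⋃ j, {t : ℂ | vl j (pl p w t) = 0} := by
      ext t; simp
    rw [this]
    exact Set.finite_iUnion fun j => fin_zero j p w (h j)
  have h0 : pl p w 0 = p := by simp [pl]
  have h1 : pl p w 1 = p' := by simp [pl, hw]
  have hn : ∀ t ∈ {t : ℂ | ∃ j, vl j (pl p w t) = 0}ᶜ, ∀ i, pl p w t ≠ Pt i := by
    intro t ht i hi
    obtain ⟨j, hj⟩ := exists_line i
    exact ht ⟨j, by rw [hi]; exact (on_iff hL i j).mpr hj⟩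
  have hj := joined (g := fun t => sec (pl p w t)) hF (by
    rw [Topology.IsInducing.subtypeVal.continuousOn_iff]
    refine ContinuousOn.prodMk (pl_cont p w).continuousOn ?_
    rw [continuousOn_pi]
    intro i
    refine VCHM.mk1_contAt ?_ ?_ fun t ht => ne_zero_of (hn t ht i)
    · exact ((continuous_fst.comp (pl_cont p w)).sub continuous_const).continuousOn
    · exact ((continuous_snd.comp (pl_cont p w)).sub continuous_const).continuousOn)
    (fun t ht => sec_mem fun j hj => ht ⟨j, hj⟩) (t₀ := 0) (t₁ := 1)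
    (by rintro ⟨j, hj⟩; rw [h0] at hj; exact h j hj)
    (by rintro ⟨j, hj⟩; rw [h1] at hj; exact h' j hj)
  simp only [h0, h1] at hj
  exact hj

lemma slope_eq (q : Bl Pt) (i : Fin 8) (h : q.1.1 ≠ Pt i) :
    q.1.2 i = mk1 (q.1.1.1 - (Pt i).1) (q.1.1.2 - (Pt i).2) :=
  (VCHM.mk1_eq (q.1.2 i) (ne_zero_of h) (q.2 i)).symm

lemma slope_line {q : Bl Pt} {i j : Fin 8} (h : q.1.1 ≠ Pt i)
    (hq : q.1.1.2 = (la j).1 * q.1.1.1 + (la j).2) (hi : (Pt i).2 = (la j).1 * (Pt i).1 + (la j).2) :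
    q.1.2 i = pt1 (la j).1 := by
  rw [slope_eq q i h]
  have h1 : q.1.1.1 - (Pt i).1 ≠ 0 := by
    intro h1
    apply h
    refine Prod.ext (sub_eq_zero.mp h1) ?_
    rw [hq, hi, sub_eq_zero.mp h1]
  rw [← mk1_smul h1]
  congr 1
  rw [hq, hi]; ring

lemma mem_sec {q : Bl Pt} (hq : q ∈ Xp) (h : ∀ i, q.1.1 ≠ Pt i) :
    q = sec q.1.1 ∧ ∀ j, vl j q.1.1 ≠ 0 := by
  constructor
  · apply Subtype.ext
    refine Prod.ext rfl ?_
    funext i
    exact slope_eq q i (h i)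
  · intro j hj
    rw [vl, sub_eq_zero] at hj
    exact hq.2 (Set.mem_iUnion.mpr ⟨j, hj, fun i hi => slope_line (h i) hj hi⟩)

open Classical in
/-- The line through `Pt i` with slope `m`, lifted to the blow-up. -/
noncomputable def lft (i : Fin 8) (m : P1) (t : ℂ) : Bl Pt :=
  ⟨(pl (Pt i) (m.rep 0, m.rep 1) t, fun i' => if i' = i then m else
    mk1 ((pl (Pt i) (m.rep 0, m.rep 1) t).1 - (Pt i').1)
      ((pl (Pt i) (m.rep 0, m.rep 1) t).2 - (Pt i').2)), by
    intro i'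
    show ((pl (Pt i) (m.rep 0, m.rep 1) t).1 - (Pt i').1) * (if i' = i then m else
      mk1 ((pl (Pt i) (m.rep 0, m.rep 1) t).1 - (Pt i').1)
        ((pl (Pt i) (m.rep 0, m.rep 1) t).2 - (Pt i').2)).rep 1 =
      ((pl (Pt i) (m.rep 0, m.rep 1) t).2 - (Pt i').2) * (if i' = i then m else
      mk1 ((pl (Pt i) (m.rep 0, m.rep 1) t).1 - (Pt i').1)
        ((pl (Pt i) (m.rep 0, m.rep 1) t).2 - (Pt i').2)).rep 0
    by_cases h : i' = i
    · subst h
      rw [if_pos rfl]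
      simp only [pl]
      ring
    · rw [if_neg h]
      exact mk1_eq _ _⟩

lemma joined_exc (hL : SpecLines) {q : Bl Pt} (hq : q ∈ Xp) {i : Fin 8} (h : q.1.1 = Pt i) :
    ∃ p : ℂ × ℂ, (∀ j, vl j p ≠ 0) ∧ JoinedIn Xp q (sec p) := by
  classical
  set m := q.1.2 i with hm
  -- the slope is different from the slopes of the lines
  have hslope : ∀ j, i ∈ inl j → m ≠ pt1 (la j).1 := by
    intro j hj hmj
    have h1 : q.1.1.2 = (la j).1 * q.1.1.1 + (la j).2 := by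
      rw [h]; exact (hL.2.2.1 i j).mpr hj
    refine hq.2 (Set.mem_iUnion.mpr ⟨j, h1, fun i' hi' => ?_⟩)
    by_cases hi : i' = i
    · rw [hi]; exact hmj
    · exact slope_line (by rw [h]; exact fun h2 => hi (hL.1 h2).symm) h1 hi'
  have hw : ∀ j, i ∈ inl j → m.rep 1 - (la j).1 * m.rep 0 ≠ 0 := by
    intro j hj h1
    apply hslope j hj
    have h2 : ¬ ((1 : ℂ) = 0 ∧ (la j).1 = 0) := fun h => one_ne_zero h.1
    have h3 := VCHM.mk1_eq m h2 (by linear_combination h1)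
    rw [← h3]
    have h4 := mk1_smul (x := 1) one_ne_zero (la j).1
    rwa [mul_one] at h4
  set w : ℂ × ℂ := (m.rep 0, m.rep 1) with hwdef
  have h0 : pl (Pt i) w 0 = Pt i := by simp [pl]
  have hvt : ∀ j, i ∈ inl j → ∀ t, vl j (pl (Pt i) w t) = t * (m.rep 1 - (la j).1 * m.rep 0) := by
    intro j hj t
    have h1 := (on_iff hL i j).mpr hj
    simp only [vl, pl, hwdef] at h1 ⊢
    linear_combination h1
  set F : Set ℂ := {t : ℂ | ∃ j, i ∉ inl j ∧ vl j (pl (Pt i) w t) = 0} with hFdef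
  have hF : F.Finite := by
    have : F ⊆ ⋃ j : {j : Fin 8 // i ∉ inl j}, {t : ℂ | vl j.1 (pl (Pt i) w t) = 0} := by
      rintro t ⟨j, h1, h2⟩
      exact Set.mem_iUnion.mpr ⟨⟨j, h1⟩, h2⟩
    have h2 : ∀ j : {j : Fin 8 // i ∉ inl j}, {t : ℂ | vl j.1 (pl (Pt i) w t) = 0}.Finite :=
      fun j => fin_zero j.1 (Pt i) w (fun h1 => j.2 ((on_iff hL i j.1).mp h1))
    exact (Set.finite_iUnion h2).subset this
  have h0F : (0 : ℂ) ∈ Fᶜ := by
    rintro ⟨j, h1, h2⟩
    rw [h0] at h2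
    exact h1 ((on_iff hL i j).mp h2)
  have hn : ∀ t ∈ Fᶜ, ∀ i', i' ≠ i → pl (Pt i) w t ≠ Pt i' := by
    intro t ht i' hi' h1
    obtain ⟨j, hj, hj2⟩ := exists_line' i i' hi'
    exact ht ⟨j, hj2, by rw [h1]; exact (on_iff hL i' j).mpr hj⟩
  have hX : ∀ t ∈ Fᶜ, lft i m t ∈ Xp := by
    intro t ht
    refine ⟨Set.mem_univ _, fun h1 => ?_⟩
    obtain ⟨j, hj1, hj2⟩ := Set.mem_iUnion.mp h1
    by_cases hj : i ∈ inl j
    · have h2 := hj2 i ((hL.2.2.1 i j).mpr hj)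
      have h3 : (lft i m t).1.2 i = m := if_pos rfl
      rw [h3] at h2
      exact hslope j hj h2
    · exact ht ⟨j, hj, sub_eq_zero.mpr hj1⟩
  have hcont : ContinuousOn (lft i m) Fᶜ := by
    rw [Topology.IsInducing.subtypeVal.continuousOn_iff]
    refine ContinuousOn.prodMk (pl_cont _ _).continuousOn ?_
    rw [continuousOn_pi]
    intro i'
    by_cases hi : i' = i
    · simp only [if_pos hi]; exact continuousOn_const
    · simp only [if_neg hi]
      refine VCHM.mk1_contAt ?_ ?_ fun t ht => ne_zero_of (hn t ht i' hi)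
      · exact ((continuous_fst.comp (pl_cont _ _)).sub continuous_const).continuousOn
      · exact ((continuous_snd.comp (pl_cont _ _)).sub continuous_const).continuousOn
  obtain ⟨t₁, ht₁⟩ := (hF.union (Set.finite_singleton (0 : ℂ))).infinite_compl.nonempty
  rw [Set.mem_compl_iff, Set.mem_union, not_or] at ht₁
  have ht0 : t₁ ≠ 0 := fun h => ht₁.2 h
  have hoff : ∀ j, vl j (pl (Pt i) w t₁) ≠ 0 := by
    intro j
    by_cases hj : i ∈ inl j
    · rw [hvt j hj]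
      exact mul_ne_zero ht0 (hw j hj)
    · intro h1
      exact ht₁.1 ⟨j, hj, h1⟩
  refine ⟨pl (Pt i) w t₁, hoff, ?_⟩
  have hj := joined hF hcont hX h0F (show t₁ ∈ Fᶜ from ht₁.1)
  have e0 : lft i m 0 = q := by
    apply Subtype.ext
    refine Prod.ext (h0.trans h.symm) ?_
    funext i'
    show (if i' = i then m else mk1 ((pl (Pt i) w 0).1 - (Pt i').1)
      ((pl (Pt i) w 0).2 - (Pt i').2)) = q.1.2 i'
    by_cases hi : i' = i
    · rw [if_pos hi, hi]
    · rw [if_neg hi, h0, slope_eq q i' (by rw [h]; exact fun h2 => hi (hL.1 h2).symm), h]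
  have e1 : lft i m t₁ = sec (pl (Pt i) w t₁) := by
    apply Subtype.ext
    refine Prod.ext rfl ?_
    funext i'
    show (if i' = i then m else mk1 ((pl (Pt i) w t₁).1 - (Pt i').1)
      ((pl (Pt i) w t₁).2 - (Pt i').2)) = mk1 ((pl (Pt i) w t₁).1 - (Pt i').1)
      ((pl (Pt i) w t₁).2 - (Pt i').2)
    by_cases hi : i' = i
    · rw [if_pos hi, hi]
      refine (VCHM.mk1_eq m ?_ ?_).symm
      · rintro ⟨h1, h2⟩
        apply m.rep_nonzero
        funext k
        fin_cases k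
        · simpa [pl, hwdef, ht0] using h1
        · simpa [pl, hwdef, ht0] using h2
      · simp only [pl, hwdef]; ring
    · rw [if_neg hi]
  rw [e0, e1] at hj
  exact hj

lemma th_ne : th ≠ 0 := by
  rw [th]
  refine mul_ne_zero ?_ Complex.I_ne_zero
  rw [Complex.ofReal_ne_zero]
  positivity

theorem main (hL : SpecLines) : SpecPC := by
  have h0 : ∀ j, vl j (0, 0) ≠ 0 := by
    intro j
    have := th_ne
    fin_cases j <;> simp [vl, la] <;> exact this
  rw [SpecPC, ← isPathConnected_iff_pathConnectedSpace]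
  refine ⟨sec (0, 0), sec_mem h0, fun {q} hq => ?_⟩
  by_cases h : ∃ i, q.1.1 = Pt i
  · obtain ⟨i, hi⟩ := h
    obtain ⟨p, hp, hj⟩ := joined_exc hL hq hi
    exact (joined_sec hL h0 hp).trans hj.symm
  · rw [not_exists] at h
    obtain ⟨h1, h2⟩ := mem_sec hq h
    rw [h1]
    exact joined_sec hL h0 h2

end Pool.Agent.MP_8f595d_ag.TPCM

namespace Pool.Agent.MP_8f595d_ag

/-- Module TPC. -/
theorem specPC (hL : SpecLines) : SpecPC := TPCM.main hL

end Pool.Agent.MP_8f595d_ag
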