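import Pool.Agent.Lib.MP_8f595d_ag.TDefs

/-!
# Acyclicity of the complement: specifications of the modules (stage 3)
-/

set_option autoImplicit false

open scoped Topology LinearAlgebra.Projectivization

open Pool.Agent.SH (pt1 PTube H)

namespace Pool.Agent.MP_8f595d_ag

/-! ## Module TUB: tubes around strict transforms of lines -/

def SpecTub : Prop :=
  ∀ (n : ℕ) (P : Fin n → ℂ × ℂ), Function.Injective P → ∀ l : ℂ × ℂ,
    PTube (V := Bl P) (T := ℂ) Set.univ (Ls P l) (OmL P l) (lineMap P l) ∧ IsClosed (Ls P l)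

/-! ## Module TEX: tubes around the (punctured) exceptional curves -/

def SpecTex : Prop :=
  ∀ (n : ℕ) (P : Fin n → ℂ × ℂ), Function.Injective P → ∀ i : Fin n,
    PTube (V := Bl P) (T := ℂ) Set.univ (Eo P i) (OmE P i) (excMap P i) ∧ IsClosed (Es P i)

/-! ## Module TLI: the finite combinatorics of the eight lines -/

def SpecLines : Prop :=
  Function.Injective Pt ∧ Function.Injective la ∧
  (∀ i j : Fin 8, (Pt i).2 = (la j).1 * (Pt i).1 + (la j).2 ↔ i ∈ inl j) ∧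
  -- distinct lines through a common point have different slopes
  (∀ i j j' : Fin 8, j ≠ j' → i ∈ inl j → i ∈ inl j' → (la j).1 ≠ (la j').1) ∧
  -- the strict transforms are disjoint
  (∀ j j' : Fin 8, j ≠ j' → Disjoint (Ls Pt (la j)) (Ls Pt (la j'))) ∧
  (∀ j j' : Fin 4, j ≠ j' → Disjoint (Ls Pt (lf j)) (Ls Pt (lf j'))) ∧
  -- the points on the horizontal lines
  (∀ (i : Fin 8) (j : Fin 4), (Pt i).2 = (lf j).1 * (Pt i).1 + (lf j).2 ↔
    i ∈ (![{0}, {1}, {2, 3, 4}, {5, 6, 7}] : Fin 4 → Finset (Fin 8)) j) ∧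
  -- the incidence matrix is invertible over `ℚ`
  (∀ (M : Type) [AddCommGroup M] [Module ℚ M] (μ : Fin 8 → M),
    (∀ i : Fin 8, ∑ j ∈ Finset.univ.filter (fun j => i ∈ inl j), μ j = 0) → ∀ j, μ j = 0)

/-! ## Module TWP: `Wp` is homeomorphic to `ℂ²` -/

def SpecW : Prop := Nonempty (↥Wp ≃ₜ ℂ × ℂ)

/-! ## Module TYH: homology of the blow-up
(from SpecTub, SpecTex, SpecLines, SpecW, SH.SpecShrink, SH.SpecFam, SH.SpecHtpy) -/

def SpecY : Prop :=
  Subsingleton (H 1 ↥(Set.univ : Set (Bl Pt))) ∧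
  Module.Finite ℚ (H 2 ↥(Set.univ : Set (Bl Pt))) ∧
  Module.finrank ℚ (H 2 ↥(Set.univ : Set (Bl Pt))) ≤ 8 ∧
  ∀ k : ℕ, Subsingleton (H (k + 3) ↥(Set.univ : Set (Bl Pt)))

/-! ## Module TFT: the family of tubes around the eight lines, and the relations between the
meridians (from SpecTub, SpecLines, SH.SpecShrink, SH.SpecFam, SH.SpecHtpy, SH.SpecPants) -/

def SpecRel : Prop :=
  ∃ φ : Fin 8 → ℂ × ℂ → Bl Pt,
    Pool.Agent.SH.Tubes (V := Bl Pt) (T := ℂ) 8 Set.univ (fun j => Ls Pt (la j)) φ ∧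
    ∀ (hφ : ∀ j, Continuous (φ j)) (z : ℂ)
      (hs : ∀ (j : Fin 8) (s : Circle), φ j (z, (s : ℂ)) ∈ Xp), ∀ i : Fin 8,
      ∑ j ∈ Finset.univ.filter (fun j => i ∈ inl j),
        Pool.Agent.SH.loop (Pool.Agent.SH.merid Xp (φ j) (hφ j) z (hs j)) = 0

/-! ## Module TXH: rational homology of `Xp` (from SpecY, SpecRel, SpecLines, SH.SpecFam) -/

def SpecX : Prop := ∀ k : ℕ, Subsingleton (H (k + 1) ↥Xp)

/-! ## Module THO: `Xp` is homeomorphic to `V ∖ D` (from SpecLin) -/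

def SpecHomeo : Prop := Nonempty (↥Xp ≃ₜ ↥((⋃ i : Fin 13, Dset i)ᶜ : Set V))

/-! ## Module TPC: `Xp` is path connected (from SpecTub?, SpecLines) -/

def SpecPC : Prop := PathConnectedSpace ↥Xp

/-! ## Module TQA: conclusion (from SpecX, SpecHomeo, SpecPC, SH.SpecBridge, SH.SpecHtpy) -/

def SpecAcyc : Prop := IsQAcyclic ↥((⋃ i : Fin 13, Dset i)ᶜ : Set V)

end Pool.Agent.MP_8f595d_ag
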