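import Pool.Agent.Lib.MP_8f595d_ag.TUH

/-!
# Module TUB: tubes around strict transforms of lines
-/

set_option autoImplicit false

open scoped Topology LinearAlgebra.Projectivization

open Pool.Agent.SH (pt1 PTube H)

open Pool.Agent.SH.HptM

namespace Pool.Agent.MP_8f595d_ag

namespace TubM

section

variable {n : ℕ} {P : Fin n → ℂ × ℂ}

lemma lm2 (l p : ℂ × ℂ) {i : Fin n} (hi : i ∈ onl P l) :
    (lineMap P l p).1.2 i = pt1 (l.1 + p.2 * Qi P l i p.1) := if_pos hi

lemma lm3 (l p : ℂ × ℂ) {i : Fin n} (hi : i ∉ onl P l) :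
    (lineMap P l p).1.2 i = mk1 ((lp P l p).1 - (P i).1) ((lp P l p).2 - (P i).2) := if_neg hi

lemma OmL_open (l : ℂ × ℂ) : IsOpen (OmL P l) := by
  have : OmL P l = ⋂ i : Fin n, {p | i ∉ onl P l → lp P l p ≠ P i} := by
    ext p; simp [OmL]
  rw [this]
  apply isOpen_iInter_of_finite
  intro i
  by_cases hi : i ∈ onl P l
  · simp [hi]
  · have h2 : {p | i ∉ onl P l → lp P l p ≠ P i} = {p | lp P l p ≠ P i} := by
      ext p
      exact ⟨fun h => h hi, fun h _ => h⟩
    rw [h2]
    exact isOpen_ne_fun (lp_cont l) continuous_const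

lemma OmL_zero (l : ℂ × ℂ) (z : ℂ) : (z, (0 : ℂ)) ∈ OmL P l := by
  intro i hi h
  apply hi
  rw [mem_onl, ← h]
  show l.1 * z + l.2 + 0 * _ = l.1 * z + l.2
  ring

lemma lm_cont (l : ℂ × ℂ) : ContinuousOn (lineMap P l) (OmL P l) := by
  rw [Topology.IsInducing.subtypeVal.continuousOn_iff]
  refine ContinuousOn.prodMk (lp_cont l).continuousOn (continuousOn_pi.mpr fun i => ?_)
  by_cases hi : i ∈ onl P l
  · have h : (fun y => (lineMap P l y).1.2 i) = fun p => pt1 (l.1 + p.2 * Qi P l i p.1) := by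
      funext p; exact lm2 l p hi
    show ContinuousOn (fun y => (lineMap P l y).1.2 i) _
    rw [h]
    have h2 := Qi_cont (P := P) l i
    exact (pt1_cont.comp (by fun_prop)).continuousOn
  · have h : (fun y => (lineMap P l y).1.2 i) =
        fun p => mk1 ((lp P l p).1 - (P i).1) ((lp P l p).2 - (P i).2) := by
      funext p; exact lm3 l p hi
    show ContinuousOn (fun y => (lineMap P l y).1.2 i) _
    rw [h]
    have h2 := lp_cont (P := P) l
    apply VCHM.mk1_contAt
    · exact ((continuous_fst.comp h2).sub continuous_const).continuousOn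
    · exact ((continuous_snd.comp h2).sub continuous_const).continuousOn
    · rintro p hp ⟨h3, h4⟩
      exact hp i hi (Prod.ext (sub_eq_zero.mp h3) (sub_eq_zero.mp h4))

lemma lm_inj (hP : Function.Injective P) (l : ℂ × ℂ) : Set.InjOn (lineMap P l) (OmL P l) := by
  intro p _ p' _ h
  have h0 : lp P l p = lp P l p' := congrArg (fun q : Bl P => q.1.1) h
  have h1 : (lp P l p).1 = (lp P l p').1 := by rw [h0]
  have h2 : (lp P l p).2 = (lp P l p').2 := by rw [h0]
  change p.1 = p'.1 at h1
  change l.1 * p.1 + l.2 + p.2 * Qf P l p.1 = l.1 * p'.1 + l.2 + p'.2 * Qf P l p'.1 at h2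
  apply Prod.ext h1
  by_cases hq : Qf P l p.1 = 0
  · obtain ⟨i, hi, hx⟩ := exists_root hq
    have h3 : (lineMap P l p).1.2 i = (lineMap P l p').1.2 i := by rw [h]
    rw [lm2 l p hi, lm2 l p' hi] at h3
    have h4 := pt1_inj h3
    rw [← h1] at h4
    have h5 := Qi_ne hP hi
    rw [← hx] at h5
    have h6 : (p.2 - p'.2) * Qi P l i p.1 = 0 := by linear_combination h4
    rcases mul_eq_zero.mp h6 with h7 | h7
    · exact sub_eq_zero.mp h7
    · exact absurd h7 h5
  · rw [← h1] at h2
    have h6 : (p.2 - p'.2) * Qf P l p.1 = 0 := by linear_combination h2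
    rcases mul_eq_zero.mp h6 with h7 | h7
    · exact sub_eq_zero.mp h7
    · exact absurd h7 hq

lemma fst_cont : Continuous (fun q : Bl P => q.1.1) := by fun_prop

lemma slope_cont (i : Fin n) : Continuous (fun q : Bl P => q.1.2 i) := by fun_prop

lemma ev_ne (l : ℂ × ℂ) (p : ℂ × ℂ) (hp : p ∈ OmL P l) :
    ∀ᶠ q in 𝓝 (lineMap P l p), ∀ i ∉ onl P l, q.1.1 ≠ P i := by
  rw [Filter.eventually_all]
  intro i
  by_cases hi : i ∈ onl P l
  · exact Filter.Eventually.of_forall fun q h => absurd hi h
  · have h : ∀ᶠ q in 𝓝 (lineMap P l p), q.1.1 ≠ P i :=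
      (isOpen_ne_fun (fst_cont (P := P)) continuous_const).mem_nhds (hp i hi)
    filter_upwards [h] with q hq _
    exact hq

lemma lm_rinv (hP : Function.Injective P) (l : ℂ × ℂ) (p : ℂ × ℂ) (hp : p ∈ OmL P l) :
    ∃ g : Bl P → ℂ × ℂ, ContinuousAt g (lineMap P l p) ∧ g (lineMap P l p) = p ∧
      ∀ᶠ q in 𝓝 (lineMap P l p), lineMap P l (g q) = q := by
  have hQf := Qf_cont (P := P) l
  have hev := ev_ne l p hp
  by_cases hq : Qf P l p.1 = 0
  · obtain ⟨i, hi, hx⟩ := exists_root hq
    have hQi := Qi_cont (P := P) l i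
    have h5 := Qi_ne hP hi
    rw [← hx] at h5
    have hr := (pt1_rep (l.1 + p.2 * Qi P l i p.1))
    rw [← lm2 l p hi] at hr
    have hs : ContinuousAt (fun q : Bl P => (q.1.2 i).rep 1 / (q.1.2 i).rep 0)
        (lineMap P l p) := by
      have h1 : ContinuousAt (fun m : P1 => m.rep 1 / m.rep 0) ((lineMap P l p).1.2 i) :=
        sl_cont.continuousAt (rep0_open.mem_nhds hr.1)
      exact ContinuousAt.comp (f := fun q : Bl P => q.1.2 i) h1 (slope_cont i).continuousAt
    have hx' : ContinuousAt (fun q : Bl P => q.1.1.1) (lineMap P l p) :=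
      (Continuous.continuousAt (by fun_prop))
    refine ⟨fun q => (q.1.1.1, ((q.1.2 i).rep 1 / (q.1.2 i).rep 0 - l.1) / Qi P l i q.1.1.1),
      ?_, ?_, ?_⟩
    · refine ContinuousAt.prodMk hx' (ContinuousAt.div (hs.sub continuousAt_const) ?_ h5)
      exact ContinuousAt.comp (f := fun q : Bl P => q.1.1.1) hQi.continuousAt hx'
    · apply Prod.ext
      · rfl
      · show ((((lineMap P l p).1.2 i).rep 1 / ((lineMap P l p).1.2 i).rep 0) - l.1) /
          Qi P l i p.1 = p.2
        rw [hr.2]
        field_simp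
        ring
    · have e1 : ∀ᶠ q in 𝓝 (lineMap P l p), (q.1.2 i).rep 0 ≠ 0 :=
        (rep0_open.preimage (slope_cont i)).mem_nhds hr.1
      have e2 : ∀ᶠ q in 𝓝 (lineMap P l p), Qi P l i q.1.1.1 ≠ 0 :=
        (isOpen_ne_fun (hQi.comp (continuous_fst.comp (fst_cont (P := P))))
          continuous_const).mem_nhds h5
      filter_upwards [hev, e1, e2] with q q0 q1 q2
      have hrel := q.2 i
      have hy := mem_onl.mp hi
      have hs2 : (q.1.2 i).rep 1 = ((q.1.2 i).rep 1 / (q.1.2 i).rep 0) * (q.1.2 i).rep 0 := by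
        field_simp
      have hrel2 : (q.1.1.1 - (P i).1) * ((q.1.2 i).rep 1 / (q.1.2 i).rep 0) =
          q.1.1.2 - (P i).2 := by
        have h := hrel
        rw [hs2] at h
        exact mul_right_cancel₀ q1 (by linear_combination h)
      have h11 : (lineMap P l (q.1.1.1,
          ((q.1.2 i).rep 1 / (q.1.2 i).rep 0 - l.1) / Qi P l i q.1.1.1)).1.1 = q.1.1 := by
        apply Prod.ext
        · rfl
        · show l.1 * q.1.1.1 + l.2 + (((q.1.2 i).rep 1 / (q.1.2 i).rep 0 - l.1) /
            Qi P l i q.1.1.1) * Qf P l q.1.1.1 = q.1.1.2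
          rw [Qf_eq hi]
          generalize (q.1.2 i).rep 1 / (q.1.2 i).rep 0 = s at *
          generalize Qi P l i q.1.1.1 = Q at *
          have : (s - l.1) / Q * ((q.1.1.1 - (P i).1) * Q) = (s - l.1) * (q.1.1.1 - (P i).1) := by
            field_simp
          rw [this]
          linear_combination hrel2 - hy
      apply ext_of _ _ h11
      intro j hj
      rw [h11] at hj
      by_cases hjl : j ∈ onl P l
      · by_cases hji : j = i
        · subst hji
          rw [lm2 l _ hjl]
          show pt1 (l.1 + ((q.1.2 j).rep 1 / (q.1.2 j).rep 0 - l.1) / Qi P l j q.1.1.1 *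
            Qi P l j q.1.1.1) = _
          rw [div_mul_cancel₀ _ q2]
          rw [add_sub_cancel]
          exact eq_pt1 q1
        · exfalso
          apply q2
          rw [Qi]
          apply Finset.prod_eq_zero (i := j)
          · rw [Finset.mem_erase]; exact ⟨hji, hjl⟩
          · rw [hj, sub_self]
      · exact absurd hj (q0 j hjl)
  · have hx' : ContinuousAt (fun q : Bl P => q.1.1.1) (lineMap P l p) :=
      (Continuous.continuousAt (by fun_prop))
    have hy' : ContinuousAt (fun q : Bl P => q.1.1.2) (lineMap P l p) :=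
      (Continuous.continuousAt (by fun_prop))
    refine ⟨fun q => (q.1.1.1, (q.1.1.2 - l.1 * q.1.1.1 - l.2) / Qf P l q.1.1.1), ?_, ?_, ?_⟩
    · refine ContinuousAt.prodMk hx' (ContinuousAt.div
        ((hy'.sub (continuousAt_const.mul hx')).sub continuousAt_const) ?_ hq)
      exact ContinuousAt.comp (f := fun q : Bl P => q.1.1.1) hQf.continuousAt hx'
    · apply Prod.ext
      · rfl
      · show (l.1 * p.1 + l.2 + p.2 * Qf P l p.1 - l.1 * p.1 - l.2) / Qf P l p.1 = p.2
        field_simp
        ring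
    · have e2 : ∀ᶠ q in 𝓝 (lineMap P l p), Qf P l q.1.1.1 ≠ 0 :=
        (isOpen_ne_fun (hQf.comp (continuous_fst.comp (fst_cont (P := P))))
          continuous_const).mem_nhds hq
      filter_upwards [hev, e2] with q q0 q2
      have h11 : (lineMap P l (q.1.1.1,
          (q.1.1.2 - l.1 * q.1.1.1 - l.2) / Qf P l q.1.1.1)).1.1 = q.1.1 := by
        apply Prod.ext
        · rfl
        · show l.1 * q.1.1.1 + l.2 + (q.1.1.2 - l.1 * q.1.1.1 - l.2) / Qf P l q.1.1.1 *
            Qf P l q.1.1.1 = q.1.1.2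
          rw [div_mul_cancel₀ _ q2]
          ring
      apply ext_of _ _ h11
      intro j hj
      rw [h11] at hj
      by_cases hjl : j ∈ onl P l
      · exfalso
        apply q2
        rw [Qf]
        apply Finset.prod_eq_zero (i := j) hjl
        rw [hj, sub_self]
      · exact absurd hj (q0 j hjl)

lemma lm_line (l : ℂ × ℂ) (z : ℂ) : lineMap P l (z, 0) ∈ Ls P l := by
  refine ⟨?_, ?_⟩
  · show l.1 * z + l.2 + 0 * _ = l.1 * z + l.2
    ring
  · intro i hi
    rw [lm2 l _ (mem_onl.mpr hi)]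
    congr 1
    show l.1 + 0 * _ = l.1
    ring

end

end TubM

open TubM

theorem specTub : SpecTub := by
  intro n P hP l
  refine ⟨⟨OmL_open l, OmL_zero l, openEmb _ _ (OmL_open l) (lm_cont l) (lm_inj hP l)
    (lm_rinv hP l), Set.subset_univ _, ?_, ?_⟩, ?_⟩
  · intro q hq
    refine ⟨(q.1.1.1, 0), OmL_zero l _, ?_⟩
    have h11 : (lineMap P l (q.1.1.1, 0)).1.1 = q.1.1 := by
      apply Prod.ext
      · rfl
      · show l.1 * q.1.1.1 + l.2 + 0 * _ = q.1.1.2
        rw [hq.1]; ring
    apply ext_of _ _ h11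
    intro i hi
    rw [h11] at hi
    have h2 : (P i).2 = l.1 * (P i).1 + l.2 := by rw [← hi]; exact hq.1
    rw [hq.2 i h2]
    exact (lm_line (P := P) l q.1.1.1).2 i h2
  · intro p hp
    constructor
    · rintro ⟨h1, h2⟩
      have h1' : l.1 * p.1 + l.2 + p.2 * Qf P l p.1 = l.1 * p.1 + l.2 := h1
      have h3 : p.2 * Qf P l p.1 = 0 := by linear_combination h1'
      rcases mul_eq_zero.mp h3 with h4 | h4
      · exact h4
      · obtain ⟨i, hi, hx⟩ := exists_root h4
        have h5 := h2 i (mem_onl.mp hi)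
        rw [lm2 l p hi] at h5
        have h6 := pt1_inj h5
        have h7 : p.2 * Qi P l i p.1 = 0 := by linear_combination h6
        rcases mul_eq_zero.mp h7 with h8 | h8
        · exact h8
        · rw [hx] at h8
          exact absurd h8 (Qi_ne hP hi)
    · intro h
      have : p = (p.1, 0) := Prod.ext rfl h
      rw [this]
      exact lm_line l p.1
  · have : T2Space P1 := t2 2
    have hLs : Ls P l = {q : Bl P | q.1.1.2 = l.1 * q.1.1.1 + l.2} ∩
        ⋂ i : Fin n, {q : Bl P | (P i).2 = l.1 * (P i).1 + l.2 → q.1.2 i = pt1 l.1} := by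
      ext q; simp [Ls]
    rw [hLs]
    apply IsClosed.inter
    · exact isClosed_eq (by fun_prop) (by fun_prop)
    · apply isClosed_iInter
      intro i
      by_cases hi : (P i).2 = l.1 * (P i).1 + l.2
      · have h2 : {q : Bl P | (P i).2 = l.1 * (P i).1 + l.2 → q.1.2 i = pt1 l.1} =
            {q : Bl P | q.1.2 i = pt1 l.1} := by
          ext q
          exact ⟨fun h => h hi, fun h _ => h⟩
        rw [h2]
        exact isClosed_eq (slope_cont i) continuous_const
      · have h2 : {q : Bl P | (P i).2 = l.1 * (P i).1 + l.2 → q.1.2 i = pt1 l.1} =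
            Set.univ := by
          ext q
          exact ⟨fun _ => trivial, fun _ h => absurd h hi⟩
        rw [h2]
        exact isClosed_univ

end Pool.Agent.MP_8f595d_ag
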