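import Pool.Agent.Lib.MP_8f595d_ag.TSpec
import Pool.Agent.Lib.MP_8f595d_ag.VCH

/-!
# Module TWP: `Wp` is homeomorphic to `ℂ²`
-/

set_option autoImplicit false

open scoped Topology LinearAlgebra.Projectivization

open Pool.Agent.SH (pt1)

namespace Pool.Agent.MP_8f595d_ag

namespace TWPM

lemma th_sq : th ^ 2 = -3 := by
  have h : ((Real.sqrt 3 : ℝ) : ℂ) ^ 2 = 3 := by
    rw [← Complex.ofReal_pow, Real.sq_sqrt (by norm_num)]
    norm_num
  rw [th, mul_pow, h, Complex.I_sq]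
  norm_num

lemma th_ne : th ≠ 0 := by
  intro h
  have := th_sq
  rw [h] at this
  norm_num at this

lemma om_eq : om = (-1 + th) / 2 := rfl

lemma om_rel : om ^ 2 + om + 1 = 0 := by
  rw [om_eq]
  have := th_sq
  linear_combination (1 / 4 : ℂ) * this

lemma om_ne_one : om ≠ 1 := by
  intro h
  have := om_rel
  rw [h] at this
  norm_num at this

lemma om_sq_ne_one : om ^ 2 ≠ 1 := by
  intro h
  have h1 := om_rel
  rw [h] at h1
  have h2 : om = -2 := by linear_combination h1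
  rw [h2] at h
  norm_num at h

/-- The levels of the four horizontal lines. -/
noncomputable def c : Fin 4 → ℂ := ![th, -th, 1, -1]
/-- The abscissas of the points `0, 1, 2, 5`. -/
noncomputable def X : Fin 4 → ℂ := ![0, 0, 1, -1]
/-- The coefficients of the partial fraction decomposition. -/
noncomputable def a : Fin 4 → ℂ := ![th / 24, -th / 24, 1 / 8, -1 / 8]
/-- The indices of the four points. -/
def e : Fin 4 → Fin 8 := ![0, 1, 2, 5]
/-- The level of a point. -/
def kap : Fin 8 → Fin 4 := ![0, 1, 2, 2, 2, 3, 3, 3]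

/-- The interpolating polynomial. -/
noncomputable def R (y : ℂ) : ℂ := (y ^ 3 + 3 * y) / 4
/-- The polynomial with the four levels as roots. -/
noncomputable def g (y : ℂ) : ℂ := (y ^ 2 + 3) * (y ^ 2 - 1)
/-- The quotients. -/
noncomputable def gj (j : Fin 4) (y : ℂ) : ℂ := ∏ k ∈ Finset.univ.erase j, (y - c k)
/-- The quotients. -/
noncomputable def A (j : Fin 4) (y : ℂ) : ℂ :=
  (![y * (y + th) / 4, y * (y - th) / 4, (y ^ 2 + y + 4) / 4, (y ^ 2 - y + 4) / 4] : Fin 4 → ℂ) j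

lemma prod_c (y : ℂ) : ∏ k : Fin 4, (y - c k) = g y := by
  rw [Fin.prod_univ_four]
  show (y - th) * (y - -th) * (y - 1) * (y - -1) = g y
  rw [g]
  linear_combination (-(y ^ 2 - 1)) * th_sq

lemma mul_gj (j : Fin 4) (y : ℂ) : (y - c j) * gj j y = g y := by
  rw [← prod_c, gj, Finset.mul_prod_erase Finset.univ (fun k => y - c k) (Finset.mem_univ j)]

lemma mul_A (j : Fin 4) (y : ℂ) : (y - c j) * A j y = R y - X j := by
  have h := th_sq
  fin_cases j
  · show (y - th) * (y * (y + th) / 4) = R y - 0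
    rw [R]
    linear_combination (-(y / 4)) * h
  · show (y - -th) * (y * (y - th) / 4) = R y - 0
    rw [R]
    linear_combination (-(y / 4)) * h
  · show (y - 1) * ((y ^ 2 + y + 4) / 4) = R y - 1
    rw [R]
    ring
  · show (y - -1) * ((y ^ 2 - y + 4) / 4) = R y - -1
    rw [R]
    ring

lemma gj_swap (D : Fin 4 → ℂ) (y δ : ℂ) (h : ∀ k, (y - c k) * D k = δ) (i k : Fin 4) :
    D k * gj i y = D i * gj k y := by
  by_cases hik : i = k
  · subst hik
    rfl
  · have h1 : gj i y = (y - c k) * ∏ l ∈ (Finset.univ.erase i).erase k, (y - c l) := by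
      rw [gj, Finset.mul_prod_erase (Finset.univ.erase i) (fun l => y - c l)
        (Finset.mem_erase.2 ⟨Ne.symm hik, Finset.mem_univ k⟩)]
    have h2 : gj k y = (y - c i) * ∏ l ∈ (Finset.univ.erase i).erase k, (y - c l) := by
      rw [Finset.erase_right_comm, gj, Finset.mul_prod_erase (Finset.univ.erase k)
        (fun l => y - c l) (Finset.mem_erase.2 ⟨hik, Finset.mem_univ i⟩)]
    rw [h1, h2]
    linear_combination (∏ l ∈ (Finset.univ.erase i).erase k, (y - c l)) * (h k - h i)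

lemma erase0 : (Finset.univ.erase 0 : Finset (Fin 4)) = {1, 2, 3} := by decide
lemma erase1 : (Finset.univ.erase 1 : Finset (Fin 4)) = {0, 2, 3} := by decide
lemma erase2 : (Finset.univ.erase 2 : Finset (Fin 4)) = {0, 1, 3} := by decide
lemma erase3 : (Finset.univ.erase 3 : Finset (Fin 4)) = {0, 1, 2} := by decide

lemma prod3 (i j k : Fin 4) (hij : i ≠ j) (hik : i ≠ k) (hjk : j ≠ k) (f : Fin 4 → ℂ) :
    ∏ l ∈ ({i, j, k} : Finset (Fin 4)), f l = f i * (f j * f k) := by
  rw [Finset.prod_insert (by simp [hij, hik]), Finset.prod_insert (by simp [hjk]),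
    Finset.prod_singleton]

lemma sum_a (y : ℂ) : ∑ j : Fin 4, a j * gj j y = 1 := by
  rw [Fin.sum_univ_four]
  simp only [gj, erase0, erase1, erase2, erase3]
  rw [prod3 1 2 3 (by decide) (by decide) (by decide), prod3 0 2 3 (by decide) (by decide)
    (by decide), prod3 0 1 3 (by decide) (by decide) (by decide),
    prod3 0 1 2 (by decide) (by decide) (by decide)]
  show th / 24 * ((y - -th) * ((y - 1) * (y - -1))) + -th / 24 * ((y - th) * ((y - 1) * (y - -1)))
    + 1 / 8 * ((y - th) * ((y - -th) * (y - -1))) + -1 / 8 * ((y - th) * ((y - -th) * (y - 1))) = 1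
  have h := th_sq
  linear_combination ((y ^ 2 - 1) / 12 - 1 / 4) * h

/-! ### the points and the lines -/

lemma Pt_e (j : Fin 4) : Pt (e j) = (X j, c j) := by
  fin_cases j <;> rfl

lemma Pt_kap (i : Fin 8) : (Pt i).2 = c (kap i) := by
  fin_cases i <;> rfl

lemma lf_fst (j : Fin 4) : (lf j).1 = 0 := by
  fin_cases j <;> rfl

lemma lf_snd (j : Fin 4) : (lf j).2 = c j := by
  fin_cases j <;> rfl

/-- Every point is one of the four points `e j` or of the four points `ix j`. -/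
lemma e_or_ix (i : Fin 8) : (∃ j, e j = i) ∨ ∃ j, ix j = i := by
  revert i
  decide

lemma e_ne_ix (j k : Fin 4) : e j ≠ ix k := by
  revert j k
  decide

lemma c_inj : Function.Injective c := by
  have h1 := th_sq
  have h2 := th_ne
  have key : ∀ j k : Fin 4, c j = c k → j = k := by
    intro j k h
    by_contra hjk
    have h3 : gj j (c j) = 0 := by
      rw [gj]
      exact Finset.prod_eq_zero (Finset.mem_erase.2 ⟨Ne.symm hjk, Finset.mem_univ k⟩)
        (by rw [h, sub_self])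
    have h4 : ∀ i, gj i (c j) = 0 := by
      intro i
      by_cases hi : i = j
      · rw [hi]; exact h3
      · rw [gj]
        exact Finset.prod_eq_zero (Finset.mem_erase.2 ⟨fun h => hi h.symm, Finset.mem_univ j⟩)
          (sub_self _)
    have h5 := sum_a (c j)
    rw [Finset.sum_eq_zero (fun i _ => by rw [h4, mul_zero])] at h5
    exact zero_ne_one h5
  exact fun j k h => key j k h

/-- The value of the interpolating polynomial. -/
lemma R_c (j : Fin 4) : R (c j) = X j := by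
  have := mul_A j (c j)
  rw [sub_self, zero_mul] at this
  exact (sub_eq_zero.1 this.symm)

lemma g_c (j : Fin 4) : g (c j) = 0 := by
  rw [← mul_gj j, sub_self, zero_mul]

/-- The abscissas of the other points. -/
lemma Pt_ix (j : Fin 4) : (Pt (ix j)).1 ≠ X (kap (ix j)) := by
  have h1 := om_ne_one
  have h2 := om_sq_ne_one
  fin_cases j
  · exact h1
  · exact h2
  · exact fun h => h1 (neg_injective h)
  · exact fun h => h2 (neg_injective h)

lemma pt1_zero : pt1 0 = mk1 1 0 := by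
  rw [mk1, dif_pos]
  rfl

/-- The only point of the projective line with second coordinate `0`. -/
lemma eq_pt1 {m : P1} (h : m.rep 1 = 0) : m = pt1 0 := by
  rw [pt1_zero]
  refine (VCHM.mk1_eq m ?_ ?_).symm
  · rintro ⟨h1, -⟩
    exact one_ne_zero h1
  · rw [h, mul_zero, zero_mul]

lemma rep_zero_ne {m : P1} (h : m.rep 1 = 0) : m.rep 0 ≠ 0 := by
  intro h0
  apply m.rep_nonzero
  funext i
  fin_cases i
  · exact h0
  · exact h

lemma mk1_one (μ : ℂ) : ∃ k : ℂ, k ≠ 0 ∧ (mk1 μ 1).rep 0 = k * μ ∧ (mk1 μ 1).rep 1 = k := by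
  obtain ⟨k, hk, h⟩ := VCHM.mk1_rep (a := μ) (c := 1) (VCHM.vec_ne (fun h => one_ne_zero h.2))
  refine ⟨k, hk, ?_, ?_⟩
  · rw [h]; rfl
  · rw [h]
    show k * 1 = k
    rw [mul_one]

lemma mk1_one_ne (μ : ℂ) : mk1 μ 1 ≠ pt1 0 := by
  intro h
  obtain ⟨k, hk, -, h1⟩ := mk1_one μ
  obtain ⟨l, hl, h2⟩ := VCHM.mk1_rep (a := 1) (c := 0) (VCHM.vec_ne (fun h => one_ne_zero h.1))
  rw [h, pt1_zero, h2] at h1
  apply hk
  rw [← h1]
  show l * 0 = 0
  rw [mul_zero]

/-! ### the set `Wp` -/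

/-- For a point on a horizontal line but not on its strict transform. -/
lemma exists_on {q : Bl Pt} (hq : q ∈ Yp) (j : Fin 4) (hy : q.1.1.2 = c j) :
    ∃ i, kap i = j ∧ q.1.1 = Pt i ∧ (q.1.2 i).rep 1 ≠ 0 := by
  have h1 : q ∉ Ls Pt (lf j) := fun h => hq.2 (Set.mem_iUnion.2 ⟨j, h⟩)
  have h2 : ¬ ∀ i, (Pt i).2 = (lf j).1 * (Pt i).1 + (lf j).2 → q.1.2 i = pt1 (lf j).1 := by
    intro h
    apply h1
    refine ⟨?_, h⟩
    rw [lf_fst, lf_snd, zero_mul, zero_add]
    exact hy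
  push Not at h2
  obtain ⟨i, hi, hi2⟩ := h2
  rw [lf_fst, lf_snd, zero_mul, zero_add] at hi
  rw [lf_fst] at hi2
  have h3 : (q.1.2 i).rep 1 ≠ 0 := fun h => hi2 (eq_pt1 h)
  have h4 := q.2 i
  rw [hi, hy, sub_self, zero_mul] at h4
  have h5 : q.1.1.1 = (Pt i).1 := by
    rcases mul_eq_zero.1 h4 with h | h
    · exact sub_eq_zero.1 h
    · exact absurd h h3
  refine ⟨i, ?_, Prod.ext h5 (hy.trans hi.symm), h3⟩
  apply c_inj
  rw [← Pt_kap]
  exact hi

lemma on_e {q : Bl Pt} (hq : q ∈ Wp) (j : Fin 4) (hy : q.1.1.2 = c j) :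
    q.1.1 = Pt (e j) ∧ (q.1.2 (e j)).rep 1 ≠ 0 := by
  obtain ⟨i, hi, hi2, hi3⟩ := exists_on hq.1 j hy
  rcases e_or_ix i with ⟨k, rfl⟩ | ⟨k, rfl⟩
  · have h1 : c k = c j := by
      have : (Pt (e k)).2 = c k := by rw [Pt_e]
      rw [← this, Pt_kap, hi]
    have h2 : k = j := c_inj h1
    subst h2
    exact ⟨hi2, hi3⟩
  · exfalso
    apply hq.2
    refine Set.mem_iUnion.2 ⟨k, hi2, ?_⟩
    intro h
    apply hi3
    obtain ⟨l, hl, h2⟩ := VCHM.mk1_rep (a := 1) (c := 0) (VCHM.vec_ne (fun h => one_ne_zero h.1))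
    rw [h, pt1_zero, h2]
    show l * 0 = 0
    rw [mul_zero]

lemma rep_ne {q : Bl Pt} (hq : q ∈ Wp) (j : Fin 4) : (q.1.2 (e j)).rep 1 ≠ 0 := by
  intro h
  have h4 := q.2 (e j)
  rw [h, mul_zero, Pt_e] at h4
  have hy : q.1.1.2 = c j := by
    rcases mul_eq_zero.1 h4.symm with h' | h'
    · exact sub_eq_zero.1 h'
    · exact absurd h' (rep_zero_ne h)
  exact (on_e hq j hy).2 h

lemma ne_ix {q : Bl Pt} (hP : Function.Injective Pt) (hq : q ∈ Wp) (j : Fin 4) :
    ¬ (q.1.1.1 - (Pt (ix j)).1 = 0 ∧ q.1.1.2 - (Pt (ix j)).2 = 0) := by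
  rintro ⟨h1, h2⟩
  have h3 : q.1.1 = Pt (ix j) := Prod.ext (sub_eq_zero.1 h1) (sub_eq_zero.1 h2)
  have hy : q.1.1.2 = c (kap (ix j)) := by rw [h3, Pt_kap]
  have h4 := (on_e hq _ hy).1
  exact e_ne_ix _ _ (hP (h4.symm.trans h3))

/-! ### the homeomorphism -/

/-- The slope coordinate at the point `e j`. -/
noncomputable def mu (q : Bl Pt) (j : Fin 4) : ℂ := (q.1.2 (e j)).rep 0 / (q.1.2 (e j)).rep 1

lemma mu_eq {q : Bl Pt} (hq : q ∈ Wp) (j : Fin 4) :
    (q.1.1.2 - c j) * mu q j = q.1.1.1 - X j := by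
  have h := q.2 (e j)
  have hr := rep_ne hq j
  rw [Pt_e] at h
  rw [mu, ← mul_div_assoc, ← h, mul_div_assoc, div_self hr, mul_one]

/-- The coordinate `ξ`. -/
noncomputable def xi (q : Bl Pt) : ℂ := ∑ j : Fin 4, a j * (mu q j - A j q.1.1.2)

lemma D_eq {q : Bl Pt} (hq : q ∈ Wp) (j : Fin 4) :
    (q.1.1.2 - c j) * (mu q j - A j q.1.1.2) = q.1.1.1 - R q.1.1.2 := by
  rw [mul_sub, mu_eq hq, mul_A]
  ring

lemma xi_gj {q : Bl Pt} (hq : q ∈ Wp) (j : Fin 4) :
    xi q * gj j q.1.1.2 = mu q j - A j q.1.1.2 := by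
  rw [xi, Finset.sum_mul]
  have h : ∀ k : Fin 4, a k * (mu q k - A k q.1.1.2) * gj j q.1.1.2 =
      (a k * gj k q.1.1.2) * (mu q j - A j q.1.1.2) := by
    intro k
    have := gj_swap (fun k => mu q k - A k q.1.1.2) q.1.1.2 _ (D_eq hq) j k
    linear_combination (a k) * this
  rw [Finset.sum_congr rfl (fun k _ => h k), ← Finset.sum_mul, sum_a, one_mul]

lemma xi_g {q : Bl Pt} (hq : q ∈ Wp) :
    R q.1.1.2 + xi q * g q.1.1.2 = q.1.1.1 := by
  have h1 := xi_gj hq 0
  have h2 := D_eq hq 0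
  have h3 := mul_gj 0 q.1.1.2
  linear_combination (q.1.1.2 - c 0) * h1 + h2 - xi q * h3

open Classical in
/-- The inverse map. -/
noncomputable def inv0 (p : ℂ × ℂ) : (ℂ × ℂ) × (Fin 8 → P1) :=
  ((R p.2 + p.1 * g p.2, p.2), fun i => if e (kap i) = i then
    mk1 (A (kap i) p.2 + p.1 * gj (kap i) p.2) 1
    else mk1 (R p.2 + p.1 * g p.2 - (Pt i).1) (p.2 - (Pt i).2))

lemma kap_e (j : Fin 4) : kap (e j) = j := by
  revert j
  decide

lemma e_kap_ix (j : Fin 4) : e (kap (ix j)) ≠ ix j := by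
  revert j
  decide

lemma inv0_e (p : ℂ × ℂ) (j : Fin 4) :
    (inv0 p).2 (e j) = mk1 (A j p.2 + p.1 * gj j p.2) 1 := by
  show (if e (kap (e j)) = e j then _ else _) = _
  rw [kap_e, if_pos rfl]

lemma inv0_ix (p : ℂ × ℂ) (j : Fin 4) :
    (inv0 p).2 (ix j) = mk1 (R p.2 + p.1 * g p.2 - (Pt (ix j)).1) (p.2 - (Pt (ix j)).2) := by
  show (if e (kap (ix j)) = ix j then _ else _) = _
  rw [if_neg (e_kap_ix j)]

lemma mul_mu (p : ℂ × ℂ) (j : Fin 4) :
    (p.2 - c j) * (A j p.2 + p.1 * gj j p.2) = R p.2 + p.1 * g p.2 - X j := by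
  have h1 := mul_A j p.2
  have h2 := mul_gj j p.2
  linear_combination h1 + p.1 * h2

lemma inv0_mem (p : ℂ × ℂ) : inv0 p ∈ Bset Pt := by
  intro i
  rcases e_or_ix i with ⟨j, rfl⟩ | ⟨j, rfl⟩
  · rw [inv0_e, Pt_e]
    obtain ⟨k, hk, h0, h1⟩ := mk1_one (A j p.2 + p.1 * gj j p.2)
    rw [h0, h1]
    show (R p.2 + p.1 * g p.2 - X j) * k = (p.2 - c j) * _
    rw [← mul_mu]
    ring
  · rw [inv0_ix]
    exact mk1_eq _ _

lemma not_ix (p : ℂ × ℂ) (j : Fin 4) :
    ¬ (R p.2 + p.1 * g p.2 - (Pt (ix j)).1 = 0 ∧ p.2 - (Pt (ix j)).2 = 0) := by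
  rintro ⟨h1, h2⟩
  have h3 : p.2 = c (kap (ix j)) := by rw [← Pt_kap]; exact sub_eq_zero.1 h2
  rw [h3, R_c, g_c, mul_zero, add_zero] at h1
  exact Pt_ix j (sub_eq_zero.1 h1).symm

lemma inv0_Wp (p : ℂ × ℂ) : (⟨inv0 p, inv0_mem p⟩ : Bl Pt) ∈ Wp := by
  refine ⟨⟨Set.mem_univ _, ?_⟩, ?_⟩
  · intro h
    obtain ⟨j, hj, hj2⟩ := Set.mem_iUnion.1 h
    have h1 := hj2 (e j) (by rw [Pt_e, lf_fst, lf_snd]; ring)
    rw [lf_fst] at h1
    have h2 : (inv0 p).2 (e j) = pt1 0 := h1
    rw [inv0_e] at h2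
    exact mk1_one_ne _ h2
  · intro h
    obtain ⟨j, hj, -⟩ := Set.mem_iUnion.1 h
    have h1 : (R p.2 + p.1 * g p.2, p.2) = Pt (ix j) := hj
    apply not_ix p j
    constructor
    · rw [← h1]; exact sub_self _
    · rw [← h1]; exact sub_self _

lemma R_cont : Continuous R := by unfold R; fun_prop
lemma g_cont : Continuous g := by unfold g; fun_prop
lemma gj_cont (j : Fin 4) : Continuous (gj j) := by
  unfold gj
  exact continuous_finsetProd _ (fun k _ => continuous_id.sub continuous_const)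
lemma A_cont (j : Fin 4) : Continuous (A j) := by
  fin_cases j
  · show Continuous fun y : ℂ => y * (y + th) / 4
    fun_prop
  · show Continuous fun y : ℂ => y * (y - th) / 4
    fun_prop
  · show Continuous fun y : ℂ => (y ^ 2 + y + 4) / 4
    fun_prop
  · show Continuous fun y : ℂ => (y ^ 2 - y + 4) / 4
    fun_prop

lemma inv0_cont : Continuous inv0 := by
  have hx : Continuous fun p : ℂ × ℂ => R p.2 + p.1 * g p.2 :=
    (R_cont.comp continuous_snd).add (continuous_fst.mul (g_cont.comp continuous_snd))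
  refine (hx.prodMk continuous_snd).prodMk (continuous_pi fun i => ?_)
  rcases e_or_ix i with ⟨j, rfl⟩ | ⟨j, rfl⟩
  · have h : (fun p => (inv0 p).2 (e j)) = fun p => mk1 (A j p.2 + p.1 * gj j p.2) 1 :=
      funext fun p => inv0_e p j
    show Continuous (fun p => (inv0 p).2 (e j))
    rw [h, ← continuousOn_univ]
    refine VCHM.mk1_contAt ?_ continuousOn_const (fun x _ h => one_ne_zero h.2)
    exact (((A_cont j).comp continuous_snd).add
      (continuous_fst.mul ((gj_cont j).comp continuous_snd))).continuousOn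
  · have h : (fun p => (inv0 p).2 (ix j)) = fun p =>
        mk1 (R p.2 + p.1 * g p.2 - (Pt (ix j)).1) (p.2 - (Pt (ix j)).2) :=
      funext fun p => inv0_ix p j
    show Continuous (fun p => (inv0 p).2 (ix j))
    rw [h, ← continuousOn_univ]
    exact VCHM.mk1_contAt (hx.sub continuous_const).continuousOn
      (continuous_snd.sub continuous_const).continuousOn (fun p _ => not_ix p j)

lemma mu_cont (j : Fin 4) : Continuous fun q : ↥Wp => mu q.1 j := by
  have h1 := VCHM.contOn_div (n := 2) (fun v => v 0) (fun v => v 1)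
    (continuous_apply 0) (continuous_apply 1) (fun a v => rfl) (fun a v => rfl)
  have h2 : Continuous fun q : ↥Wp => q.1.1.2 (e j) :=
    (continuous_apply (e j)).comp (continuous_snd.comp
      (continuous_subtype_val.comp continuous_subtype_val))
  exact h1.comp_continuous h2 (fun q => rep_ne q.2 j)

lemma xi_cont : Continuous fun q : ↥Wp => xi q.1 := by
  have h2 : Continuous fun q : ↥Wp => q.1.1.1.2 :=
    continuous_snd.comp (continuous_fst.comp (continuous_subtype_val.comp continuous_subtype_val))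
  unfold xi
  exact continuous_finsetSum _ fun j _ =>
    continuous_const.mul ((mu_cont j).sub ((A_cont j).comp h2))

/-- The homeomorphism. -/
noncomputable def homeo (hP : Function.Injective Pt) : ↥Wp ≃ₜ ℂ × ℂ where
  toFun q := (xi q.1, q.1.1.1.2)
  invFun p := ⟨⟨inv0 p, inv0_mem p⟩, inv0_Wp p⟩
  left_inv q := by
    obtain ⟨q, hq⟩ := q
    apply Subtype.ext
    apply Subtype.ext
    show inv0 (xi q, q.1.1.2) = q.1
    refine Prod.ext (Prod.ext (xi_g hq) rfl) ?_
    funext i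
    rcases e_or_ix i with ⟨j, rfl⟩ | ⟨j, rfl⟩
    · rw [inv0_e]
      show mk1 (A j q.1.1.2 + xi q * gj j q.1.1.2) 1 = q.1.2 (e j)
      rw [xi_gj hq, add_sub_cancel]
      refine VCHM.mk1_eq _ (fun h => one_ne_zero h.2) ?_
      rw [mu, div_mul_cancel₀ _ (rep_ne hq j), one_mul]
    · rw [inv0_ix]
      show mk1 (R q.1.1.2 + xi q * g q.1.1.2 - (Pt (ix j)).1) (q.1.1.2 - (Pt (ix j)).2) = _
      rw [xi_g hq]
      exact VCHM.mk1_eq _ (ne_ix hP hq j) (q.2 (ix j))
  right_inv p := by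
    refine Prod.ext ?_ rfl
    show xi (⟨inv0 p, inv0_mem p⟩ : Bl Pt) = p.1
    have h : ∀ j, mu (⟨inv0 p, inv0_mem p⟩ : Bl Pt) j = A j p.2 + p.1 * gj j p.2 := by
      intro j
      show ((inv0 p).2 (e j)).rep 0 / ((inv0 p).2 (e j)).rep 1 = _
      rw [inv0_e]
      obtain ⟨k, hk, h0, h1⟩ := mk1_one (A j p.2 + p.1 * gj j p.2)
      rw [h0, h1, mul_div_cancel_left₀ _ hk]
    rw [xi]
    have h3 : ∀ j ∈ (Finset.univ : Finset (Fin 4)),
        a j * (mu (⟨inv0 p, inv0_mem p⟩ : Bl Pt) j - A j p.2) = p.1 * (a j * gj j p.2) := by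
      intro j _
      rw [h]
      ring
    show ∑ j : Fin 4, a j * (mu (⟨inv0 p, inv0_mem p⟩ : Bl Pt) j - A j p.2) = p.1
    rw [Finset.sum_congr rfl h3, ← Finset.mul_sum, sum_a, mul_one]
  continuous_toFun := xi_cont.prodMk (continuous_snd.comp (continuous_fst.comp
    (continuous_subtype_val.comp continuous_subtype_val)))
  continuous_invFun := Continuous.subtype_mk (Continuous.subtype_mk inv0_cont _) _

/-- The eight points are distinct. -/
lemma Pt_inj : Function.Injective Pt := by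
  have h1 := om_ne_one
  have h2 := om_sq_ne_one
  have h3 : om ≠ 0 := by
    intro h
    have := om_rel
    rw [h] at this
    norm_num at this
  have h4 : om ^ 2 ≠ om := by
    intro h
    have : om * (om - 1) = 0 := by linear_combination h
    rcases mul_eq_zero.1 this with h5 | h5
    · exact h3 h5
    · exact h1 (sub_eq_zero.1 h5)
  intro i j hij
  have hk : kap i = kap j := by
    apply c_inj
    rw [← Pt_kap, ← Pt_kap, hij]
  have hx : (Pt i).1 = (Pt j).1 := by rw [hij]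
  fin_cases i <;> fin_cases j <;> first | rfl | (exfalso; revert hk; decide) |
    (exfalso; revert hx; simp [Pt, h1, h2, h4, Ne.symm h1, Ne.symm h2, Ne.symm h4])

end TWPM

theorem specW : SpecW := ⟨TWPM.homeo TWPM.Pt_inj⟩

end Pool.Agent.MP_8f595d_ag
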