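import Pool.Agent.Lib.MP_8f595d_ag.USpec

/-!
# Module UCO: the charts of `V` are holomorphically compatible
-/

set_option autoImplicit false

open scoped Topology

namespace Pool.Agent.MP_8f595d_ag

theorem specCompat (h : SpecTrans) : SpecCompat := by
  rintro K e ⟨⟨b, ε⟩, rfl⟩ e' ⟨⟨b', ε'⟩, rfl⟩ x ⟨hx, hx'⟩
  simp only at hx hx' ⊢
  refine (h b ε b' ε' K _ ?_ ?_).1
  · rw [← K.target]
    exact (K.ch b ε).map_source hx
  · rw [(K.ch b ε).left_inv hx, ← K.source]
    exact hx'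

end Pool.Agent.MP_8f595d_ag
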