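import Pool.Agent.Lib.MP_8f595d_ag.USpec

/-!
# Module UDE: complements of finitely many curves are dense
-/

set_option autoImplicit false

open scoped Topology

namespace Pool.Agent.MP_8f595d_ag

namespace UDEM

open Filter

lemma dense_compl {V : Type} [TopologicalSpace V] {𝒜 : Set (Cht V)} (C : Curve 𝒜) :
    Dense (C.1ᶜ) := by
  rw [← interior_eq_empty_iff_dense_compl, Set.eq_empty_iff_forall_notMem]
  intro q hq
  have hev : ∀ᶠ x in 𝓝 q, x ∈ C.1 := by
    filter_upwards [isOpen_interior.mem_nhds hq] with x hx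
    exact interior_subset hx
  have hqC : q ∈ C.1 := interior_subset hq
  obtain ⟨-, -, hloc⟩ := C.2
  obtain ⟨e, -, hqe, F, hFan, hF, hd⟩ := hloc q
  apply hd hqC
  have h1 : ∀ᶠ x in 𝓝 q, F (e x) = 0 := by
    filter_upwards [hev, hF] with x hx1 hx2
    exact hx2.1 hx1
  have h2 : ∀ᶠ y in 𝓝 (e q), F y = 0 := by
    have h3 : Tendsto e.symm (𝓝 (e q)) (𝓝 q) := by
      have := e.continuousAt_symm (e.map_source hqe)
      have h4 := this.tendsto
      rwa [e.left_inv hqe] at h4
    filter_upwards [h3.eventually h1, e.open_target.mem_nhds (e.map_source hqe)] with y hy1 hy2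
    rwa [e.right_inv hy2] at hy1
  have h3 : F =ᶠ[𝓝 (e q)] fun _ => (0 : ℂ) := h2
  rw [h3.fderiv_eq]
  exact fderiv_const_apply 0

lemma isOpen_compl {V : Type} [TopologicalSpace V] {𝒜 : Set (Cht V)} (C : Curve 𝒜) :
    IsOpen (C.1ᶜ) := C.2.1.isOpen_compl

lemma main {V : Type} [TopologicalSpace V] {𝒜 : Set (Cht V)} (T : Finset (Curve 𝒜)) :
    IsOpen {x : V | ∀ C ∈ T, x ∉ C.1} ∧ Dense {x : V | ∀ C ∈ T, x ∉ C.1} := by
  classical
  induction T using Finset.induction_on with
  | empty =>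
    have : {x : V | ∀ C ∈ (∅ : Finset (Curve 𝒜)), x ∉ C.1} = Set.univ := by
      ext x
      simp
    rw [this]
    exact ⟨isOpen_univ, dense_univ⟩
  | insert C T _ ih =>
    have : {x : V | ∀ C' ∈ insert C T, x ∉ C'.1} = C.1ᶜ ∩ {x : V | ∀ C ∈ T, x ∉ C.1} := by
      ext x
      simp
    rw [this]
    exact ⟨(isOpen_compl C).inter ih.1, (dense_compl C).inter_of_isOpen_left ih.2 (isOpen_compl C)⟩

end UDEM

theorem specDense : SpecDense := by
  intro V _ 𝒜 T
  exact (UDEM.main T).2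

end Pool.Agent.MP_8f595d_ag
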