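import Pool.Agent.Lib.MP_8f595d_ag.USpec

/-!
# Module ULF: quotient of two meromorphic functions
-/

set_option autoImplicit false

open scoped Topology

namespace Pool.Agent.MP_8f595d_ag

namespace ULFM

open Filter

/-! ### weak units -/

lemma wunit_of_analytic {y₀ : ℂ × ℂ} {U : ℂ × ℂ → ℂ} (hU : AnalyticAt ℂ U y₀) (h0 : U y₀ ≠ 0) :
    WUnit y₀ U := by
  filter_upwards [hU.eventually_analyticAt, hU.continuousAt.eventually_ne h0] with y h1 h2
  exact ⟨h2, h1.continuousAt, fun φ z hφ hφa => AnalyticAt.comp_of_eq h1 hφa hφ⟩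

lemma wunit_one (y₀ : ℂ × ℂ) : WUnit y₀ (fun _ => 1) :=
  wunit_of_analytic analyticAt_const one_ne_zero

lemma wunit_mul {y₀ : ℂ × ℂ} {H K : ℂ × ℂ → ℂ} (hH : WUnit y₀ H) (hK : WUnit y₀ K) :
    WUnit y₀ (fun y => H y * K y) := by
  filter_upwards [hH, hK] with y h1 h2
  exact ⟨mul_ne_zero h1.1 h2.1, h1.2.1.mul h2.2.1, fun φ z hφ hφa =>
    (h1.2.2 φ z hφ hφa).mul (h2.2.2 φ z hφ hφa)⟩

lemma wunit_inv {y₀ : ℂ × ℂ} {H : ℂ × ℂ → ℂ} (hH : WUnit y₀ H) :
    WUnit y₀ (fun y => (H y)⁻¹) := by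
  filter_upwards [hH] with y h1
  refine ⟨inv_ne_zero h1.1, h1.2.1.inv₀ h1.1, fun φ z hφ hφa => ?_⟩
  have h2 : H (φ z) ≠ 0 := by rw [hφ]; exact h1.1
  exact (h1.2.2 φ z hφ hφa).inv h2

lemma wunit_zpow {y₀ : ℂ × ℂ} {H : ℂ × ℂ → ℂ} (hH : WUnit y₀ H) (n : ℤ) :
    WUnit y₀ (fun y => (H y) ^ n) := by
  filter_upwards [hH] with y h1
  refine ⟨zpow_ne_zero n h1.1, h1.2.1.zpow₀ n (Or.inl h1.1), fun φ z hφ hφa => ?_⟩
  have h2 : H (φ z) ≠ 0 := by rw [hφ]; exact h1.1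
  exact (h1.2.2 φ z hφ hφa).fun_zpow h2

lemma wunit_prod {ι : Type*} {y₀ : ℂ × ℂ} (T : Finset ι) (H : ι → ℂ × ℂ → ℂ)
    (hH : ∀ i ∈ T, WUnit y₀ (H i)) : WUnit y₀ (fun y => ∏ i ∈ T, H i y) := by
  classical
  induction T using Finset.induction_on with
  | empty => simpa using wunit_one y₀
  | insert a T ha ih =>
    have h1 := wunit_mul (hH a (Finset.mem_insert_self _ _))
      (ih (fun i hi => hH i (Finset.mem_insert_of_mem hi)))
    have h2 : (fun y => ∏ i ∈ insert a T, H i y) = fun y => H a y * ∏ i ∈ T, H i y := by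
      funext y
      rw [Finset.prod_insert ha]
    rw [h2]
    exact h1

/-! ### transport of local equations -/

variable {V : Type} [TopologicalSpace V]

lemma ev_chart {q : V} (e : Cht V) (hq : q ∈ e.source) {P : ℂ × ℂ → Prop}
    (h : ∀ᶠ x in 𝓝 q, P (e x)) : ∀ᶠ y in 𝓝 (e q), P y := by
  have h3 : Tendsto e.symm (𝓝 (e q)) (𝓝 q) := by
    have h4 := (e.continuousAt_symm (e.map_source hq)).tendsto
    rwa [e.left_inv hq] at h4
  filter_upwards [h3.eventually h, e.open_target.mem_nhds (e.map_source hq)] with y hy1 hy2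
  rwa [e.right_inv hy2] at hy1

lemma trans_id {q : V} (e e' : Cht V) (hq' : q ∈ e'.source) (hq : q ∈ e.source) :
    (fun y => e' (e.symm (e (e'.symm y)))) =ᶠ[𝓝 (e' q)] id := by
  have h3 : Tendsto e'.symm (𝓝 (e' q)) (𝓝 q) := by
    have h4 := (e'.continuousAt_symm (e'.map_source hq')).tendsto
    rwa [e'.left_inv hq'] at h4
  filter_upwards [h3.eventually (e.open_source.mem_nhds hq),
    e'.open_target.mem_nhds (e'.map_source hq')] with y hy1 hy2
  rw [e.left_inv hy1, e'.right_inv hy2]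
  rfl

lemma transport {𝒜 : Set (Cht V)} (hc : Compat 𝒜) {e e' : Cht V} (he : e ∈ 𝒜) (he' : e' ∈ 𝒜)
    {q : V} (hq : q ∈ e.source) (hq' : q ∈ e'.source) {C : Set V} {F : ℂ × ℂ → ℂ}
    (hF : IsLocEq C q e' F) : IsLocEq C q e (fun y => F (e' (e.symm y))) := by
  obtain ⟨h1, h2, h3⟩ := hF
  have hτ := hc e he e' he' q ⟨hq, hq'⟩
  have hσ := hc e' he' e he q ⟨hq', hq⟩
  have hτq : e' (e.symm (e q)) = e' q := by rw [e.left_inv hq]
  have hσq : e (e'.symm (e' q)) = e q := by rw [e'.left_inv hq']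
  refine ⟨?_, ?_, ?_⟩
  · exact AnalyticAt.comp_of_eq h1 hτ hτq
  · filter_upwards [h2, e.open_source.mem_nhds hq] with x hx hxs
    rw [e.left_inv hxs]
    exact hx
  · intro hqC hzero
    apply h3 hqC
    -- `F = (F ∘ τ) ∘ σ` near `e' q`
    have hcomp : (fun y => F (e' (e.symm (e (e'.symm y))))) =ᶠ[𝓝 (e' q)] F := by
      filter_upwards [trans_id e e' hq' hq] with y hy
      rw [hy]
      rfl
    have hFτ : AnalyticAt ℂ (fun y => F (e' (e.symm y))) (e q) :=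
      AnalyticAt.comp_of_eq h1 hτ hτq
    have hd1 : HasFDerivAt (fun y => F (e' (e.symm y))) (0 : ℂ × ℂ →L[ℂ] ℂ)
        (e (e'.symm (e' q))) := by
      rw [hσq, ← hzero]
      exact hFτ.differentiableAt.hasFDerivAt
    have hd2 := hd1.comp (e' q) hσ.differentiableAt.hasFDerivAt
    rw [ContinuousLinearMap.zero_comp] at hd2
    have hd3 : HasFDerivAt F (0 : ℂ × ℂ →L[ℂ] ℂ) (e' q) := hd2.congr_of_eventuallyEq hcomp.symm
    exact hd3.fderiv

end ULFM

open ULFM Filter in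
theorem specQuot (hR : SpecRatio) : SpecQuot := by
  intro V _ 𝒜 hc f g A B hf hg
  classical
  obtain ⟨T₁, hT₁, hf⟩ := hf
  obtain ⟨T₂, hT₂, hg⟩ := hg
  refine ⟨T₁ ∪ T₂, hT₁.trans Finset.subset_union_left, hT₂.trans Finset.subset_union_right, ?_⟩
  intro q
  obtain ⟨e, he, hq, F₁, hF₁, U, hU, hU0, hfx⟩ := hf q
  obtain ⟨e', he', hq', F₂, hF₂, U', hU', hU'0, hgx⟩ := hg q
  set F₂' : Curve 𝒜 → ℂ × ℂ → ℂ := fun C y => F₂ C (e' (e.symm y)) with hF₂'
  have hF₂t : ∀ C ∈ T₂, IsLocEq C.1 q e (F₂' C) := fun C hC =>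
    transport hc he he' hq hq' (hF₂ C hC)
  set F : Curve 𝒜 → ℂ × ℂ → ℂ := fun C => if C ∈ T₁ then F₁ C else F₂' C with hF
  have hFloc : ∀ C ∈ T₁ ∪ T₂, IsLocEq C.1 q e (F C) := by
    intro C hC
    simp only [hF]
    by_cases h1 : C ∈ T₁
    · rw [if_pos h1]
      exact hF₁ C h1
    · rw [if_neg h1]
      exact hF₂t C ((Finset.mem_union.1 hC).resolve_left h1)
  -- ratios
  have hrat : ∀ C ∈ T₂, ∃ H : ℂ × ℂ → ℂ, WUnit (e q) H ∧ ∀ᶠ y in 𝓝 (e q), F₂' C y = H y * F C y := by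
    intro C hC
    have hC' : C ∈ T₁ ∪ T₂ := Finset.mem_union_right _ hC
    obtain ⟨a1, a2, a3⟩ := hFloc C hC'
    obtain ⟨b1, b2, b3⟩ := hF₂t C hC
    apply hR (F C) (F₂' C) (e q) a1 b1
    · apply ev_chart e hq
      filter_upwards [a2, b2] with x hx1 hx2
      rw [← hx1, ← hx2]
    · intro h0
      exact a3 (a2.self_of_nhds.2 h0)
    · intro h0
      exact b3 (b2.self_of_nhds.2 h0)
  choose! H hHu hHeq using hrat
  refine ⟨e, he, hq, F, hFloc,
    fun y => U y * ((U' (e' (e.symm y))) * ∏ C ∈ T₂, (H C y) ^ (B C))⁻¹, ?_, ?_⟩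
  · apply wunit_mul (wunit_of_analytic hU hU0)
    apply wunit_inv
    apply wunit_mul
    · apply wunit_of_analytic
      · exact AnalyticAt.comp_of_eq hU' (hc e he e' he' q ⟨hq, hq'⟩) (by rw [e.left_inv hq])
      · rw [e.left_inv hq]
        exact hU'0
    · exact wunit_prod T₂ _ (fun C hC => wunit_zpow (hHu C hC) (B C))
  · have hce : Tendsto e (𝓝 q) (𝓝 (e q)) := (e.continuousAt hq).tendsto
    have hall : ∀ᶠ x in 𝓝 q, ∀ C ∈ T₂, F₂' C (e x) = H C (e x) * F C (e x) := by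
      rw [Filter.eventually_all_finset]
      intro C hC
      exact hce.eventually (hHeq C hC)
    have hne : ∀ᶠ x in 𝓝 q, ∀ C ∈ T₁ ∪ T₂, (x ∈ C.1 ↔ F C (e x) = 0) := by
      rw [Filter.eventually_all_finset]
      intro C hC
      exact (hFloc C hC).2.1
    filter_upwards [hfx, hgx, hall, hne, e.open_source.mem_nhds hq] with x hx1 hx2 hx3 hx4 hxs hoff
    have hf1 := hx1 (fun C hC => hoff C (Finset.mem_union_left _ hC))
    have hg1 := hx2 (fun C hC => hoff C (Finset.mem_union_right _ hC))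
    rw [hf1, hg1, e.left_inv hxs]
    have e1 : ∏ C ∈ T₁, (F₁ C (e x)) ^ (A C) = ∏ C ∈ T₁ ∪ T₂, (F C (e x)) ^ (A C) := by
      have h1 : ∏ C ∈ T₁, (F₁ C (e x)) ^ (A C) = ∏ C ∈ T₁, (F C (e x)) ^ (A C) := by
        apply Finset.prod_congr rfl
        intro C hC
        simp only [hF]
        rw [if_pos hC]
      rw [h1]
      apply Finset.prod_subset Finset.subset_union_left
      intro C _ hC
      have : A C = 0 := by
        by_contra h0
        exact hC (hT₁ (Finsupp.mem_support_iff.2 h0))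
      rw [this, zpow_zero]
    have e2 : ∏ C ∈ T₂, (F₂ C (e' x)) ^ (B C)
        = (∏ C ∈ T₂, (H C (e x)) ^ (B C)) * ∏ C ∈ T₁ ∪ T₂, (F C (e x)) ^ (B C) := by
      have h1 : ∏ C ∈ T₁ ∪ T₂, (F C (e x)) ^ (B C) = ∏ C ∈ T₂, (F C (e x)) ^ (B C) := by
        symm
        apply Finset.prod_subset Finset.subset_union_right
        intro C _ hC
        have : B C = 0 := by
          by_contra h0
          exact hC (hT₂ (Finsupp.mem_support_iff.2 h0))
        rw [this, zpow_zero]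
      rw [h1, ← Finset.prod_mul_distrib]
      apply Finset.prod_congr rfl
      intro C hC
      have h2 := hx3 C hC
      simp only [hF₂'] at h2
      rw [e.left_inv hxs] at h2
      rw [h2, mul_zpow]
    have e3 : ∏ C ∈ T₁ ∪ T₂, (F C (e x)) ^ (A C - B C)
        = (∏ C ∈ T₁ ∪ T₂, (F C (e x)) ^ (A C)) / ∏ C ∈ T₁ ∪ T₂, (F C (e x)) ^ (B C) := by
      rw [← Finset.prod_div_distrib]
      apply Finset.prod_congr rfl
      intro C hC
      have hF0 : F C (e x) ≠ 0 := fun h0 => hoff C hC ((hx4 C hC).2 h0)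
      exact zpow_sub₀ hF0 _ _
    rw [e1, e2, e3]
    simp only [div_eq_mul_inv, mul_inv]
    ring

end Pool.Agent.MP_8f595d_ag
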