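import Pool.Agent.Lib.MP_8f595d_ag.USpec

/-!
# Module ULI: Liouville on the projective line
-/

set_option autoImplicit false

open scoped Topology

namespace Pool.Agent.MP_8f595d_ag

namespace ULIM

open Filter

/-- the regularization of `h` -/
noncomputable def reg (h : ℂ → ℂ) (z : ℂ) : ℂ := limUnder (𝓝[≠] z) h

lemma reg_eq {h U : ℂ → ℂ} {z₀ : ℂ} (hU : AnalyticAt ℂ U z₀)
    (heq : ∀ᶠ z in 𝓝[≠] z₀, h z = U z) : ∀ᶠ z in 𝓝 z₀, reg h z = U z := by
  have h1 : reg h z₀ = U z₀ := by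
    apply Tendsto.limUnder_eq
    exact (hU.continuousAt.tendsto.mono_left nhdsWithin_le_nhds).congr'
      (heq.mono fun z hz => hz.symm)
  have h2 : ∀ᶠ z in 𝓝[≠] z₀, reg h z = U z := by
    have h3 : ∀ᶠ z in 𝓝[≠] z₀, ∀ᶠ x in 𝓝[≠] z, h x = U x := by
      have h4 : ∀ᶠ z in 𝓝[≠] z₀, ∀ᶠ x in 𝓝[≠] z₀, True := by simp
      rw [← eventually_eventually_nhdsWithin] at heq
      filter_upwards [heq, self_mem_nhdsWithin] with z hz hz0
      have h5 : 𝓝[≠] z₀ ≤ 𝓝[≠] z₀ := le_rfl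
      rw [isOpen_compl_singleton.nhdsWithin_eq (show z ∈ ({z₀} : Set ℂ)ᶜ from hz0)] at hz
      exact hz.filter_mono nhdsWithin_le_nhds
    have h4 : ∀ᶠ z in 𝓝[≠] z₀, AnalyticAt ℂ U z :=
      hU.eventually_analyticAt.filter_mono nhdsWithin_le_nhds
    filter_upwards [h3, h4] with z hz hzU
    apply Tendsto.limUnder_eq
    exact (hzU.continuousAt.tendsto.mono_left nhdsWithin_le_nhds).congr'
      (hz.mono fun x hx => hx.symm)
  rw [eventually_nhdsWithin_iff] at h2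
  filter_upwards [h2] with z hz
  by_cases hzz : z = z₀
  · rw [hzz, h1]
  · exact hz hzz

/-- behaviour at infinity -/
lemma reg_inf {h c : ℂ → ℂ} {N : ℤ} (hc : AnalyticAt ℂ c 0)
    (heq : ∀ᶠ w in 𝓝[≠] (0 : ℂ), h w⁻¹ = w ^ N * c w) :
    ∀ᶠ w in 𝓝[≠] (0 : ℂ), reg h w⁻¹ = w ^ N * c w := by
  have h3 : ∀ᶠ w in 𝓝[≠] (0 : ℂ), ∀ᶠ x in 𝓝 w, h x⁻¹ = x ^ N * c x := by
    rw [← eventually_eventually_nhdsWithin] at heq
    filter_upwards [heq, self_mem_nhdsWithin] with z hz hz0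
    rw [isOpen_compl_singleton.nhdsWithin_eq (show z ∈ ({0} : Set ℂ)ᶜ from hz0)] at hz
    exact hz
  have h4 : ∀ᶠ w in 𝓝[≠] (0 : ℂ), AnalyticAt ℂ c w :=
    hc.eventually_analyticAt.filter_mono nhdsWithin_le_nhds
  filter_upwards [h3, h4, self_mem_nhdsWithin] with w hw hcw hw0
  have hw0' : w ≠ 0 := hw0
  apply Tendsto.limUnder_eq
  have h5 : Tendsto (fun z : ℂ => z⁻¹) (𝓝 w⁻¹) (𝓝 w) := by
    have := (continuousAt_inv₀ (inv_ne_zero hw0')).tendsto
    rwa [inv_inv] at this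
  have h6 : ContinuousAt (fun x : ℂ => x ^ N * c x) w :=
    (continuousAt_zpow₀ w N (Or.inl hw0')).mul hcw.continuousAt
  have h7 : Tendsto (fun z : ℂ => (z⁻¹) ^ N * c z⁻¹) (𝓝 w⁻¹) (𝓝 (w ^ N * c w)) :=
    h6.tendsto.comp h5
  refine (h7.congr' ?_).mono_left nhdsWithin_le_nhds
  filter_upwards [h5.eventually hw] with z hz
  rw [inv_inv] at hz
  exact hz.symm

/-- an entire function without zeros with this behaviour at infinity: `N ≤ 0` -/
lemma le_zero {G c : ℂ → ℂ} {N : ℤ} (hG : Differentiable ℂ G) (hG0 : G 0 ≠ 0)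
    (hc : ContinuousAt c 0) (heq : ∀ᶠ w in 𝓝[≠] (0 : ℂ), G w⁻¹ = w ^ N * c w) : N ≤ 0 := by
  by_contra hN
  push Not at hN
  obtain ⟨n, rfl⟩ : ∃ n : ℕ, N = n := ⟨N.toNat, by omega⟩
  have hn : n ≠ 0 := by omega
  have h1 : Tendsto (fun w : ℂ => w ^ n * c w) (𝓝[≠] 0) (𝓝 0) := by
    have h2 : ContinuousAt (fun w : ℂ => w ^ n * c w) 0 := (continuousAt_id.pow n).mul hc
    have h3 := h2.tendsto.mono_left (nhdsWithin_le_nhds (s := {0}ᶜ))
    simpa [hn] using h3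
  have h4 : Tendsto (fun w : ℂ => G w⁻¹) (𝓝[≠] 0) (𝓝 0) := by
    refine h1.congr' ?_
    filter_upwards [heq] with w hw
    rw [hw]
    norm_cast
  have h5 : Tendsto G (cocompact ℂ) (𝓝 0) := by
    have h6 : Tendsto (fun z : ℂ => z⁻¹) (cocompact ℂ) (𝓝[≠] 0) := by
      rw [← Metric.cobounded_eq_cocompact]
      exact Filter.tendsto_inv₀_cobounded'
    have h7 := h4.comp h6
    refine h7.congr (fun z => ?_)
    simp
  have h8 := hG.eq_const_of_tendsto_cocompact h5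
  apply hG0
  rw [h8]
  rfl

lemma prod_analytic {S : Finset ℂ} {m : ℂ → ℤ} {f : ℂ → ℂ → ℂ} {z₀ : ℂ}
    (hf : ∀ s ∈ S, AnalyticAt ℂ (f s) z₀) (h0 : ∀ s ∈ S, f s z₀ ≠ 0) :
    AnalyticAt ℂ (fun z => ∏ s ∈ S, (f s z) ^ (m s)) z₀ ∧ ∏ s ∈ S, (f s z₀) ^ (m s) ≠ 0 := by
  constructor
  · exact Finset.analyticAt_fun_prod S (fun s hs => (hf s hs).fun_zpow (h0 s hs))
  · exact Finset.prod_ne_zero_iff.2 (fun s hs => zpow_ne_zero _ (h0 s hs))

lemma zpow_sum' {w : ℂ} (hw : w ≠ 0) (S : Finset ℂ) (n : ℂ → ℤ) :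
    w ^ (∑ s ∈ S, n s) = ∏ s ∈ S, w ^ (n s) := by
  classical
  induction S using Finset.induction_on with
  | empty => simp
  | insert a S ha ih => rw [Finset.sum_insert ha, Finset.prod_insert ha, zpow_add₀ hw, ih]

end ULIM

open ULIM Filter in
theorem specLiou : SpecLiou := by
  intro g S m k hm hloc hinf
  classical
  set p : ℂ → ℂ := fun z => ∏ s ∈ S, (z - s) ^ (m s) with hp
  set h : ℂ → ℂ := fun z => g z / p z with hh
  -- local form
  have hlocal : ∀ z₀ : ℂ, ∃ U : ℂ → ℂ, AnalyticAt ℂ U z₀ ∧ U z₀ ≠ 0 ∧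
      ∀ᶠ z in 𝓝[≠] z₀, h z = U z := by
    intro z₀
    obtain ⟨u, hu, hu0, hg⟩ := hloc z₀
    have hpr : ∀ z, p z = (z - z₀) ^ (m z₀) * ∏ s ∈ S.erase z₀, (z - s) ^ (m s) := by
      intro z
      by_cases hz : z₀ ∈ S
      · exact (Finset.mul_prod_erase S (fun s => (z - s) ^ (m s)) hz).symm
      · rw [hm z₀ hz, zpow_zero, one_mul, Finset.erase_eq_of_notMem hz]
    obtain ⟨hr, hr0⟩ := prod_analytic (S := S.erase z₀) (m := m) (f := fun s z => z - s)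
      (z₀ := z₀) (fun s _ => by fun_prop)
      (fun s hs => sub_ne_zero.2 (Ne.symm (Finset.ne_of_mem_erase hs)))
    refine ⟨fun z => u z / ∏ s ∈ S.erase z₀, (z - s) ^ (m s), hu.div hr hr0,
      div_ne_zero hu0 hr0, ?_⟩
    filter_upwards [hg, self_mem_nhdsWithin] with z hz hz0
    have hz0' : z - z₀ ≠ 0 := sub_ne_zero.2 hz0
    simp only [hh]
    rw [hz, hpr z, mul_div_mul_left _ _ (zpow_ne_zero _ hz0')]
  -- the entire function
  set G := reg h with hG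
  have hGan : ∀ z₀, AnalyticAt ℂ G z₀ ∧ G z₀ ≠ 0 := by
    intro z₀
    obtain ⟨U, hU, hU0, heq⟩ := hlocal z₀
    have h1 := reg_eq hU heq
    refine ⟨hU.congr ?_, ?_⟩
    · filter_upwards [h1] with z hz
      exact hz.symm
    · rw [hG, h1.self_of_nhds]
      exact hU0
  -- infinity
  obtain ⟨u, hu, hu0, hg⟩ := hinf
  set M : ℤ := ∑ z ∈ S, m z with hM
  obtain ⟨hr, hr0⟩ := prod_analytic (S := S) (m := m) (f := fun s w => 1 - s * w)
      (z₀ := 0) (fun s _ => by fun_prop) (fun s _ => by simp)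
  set r : ℂ → ℂ := fun w => ∏ s ∈ S, (1 - s * w) ^ (m s) with hrdef
  set c : ℂ → ℂ := fun w => u w / r w with hc
  have hcan : AnalyticAt ℂ c 0 := hu.div hr hr0
  have hc0 : c 0 ≠ 0 := div_ne_zero hu0 hr0
  have hpw : ∀ w : ℂ, w ≠ 0 → p w⁻¹ = w ^ (-M) * r w := by
    intro w hw
    simp only [hp, hrdef]
    rw [hM, ← Finset.sum_neg_distrib, zpow_sum' hw, ← Finset.prod_mul_distrib]
    apply Finset.prod_congr rfl
    intro s _
    have : w⁻¹ - s = w⁻¹ * (1 - s * w) := by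
      field_simp
    rw [this, mul_zpow, inv_zpow, zpow_neg]
  have hinfty : ∀ᶠ w in 𝓝[≠] (0 : ℂ), h w⁻¹ = w ^ (M + k) * c w := by
    filter_upwards [hg, self_mem_nhdsWithin] with w hw hw0
    have hw0' : w ≠ 0 := hw0
    simp only [hh, hc]
    rw [hw, hpw w hw0', zpow_add₀ hw0', zpow_neg]
    have : w ^ M ≠ 0 := zpow_ne_zero _ hw0'
    field_simp
  have hGinf := reg_inf hcan hinfty
  have hGd : Differentiable ℂ G := fun z => (hGan z).1.differentiableAt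
  have h1 := le_zero hGd (hGan 0).2 hcan.continuousAt hGinf
  have hGd' : Differentiable ℂ (fun z => (G z)⁻¹) := fun z =>
    ((hGan z).1.inv (hGan z).2).differentiableAt
  have h2 := le_zero (G := fun z => (G z)⁻¹) (c := fun w => (c w)⁻¹) (N := -(M + k)) hGd'
    (inv_ne_zero (hGan 0).2) (hcan.inv hc0).continuousAt (by
      filter_upwards [hGinf] with w hw
      rw [← hG] at hw
      rw [hw, mul_inv, zpow_neg])
  omega

end Pool.Agent.MP_8f595d_ag
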