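import Pool.Agent.Lib.MP_8f595d_ag.USpec

/-!
# Module UNM: the intersection numbers, with uniqueness
-/

set_option autoImplicit false

open scoped Topology LinearAlgebra.Projectivization

namespace Pool.Agent.MP_8f595d_ag

theorem specNumU (hN : SpecNum) (hU : SpecUniq) (hR : SpecRat) (hC : SpecCompat)
    (hT : SpecVTop) (hL : SpecLin) : SpecNumU := by
  classical
  intro K h h0 hD
  obtain ⟨hself, hdot⟩ := hN K h h0 hD
  have := hT.1
  have := hT.2
  have hln := hL.2.2.2.2.2.2.2.2.1
  have hratE : ∀ b, IsRationalCurve K.atl (cE K h b).1 := fun b => (hR K).1 b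
  have hratL : ∀ (l : Fin 3 → ℂ) (hl : l ≠ 0), IsRationalCurve K.atl (cL K h l hl).1 :=
    fun l hl => (hR K).2 l hl
  have hratD : ∀ i, IsRationalCurve K.atl (Dc K hD i).1 := by
    intro i
    change IsRationalCurve K.atl (Dset i)
    unfold Dset
    split_ifs with hi
    · exact (hR K).2 _ (hln _)
    · exact (hR K).1 _
  have huniq := fun C hrat B n n' => hU V K.atl (hC K) C hrat B n n'
  constructor
  · intro i n
    constructor
    · intro hn
      exact huniq _ (hratD i) _ _ _ hn (hself i)
    · rintro rfl
      exact hself i
  · intro n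
    constructor
    · rintro ⟨d, hd, rfl⟩
      obtain ⟨d', hd', h2⟩ := hdot
      rw [h2]
      refine Finset.sum_congr rfl (fun C hCs => ?_)
      congr 1
      have hCC : C = cL K h (ln 0) h0 ∨ ∃ b, C = cE K h b := by
        by_contra hcon
        push Not at hcon
        rw [Finsupp.mem_support_iff] at hCs
        apply hCs
        unfold K0
        rw [Finsupp.add_apply, Finsupp.finsetSum_apply, Finsupp.single_apply,
          if_neg (fun hc => hcon.1 hc.symm), zero_add]
        refine Finset.sum_eq_zero fun b _ => ?_
        rw [Finsupp.single_apply, if_neg (fun hc => hcon.2 b hc.symm)]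
      have hrat : IsRationalCurve K.atl C.1 := by
        rcases hCC with rfl | ⟨b, rfl⟩
        · exact hratL _ h0
        · exact hratE b
      exact huniq C hrat _ _ _ (hd C hCs) (hd' C hCs)
    · rintro rfl
      exact hdot

end Pool.Agent.MP_8f595d_ag
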