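import Pool.Agent.Lib.MP_8f595d_ag.USpec

/-!
# Module URA: two local equations of the same curve
-/

set_option autoImplicit false

open scoped Topology

namespace Pool.Agent.MP_8f595d_ag

namespace URAM

open Filter Asymptotics

/-- the linear form killing `v` -/
noncomputable def Lf (v : ℂ × ℂ) : ℂ × ℂ →L[ℂ] ℂ :=
  v.2 • ContinuousLinearMap.fst ℂ ℂ ℂ - v.1 • ContinuousLinearMap.snd ℂ ℂ ℂ

lemma Lf_apply (v u : ℂ × ℂ) : Lf v u = v.2 * u.1 - v.1 * u.2 := by
  simp [Lf]

lemma Lf_ker {v w : ℂ × ℂ} (hv : v ≠ 0) (h : Lf v w = 0) : ∃ τ : ℂ, w = τ • v := by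
  rw [Lf_apply] at h
  by_cases h1 : v.1 = 0
  · have h2 : v.2 ≠ 0 := fun h2 => hv (Prod.ext h1 h2)
    refine ⟨w.2 / v.2, ?_⟩
    rw [h1, zero_mul, sub_zero] at h
    have hw : w.1 = 0 := (mul_eq_zero.1 h).resolve_left h2
    ext
    · simp [hw, h1]
    · simp [h2]
  · refine ⟨w.1 / v.1, ?_⟩
    ext
    · simp [h1]
    · simp only [Prod.smul_snd, smul_eq_mul]
      field_simp
      linear_combination -h

/-- `(D, L_v)` is an isomorphism if `D v ≠ 0` -/
noncomputable def Eq (D : ℂ × ℂ →L[ℂ] ℂ) (v : ℂ × ℂ) (h : D v ≠ 0) : (ℂ × ℂ) ≃L[ℂ] (ℂ × ℂ) :=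
  (LinearEquiv.ofInjectiveEndo ((D.prod (Lf v) : ℂ × ℂ →L[ℂ] ℂ × ℂ) : ℂ × ℂ →ₗ[ℂ] ℂ × ℂ) (by
    rw [← LinearMap.ker_eq_bot, LinearMap.ker_eq_bot']
    intro w hw
    have h1 : D w = 0 := congrArg Prod.fst hw
    have h2 : Lf v w = 0 := congrArg Prod.snd hw
    have hv : v ≠ 0 := by
      intro h0
      rw [h0, map_zero] at h
      exact h rfl
    obtain ⟨τ, rfl⟩ := Lf_ker hv h2
    rw [map_smul, smul_eq_mul] at h1
    rw [(mul_eq_zero.1 h1).resolve_right h, zero_smul])).toContinuousLinearEquiv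

lemma Eq_apply (D : ℂ × ℂ →L[ℂ] ℂ) (v : ℂ × ℂ) (h : D v ≠ 0) (w : ℂ × ℂ) :
    Eq D v h w = (D w, Lf v w) := rfl

lemma Eq_coe (D : ℂ × ℂ →L[ℂ] ℂ) (v : ℂ × ℂ) (h : D v ≠ 0) :
    ((Eq D v h : (ℂ × ℂ) ≃L[ℂ] (ℂ × ℂ)) : ℂ × ℂ →L[ℂ] ℂ × ℂ) = D.prod (Lf v) := by
  ext <;> rfl

/-- the differentials are proportional -/
lemma prop_deriv {F G : ℂ × ℂ → ℂ} {D D' : ℂ × ℂ →L[ℂ] ℂ} {y : ℂ × ℂ}
    (hF : HasStrictFDerivAt F D y) (hG : HasStrictFDerivAt G D' y) (h0 : F y = 0)
    (hFG : ∀ᶠ x in 𝓝 y, F x = 0 → G x = 0) (v : ℂ × ℂ) (hv : D v ≠ 0) :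
    ∃ γ : ℂ, D' = γ • D := by
  have hψ : HasStrictFDerivAt (fun x => (F x, Lf v x)) ((Eq D v hv : (ℂ × ℂ) ≃L[ℂ] (ℂ × ℂ)) :
      ℂ × ℂ →L[ℂ] ℂ × ℂ) y := by
    rw [Eq_coe]
    exact hF.prodMk (Lf v).hasStrictFDerivAt
  have hinv := hψ.to_localInverse
  have hval := hψ.localInverse_apply_image
  have hright := hψ.eventually_right_inverse
  set Φ := hψ.localInverse (fun x => (F x, Lf v x)) (Eq D v hv) y with hΦ
  set p₀ : ℂ × ℂ := (F y, Lf v y) with hp₀
  -- the curve `s ↦ Φ (0, s)`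
  have hc : HasFDerivAt (fun s : ℂ => Φ (0, s))
      (((Eq D v hv).symm : ℂ × ℂ →L[ℂ] ℂ × ℂ).comp (ContinuousLinearMap.inr ℂ ℂ ℂ)) (Lf v y) := by
    have h1 : HasFDerivAt (fun s : ℂ => ((0 : ℂ), s)) (ContinuousLinearMap.inr ℂ ℂ ℂ) (Lf v y) :=
      hasFDerivAt_prodMk_right 0 (Lf v y)
    have h2 : HasFDerivAt Φ ((Eq D v hv).symm : ℂ × ℂ →L[ℂ] ℂ × ℂ) ((0 : ℂ), Lf v y) := by
      have := hinv.hasFDerivAt
      rw [← h0]
      exact this
    exact h2.comp (Lf v y) h1
  have hpt : Φ (0, Lf v y) = y := by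
    rw [← h0]
    exact hval
  have hcont : Tendsto (fun s : ℂ => Φ (0, s)) (𝓝 (Lf v y)) (𝓝 y) := by
    have := hc.continuousAt.tendsto
    rwa [hpt] at this
  have hzero : ∀ᶠ s in 𝓝 (Lf v y), G (Φ (0, s)) = 0 := by
    have hp : Tendsto (fun s : ℂ => ((0 : ℂ), s)) (𝓝 (Lf v y)) (𝓝 p₀) := by
      rw [hp₀, h0]
      exact (continuous_const.prodMk continuous_id).tendsto (Lf v y)
    filter_upwards [hp.eventually hright, hcont.eventually hFG] with s hs1 hs2
    apply hs2
    exact congrArg Prod.fst hs1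
  have hG' : HasFDerivAt (fun s : ℂ => G (Φ (0, s)))
      (D'.comp (((Eq D v hv).symm : ℂ × ℂ →L[ℂ] ℂ × ℂ).comp (ContinuousLinearMap.inr ℂ ℂ ℂ)))
      (Lf v y) := by
    have h1 : HasFDerivAt G D' (Φ (0, Lf v y)) := by
      rw [hpt]
      exact hG.hasFDerivAt
    exact h1.comp (Lf v y) hc
  have hG0 : HasFDerivAt (fun s : ℂ => G (Φ (0, s))) (0 : ℂ →L[ℂ] ℂ) (Lf v y) := by
    have h1 : HasFDerivAt (fun _ : ℂ => (0 : ℂ)) (0 : ℂ →L[ℂ] ℂ) (Lf v y) := hasFDerivAt_const _ _
    refine h1.congr_of_eventuallyEq ?_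
    filter_upwards [hzero] with s hs
    exact hs
  have heq := hG'.unique hG0
  have hu : D' ((Eq D v hv).symm (0, 1)) = 0 := by
    have := congrArg (fun f : ℂ →L[ℂ] ℂ => f 1) heq
    simpa using this
  refine ⟨D' ((Eq D v hv).symm (1, 0)), ContinuousLinearMap.ext fun x => ?_⟩
  have hx : x = D x • (Eq D v hv).symm (1, 0) + Lf v x • (Eq D v hv).symm (0, 1) := by
    rw [← map_smul, ← map_smul, ← map_add]
    have : D x • ((1 : ℂ), (0 : ℂ)) + Lf v x • ((0 : ℂ), (1 : ℂ)) = Eq D v hv x := by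
      rw [Eq_apply]
      ext <;> simp
    rw [this, ContinuousLinearEquiv.symm_apply_apply]
  calc D' x = D' (D x • (Eq D v hv).symm (1, 0) + Lf v x • (Eq D v hv).symm (0, 1)) := by
        rw [← hx]
    _ = D' ((Eq D v hv).symm (1, 0)) * D x := by
        rw [map_add, map_smul, map_smul, hu, smul_zero, add_zero, smul_eq_mul, mul_comm]
    _ = _ := rfl

/-- the quotient converges to the quotient of the derivatives -/
lemma lim_quot {F G : ℂ × ℂ → ℂ} {D D' : ℂ × ℂ →L[ℂ] ℂ} {y : ℂ × ℂ}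
    (hF : HasStrictFDerivAt F D y) (hG : HasStrictFDerivAt G D' y) (h0 : F y = 0)
    (hFG : ∀ᶠ x in 𝓝 y, F x = 0 → G x = 0) (v : ℂ × ℂ) (hv : D v ≠ 0) :
    Tendsto (fun x => G x / F x) (𝓝[{x | F x ≠ 0}] y) (𝓝 (D' v / D v)) := by
  have hv0 : v ≠ 0 := by
    intro h
    rw [h, map_zero] at hv
    exact hv rfl
  have hψ : HasStrictFDerivAt (fun x => (F x, Lf v x)) ((Eq D v hv : (ℂ × ℂ) ≃L[ℂ] (ℂ × ℂ)) :
      ℂ × ℂ →L[ℂ] ℂ × ℂ) y := by
    rw [Eq_coe]
    exact hF.prodMk (Lf v).hasStrictFDerivAt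
  have hinv := hψ.to_localInverse
  have hval := hψ.localInverse_apply_image
  have hright := hψ.eventually_right_inverse
  set Φ := hψ.localInverse (fun x => (F x, Lf v x)) (Eq D v hv) y with hΦ
  have hΦc : ContinuousAt Φ (F y, Lf v y) := hinv.hasFDerivAt.continuousAt
  have hp : Tendsto (fun x : ℂ × ℂ => ((0 : ℂ), Lf v x)) (𝓝 y) (𝓝 (F y, Lf v y)) := by
    rw [h0]
    exact (continuous_const.prodMk (Lf v).continuous).tendsto y
  -- the projection along `v`
  set π : ℂ × ℂ → ℂ × ℂ := fun x => Φ (0, Lf v x) with hπ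
  have hπt : Tendsto π (𝓝 y) (𝓝 y) := by
    have := hΦc.tendsto.comp hp
    rw [hval] at this
    exact this
  have hπ1 : ∀ᶠ x in 𝓝 y, F (π x) = 0 ∧ Lf v (π x) = Lf v x ∧ G (π x) = 0 := by
    filter_upwards [hp.eventually hright, hπt.eventually hFG] with x hx1 hx2
    have h1 : F (π x) = 0 := congrArg Prod.fst hx1
    exact ⟨h1, congrArg Prod.snd hx1, hx2 h1⟩
  have hpair : Tendsto (fun x => (x, π x)) (𝓝 y) (𝓝 (y, y)) := tendsto_id.prodMk_nhds hπt
  rw [Metric.tendsto_nhds]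
  intro ε hε
  set a := D v with ha
  set b := D' v with hb
  have hapos : 0 < ‖a‖ := norm_pos_iff.2 hv
  have hvpos : 0 < ‖v‖ := norm_pos_iff.2 hv0
  set M : ℝ := (‖a‖ + ‖b‖) * ‖v‖ with hM
  have hMpos : 0 < M := by positivity
  set δ : ℝ := min (‖a‖ / (2 * ‖v‖)) (ε * ‖a‖ ^ 2 / (4 * M)) with hδ
  have hδ0 : 0 < δ := lt_min (by positivity) (by positivity)
  have hδ1 : δ * ‖v‖ ≤ ‖a‖ / 2 := by
    calc δ * ‖v‖ ≤ ‖a‖ / (2 * ‖v‖) * ‖v‖ := mul_le_mul_of_nonneg_right (min_le_left _ _) hvpos.le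
      _ = ‖a‖ / 2 := by field_simp
  have hδ2 : δ * M ≤ ε * ‖a‖ ^ 2 / 4 := by
    calc δ * M ≤ ε * ‖a‖ ^ 2 / (4 * M) * M := mul_le_mul_of_nonneg_right (min_le_right _ _) hMpos.le
      _ = ε * ‖a‖ ^ 2 / 4 := by field_simp
  have eF := (hF.isLittleO.comp_tendsto hpair).def hδ0
  have eG := (hG.isLittleO.comp_tendsto hpair).def hδ0
  have hmem : ∀ᶠ x in 𝓝 y, F x ≠ 0 → dist (G x / F x) (b / a) < ε := by
    filter_upwards [hπ1, eF, eG] with x hx hxF hxG hne
    obtain ⟨h1, h2, h3⟩ := hx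
    simp only [Function.comp] at hxF hxG
    rw [h1, sub_zero] at hxF
    rw [h3, sub_zero] at hxG
    have hk : Lf v (x - π x) = 0 := by rw [map_sub, h2, sub_self]
    obtain ⟨τ, hτ⟩ := Lf_ker hv0 hk
    rw [hτ, map_smul, smul_eq_mul, norm_smul] at hxF hxG
    rw [← ha] at hxF
    rw [← hb] at hxG
    have hτ0 : τ ≠ 0 := by
      intro h
      rw [h, zero_mul, sub_zero, norm_zero, zero_mul, mul_zero] at hxF
      exact hne (norm_le_zero_iff.1 hxF)
    have hτpos : 0 < ‖τ‖ := norm_pos_iff.2 hτ0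
    -- lower bound of `F`
    have hFlow : ‖a‖ / 2 * ‖τ‖ ≤ ‖F x‖ := by
      have h4 : ‖τ * a‖ ≤ ‖F x‖ + ‖F x - τ * a‖ := by
        have := norm_sub_le (F x) (F x - τ * a)
        have h5 : F x - (F x - τ * a) = τ * a := by ring
        rwa [h5] at this
      rw [norm_mul] at h4
      have h6 : δ * (‖τ‖ * ‖v‖) ≤ ‖a‖ / 2 * ‖τ‖ := by
        calc δ * (‖τ‖ * ‖v‖) = δ * ‖v‖ * ‖τ‖ := by ring
          _ ≤ ‖a‖ / 2 * ‖τ‖ := mul_le_mul_of_nonneg_right hδ1 hτpos.le
      nlinarith
    have hFpos : 0 < ‖F x‖ := norm_pos_iff.2 hne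
    -- numerator
    have hnum : ‖a * G x - b * F x‖ ≤ δ * M * ‖τ‖ := by
      have h4 : a * G x - b * F x = a * (G x - τ * b) - b * (F x - τ * a) := by ring
      rw [h4]
      calc ‖a * (G x - τ * b) - b * (F x - τ * a)‖
          ≤ ‖a * (G x - τ * b)‖ + ‖b * (F x - τ * a)‖ := norm_sub_le _ _
        _ = ‖a‖ * ‖G x - τ * b‖ + ‖b‖ * ‖F x - τ * a‖ := by rw [norm_mul, norm_mul]
        _ ≤ ‖a‖ * (δ * (‖τ‖ * ‖v‖)) + ‖b‖ * (δ * (‖τ‖ * ‖v‖)) :=
            add_le_add (mul_le_mul_of_nonneg_left hxG (norm_nonneg _))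
              (mul_le_mul_of_nonneg_left hxF (norm_nonneg _))
        _ = δ * M * ‖τ‖ := by rw [hM]; ring
    have hdiff : G x / F x - b / a = (a * G x - b * F x) / (a * F x) := by
      field_simp
    rw [dist_eq_norm, hdiff, norm_div, norm_mul, div_lt_iff₀ (by positivity)]
    calc ‖a * G x - b * F x‖ ≤ δ * M * ‖τ‖ := hnum
      _ ≤ ε * ‖a‖ ^ 2 / 4 * ‖τ‖ := mul_le_mul_of_nonneg_right hδ2 hτpos.le
      _ < ε * ‖a‖ ^ 2 / 2 * ‖τ‖ := by
          apply mul_lt_mul_of_pos_right _ hτpos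
          have : 0 < ε * ‖a‖ ^ 2 := by positivity
          linarith
      _ = ε * (‖a‖ * (‖a‖ / 2 * ‖τ‖)) := by ring
      _ ≤ ε * (‖a‖ * ‖F x‖) := by
          apply mul_le_mul_of_nonneg_left _ hε.le
          exact mul_le_mul_of_nonneg_left hFlow hapos.le
  filter_upwards [mem_nhdsWithin_of_mem_nhds hmem, self_mem_nhdsWithin] with x hx hx2
  exact hx hx2

end URAM

open URAM Filter in
theorem specRatio : SpecRatio := by
  intro F G y₀ hF hG hFG hdF hdG
  have hFev : ∀ᶠ y in 𝓝 y₀, AnalyticAt ℂ F y := hF.eventually_analyticAt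
  have hGev : ∀ᶠ y in 𝓝 y₀, AnalyticAt ℂ G y := hG.eventually_analyticAt
  by_cases h0 : F y₀ = 0
  · have hG0 : G y₀ = 0 := (hFG.self_of_nhds).1 h0
    have hdF := hdF h0
    have hdG := hdG hG0
    -- a direction
    obtain ⟨v, hv⟩ : ∃ v, fderiv ℂ F y₀ v ≠ 0 := by
      by_contra hcon
      push Not at hcon
      exact hdF (ContinuousLinearMap.ext hcon)
    have hcF : ContinuousAt (fun y => fderiv ℂ F y v) y₀ :=
      (hF.fderiv.continuousAt).clm_apply continuousAt_const
    have hcG : ContinuousAt (fun y => fderiv ℂ G y v) y₀ :=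
      (hG.fderiv.continuousAt).clm_apply continuousAt_const
    obtain ⟨γ, hγ⟩ := prop_deriv (D := fderiv ℂ F y₀) (D' := fderiv ℂ G y₀)
      hF.hasStrictFDerivAt hG.hasStrictFDerivAt h0 (hFG.mono fun y hy => hy.1) v hv
    have hvG : fderiv ℂ G y₀ v ≠ 0 := by
      intro h
      rw [hγ] at h
      have h1 : γ * fderiv ℂ F y₀ v = 0 := h
      have hγ0 : γ = 0 := (mul_eq_zero.1 h1).resolve_right hv
      apply hdG
      rw [hγ, hγ0]
      apply ContinuousLinearMap.ext
      intro w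
      change (0 : ℂ) * fderiv ℂ F y₀ w = 0
      rw [zero_mul]
    classical
    set H : ℂ × ℂ → ℂ := fun y => if F y ≠ 0 then G y / F y
      else fderiv ℂ G y v / fderiv ℂ F y v with hH
    refine ⟨H, ?_, ?_⟩
    · have hev1 : ∀ᶠ y in 𝓝 y₀, fderiv ℂ F y v ≠ 0 := hcF.eventually_ne hv
      have hev2 : ∀ᶠ y in 𝓝 y₀, fderiv ℂ G y v ≠ 0 := hcG.eventually_ne hvG
      filter_upwards [hFev, hGev, hev1, hev2, hFG.eventually_nhds, hev1.eventually_nhds,
        hFev.eventually_nhds, hGev.eventually_nhds] with y h1 h2 h3 h4 h5 h6 h7 h8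
      have hcont : ContinuousAt H y := by
        by_cases hy : F y = 0
        · have hHy : H y = fderiv ℂ G y v / fderiv ℂ F y v := by
            simp only [hH, hy, ne_eq, not_true_eq_false, if_false]
          have hl1 : Tendsto H (𝓝[{x | F x ≠ 0}] y) (𝓝 (H y)) := by
            rw [hHy]
            have := lim_quot h1.hasStrictFDerivAt h2.hasStrictFDerivAt hy
              (h5.mono fun x hx => hx.1) v h3
            refine this.congr' ?_
            filter_upwards [self_mem_nhdsWithin] with x hx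
            have hx' : F x ≠ 0 := hx
            simp only [hH, hx', ne_eq, not_false_eq_true, if_true]
          have hl2 : Tendsto H (𝓝[{x | F x ≠ 0}ᶜ] y) (𝓝 (H y)) := by
            rw [hHy]
            have k1 : ContinuousAt (fun y => fderiv ℂ G y v) y :=
              (h2.fderiv.continuousAt).clm_apply continuousAt_const
            have k2 : ContinuousAt (fun y => fderiv ℂ F y v) y :=
              (h1.fderiv.continuousAt).clm_apply continuousAt_const
            have hc1 : ContinuousAt (fun y => fderiv ℂ G y v / fderiv ℂ F y v) y := k1.div k2 h3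
            refine (hc1.tendsto.mono_left nhdsWithin_le_nhds).congr' ?_
            filter_upwards [self_mem_nhdsWithin] with x hx
            have hx' : F x = 0 := not_not.1 hx
            simp only [hH, hx', ne_eq, not_true_eq_false, if_false]
          have := hl1.sup hl2
          rwa [← nhdsWithin_union, Set.union_compl_self, nhdsWithin_univ] at this
        · have : ContinuousAt (fun y => G y / F y) y := h2.continuousAt.div h1.continuousAt hy
          refine this.congr ?_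
          filter_upwards [h1.continuousAt.eventually_ne hy] with x hx
          simp only [hH, hx, ne_eq, not_false_eq_true, if_true]
      refine ⟨?_, hcont, ?_⟩
      · simp only [hH]
        split_ifs with hy
        · apply div_ne_zero _ hy
          intro hg
          exact hy (h5.self_of_nhds.2 hg)
        · exact div_ne_zero h4 h3
      · intro φ z hφ hφa
        have hφc : Tendsto φ (𝓝 z) (𝓝 y) := by
          rw [← hφ]
          exact hφa.continuousAt.tendsto
        have hFφ : AnalyticAt ℂ (fun w => F (φ w)) z :=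
          AnalyticAt.comp_of_eq h1 hφa hφ
        rcases hFφ.eventually_eq_zero_or_eventually_ne_zero with hz | hz
        · have hn : AnalyticAt ℂ (fun w => fderiv ℂ G (φ w) v) z := by
            have e1 : AnalyticAt ℂ (fun w => fderiv ℂ G (φ w)) z :=
              AnalyticAt.comp_of_eq h2.fderiv hφa hφ
            exact ((ContinuousLinearMap.apply ℂ ℂ v).analyticAt _).comp e1
          have hd : AnalyticAt ℂ (fun w => fderiv ℂ F (φ w) v) z := by
            have e1 : AnalyticAt ℂ (fun w => fderiv ℂ F (φ w)) z :=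
              AnalyticAt.comp_of_eq h1.fderiv hφa hφ
            exact ((ContinuousLinearMap.apply ℂ ℂ v).analyticAt _).comp e1
          have hne : fderiv ℂ F (φ z) v ≠ 0 := by
            rw [hφ]
            exact h3
          refine (hn.div hd hne).congr ?_
          filter_upwards [hz] with w hw
          simp only [hH, hw, ne_eq, not_true_eq_false, if_false, Pi.div_apply]
        · apply Complex.analyticAt_of_differentiable_on_punctured_nhds_of_continuousAt
          · have hev : ∀ᶠ w in 𝓝[≠] z, AnalyticAt ℂ F (φ w) ∧ AnalyticAt ℂ G (φ w) ∧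
                AnalyticAt ℂ φ w := by
              apply eventually_nhdsWithin_of_eventually_nhds
              exact (hφc.eventually h7).and ((hφc.eventually h8).and hφa.eventually_analyticAt)
            have hz2 : ∀ᶠ w in 𝓝[≠] z, ∀ᶠ x in 𝓝 w, F (φ x) ≠ 0 := by
              have := hz
              rw [← eventually_eventually_nhdsWithin] at this
              filter_upwards [this, self_mem_nhdsWithin] with w hw hwz
              have : 𝓝[≠] z ≤ 𝓝[≠] z := le_rfl
              rw [← (isOpen_compl_singleton.nhdsWithin_eq (show w ∈ ({z} : Set ℂ)ᶜ from hwz))]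
              exact hw
            filter_upwards [hev, hz2] with w hw hw2
            obtain ⟨a1, a2, a3⟩ := hw
            have b1 : AnalyticAt ℂ (fun w => F (φ w)) w := AnalyticAt.fun_comp a1 a3
            have b2 : AnalyticAt ℂ (fun w => G (φ w)) w := AnalyticAt.fun_comp a2 a3
            have b3 : AnalyticAt ℂ (fun w => G (φ w) / F (φ w)) w := b2.div b1 hw2.self_of_nhds
            refine (b3.congr ?_).differentiableAt
            filter_upwards [hw2] with x hx
            simp only [hH, hx, ne_eq, not_false_eq_true, if_true]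
          · have : ContinuousAt H (φ z) := by rw [hφ]; exact hcont
            exact ContinuousAt.comp (f := φ) this hφa.continuousAt
    · filter_upwards [hFG] with y hy
      simp only [hH]
      by_cases h : F y = 0
      · rw [h, mul_zero]
        exact hy.1 h
      · rw [if_pos h, div_mul_cancel₀ _ h]
  · have hG0 : G y₀ ≠ 0 := fun h => h0 ((hFG.self_of_nhds).2 h)
    refine ⟨fun y => G y / F y, ?_, ?_⟩
    · filter_upwards [hFev, hGev, hF.continuousAt.eventually_ne h0,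
        hG.continuousAt.eventually_ne hG0] with y h1 h2 h3 h4
      refine ⟨div_ne_zero h4 h3, h2.continuousAt.div h1.continuousAt h3, ?_⟩
      intro φ z hφ hφa
      have b1 : AnalyticAt ℂ (fun w => F (φ w)) z := AnalyticAt.comp_of_eq h1 hφa hφ
      have b2 : AnalyticAt ℂ (fun w => G (φ w)) z := AnalyticAt.comp_of_eq h2 hφa hφ
      have hne : F (φ z) ≠ 0 := by rw [hφ]; exact h3
      exact b2.div b1 hne
    · filter_upwards [hF.continuousAt.eventually_ne h0] with y hy
      rw [div_mul_cancel₀ _ hy]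

end Pool.Agent.MP_8f595d_ag
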