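import Pool.Agent.Lib.MP_8f595d_ag.VSpec

/-! # Intersections of the curves on `V` (module VIN) -/

set_option autoImplicit false

open scoped LinearAlgebra.Projectivization

namespace Pool.Agent.MP_8f595d_ag.VINM

theorem rep_mk {n : ℕ} (v : Fin n → ℂ) (hv : v ≠ 0) :
    ∃ c : ℂ, c ≠ 0 ∧ (Projectivization.mk ℂ v hv).rep = c • v := by
  obtain ⟨a, ha⟩ := Projectivization.exists_smul_eq_mk_rep ℂ v hv
  exact ⟨a, a.ne_zero, ha.symm⟩

theorem eq_of_rep {n : ℕ} (p q : ℙ ℂ (Fin n → ℂ)) (c : ℂ) (h : p.rep = c • q.rep) : p = q := by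
  rw [← p.mk_rep, ← q.mk_rep, Projectivization.mk_eq_mk_iff']
  exact ⟨c, h.symm⟩

theorem p1_eq (m m' : P1) (h : m.rep 0 * m'.rep 1 = m.rep 1 * m'.rep 0) : m = m' := by
  by_cases h0 : m'.rep 0 = 0
  · have h1 : m'.rep 1 ≠ 0 := by
      intro h1
      apply m'.rep_nonzero
      funext i
      fin_cases i
      · exact h0
      · exact h1
    rw [h0, mul_zero] at h
    have h2 : m.rep 0 = 0 := by
      rcases mul_eq_zero.mp h with h | h
      · exact h
      · exact absurd h h1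
    apply eq_of_rep m m' (m.rep 1 / m'.rep 1)
    funext i
    fin_cases i
    · show m.rep 0 = m.rep 1 / m'.rep 1 * m'.rep 0
      rw [h0, h2, mul_zero]
    · show m.rep 1 = m.rep 1 / m'.rep 1 * m'.rep 1
      field_simp
  · apply eq_of_rep m m' (m.rep 0 / m'.rep 0)
    funext i
    fin_cases i
    · show m.rep 0 = m.rep 0 / m'.rep 0 * m'.rep 0
      field_simp
    · show m.rep 1 = m.rep 0 / m'.rep 0 * m'.rep 1
      field_simp
      rw [h]

theorem slope_unique {A B a c a' c' : ℂ} (hAB : ¬ (A = 0 ∧ B = 0)) (h : A * c = B * a)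
    (h' : A * c' = B * a') : a * c' = c * a' := by
  by_cases hA : A = 0
  · have hB : B ≠ 0 := fun hB => hAB ⟨hA, hB⟩
    rw [hA, zero_mul] at h h'
    have h1 : a = 0 := by
      rcases mul_eq_zero.mp h.symm with h | h
      · exact absurd h hB
      · exact h
    have h2 : a' = 0 := by
      rcases mul_eq_zero.mp h'.symm with h | h
      · exact absurd h hB
      · exact h
    rw [h1, h2, zero_mul, mul_zero]
  · apply mul_left_cancel₀ hA
    calc A * (a * c') = a * (A * c') := by ring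
      _ = a * (B * a') := by rw [h']
      _ = (B * a) * a' := by ring
      _ = (A * c) * a' := by rw [h]
      _ = A * (c * a') := by ring

theorem dot_smul (l z : Fin 3 → ℂ) (c : ℂ) : dot l (c • z) = c * dot l z := by
  simp only [dot, Pi.smul_apply, smul_eq_mul]
  ring

theorem dot_add (l z z' : Fin 3 → ℂ) : dot l (z + z') = dot l z + dot l z' := by
  simp only [dot, Pi.add_apply]
  ring

theorem dot_ext (l : Fin 3 → ℂ) (h : ∀ z, dot l z = 0) : l = 0 := by
  funext i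
  have h1 := h (Pi.single i 1)
  fin_cases i <;> simpa [dot] using h1

section lin

variable (hL : SpecLin)
include hL

theorem w1_smul (b : Fin 12) (c : ℂ) (z : Fin 3 → ℂ) : w1 b (c • z) = c * w1 b z := by
  have h := (hL.2.2.1 b c 0 z z).2.1
  rwa [zero_smul, add_zero, zero_mul, add_zero] at h

theorem w2_smul (b : Fin 12) (c : ℂ) (z : Fin 3 → ℂ) : w2 b (c • z) = c * w2 b z := by
  have h := (hL.2.2.1 b c 0 z z).2.2
  rwa [zero_smul, add_zero, zero_mul, add_zero] at h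

theorem eq_bv (b : Fin 12) (z : Fin 3 → ℂ) (h1 : w1 b z = 0) (h2 : w2 b z = 0) :
    z = w0 b z • bv b := by
  have h := hL.2.1 b z
  rwa [h1, h2, zero_smul, zero_smul, add_zero, add_zero] at h

theorem dot_exp (b : Fin 12) (l z : Fin 3 → ℂ) :
    dot l z = w0 b z * dot l (bv b) + w1 b z * dot l (d1 b) + w2 b z * dot l (d2 b) := by
  have h := congrArg (dot l) (hL.2.1 b z)
  rwa [dot_add, dot_add, dot_smul, dot_smul, dot_smul] at h

theorem d_ne (b : Fin 12) (l : Fin 3 → ℂ) (hl : l ≠ 0) (h : dot l (bv b) = 0) :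
    ¬ (dot l (d1 b) = 0 ∧ dot l (d2 b) = 0) := by
  rintro ⟨h1, h2⟩
  apply hl
  apply dot_ext
  intro z
  rw [dot_exp hL b l z, h, h1, h2]
  ring

/-- points of `V` from vectors -/
theorem exists_pt (z : Fin 3 → ℂ) (hz : z ≠ 0) (m : Fin 12 → Fin 2 → ℂ) (hm : ∀ b, m b ≠ 0)
    (h : ∀ b, w1 b z * m b 1 = w2 b z * m b 0) :
    ∃ q : V, (∃ c : ℂ, c ≠ 0 ∧ q.1.1.rep = c • z) ∧ ∀ b, ∃ c : ℂ, c ≠ 0 ∧
      (q.1.2 b).rep = c • m b := by
  have hq : ((Projectivization.mk ℂ z hz, fun b => Projectivization.mk ℂ (m b) (hm b)) :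
      P2 × (Fin 12 → P1)) ∈ Vset := by
    intro b
    obtain ⟨c, hc, hc'⟩ := rep_mk z hz
    obtain ⟨d, hd, hd'⟩ := rep_mk (m b) (hm b)
    show w1 b (Projectivization.mk ℂ z hz).rep * (Projectivization.mk ℂ (m b) (hm b)).rep 1 =
      w2 b (Projectivization.mk ℂ z hz).rep * (Projectivization.mk ℂ (m b) (hm b)).rep 0
    rw [hc', hd', w1_smul hL, w2_smul hL, Pi.smul_apply, Pi.smul_apply, smul_eq_mul, smul_eq_mul]
    linear_combination (c * d) * h b
  exact ⟨⟨_, hq⟩, rep_mk z hz, fun b => rep_mk (m b) (hm b)⟩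

/-- slopes of the lift of a point of a line -/
theorem exists_slope (l z : Fin 3 → ℂ) (hlz : dot l z = 0) (b : Fin 12) :
    ∃ m : Fin 2 → ℂ, m ≠ 0 ∧ w1 b z * m 1 = w2 b z * m 0 ∧
      (dot l (bv b) = 0 → dot l (d1 b) * m 0 + dot l (d2 b) * m 1 = 0) := by
  by_cases h : w1 b z = 0 ∧ w2 b z = 0
  · by_cases h' : dot l (d1 b) = 0 ∧ dot l (d2 b) = 0
    · refine ⟨![1, 0], ?_, ?_, ?_⟩
      · intro h0
        have := congrFun h0 0
        simp at this
      · rw [h.1, h.2, zero_mul, zero_mul]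
      · intro _
        rw [h'.1, h'.2]
        simp
    · refine ⟨![-dot l (d2 b), dot l (d1 b)], ?_, ?_, ?_⟩
      · intro h0
        apply h'
        have h1 := congrFun h0 0
        have h2 := congrFun h0 1
        simp only [Matrix.cons_val_zero, Matrix.cons_val_one, Pi.zero_apply, neg_eq_zero] at h1 h2
        exact ⟨h2, h1⟩
      · rw [h.1, h.2, zero_mul, zero_mul]
      · intro _
        simp only [Matrix.cons_val_zero, Matrix.cons_val_one]
        ring
  · refine ⟨![w1 b z, w2 b z], ?_, ?_, ?_⟩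
    · intro h0
      apply h
      have h1 := congrFun h0 0
      have h2 := congrFun h0 1
      simp only [Matrix.cons_val_zero, Matrix.cons_val_one, Pi.zero_apply] at h1 h2
      exact ⟨h1, h2⟩
    · simp only [Matrix.cons_val_zero, Matrix.cons_val_one]
      ring
    · intro h1
      have h2 := dot_exp hL b l z
      rw [hlz, h1, mul_zero, zero_add] at h2
      simp only [Matrix.cons_val_zero, Matrix.cons_val_one]
      rw [h2]
      ring

/-- a point of a line lifts to the strict transform -/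
theorem exists_lift (l z : Fin 3 → ℂ) (hz : z ≠ 0) (hlz : dot l z = 0) :
    ∃ q : V, q ∈ Lt l ∧ ∃ c : ℂ, c ≠ 0 ∧ q.1.1.rep = c • z := by
  choose m hm0 hm1 hm2 using fun b => exists_slope hL l z hlz b
  obtain ⟨q, ⟨c, hc, hqc⟩, hq⟩ := exists_pt hL z hz m hm0 hm1
  refine ⟨q, ⟨?_, ?_⟩, c, hc, hqc⟩
  · rw [hqc, dot_smul, hlz, mul_zero]
  · intro b hb
    obtain ⟨d, hd, hqd⟩ := hq b
    rw [hqd, Pi.smul_apply, Pi.smul_apply, smul_eq_mul, smul_eq_mul]
    linear_combination d * hm2 b hb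

/-- the projection of a strict transform to the plane is injective -/
theorem lt_inj (l : Fin 3 → ℂ) (hl : l ≠ 0) (q q' : V) (hq : q ∈ Lt l) (hq' : q' ∈ Lt l)
    (h : q.1.1 = q'.1.1) : q = q' := by
  apply Subtype.ext
  apply Prod.ext h
  funext b
  apply p1_eq
  have e := q.2 b
  have e' := q'.2 b
  rw [← h] at e'
  by_cases hb : w1 b q.1.1.rep = 0 ∧ w2 b q.1.1.rep = 0
  · have h1 := eq_bv hL b _ hb.1 hb.2
    have h2 : w0 b q.1.1.rep ≠ 0 := by
      intro h0
      rw [h0, zero_smul] at h1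
      exact q.1.1.rep_nonzero h1
    have h3 : dot l (bv b) = 0 := by
      have h4 := hq.1
      rw [h1, dot_smul] at h4
      rcases mul_eq_zero.mp h4 with h | h
      · exact absurd h h2
      · exact h
    have h5 := hq.2 b h3
    have h6 := hq'.2 b h3
    have h7 := d_ne hL b l hl h3
    apply slope_unique (A := dot l (d2 b)) (B := -dot l (d1 b))
    · rintro ⟨h8, h9⟩
      exact h7 ⟨neg_eq_zero.mp h9, h8⟩
    · linear_combination h5
    · linear_combination h6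
  · exact slope_unique hb e e'

theorem rep_ne (b : Fin 12) (q : V) (hq : q ∈ Eb b) : w0 b q.1.1.rep ≠ 0 := by
  intro h0
  have h1 := eq_bv hL b _ hq.1 hq.2
  rw [h0, zero_smul] at h1
  exact q.1.1.rep_nonzero h1

theorem eb_proj (b : Fin 12) (q q' : V) (hq : q ∈ Eb b) (hq' : q' ∈ Eb b) : q.1.1 = q'.1.1 := by
  have h1 := eq_bv hL b _ hq.1 hq.2
  have h2 := eq_bv hL b _ hq'.1 hq'.2
  have h3 := rep_ne hL b q' hq'
  apply eq_of_rep _ _ (w0 b q.1.1.rep / w0 b q'.1.1.rep)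
  rw [h2, h1, smul_smul]
  congr 1
  have h4 : w0 b (w0 b q.1.1.rep • bv b) = w0 b q.1.1.rep := by rw [← h1]
  have h5 : w0 b (w0 b q'.1.1.rep • bv b) = w0 b q'.1.1.rep := by rw [← h2]
  rw [h4, h5]
  field_simp

theorem int_one (b : Fin 12) (l : Fin 3 → ℂ) (hl : l ≠ 0) (h : dot l (bv b) = 0) :
    (Eb b ∩ Lt l).ncard = 1 := by
  rw [Set.ncard_eq_one]
  obtain ⟨q, hq, c, hc, hqc⟩ := exists_lift hL l (bv b) (hL.2.2.2.2.2.1 b) h
  have hw := hL.2.2.2.1 b
  have hqE : q ∈ Eb b := by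
    constructor
    · rw [hqc, w1_smul hL, hw.2.1, mul_zero]
    · rw [hqc, w2_smul hL, hw.2.2.1, mul_zero]
  refine ⟨q, Set.eq_singleton_iff_unique_mem.mpr ⟨⟨hqE, hq⟩, ?_⟩⟩
  rintro q' ⟨h1, h2⟩
  exact lt_inj hL l hl q' q h2 hq (eb_proj hL b q' q h1 hqE)

theorem int_empty (b : Fin 12) (l : Fin 3 → ℂ) (h : dot l (bv b) ≠ 0) : Eb b ∩ Lt l = ∅ := by
  rw [Set.eq_empty_iff_forall_notMem]
  rintro q ⟨h1, h2⟩
  have h3 := rep_ne hL b q h1
  have h4 := h2.1
  rw [eq_bv hL b _ h1.1 h1.2, dot_smul] at h4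
  rcases mul_eq_zero.mp h4 with h5 | h5
  · exact h3 h5
  · exact h h5

theorem eb_disj (b b' : Fin 12) (hb : b ≠ b') : Eb b ∩ Eb b' = ∅ := by
  rw [Set.eq_empty_iff_forall_notMem]
  rintro q ⟨h1, h2⟩
  have h3 := rep_ne hL b q h1
  apply hL.2.2.2.2.2.2.1 b b' hb
  have h4 := h2.1
  have h5 := h2.2
  rw [eq_bv hL b _ h1.1 h1.2] at h4 h5
  rw [w1_smul hL] at h4
  rw [w2_smul hL] at h5
  constructor
  · rcases mul_eq_zero.mp h4 with h6 | h6
    · exact absurd h6 h3
    · exact h6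
  · rcases mul_eq_zero.mp h5 with h6 | h6
    · exact absurd h6 h3
    · exact h6

end lin

/-- the cross product -/
def cr (l l' : Fin 3 → ℂ) : Fin 3 → ℂ :=
  ![l 1 * l' 2 - l 2 * l' 1, l 2 * l' 0 - l 0 * l' 2, l 0 * l' 1 - l 1 * l' 0]

theorem cr_ne (l l' : Fin 3 → ℂ) (h : LinearIndependent ℂ ![l, l']) : cr l l' ≠ 0 := by
  have h1 := crossProduct_ne_zero_iff_linearIndependent.mpr h
  rwa [cross_apply] at h1

theorem dot_cr (l l' : Fin 3 → ℂ) : dot l (cr l l') = 0 := by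
  simp only [dot, cr, Matrix.cons_val_zero, Matrix.cons_val_one, Matrix.cons_val]
  ring

theorem dot_cr' (l l' : Fin 3 → ℂ) : dot l' (cr l l') = 0 := by
  simp only [dot, cr, Matrix.cons_val_zero, Matrix.cons_val_one, Matrix.cons_val]
  ring

/-- the kernel of two independent forms -/
theorem ker_eq (l l' z : Fin 3 → ℂ) (h : LinearIndependent ℂ ![l, l']) (h1 : dot l z = 0)
    (h2 : dot l' z = 0) : ∃ c : ℂ, z = c • cr l l' := by
  have hc := cr_ne l l' h
  have hcr : ∀ i j, z i * cr l l' j = z j * cr l l' i := by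
    have e01 : z 0 * cr l l' 1 = z 1 * cr l l' 0 := by
      simp only [dot] at h1 h2
      simp only [cr, Matrix.cons_val_zero, Matrix.cons_val_one]
      linear_combination l 2 * h2 - l' 2 * h1
    have e02 : z 0 * cr l l' 2 = z 2 * cr l l' 0 := by
      simp only [dot] at h1 h2
      simp only [cr, Matrix.cons_val_zero, Matrix.cons_val]
      linear_combination l' 1 * h1 - l 1 * h2
    have e12 : z 1 * cr l l' 2 = z 2 * cr l l' 1 := by
      simp only [dot] at h1 h2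
      simp only [cr, Matrix.cons_val_one, Matrix.cons_val]
      linear_combination l 0 * h2 - l' 0 * h1
    intro i j
    fin_cases i <;> fin_cases j
    · rfl
    · exact e01
    · exact e02
    · exact e01.symm
    · rfl
    · exact e12
    · exact e02.symm
    · exact e12.symm
    · rfl
  obtain ⟨j, hj⟩ := Function.ne_iff.mp hc
  refine ⟨z j / cr l l' j, ?_⟩
  have hj' : cr l l' j ≠ 0 := hj
  funext i
  rw [Pi.smul_apply, smul_eq_mul]
  field_simp
  exact hcr i j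

section lin2

variable (hL : SpecLin)
include hL

theorem lt_empty (l l' : Fin 3 → ℂ) (h : LinearIndependent ℂ ![l, l'])
    (hb : ∃ b, dot l (bv b) = 0 ∧ dot l' (bv b) = 0) : Lt l ∩ Lt l' = ∅ := by
  obtain ⟨b, h1, h2⟩ := hb
  rw [Set.eq_empty_iff_forall_notMem]
  rintro q ⟨hq, hq'⟩
  obtain ⟨c, hc⟩ := ker_eq l l' _ h h1 h2
  have e1 := hq.2 b h1
  have e2 := hq'.2 b h2
  obtain ⟨c', hc'⟩ := ker_eq l l' ((q.1.2 b).rep 0 • d1 b + (q.1.2 b).rep 1 • d2 b) h
    (by rw [dot_add, dot_smul, dot_smul]; linear_combination e1)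
    (by rw [dot_add, dot_smul, dot_smul]; linear_combination e2)
  have hw := hL.2.2.2.1 b
  have hcne : c ≠ 0 := by
    rintro rfl
    rw [zero_smul] at hc
    exact hL.2.2.2.2.2.1 b hc
  have h3 : cr l l' = c⁻¹ • bv b := by
    rw [hc, smul_smul, inv_mul_cancel₀ hcne, one_smul]
  rw [h3, smul_smul] at hc'
  have l1 := (hL.2.2.1 b ((q.1.2 b).rep 0) ((q.1.2 b).rep 1) (d1 b) (d2 b)).2.1
  have l2 := (hL.2.2.1 b ((q.1.2 b).rep 0) ((q.1.2 b).rep 1) (d1 b) (d2 b)).2.2
  rw [hc', w1_smul hL, hw.2.1, hw.2.2.2.2.1, hw.2.2.2.2.2.2.2.1] at l1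
  rw [hc', w2_smul hL, hw.2.2.1, hw.2.2.2.2.2.1, hw.2.2.2.2.2.2.2.2] at l2
  apply (q.1.2 b).rep_nonzero
  funext i
  fin_cases i
  · show (q.1.2 b).rep 0 = 0
    linear_combination -l1
  · show (q.1.2 b).rep 1 = 0
    linear_combination -l2

omit hL in
theorem lt_proj (l l' : Fin 3 → ℂ) (h : LinearIndependent ℂ ![l, l']) (q q' : V)
    (hq : q ∈ Lt l ∩ Lt l') (hq' : q' ∈ Lt l ∩ Lt l') : q.1.1 = q'.1.1 := by
  obtain ⟨c, hc⟩ := ker_eq l l' _ h hq.1.1 hq.2.1
  obtain ⟨c', hc'⟩ := ker_eq l l' _ h hq'.1.1 hq'.2.1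
  have h1 : c' ≠ 0 := by
    rintro rfl
    rw [zero_smul] at hc'
    exact q'.1.1.rep_nonzero hc'
  apply eq_of_rep _ _ (c / c')
  rw [hc, hc', smul_smul]
  congr 1
  field_simp

theorem lt_one (l l' : Fin 3 → ℂ) (h : LinearIndependent ℂ ![l, l'])
    (hb : ∀ b, ¬ (dot l (bv b) = 0 ∧ dot l' (bv b) = 0)) : (Lt l ∩ Lt l').ncard = 1 := by
  have hl : l ≠ 0 := h.ne_zero 0
  rw [Set.ncard_eq_one]
  obtain ⟨q, hq, c, hc, hqc⟩ := exists_lift hL l (cr l l') (cr_ne l l' h) (dot_cr l l')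
  have hq' : q ∈ Lt l' := by
    constructor
    · rw [hqc, dot_smul, dot_cr', mul_zero]
    · intro b hb'
      -- the point is not `bv b`
      have hne : ¬ (w1 b q.1.1.rep = 0 ∧ w2 b q.1.1.rep = 0) := by
        rintro ⟨h1, h2⟩
        have h3 := rep_ne hL b q ⟨h1, h2⟩
        have h4 := hq.1
        rw [eq_bv hL b _ h1 h2, dot_smul] at h4
        rcases mul_eq_zero.mp h4 with h5 | h5
        · exact h3 h5
        · exact hb b ⟨h5, hb'⟩
      have e := q.2 b
      have e2 := dot_exp hL b l' q.1.1.rep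
      rw [hb', mul_zero, zero_add] at e2
      have e3 : dot l' q.1.1.rep = 0 := by rw [hqc, dot_smul, dot_cr', mul_zero]
      rw [e3] at e2
      have e4 : w1 b q.1.1.rep * (dot l' (d1 b) * (q.1.2 b).rep 0 +
          dot l' (d2 b) * (q.1.2 b).rep 1) = 0 := by
        linear_combination (dot l' (d2 b)) * e - (q.1.2 b).rep 0 * e2
      have e5 : w2 b q.1.1.rep * (dot l' (d1 b) * (q.1.2 b).rep 0 +
          dot l' (d2 b) * (q.1.2 b).rep 1) = 0 := by
        linear_combination (-dot l' (d1 b)) * e - (q.1.2 b).rep 1 * e2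
      by_contra hc0
      apply hne
      constructor
      · rcases mul_eq_zero.mp e4 with h6 | h6
        · exact h6
        · exact absurd h6 hc0
      · rcases mul_eq_zero.mp e5 with h6 | h6
        · exact h6
        · exact absurd h6 hc0
  refine ⟨q, Set.eq_singleton_iff_unique_mem.mpr ⟨⟨hq, hq'⟩, ?_⟩⟩
  intro q' hq''
  exact lt_inj hL l hl q' q hq''.1 hq (lt_proj l l' h q' q hq'' ⟨hq, hq'⟩)

theorem eb_nonempty (b : Fin 12) : (Eb b).Nonempty := by
  obtain ⟨q, hq, c, hc, hqc⟩ := exists_lift hL 0 (bv b) (hL.2.2.2.2.2.1 b) (by simp [dot])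
  have hw := hL.2.2.2.1 b
  refine ⟨q, ?_, ?_⟩
  · rw [hqc, w1_smul hL, hw.2.1, mul_zero]
  · rw [hqc, w2_smul hL, hw.2.2.1, mul_zero]

theorem eb_ne_lt (b : Fin 12) (l : Fin 3 → ℂ) : Eb b ≠ Lt l := by
  intro h
  have hw := hL.2.2.2.1 b
  -- a point of the line different from `bv b`
  obtain ⟨z, hz1, hz2⟩ : ∃ z, dot l z = 0 ∧ ¬ (w1 b z = 0 ∧ w2 b z = 0) := by
    have key : ∀ x y t : ℂ, w1 b (t • bv b + (1 : ℂ) • (x • d1 b + y • d2 b)) = x ∧
        w2 b (t • bv b + (1 : ℂ) • (x • d1 b + y • d2 b)) = y ∧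
        dot l (t • bv b + (1 : ℂ) • (x • d1 b + y • d2 b)) =
          t * dot l (bv b) + x * dot l (d1 b) + y * dot l (d2 b) := by
      intro x y t
      have a1 := (hL.2.2.1 b t 1 (bv b) (x • d1 b + y • d2 b)).2
      have a2 := (hL.2.2.1 b x y (d1 b) (d2 b)).2
      refine ⟨?_, ?_, ?_⟩
      · rw [a1.1, a2.1, hw.2.1, hw.2.2.2.2.1, hw.2.2.2.2.2.2.2.1]
        ring
      · rw [a1.2, a2.2, hw.2.2.1, hw.2.2.2.2.2.1, hw.2.2.2.2.2.2.2.2]
        ring
      · rw [dot_add, dot_smul, dot_smul, dot_add, dot_smul, dot_smul]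
        ring
    obtain ⟨x, y, t, hxy, ht⟩ : ∃ x y t : ℂ, ¬ (x = 0 ∧ y = 0) ∧
        t * dot l (bv b) + x * dot l (d1 b) + y * dot l (d2 b) = 0 := by
      by_cases h0 : dot l (bv b) = 0
      · by_cases h1 : dot l (d1 b) = 0 ∧ dot l (d2 b) = 0
        · refine ⟨1, 0, 0, fun hh => one_ne_zero hh.1, ?_⟩
          rw [h1.1]
          ring
        · refine ⟨-dot l (d2 b), dot l (d1 b), 0, fun hh => h1 ⟨hh.2, neg_eq_zero.mp hh.1⟩, ?_⟩
          ring
      · refine ⟨1, 0, -dot l (d1 b) / dot l (bv b), fun hh => one_ne_zero hh.1, ?_⟩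
        field_simp
        ring
    refine ⟨t • bv b + (1 : ℂ) • (x • d1 b + y • d2 b), ?_, ?_⟩
    · rw [(key x y t).2.2]
      exact ht
    · rw [(key x y t).1, (key x y t).2.1]
      exact hxy
  have hz0 : z ≠ 0 := by
    rintro rfl
    apply hz2
    have e1 := w1_smul hL b 0 (0 : Fin 3 → ℂ)
    have e2 := w2_smul hL b 0 (0 : Fin 3 → ℂ)
    rw [smul_zero, zero_mul] at e1 e2
    exact ⟨e1, e2⟩
  obtain ⟨q, hq, c, hc, hqc⟩ := exists_lift hL l z hz0 hz1
  rw [← h] at hq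
  apply hz2
  have h1 := hq.1
  have h2 := hq.2
  rw [hqc, w1_smul hL] at h1
  rw [hqc, w2_smul hL] at h2
  constructor
  · rcases mul_eq_zero.mp h1 with h3 | h3
    · exact absurd h3 hc
    · exact h3
  · rcases mul_eq_zero.mp h2 with h3 | h3
    · exact absurd h3 hc
    · exact h3

theorem eb_ne (b b' : Fin 12) (hb : b ≠ b') : Eb b ≠ Eb b' := by
  intro h
  have h1 := eb_disj hL b b' hb
  rw [← h, Set.inter_self] at h1
  exact (eb_nonempty hL b).ne_empty h1

theorem lt_ne (l l' : Fin 3 → ℂ) (h : LinearIndependent ℂ ![l, l']) : Lt l ≠ Lt l' := by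
  intro he
  have hc := cr_ne l l' h
  obtain ⟨i, hi⟩ := Function.ne_iff.mp hc
  have hi' : cr l l' i ≠ 0 := hi
  have h1 : dot l' (cr l (Pi.single i 1)) = - cr l l' i := by
    fin_cases i <;> simp [dot, cr] <;> ring
  have h2 : cr l (Pi.single i 1) ≠ 0 := by
    intro h0
    rw [h0] at h1
    apply hi'
    have : dot l' 0 = 0 := by simp [dot]
    rw [this] at h1
    exact neg_eq_zero.mp h1.symm
  obtain ⟨q, hq, c, hc, hqc⟩ := exists_lift hL l (cr l (Pi.single i 1)) h2 (dot_cr l _)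
  rw [he] at hq
  have h3 := hq.1
  rw [hqc, dot_smul, h1] at h3
  rcases mul_eq_zero.mp h3 with h4 | h4
  · exact hc h4
  · exact hi' (neg_eq_zero.mp h4)

end lin2

end Pool.Agent.MP_8f595d_ag.VINM

namespace Pool.Agent.MP_8f595d_ag

open VINM in
theorem specIntE (hL : SpecLin) : SpecIntE :=
  ⟨fun b l hl h => int_one hL b l hl h, fun b l h => int_empty hL b l h,
    fun b b' h => eb_disj hL b b' h,
    fun l l' h => ⟨fun hb => lt_empty hL l l' h hb, fun hb => lt_one hL l l' h hb⟩,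
    fun b l => eb_ne_lt hL b l, fun b b' h => eb_ne hL b b' h, fun l l' h => lt_ne hL l l' h⟩

end Pool.Agent.MP_8f595d_ag
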