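import Pool.Agent.Lib.MP_8f595d_ag.VCH

/-!
# Module VTR: the transition maps
-/

set_option autoImplicit false

open scoped Topology LinearAlgebra.Projectivization Manifold ContDiff

namespace Pool.Agent.MP_8f595d_ag

namespace VTRM

open Pool.Agent.SH Pool.Agent.SH.HptM VCHM

/-! ### analyticity -/

lemma zz_an (b : Fin 12) (ε : Fin 2) (i : Fin 3) (y : ℂ × ℂ) :
    AnalyticAt ℂ (fun y => zz b ε y i) y := by
  have hf : AnalyticAt ℂ (fun y : ℂ × ℂ => y.1) y := analyticAt_fst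
  have hs : AnalyticAt ℂ (fun y : ℂ × ℂ => y.2) y := analyticAt_snd
  unfold zz
  split_ifs
  · simp only [Pi.add_apply, Pi.smul_apply, smul_eq_mul]
    exact (analyticAt_const.add (hf.mul analyticAt_const)).add ((hf.mul hs).mul analyticAt_const)
  · simp only [Pi.add_apply, Pi.smul_apply, smul_eq_mul]
    exact (analyticAt_const.add ((hf.mul hs).mul analyticAt_const)).add (hf.mul analyticAt_const)

lemma w0_an (b b' : Fin 12) (ε : Fin 2) (y : ℂ × ℂ) :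
    AnalyticAt ℂ (fun y => w0 b' (zz b ε y)) y := by
  unfold w0
  split_ifs
  · exact zz_an b ε 0 y
  · exact zz_an b ε 1 y
  · exact zz_an b ε 2 y

lemma w1_an (b b' : Fin 12) (ε : Fin 2) (y : ℂ × ℂ) :
    AnalyticAt ℂ (fun y => w1 b' (zz b ε y)) y := by
  unfold w1
  split_ifs
  · exact (zz_an b ε 1 y).sub (analyticAt_const.mul (zz_an b ε 0 y))
  · exact zz_an b ε 0 y

lemma w2_an (b b' : Fin 12) (ε : Fin 2) (y : ℂ × ℂ) :
    AnalyticAt ℂ (fun y => w2 b' (zz b ε y)) y := by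
  unfold w2
  split_ifs
  · exact (zz_an b ε 2 y).sub (analyticAt_const.mul (zz_an b ε 0 y))
  · exact zz_an b ε 2 y
  · exact (zz_an b ε 1 y).sub (analyticAt_const.mul (zz_an b ε 2 y))

lemma mm_an (ε : Fin 2) (j : Fin 2) (y : ℂ × ℂ) : AnalyticAt ℂ (fun y => mm ε y j) y := by
  unfold mm
  split_ifs
  · fin_cases j
    · simpa using analyticAt_const
    · simpa using analyticAt_snd
  · fin_cases j
    · simpa using analyticAt_snd
    · simpa using analyticAt_const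

/-- slope vector of the point `ptS b ε y` at `b'` -/
noncomputable def sl (b : Fin 12) (ε : Fin 2) (b' : Fin 12) (y : ℂ × ℂ) : Fin 2 → ℂ :=
  if b' = b then mm ε y else ![w1 b' (zz b ε y), w2 b' (zz b ε y)]

lemma sl_an (b : Fin 12) (ε : Fin 2) (b' : Fin 12) (j : Fin 2) (y : ℂ × ℂ) :
    AnalyticAt ℂ (fun y => sl b ε b' y j) y := by
  unfold sl
  split_ifs
  · exact mm_an ε j y
  · fin_cases j
    · exact w1_an b b' ε y
    · exact w2_an b b' ε y

/-- the transition map -/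
noncomputable def tau (b : Fin 12) (ε : Fin 2) (b' : Fin 12) (ε' : Fin 2) (y : ℂ × ℂ) : ℂ × ℂ :=
  if ε' = 0 then (w1 b' (zz b ε y) / w0 b' (zz b ε y), sl b ε b' y 1 / sl b ε b' y 0)
  else (w2 b' (zz b ε y) / w0 b' (zz b ε y), sl b ε b' y 0 / sl b ε b' y 1)

lemma slp_sl (b : Fin 12) (ε : Fin 2) (y : ℂ × ℂ) (hy : y ∈ Tgt b ε) (b' : Fin 12) :
    ∃ k : ℂ, k ≠ 0 ∧ (slp b ε y b').rep = k • sl b ε b' y := by
  unfold sl
  by_cases hb : b' = b
  · rw [if_pos hb, hb]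
    exact slp_rep b ε y
  · rw [if_neg hb]
    exact slp_rep' b ε y hy b' hb

lemma co_tau (h1 : SpecLin) (b : Fin 12) (ε : Fin 2) (b' : Fin 12) (ε' : Fin 2) (y : ℂ × ℂ)
    (hy : y ∈ Tgt b ε) (q : V) (hq : q.1 = ptS b ε y) : co b' ε' q = tau b ε b' ε' y := by
  obtain ⟨a, ha, hz⟩ := mk2_rep (zz_ne h1 b ε y)
  obtain ⟨k, hk, hs⟩ := slp_sl b ε y hy b'
  have e1 : q.1.1.rep = a • zz b ε y := by
    rw [hq]
    exact hz
  have e2 : (q.1.2 b').rep = k • sl b ε b' y := by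
    rw [hq]
    exact hs
  unfold co tau
  rw [e1, e2, w0_smul, w1_smul, w2_smul]
  simp only [Pi.smul_apply, smul_eq_mul]
  rw [mul_div_mul_left _ _ ha, mul_div_mul_left _ _ ha, mul_div_mul_left _ _ hk,
    mul_div_mul_left _ _ hk]

lemma src_ne (h1 : SpecLin) (b : Fin 12) (ε : Fin 2) (b' : Fin 12) (ε' : Fin 2) (y : ℂ × ℂ)
    (hy : y ∈ Tgt b ε) (q : V) (hq : q.1 = ptS b ε y) (hs : q ∈ Src b' ε') :
    w0 b' (zz b ε y) ≠ 0 ∧ sl b ε b' y ε' ≠ 0 := by
  obtain ⟨a, ha, hz⟩ := mk2_rep (zz_ne h1 b ε y)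
  obtain ⟨k, hk, hs'⟩ := slp_sl b ε y hy b'
  have e1 : q.1.1.rep = a • zz b ε y := by
    rw [hq]
    exact hz
  have e2 : (q.1.2 b').rep = k • sl b ε b' y := by
    rw [hq]
    exact hs'
  obtain ⟨h2, h3, -⟩ := hs
  rw [e1, w0_smul] at h2
  rw [e2, Pi.smul_apply, smul_eq_mul] at h3
  exact ⟨right_ne_zero_of_mul h2, right_ne_zero_of_mul h3⟩

lemma tau_an (b : Fin 12) (ε : Fin 2) (b' : Fin 12) (ε' : Fin 2) (y : ℂ × ℂ)
    (h0 : w0 b' (zz b ε y) ≠ 0) (h1 : sl b ε b' y ε' ≠ 0) :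
    AnalyticAt ℂ (tau b ε b' ε') y := by
  unfold tau
  fin_cases ε'
  · simp only [Fin.zero_eta, ↓reduceIte]
    exact ((w1_an b b' ε y).div (w0_an b b' ε y) h0).prod
      ((sl_an b ε b' 1 y).div (sl_an b ε b' 0 y) h1)
  · simp only [Fin.mk_one, one_ne_zero, ↓reduceIte]
    exact ((w2_an b b' ε y).div (w0_an b b' ε y) h0).prod
      ((sl_an b ε b' 0 y).div (sl_an b ε b' 1 y) h1)

lemma zz_tau (h1 : SpecLin) (b : Fin 12) (ε : Fin 2) (b' : Fin 12) (ε' : Fin 2) (y : ℂ × ℂ)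
    (hy : y ∈ Tgt b ε) (q : V) (hq : q.1 = ptS b ε y) (hs : q ∈ Src b' ε') :
    zz b' ε' (tau b ε b' ε' y) = (w0 b' (zz b ε y))⁻¹ • zz b ε y := by
  rw [← co_tau h1 b ε b' ε' y hy q hq, zz_co h1 b' ε' q hs]
  obtain ⟨a, ha, hz⟩ := mk2_rep (zz_ne h1 b ε y)
  have e1 : q.1.1.rep = a • zz b ε y := by
    rw [hq]
    exact hz
  rw [e1, w0_smul, smul_smul]
  congr 1
  rw [mul_inv, mul_comm a⁻¹, mul_assoc, inv_mul_cancel₀ ha, mul_one]

/-! ### determinants -/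

/-- the `3 × 3` determinant -/
def D3 (a b c : Fin 3 → ℂ) : ℂ :=
  a 0 * (b 1 * c 2 - b 2 * c 1) - a 1 * (b 0 * c 2 - b 2 * c 0) + a 2 * (b 0 * c 1 - b 1 * c 0)

lemma D3_comb (z A B : Fin 3 → ℂ) (p q r s : ℂ) :
    D3 z (p • A + q • B) (r • A + s • B) = (p * s - q * r) * D3 z A B := by
  unfold D3
  simp only [Pi.add_apply, Pi.smul_apply, smul_eq_mul]
  ring

lemma D3_smul (z A B : Fin 3 → ℂ) (g α β : ℂ) :
    D3 (g • z) (g • A + α • z) (g • B + β • z) = g ^ 3 * D3 z A B := by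
  unfold D3
  simp only [Pi.add_apply, Pi.smul_apply, smul_eq_mul]
  ring

lemma D3_base (h1 : SpecLin) (b : Fin 12) :
    D3 (bv b) (d1 b) (d2 b) = if b = 8 then -1 else 1 := by
  obtain ⟨-, -, -, h, -⟩ := h1
  obtain ⟨h0, -⟩ := h b
  rcases lt_trichotomy b 8 with hb | hb | hb
  · rw [if_neg hb.ne]
    unfold w0 at h0
    rw [if_pos hb] at h0
    unfold d1 d2 D3
    rw [if_pos hb, if_pos hb.le]
    simp [h0]
  · rw [if_pos hb]
    unfold w0 at h0
    rw [if_neg hb.not_lt, if_pos hb] at h0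
    unfold d1 d2 D3
    rw [if_neg hb.not_lt, if_pos hb.le]
    simp [h0]
  · rw [if_neg hb.ne']
    unfold w0 at h0
    rw [if_neg hb.not_gt, if_neg hb.ne'] at h0
    unfold d1 d2 D3
    rw [if_neg hb.not_gt, if_neg hb.not_ge]
    simp [h0]

/-- the derivative of `zz b ε` at `y` -/
noncomputable def dz (b : Fin 12) (ε : Fin 2) (y : ℂ × ℂ) : ℂ × ℂ →L[ℂ] (Fin 3 → ℂ) :=
  if ε = 0 then (ContinuousLinearMap.fst ℂ ℂ ℂ).smulRight (d1 b)
    + (y.1 • ContinuousLinearMap.snd ℂ ℂ ℂ + y.2 • ContinuousLinearMap.fst ℂ ℂ ℂ).smulRight (d2 b)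
  else (y.1 • ContinuousLinearMap.snd ℂ ℂ ℂ + y.2 • ContinuousLinearMap.fst ℂ ℂ ℂ).smulRight (d1 b)
    + (ContinuousLinearMap.fst ℂ ℂ ℂ).smulRight (d2 b)

lemma zz_deriv (b : Fin 12) (ε : Fin 2) (y : ℂ × ℂ) : HasFDerivAt (zz b ε) (dz b ε y) y := by
  have hf : HasFDerivAt (fun y : ℂ × ℂ => y.1) (ContinuousLinearMap.fst ℂ ℂ ℂ) y := hasFDerivAt_fst
  have hs : HasFDerivAt (fun y : ℂ × ℂ => y.2) (ContinuousLinearMap.snd ℂ ℂ ℂ) y := hasFDerivAt_snd
  have hm := hf.mul hs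
  unfold zz dz
  by_cases h : ε = 0
  · simp only [if_pos h]
    have := ((hasFDerivAt_const (bv b) y).add (hf.smul_const (d1 b))).add (hm.smul_const (d2 b))
    rw [zero_add] at this
    exact this
  · simp only [if_neg h]
    have := ((hasFDerivAt_const (bv b) y).add (hm.smul_const (d1 b))).add (hf.smul_const (d2 b))
    rw [zero_add] at this
    exact this

lemma D3_zz (h1 : SpecLin) (b : Fin 12) (ε : Fin 2) (y : ℂ × ℂ) :
    D3 (zz b ε y) (dz b ε y (1, 0)) (dz b ε y (0, 1)) = Jz b ε y := by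
  have hb := D3_base h1 b
  unfold Jz
  rw [← hb]
  unfold zz dz D3
  by_cases h : ε = 0
  · simp only [if_pos h]
    simp
    ring
  · simp only [if_neg h]
    simp
    ring

lemma det_prod (f : ℂ × ℂ →L[ℂ] ℂ × ℂ) :
    f.det = (f (1, 0)).1 * (f (0, 1)).2 - (f (1, 0)).2 * (f (0, 1)).1 := by
  have h1 : f.det = LinearMap.det (f : ℂ × ℂ →ₗ[ℂ] ℂ × ℂ) := rfl
  rw [h1, ← LinearMap.det_toMatrix (Module.Basis.finTwoProd ℂ), Matrix.det_fin_two]
  simp [LinearMap.toMatrix_apply]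
  ring

end VTRM

open VTRM VCHM in
theorem specTrans (h1 : SpecLin) : SpecTrans := by
  intro b ε b' ε' K y hy hq
  -- the neighbourhood on which the formula holds
  have hN : ∀ᶠ x in 𝓝 y, x ∈ Tgt b ε ∧ (K.ch b ε).symm x ∈ Src b' ε' := by
    have ho : IsOpen ((K.ch b ε).symm.source ∩ (K.ch b ε).symm ⁻¹' Src b' ε') := by
      apply (K.ch b ε).symm.isOpen_inter_preimage
      rw [← K.source b' ε']
      exact (K.ch b' ε').open_source
    have hmem : y ∈ (K.ch b ε).symm.source ∩ (K.ch b ε).symm ⁻¹' Src b' ε' := by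
      refine ⟨?_, hq⟩
      rw [OpenPartialHomeomorph.symm_source, K.target]
      exact hy
    filter_upwards [ho.mem_nhds hmem] with x hx
    refine ⟨?_, hx.2⟩
    have h3 := hx.1
    rw [OpenPartialHomeomorph.symm_source, K.target] at h3
    exact h3
  have hform : ∀ x, x ∈ Tgt b ε → (K.ch b ε).symm x ∈ Src b' ε' →
      (K.ch b' ε') ((K.ch b ε).symm x) = tau b ε b' ε' x := by
    intro x hx hxs
    rw [K.coe b' ε' _ hxs]
    exact co_tau h1 b ε b' ε' x hx _ (K.symm b ε x hx)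
  have hev : (fun x => (K.ch b' ε') ((K.ch b ε).symm x)) =ᶠ[𝓝 y] tau b ε b' ε' := by
    filter_upwards [hN] with x hx
    exact hform x hx.1 hx.2
  obtain ⟨hw, hsl⟩ := src_ne h1 b ε b' ε' y hy _ (K.symm b ε y hy) hq
  have htan := tau_an b ε b' ε' y hw hsl
  have hzt := zz_tau h1 b ε b' ε' y hy _ (K.symm b ε y hy) hq
  refine ⟨htan.congr hev.symm, (w0 b' (zz b ε y))⁻¹, inv_ne_zero hw, ?_, ?_⟩
  · rw [hform y hy hq]
    exact hzt
  · rw [hev.fderiv_eq, hform y hy hq]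
    -- differentiate `zz' ∘ τ = g z`
    set τ := tau b ε b' ε' with hτ
    set G : ℂ × ℂ → ℂ := fun x => (w0 b' (zz b ε x))⁻¹ with hG
    have hτd : HasFDerivAt τ (fderiv ℂ τ y) y := htan.differentiableAt.hasFDerivAt
    have hGd : HasFDerivAt G (fderiv ℂ G y) y :=
      ((w0_an b b' ε y).inv hw).differentiableAt.hasFDerivAt
    have hL : HasFDerivAt (fun x => zz b' ε' (τ x)) ((dz b' ε' (τ y)).comp (fderiv ℂ τ y)) y :=
      (zz_deriv b' ε' (τ y)).comp y hτd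
    have hR : HasFDerivAt (fun x => G x • zz b ε x)
        (G y • dz b ε y + (fderiv ℂ G y).smulRight (zz b ε y)) y :=
      hGd.smul (zz_deriv b ε y)
    have hLR : (fun x => zz b' ε' (τ x)) =ᶠ[𝓝 y] (fun x => G x • zz b ε x) := by
      filter_upwards [hN] with x hx
      exact zz_tau h1 b ε b' ε' x hx.1 _ (K.symm b ε x hx.1) hx.2
    have heq := (hL.congr_of_eventuallyEq hLR.symm).unique hR
    have hv : ∀ v : ℂ × ℂ, dz b' ε' (τ y) (fderiv ℂ τ y v)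
        = G y • dz b ε y v + (fderiv ℂ G y v) • zz b ε y := by
      intro v
      have := congrArg (fun f : ℂ × ℂ →L[ℂ] (Fin 3 → ℂ) => f v) heq
      simpa using this
    have hlin : ∀ v : ℂ × ℂ, dz b' ε' (τ y) v
        = v.1 • dz b' ε' (τ y) (1, 0) + v.2 • dz b' ε' (τ y) (0, 1) := by
      intro v
      rw [← ContinuousLinearMap.map_smul, ← ContinuousLinearMap.map_smul,
        ← ContinuousLinearMap.map_add]
      congr 1
      ext <;> simp
    have e1 := D3_smul (zz b ε y) (dz b ε y (1, 0)) (dz b ε y (0, 1)) (G y)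
      (fderiv ℂ G y (1, 0)) (fderiv ℂ G y (0, 1))
    rw [← hv (1, 0), ← hv (0, 1), D3_zz h1, ← hzt, hlin (fderiv ℂ τ y (1, 0)),
      hlin (fderiv ℂ τ y (0, 1)), D3_comb, D3_zz h1] at e1
    rw [det_prod, mul_comm]
    exact e1

end Pool.Agent.MP_8f595d_ag
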