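import Pool.Agent.Lib.MP_8f595d_ag.UCO
import Pool.Agent.Lib.MP_8f595d_ag.VTR
import Pool.Agent.Lib.MP_8f595d_ag.VIN

/-!
# Module URC: the curves `Eb b` and `Lt l` are rational
-/

set_option autoImplicit false

open scoped Topology LinearAlgebra.Projectivization
open Filter

namespace Pool.Agent.MP_8f595d_ag

namespace URCM

open VCHM VTRM

/-- Change of chart along a curve. -/
lemma chart_change {V : Type} [TopologicalSpace V] {𝒜 : Set (Cht V)} (hc : Compat 𝒜)
    {γ : ℂ → V} {z : ℂ} (hγ : ContinuousAt γ z) {e e' : Cht V} (he : e ∈ 𝒜) (he' : e' ∈ 𝒜)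
    (hq : γ z ∈ e.source) (hq' : γ z ∈ e'.source) (ha : AnalyticAt ℂ (fun w => e (γ w)) z)
    (hd : deriv (fun w => e (γ w)) z ≠ 0) :
    AnalyticAt ℂ (fun w => e' (γ w)) z ∧ deriv (fun w => e' (γ w)) z ≠ 0 := by
  have c1 := hc e he e' he' (γ z) ⟨hq, hq'⟩
  have c2 := hc e' he' e he (γ z) ⟨hq', hq⟩
  have e1 : (fun w => e' (γ w)) =ᶠ[𝓝 z] fun w => (fun y => e' (e.symm y)) (e (γ w)) := by
    filter_upwards [hγ.eventually (e.open_source.mem_nhds hq)] with w hw
    rw [e.left_inv hw]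
  have e2 : (fun w => e (γ w)) =ᶠ[𝓝 z] fun w => (fun y => e (e'.symm y)) (e' (γ w)) := by
    filter_upwards [hγ.eventually (e'.open_source.mem_nhds hq')] with w hw
    rw [e'.left_inv hw]
  have ha' : AnalyticAt ℂ (fun w => e' (γ w)) z := by
    refine AnalyticAt.congr ?_ e1.symm
    exact AnalyticAt.comp (g := fun y => e' (e.symm y)) (f := fun w => e (γ w)) c1 ha
  refine ⟨ha', fun h0 => hd ?_⟩
  rw [e2.deriv_eq]
  have h3 := (c2.differentiableAt.hasFDerivAt).comp_hasDerivAt z ha'.differentiableAt.hasDerivAt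
  have h4 : deriv (fun w => (fun y => e (e'.symm y)) (e' (γ w))) z = _ := h3.deriv
  rw [h4, h0]
  simp

/-! ### the exceptional curves -/

lemma zz_zero (b : Fin 12) (ε : Fin 2) (s : ℂ) : zz b ε (0, s) = bv b := by
  unfold zz
  split_ifs <;> simp

lemma mem_tgt (hL : SpecLin) (b : Fin 12) (ε : Fin 2) (s : ℂ) : ((0, s) : ℂ × ℂ) ∈ Tgt b ε := by
  intro b' hb'
  rw [zz_zero]
  exact hL.2.2.2.2.2.2.1 b b' hb'.symm

lemma mk2_bv (hL : SpecLin) (b : Fin 12) : ∃ k : ℂ, k ≠ 0 ∧ (mk2 (bv b)).rep = k • bv b :=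
  mk2_rep (hL.2.2.2.2.2.1 b)

lemma eb_src (hL : SpecLin) (b : Fin 12) (ε : Fin 2) (q : V) (hq : q ∈ Eb b)
    (h : (q.1.2 b).rep ε ≠ 0) : q ∈ Src b ε := by
  refine ⟨VINM.rep_ne hL b q hq, h, ?_⟩
  rintro b' hb' ⟨h1, h2⟩
  have h3 := VINM.eq_bv hL b _ hq.1 hq.2
  have h4 := VINM.rep_ne hL b q hq
  rw [h3, w1_smul] at h1
  rw [h3, w2_smul] at h2
  exact hL.2.2.2.2.2.2.1 b b' hb'.symm
    ⟨(mul_eq_zero.1 h1).resolve_left h4, (mul_eq_zero.1 h2).resolve_left h4⟩

lemma eb_rat (hL : SpecLin) (K : Charts) (b : Fin 12) : IsRationalCurve K.atl (Eb b) := by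
  have hcomp : Compat K.atl := specCompat (specTrans hL) K
  have htgt : ∀ (ε : Fin 2) (s : ℂ), ((0, s) : ℂ × ℂ) ∈ (K.ch b ε).target := by
    intro ε s
    rw [K.target]
    exact mem_tgt hL b ε s
  have hcont : ∀ ε : Fin 2, Continuous (fun s : ℂ => (K.ch b ε).symm (0, s)) := by
    intro ε
    have := (K.ch b ε).continuousOn_symm
    exact this.comp_continuous (by fun_prop) (htgt ε)
  have hval : ∀ (ε : Fin 2) (s : ℂ), ((K.ch b ε).symm (0, s)).1 = ptS b ε (0, s) :=
    fun ε s => K.symm b ε _ (mem_tgt hL b ε s)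
  have hmem : ∀ (ε : Fin 2) (s : ℂ), (K.ch b ε).symm (0, s) ∈ Eb b := by
    intro ε s
    have h1 : ((K.ch b ε).symm (0, s)).1.1 = mk2 (bv b) := by
      rw [hval]
      unfold ptS
      simp only [zz_zero]
    obtain ⟨k, hk, hr⟩ := mk2_bv hL b
    obtain ⟨-, w1b, w2b, -⟩ := hL.2.2.2.1 b
    refine ⟨?_, ?_⟩
    · rw [h1, hr, w1_smul, w1b, mul_zero]
    · rw [h1, hr, w2_smul, w2b, mul_zero]
  refine ⟨fun ε s => (K.ch b ε).symm (0, s), hcont, ?_, ?_, ?_, ?_, ?_⟩
  · intro ε z e he hq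
    have hm : (K.ch b ε) ∈ K.atl := ⟨(b, ε), rfl⟩
    have heq : (fun w : ℂ => (K.ch b ε) ((K.ch b ε).symm (0, w))) = fun w => ((0, w) : ℂ × ℂ) := by
      funext w
      exact (K.ch b ε).right_inv (htgt ε w)
    refine chart_change hcomp (hcont ε).continuousAt hm he ?_ hq ?_ ?_
    · exact (K.ch b ε).map_target (htgt ε z)
    · rw [heq]
      exact analyticAt_const.prod analyticAt_id
    · rw [heq]
      have : HasDerivAt (fun w : ℂ => ((0, w) : ℂ × ℂ)) (0, 1) z :=
        (hasDerivAt_const z (0 : ℂ)).prodMk (hasDerivAt_id z)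
      rw [this.deriv]
      intro h
      have := congrArg Prod.snd h
      simp at this
  · intro z hz
    apply Subtype.ext
    simp only
    rw [hval, hval]
    unfold ptS
    rw [zz_zero, zz_zero]
    congr 1
    funext b'
    unfold slp
    by_cases hb : b' = b
    · rw [if_pos hb, if_pos hb]
      have e1 : mk1 (mm 1 (0, z) 0) (mm 1 (0, z) 1) = mk1 z 1 := by simp [mm]
      have e2 : mk1 (mm 0 (0, z⁻¹) 0) (mm 0 (0, z⁻¹) 1) = mk1 1 z⁻¹ := by simp [mm]
      rw [e1, e2]
      apply mk1_eq _ (by simp)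
      obtain ⟨k, hk, hr⟩ := mk1_rep (a := 1) (c := z⁻¹) (vec_ne (by simp))
      rw [hr]
      simp
      field_simp
    · rw [if_neg hb, if_neg hb, zz_zero, zz_zero]
  · intro s s' h
    have h1 : (K.ch b 0).symm (0, s) = (K.ch b 0).symm (0, s') := h
    have h2 := congrArg (K.ch b 0) h1
    rw [(K.ch b 0).right_inv (htgt 0 s), (K.ch b 0).right_inv (htgt 0 s')] at h2
    exact congrArg Prod.snd h2
  · rintro ⟨s, hs⟩
    have h1 : ((K.ch b 0).symm (0, s)).1.2 b = ((K.ch b 1).symm (0, 0)).1.2 b := by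
      have h0 : (K.ch b 0).symm (0, s) = (K.ch b 1).symm (0, 0) := hs
      rw [h0]
    rw [hval, hval] at h1
    unfold ptS slp at h1
    simp only [if_true] at h1
    have e1 : mk1 (mm 0 (0, s) 0) (mm 0 (0, s) 1) = mk1 1 s := by simp [mm]
    have e2 : mk1 (mm 1 (0, 0) 0) (mm 1 (0, 0) 1) = mk1 0 1 := by simp [mm]
    rw [e1, e2] at h1
    obtain ⟨k, hk, hr⟩ := mk1_rep (a := 1) (c := s) (vec_ne (by simp))
    obtain ⟨k', hk', hr'⟩ := mk1_rep (a := 0) (c := 1) (vec_ne (by simp))
    rw [h1, hr'] at hr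
    have := congrFun hr 0
    simp at this
    exact hk this.symm
  · ext q
    simp only [Set.mem_union, Set.mem_range, Set.mem_singleton_iff]
    constructor
    · intro hq
      by_cases h0 : (q.1.2 b).rep 0 = 0
      · right
        have h1 : (q.1.2 b).rep 1 ≠ 0 := by
          intro h1
          apply (q.1.2 b).rep_nonzero
          funext i
          fin_cases i
          · exact h0
          · exact h1
        have hs := eb_src hL b 1 q hq h1
        have h2 : (K.ch b 1) q = (0, 0) := by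
          rw [K.coe b 1 q hs]
          unfold co
          rw [if_neg (by decide), hq.2, h0]
          simp
        have h3 := (K.ch b 1).left_inv (x := q) (by rw [K.source]; exact hs)
        rw [h2] at h3
        exact h3.symm
      · left
        have hs := eb_src hL b 0 q hq h0
        have h2 : (K.ch b 0) q = (0, (q.1.2 b).rep 1 / (q.1.2 b).rep 0) := by
          rw [K.coe b 0 q hs]
          unfold co
          rw [if_pos rfl, hq.1]
          simp
        have h3 := (K.ch b 0).left_inv (x := q) (by rw [K.source]; exact hs)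
        rw [h2] at h3
        exact ⟨_, h3⟩
    · rintro (⟨s, rfl⟩ | rfl)
      · exact hmem 0 s
      · exact hmem 1 0

/-! ### the strict transforms of the lines -/

/-- `a`, `c` is a basis of the kernel of `l`. -/
structure Bas (l a c : Fin 3 → ℂ) : Prop where
  l0 : l ≠ 0
  ha : dot l a = 0
  hc : dot l c = 0
  ind : ∀ x y : ℂ, x • a + y • c = 0 → x = 0 ∧ y = 0
  span : ∀ z, dot l z = 0 → ∃ x y : ℂ, z = x • a + y • c

lemma Bas.symm {l a c : Fin 3 → ℂ} (h : Bas l a c) : Bas l c a := by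
  refine ⟨h.l0, h.hc, h.ha, ?_, ?_⟩
  · intro x y hxy
    rw [add_comm] at hxy
    exact (h.ind y x hxy).symm
  · intro z hz
    obtain ⟨x, y, hxy⟩ := h.span z hz
    exact ⟨y, x, by rw [hxy, add_comm]⟩

lemma exists_bas {l : Fin 3 → ℂ} (hl : l ≠ 0) : ∃ a c, Bas l a c := by
  have hex : l 0 ≠ 0 ∨ l 1 ≠ 0 ∨ l 2 ≠ 0 := by
    by_contra hcon
    push Not at hcon
    apply hl
    funext i
    fin_cases i
    · exact hcon.1
    · exact hcon.2.1
    · exact hcon.2.2
  rcases hex with h | h | h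
  · refine ⟨![-l 1, l 0, 0], ![-l 2, 0, l 0], hl, ?_, ?_, ?_, ?_⟩
    · simp [dot]; ring
    · simp [dot]; ring
    · intro x y hxy
      have h1 := congrFun hxy 1
      have h2 := congrFun hxy 2
      simp at h1 h2
      exact ⟨h1.resolve_right h, h2.resolve_right h⟩
    · intro z hz
      refine ⟨z 1 / l 0, z 2 / l 0, ?_⟩
      unfold dot at hz
      funext i
      fin_cases i
      · simp
        field_simp
        linear_combination hz
      · simp
        field_simp
      · simp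
        field_simp
  · refine ⟨![l 1, -l 0, 0], ![0, -l 2, l 1], hl, ?_, ?_, ?_, ?_⟩
    · simp [dot]; ring
    · simp [dot]; ring
    · intro x y hxy
      have h1 := congrFun hxy 0
      have h2 := congrFun hxy 2
      simp at h1 h2
      exact ⟨h1.resolve_right h, h2.resolve_right h⟩
    · intro z hz
      refine ⟨z 0 / l 1, z 2 / l 1, ?_⟩
      unfold dot at hz
      funext i
      fin_cases i
      · simp
        field_simp
      · simp
        field_simp
        linear_combination hz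
      · simp
        field_simp
  · refine ⟨![l 2, 0, -l 0], ![0, l 2, -l 1], hl, ?_, ?_, ?_, ?_⟩
    · simp [dot]; ring
    · simp [dot]; ring
    · intro x y hxy
      have h1 := congrFun hxy 0
      have h2 := congrFun hxy 1
      simp at h1 h2
      exact ⟨h1.resolve_right h, h2.resolve_right h⟩
    · intro z hz
      refine ⟨z 0 / l 2, z 1 / l 2, ?_⟩
      unfold dot at hz
      funext i
      fin_cases i
      · simp
        field_simp
      · simp
        field_simp
      · simp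
        field_simp
        linear_combination hz

open Classical in
/-- the slopes -/
noncomputable def M (l a c : Fin 3 → ℂ) (b : Fin 12) (z : ℂ) : ℂ × ℂ :=
  if dot l (bv b) = 0 then (-dot l (d2 b), dot l (d1 b))
  else (w1 b (a + z • c), w2 b (a + z • c))

section

variable {l a c : Fin 3 → ℂ}

lemma Bas.dotZ (h : Bas l a c) (z : ℂ) : dot l (a + z • c) = 0 := by
  rw [VINM.dot_add, VINM.dot_smul, h.ha, h.hc]
  simp

lemma Bas.Z_ne (h : Bas l a c) (z : ℂ) : a + z • c ≠ 0 := by
  intro h0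
  have := h.ind 1 z (by rw [one_smul]; exact h0)
  exact one_ne_zero this.1

lemma M_ne (hL : SpecLin) (h : Bas l a c) (b : Fin 12) (z : ℂ) :
    ¬ ((M l a c b z).1 = 0 ∧ (M l a c b z).2 = 0) := by
  unfold M
  split_ifs with hb
  · rintro ⟨h1, h2⟩
    simp only [neg_eq_zero] at h1 h2
    exact VINM.d_ne hL b l h.l0 hb ⟨h2, h1⟩
  · rintro ⟨h1, h2⟩
    simp only at h1 h2
    have h3 := VINM.eq_bv hL b _ h1 h2
    have h4 := h.dotZ z
    rw [h3, VINM.dot_smul] at h4
    have h5 := (mul_eq_zero.1 h4).resolve_right hb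
    rw [h5, zero_smul] at h3
    exact h.Z_ne z h3

lemma M_mem (hL : SpecLin) (h : Bas l a c) (b : Fin 12) (z : ℂ) :
    w1 b (a + z • c) * (M l a c b z).2 = w2 b (a + z • c) * (M l a c b z).1 := by
  unfold M
  split_ifs with hb
  · have h1 := VINM.dot_exp hL b l (a + z • c)
    rw [h.dotZ z, hb] at h1
    simp only
    linear_combination -h1
  · simp only
    ring

/-- the point of the strict transform over `[a + z c]` -/
noncomputable def Lp (hL : SpecLin) (h : Bas l a c) (z : ℂ) : V :=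
  ⟨(mk2 (a + z • c), fun b => mk1 (M l a c b z).1 (M l a c b z).2), by
    intro b
    obtain ⟨k, hk, hr⟩ := mk2_rep (h.Z_ne z)
    obtain ⟨k', hk', hr'⟩ := mk1_rep (vec_ne (M_ne hL h b z))
    change w1 b (mk2 (a + z • c)).rep * (mk1 (M l a c b z).1 (M l a c b z).2).rep 1
      = w2 b (mk2 (a + z • c)).rep * (mk1 (M l a c b z).1 (M l a c b z).2).rep 0
    rw [hr, hr', w1_smul, w2_smul]
    simp only [Pi.smul_apply, Matrix.cons_val_zero, Matrix.cons_val_one, smul_eq_mul]
    linear_combination (k * k') * M_mem hL h b z⟩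

lemma Lp_fst (hL : SpecLin) (h : Bas l a c) (z : ℂ) : (Lp hL h z).1.1 = mk2 (a + z • c) := rfl

lemma Lp_snd (hL : SpecLin) (h : Bas l a c) (z : ℂ) (b : Fin 12) :
    (Lp hL h z).1.2 b = mk1 (M l a c b z).1 (M l a c b z).2 := rfl

lemma Lp_mem (hL : SpecLin) (h : Bas l a c) (z : ℂ) : Lp hL h z ∈ Lt l := by
  refine ⟨?_, ?_⟩
  · obtain ⟨k, hk, hr⟩ := mk2_rep (h.Z_ne z)
    rw [Lp_fst, hr, VINM.dot_smul, h.dotZ, mul_zero]
  · intro b hb
    obtain ⟨k', hk', hr'⟩ := mk1_rep (vec_ne (M_ne hL h b z))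
    rw [Lp_snd, hr']
    unfold M
    rw [if_pos hb]
    simp only [Pi.smul_apply, Matrix.cons_val_zero, Matrix.cons_val_one, smul_eq_mul]
    ring

lemma Lp_uniq (hL : SpecLin) (h : Bas l a c) (z : ℂ) (q : V) (hq : q ∈ Lt l) {k : ℂ}
    (hk : q.1.1.rep = k • (a + z • c)) : q = Lp hL h z := by
  apply VINM.lt_inj hL l h.l0 q _ hq (Lp_mem hL h z)
  rw [Lp_fst]
  have hk0 : k ≠ 0 := by
    rintro rfl
    rw [zero_smul] at hk
    exact q.1.1.rep_nonzero hk
  have h1 := mk2_smul q.1.1 (inv_ne_zero hk0)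
  rw [hk, smul_smul, inv_mul_cancel₀ hk0, one_smul] at h1
  exact h1.symm

lemma Lp_cont (hL : SpecLin) (h : Bas l a c) : Continuous (Lp hL h) := by
  apply Continuous.subtype_mk
  apply Continuous.prodMk
  · exact mk2_cont.comp_continuous (by fun_prop) (fun z => h.Z_ne z)
  · rw [continuous_pi_iff]
    intro b
    rw [← continuousOn_univ]
    have hZ : Continuous (fun z : ℂ => a + z • c) := by fun_prop
    apply mk1_contAt
    · rw [continuousOn_univ]
      unfold M
      split_ifs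
      · exact continuous_const
      · exact (w1_cont b).comp hZ
    · rw [continuousOn_univ]
      unfold M
      split_ifs
      · exact continuous_const
      · exact (w2_cont b).comp hZ
    · intro z _
      exact M_ne hL h b z

lemma w_lin (hL : SpecLin) (b : Fin 12) (z : ℂ) :
    w0 b (a + z • c) = w0 b a + z * w0 b c ∧ w1 b (a + z • c) = w1 b a + z * w1 b c ∧
      w2 b (a + z • c) = w2 b a + z * w2 b c := by
  have := hL.2.2.1 b 1 z a c
  simpa using this

lemma co_Lp (hL : SpecLin) (h : Bas l a c) (b : Fin 12) (ε : Fin 2) (z : ℂ) :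
    co b ε (Lp hL h z) = if ε = 0 then
      (w1 b (a + z • c) / w0 b (a + z • c), (M l a c b z).2 / (M l a c b z).1)
      else (w2 b (a + z • c) / w0 b (a + z • c), (M l a c b z).1 / (M l a c b z).2) := by
  obtain ⟨k, hk, hr⟩ := mk2_rep (h.Z_ne z)
  obtain ⟨k', hk', hr'⟩ := mk1_rep (vec_ne (M_ne hL h b z))
  unfold co
  rw [Lp_fst, Lp_snd, hr, hr', w0_smul, w1_smul, w2_smul]
  simp only [Pi.smul_apply, Matrix.cons_val_zero, Matrix.cons_val_one, smul_eq_mul]
  rw [mul_div_mul_left _ _ hk, mul_div_mul_left _ _ hk, mul_div_mul_left _ _ hk',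
    mul_div_mul_left _ _ hk']

lemma co_an (hL : SpecLin) (h : Bas l a c) (b : Fin 12) (ε : Fin 2) (z : ℂ)
    (hz : Lp hL h z ∈ Src b ε) : AnalyticAt ℂ (fun w => co b ε (Lp hL h w)) z := by
  obtain ⟨k, hk, hr⟩ := mk2_rep (h.Z_ne z)
  obtain ⟨k', hk', hr'⟩ := mk1_rep (vec_ne (M_ne hL h b z))
  have hw0 : w0 b (a + z • c) ≠ 0 := by
    have := hz.1
    rw [Lp_fst, hr, w0_smul] at this
    exact fun h0 => this (by rw [h0, mul_zero])
  have hM : ∀ j : Fin 2, ε = j → (![(M l a c b z).1, (M l a c b z).2] : Fin 2 → ℂ) j ≠ 0 := by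
    rintro j rfl
    have := hz.2.1
    rw [Lp_snd, hr'] at this
    exact fun h0 => this (by rw [Pi.smul_apply, h0, smul_zero])
  have hlin : ∀ α β : ℂ, AnalyticAt ℂ (fun w : ℂ => α + w * β) z := fun α β => by fun_prop
  have a0 : AnalyticAt ℂ (fun w => w0 b (a + w • c)) z := by
    simp only [fun w => (w_lin (a := a) (c := c) hL b w).1]
    exact hlin _ _
  have a1 : AnalyticAt ℂ (fun w => w1 b (a + w • c)) z := by
    simp only [fun w => (w_lin (a := a) (c := c) hL b w).2.1]
    exact hlin _ _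
  have a2 : AnalyticAt ℂ (fun w => w2 b (a + w • c)) z := by
    simp only [fun w => (w_lin (a := a) (c := c) hL b w).2.2]
    exact hlin _ _
  have m1 : AnalyticAt ℂ (fun w => (M l a c b w).1) z := by
    unfold M
    split_ifs
    · exact analyticAt_const
    · exact a1
  have m2 : AnalyticAt ℂ (fun w => (M l a c b w).2) z := by
    unfold M
    split_ifs
    · exact analyticAt_const
    · exact a2
  simp only [co_Lp hL h]
  split_ifs with he
  · exact (a1.div a0 hw0).prod (m2.div m1 (hM 0 he))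
  · have he' : ε = 1 := by
      fin_cases ε
      · exact absurd rfl he
      · rfl
    exact (a2.div a0 hw0).prod (m1.div m2 (hM 1 he'))

lemma lt_rat (hL : SpecLin) (K : Charts) {l a c : Fin 3 → ℂ} (h : Bas l a c) (z : ℂ) (e : Cht V)
    (he : e ∈ K.atl) (hz : Lp hL h z ∈ e.source) :
    AnalyticAt ℂ (fun w => e (Lp hL h w)) z ∧ deriv (fun w => e (Lp hL h w)) z ≠ 0 := by
  obtain ⟨⟨b, ε⟩, rfl⟩ := he
  simp only at hz ⊢
  have hz' : Lp hL h z ∈ Src b ε := by rwa [K.source] at hz
  have hnb : ∀ᶠ w in 𝓝 z, Lp hL h w ∈ Src b ε :=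
    (Lp_cont hL h).continuousAt.eventually ((src_open b ε).mem_nhds hz')
  have heq : (fun w => (K.ch b ε) (Lp hL h w)) =ᶠ[𝓝 z] fun w => co b ε (Lp hL h w) := by
    filter_upwards [hnb] with w hw
    exact K.coe b ε _ hw
  refine ⟨(co_an hL h b ε z hz').congr heq.symm, ?_⟩
  rw [heq.deriv_eq]
  intro h0
  have hd := (co_an hL h b ε z hz').differentiableAt.hasDerivAt
  rw [h0] at hd
  have h1 := (zz_deriv b ε (co b ε (Lp hL h z))).comp_hasDerivAt z hd
  rw [map_zero] at h1
  have heq2 : (zz b ε ∘ fun w => co b ε (Lp hL h w))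
      =ᶠ[𝓝 z] fun w => (w0 b a + w * w0 b c)⁻¹ • (a + w • c) := by
    filter_upwards [hnb] with w hw
    simp only [Function.comp_apply]
    rw [zz_co hL b ε _ hw, Lp_fst]
    obtain ⟨k, hk, hr⟩ := mk2_rep (h.Z_ne w)
    rw [hr, w0_smul, (w_lin hL b w).1, smul_smul]
    congr 1
    by_cases hw0 : w0 b a + w * w0 b c = 0
    · rw [hw0]
      simp
    · field_simp
  have h2 := h1.congr_of_eventuallyEq heq2.symm
  have hw0 : w0 b a + z * w0 b c ≠ 0 := by
    obtain ⟨k, hk, hr⟩ := mk2_rep (h.Z_ne z)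
    have := hz'.1
    rw [Lp_fst, hr, w0_smul, (w_lin hL b z).1] at this
    exact fun h0 => this (by rw [h0, mul_zero])
  have hd1 : HasDerivAt (fun w : ℂ => w0 b a + w * w0 b c) (w0 b c) z := by
    have := ((hasDerivAt_id z).mul_const (w0 b c)).const_add (w0 b a)
    simpa using this
  have hd2 : HasDerivAt (fun w : ℂ => a + w • c) c z := by
    have := ((hasDerivAt_id z).smul_const c).const_add a
    simpa using this
  have h3 := (hd1.inv hw0).smul hd2
  have h4 := h3.unique h2
  set W := w0 b a + z * w0 b c with hW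
  have h5 : (-(w0 b c) / W ^ 2) • a + (W⁻¹ + (-(w0 b c) / W ^ 2) * z) • c = 0 := by
    rw [← h4, smul_add, smul_smul, add_smul]
    simp only [Pi.inv_apply]
    rw [← hW]
    abel
  obtain ⟨h6, h7⟩ := h.ind _ _ h5
  rw [h6, zero_mul, add_zero] at h7
  exact inv_ne_zero hw0 h7

end

lemma lt_rational (hL : SpecLin) (K : Charts) (l : Fin 3 → ℂ) (hl : l ≠ 0) :
    IsRationalCurve K.atl (Lt l) := by
  obtain ⟨a, c, h⟩ := exists_bas hl
  refine ⟨fun i => if i = 0 then Lp hL h else Lp hL h.symm, ?_, ?_, ?_, ?_, ?_, ?_⟩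
  · intro i
    simp only
    split_ifs
    · exact Lp_cont hL h
    · exact Lp_cont hL h.symm
  · intro i z e he hz
    simp only at hz ⊢
    split_ifs at hz ⊢
    · exact lt_rat hL K h z e he hz
    · exact lt_rat hL K h.symm z e he hz
  · intro z hz
    simp only [if_true, one_ne_zero, if_false]
    obtain ⟨k, hk, hr⟩ := mk2_rep (h.symm.Z_ne z)
    refine Lp_uniq hL h z⁻¹ _ (Lp_mem hL h.symm z) (k := k * z) ?_
    rw [Lp_fst, hr, smul_add, smul_add, smul_smul, smul_smul, mul_assoc, mul_inv_cancel₀ hz,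
      mul_one, add_comm]
  · intro z z' hzz
    simp only [if_true] at hzz
    have h1 : (Lp hL h z).1.1.rep = (Lp hL h z').1.1.rep := by rw [hzz]
    rw [Lp_fst, Lp_fst] at h1
    obtain ⟨k, hk, hr⟩ := mk2_rep (h.Z_ne z)
    obtain ⟨k', hk', hr'⟩ := mk2_rep (h.Z_ne z')
    rw [hr, hr'] at h1
    have h2 : (k - k') • a + (k * z - k' * z') • c = 0 := by
      have : k • (a + z • c) - k' • (a + z' • c) = 0 := by rw [h1, sub_self]
      rw [← this, smul_add, smul_add, smul_smul, smul_smul, sub_smul, sub_smul]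
      abel
    obtain ⟨h3, h4⟩ := h.ind _ _ h2
    have h5 : k = k' := sub_eq_zero.1 h3
    subst h5
    have h6 : k * (z - z') = 0 := by linear_combination h4
    exact sub_eq_zero.1 ((mul_eq_zero.1 h6).resolve_left hk)
  · rintro ⟨z, hz⟩
    simp only [if_true, one_ne_zero, if_false] at hz
    have h1 : (Lp hL h z).1.1.rep = (Lp hL h.symm 0).1.1.rep := by rw [hz]
    rw [Lp_fst, Lp_fst] at h1
    obtain ⟨k, hk, hr⟩ := mk2_rep (h.Z_ne z)
    obtain ⟨k', hk', hr'⟩ := mk2_rep (h.symm.Z_ne 0)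
    rw [hr, hr'] at h1
    have h2 : k • a + (k * z - k') • c = 0 := by
      have : k • (a + z • c) - k' • (c + (0 : ℂ) • a) = 0 := by rw [h1, sub_self]
      rw [← this, smul_add, smul_add, smul_smul, smul_smul, sub_smul]
      simp only [mul_zero, zero_smul, add_zero]
      abel
    exact hk (h.ind _ _ h2).1
  · ext q
    simp only [if_true, one_ne_zero, if_false, Set.mem_union, Set.mem_range,
      Set.mem_singleton_iff]
    constructor
    · intro hq
      obtain ⟨x, y, hxy⟩ := h.span _ hq.1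
      by_cases hx : x = 0
      · right
        apply Lp_uniq hL h.symm 0 q hq (k := y)
        rw [hxy, hx]
        simp
      · left
        refine ⟨y / x, ?_⟩
        symm
        apply Lp_uniq hL h (y / x) q hq (k := x)
        rw [hxy, smul_add, smul_smul, mul_div_cancel₀ _ hx]
    · rintro (⟨z, rfl⟩ | rfl)
      · exact Lp_mem hL h z
      · exact Lp_mem hL h.symm 0

end URCM

theorem specRat (hL : SpecLin) : SpecRat :=
  fun K => ⟨fun b => URCM.eb_rat hL K b, fun l hl => URCM.lt_rational hL K l hl⟩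

end Pool.Agent.MP_8f595d_ag
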