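import Pool.Agent.Lib.MP_8f595d_ag.VSpec

/-!
# Uniqueness of the intersection numbers with rational curves (stage 4)

The relation `CurveDot C B n` determines `n` when `C` is a rational curve.
-/

set_option autoImplicit false

open scoped Topology LinearAlgebra.Projectivization

namespace Pool.Agent.MP_8f595d_ag

section

variable {V : Type} [TopologicalSpace V]

/-- The charts are holomorphically compatible. -/
def Compat (𝒜 : Set (Cht V)) : Prop :=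
  ∀ e ∈ 𝒜, ∀ e' ∈ 𝒜, ∀ x ∈ e.source ∩ e'.source, AnalyticAt ℂ (fun y => e' (e.symm y)) (e x)

/-- Rational curves: parametrized by the projective line, with the two affine parametrizations
`φ 0` and `φ 1 z = φ 0 z⁻¹`. -/
def IsRationalCurve (𝒜 : Set (Cht V)) (C : Set V) : Prop :=
  ∃ φ : Fin 2 → ℂ → V, (∀ i, Continuous (φ i)) ∧
    (∀ i z, ∀ e ∈ 𝒜, φ i z ∈ e.source → AnalyticAt ℂ (fun w => e (φ i w)) z ∧
      deriv (fun w => e (φ i w)) z ≠ 0) ∧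
    (∀ z : ℂ, z ≠ 0 → φ 1 z = φ 0 z⁻¹) ∧ Function.Injective (φ 0) ∧ φ 1 0 ∉ Set.range (φ 0) ∧
    C = Set.range (φ 0) ∪ {φ 1 0}

end

/-- Continuous functions without zeros near `y₀`, holomorphic along holomorphic discs. -/
def WUnit (y₀ : ℂ × ℂ) (H : ℂ × ℂ → ℂ) : Prop :=
  ∀ᶠ y in 𝓝 y₀, H y ≠ 0 ∧ ContinuousAt H y ∧
    ∀ (φ : ℂ → ℂ × ℂ) (z : ℂ), φ z = y → AnalyticAt ℂ φ z → AnalyticAt ℂ (fun w => H (φ w)) z

/-! ## Module URA: two local equations of the same curve -/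

def SpecRatio : Prop :=
  ∀ (F G : ℂ × ℂ → ℂ) (y₀ : ℂ × ℂ), AnalyticAt ℂ F y₀ → AnalyticAt ℂ G y₀ →
    (∀ᶠ y in 𝓝 y₀, (F y = 0 ↔ G y = 0)) → (F y₀ = 0 → fderiv ℂ F y₀ ≠ 0) →
    (G y₀ = 0 → fderiv ℂ G y₀ ≠ 0) →
    ∃ H : ℂ × ℂ → ℂ, WUnit y₀ H ∧ ∀ᶠ y in 𝓝 y₀, G y = H y * F y

/-! ## Module UDE: complements of finitely many curves are dense -/

def SpecDense : Prop :=
  ∀ (V : Type) [TopologicalSpace V] (𝒜 : Set (Cht V)) (T : Finset (Curve 𝒜)),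
    Dense {x : V | ∀ C ∈ T, x ∉ C.1}

/-! ## Module ULF: quotient of two meromorphic functions (from SpecRatio) -/

def SpecQuot : Prop :=
  ∀ (V : Type) [TopologicalSpace V] (𝒜 : Set (Cht V)), Compat 𝒜 →
    ∀ (f g : V → ℂ) (A B : Div 𝒜), IsDivOf 𝒜 f A → IsDivOf 𝒜 g B →
      ∃ T : Finset (Curve 𝒜), A.support ⊆ T ∧ B.support ⊆ T ∧ ∀ q : V, ∃ e ∈ 𝒜, q ∈ e.source ∧
        ∃ F : Curve 𝒜 → ℂ × ℂ → ℂ, (∀ C ∈ T, IsLocEq C.1 q e (F C)) ∧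
          ∃ H : ℂ × ℂ → ℂ, WUnit (e q) H ∧
            ∀ᶠ x in 𝓝 q, (∀ C ∈ T, x ∉ C.1) →
              f x / g x = H (e x) * ∏ C ∈ T, (F C (e x)) ^ (A C - B C)

/-! ## Module ULI: Liouville on the projective line -/

def SpecLiou : Prop :=
  ∀ (g : ℂ → ℂ) (S : Finset ℂ) (m : ℂ → ℤ) (k : ℤ), (∀ z ∉ S, m z = 0) →
    (∀ z₀ : ℂ, ∃ u : ℂ → ℂ, AnalyticAt ℂ u z₀ ∧ u z₀ ≠ 0 ∧
      ∀ᶠ z in 𝓝[≠] z₀, g z = (z - z₀) ^ (m z₀) * u z) →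
    (∃ u : ℂ → ℂ, AnalyticAt ℂ u 0 ∧ u 0 ≠ 0 ∧ ∀ᶠ w in 𝓝[≠] (0 : ℂ), g w⁻¹ = w ^ k * u w) →
    ∑ z ∈ S, m z + k = 0

/-! ## Module UUN: uniqueness (from SpecRatio, SpecDense, SpecQuot, SpecLiou) -/

def SpecUniq : Prop :=
  ∀ (V : Type) [TopologicalSpace V] [CompactSpace V] [T2Space V] (𝒜 : Set (Cht V)), Compat 𝒜 →
    ∀ (C : Curve 𝒜), IsRationalCurve 𝒜 C.1 → ∀ (B : Div 𝒜) (n n' : ℤ),
      CurveDot 𝒜 C B n → CurveDot 𝒜 C B n' → n = n'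

/-! ## Module URC: the curves of `V` are rational -/

def SpecRat : Prop :=
  ∀ K : Charts, (∀ b, IsRationalCurve K.atl (Eb b)) ∧
    ∀ l : Fin 3 → ℂ, l ≠ 0 → IsRationalCurve K.atl (Lt l)

/-! ## Module UCO: compatibility (from SpecTrans) -/

def SpecCompat : Prop := ∀ K : Charts, Compat K.atl

/-! ## Module UNM: the intersection numbers, with uniqueness
(from SpecNum, SpecUniq, SpecRat, SpecCompat, SpecVTop, SpecLin, SpecIntE) -/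

def SpecNumU : Prop :=
  ∀ (K : Charts) (h : SC K) (h0 : ln 0 ≠ 0) (hD : ∀ i, IsSmoothCurve K.atl (Dset i)),
    (∀ (i : Fin 13) (n : ℤ), SelfInt K.atl (Dc K hD i) n ↔ n = if (i : ℕ) < 9 then -3 else -1) ∧
    ∀ n : ℤ, Dot K.atl (K0 K h h0) (K0 K h h0 + ∑ i, Finsupp.single (Dc K hD i) 1) n ↔ n = 2

end Pool.Agent.MP_8f595d_ag
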