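import Pool.Agent.Lib.MP_8f595d_ag.USpec

/-!
# Module UUN: uniqueness of the intersection numbers with a rational curve
-/

set_option autoImplicit false

open scoped Topology LinearAlgebra.Projectivization
open Filter

namespace Pool.Agent.MP_8f595d_ag

namespace UUNM

/-- Two independent linear forms on the plane have no common zero. -/
lemma indep_ne {L1 L2 : (ℂ × ℂ) →L[ℂ] ℂ} (h : LinearIndependent ℂ ![L1, L2]) {w : ℂ × ℂ}
    (hw : w ≠ 0) (h1 : L1 w = 0) : L2 w ≠ 0 := by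
  intro h2
  rw [LinearIndependent.pair_iff] at h
  -- a complementary vector
  obtain ⟨v, hv⟩ : ∃ v : ℂ × ℂ, ∀ M : (ℂ × ℂ) →L[ℂ] ℂ, M w = 0 → M v = 0 → M = 0 := by
    obtain ⟨x, y⟩ := w
    have key : ∀ (M : (ℂ × ℂ) →L[ℂ] ℂ) (a b : ℂ), M (a, b) = a * M (1, 0) + b * M (0, 1) := by
      intro M a b
      have : ((a, b) : ℂ × ℂ) = a • ((1, 0) : ℂ × ℂ) + b • ((0, 1) : ℂ × ℂ) := by
        ext <;> simp
      rw [this, map_add, map_smul, map_smul]
      simp
    by_cases hx : x = 0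
    · have hy : y ≠ 0 := by
        rintro rfl
        apply hw
        rw [hx]
        rfl
      refine ⟨(1, 0), fun M hM hv => ?_⟩
      have e1 := key M x y
      rw [hM, hv, hx] at e1
      have e2 : M (0, 1) = 0 := by
        have : y * M (0, 1) = 0 := by linear_combination -e1
        rcases mul_eq_zero.1 this with h | h
        · exact absurd h hy
        · exact h
      ext
      · simpa using hv
      · simpa using e2
    · refine ⟨(0, 1), fun M hM hv => ?_⟩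
      have e1 := key M x y
      rw [hM, hv] at e1
      have e2 : M (1, 0) = 0 := by
        have : x * M (1, 0) = 0 := by linear_combination -e1
        rcases mul_eq_zero.1 this with h | h
        · exact absurd h hx
        · exact h
      ext
      · simpa using e2
      · simpa using hv
  have hM : (L2 v) • L1 + (-L1 v) • L2 = 0 := by
    apply hv
    · simp [h1, h2]
    · simp
      ring
  have h3 := h _ _ hM
  have hL1 : L1 = 0 := hv _ h1 (by simpa using h3.2)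
  have h4 := h 1 0 (by rw [hL1]; simp)
  exact one_ne_zero h4.1

/-- A simple zero. -/
lemma simple_zero {h : ℂ → ℂ} {z₀ : ℂ} (ha : AnalyticAt ℂ h z₀) (h0 : h z₀ = 0)
    (hd : deriv h z₀ ≠ 0) :
    ∃ u : ℂ → ℂ, AnalyticAt ℂ u z₀ ∧ u z₀ ≠ 0 ∧ ∀ z, h z = (z - z₀) * u z := by
  obtain ⟨p, hp⟩ := ha
  refine ⟨dslope h z₀, hp.has_fpower_series_dslope_fslope.analyticAt, ?_, ?_⟩
  · rw [dslope_same]
    exact hd
  · intro z
    have := sub_smul_dslope h z₀ z
    rw [h0, sub_zero, smul_eq_mul] at this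
    exact this.symm

section

variable {V : Type} [TopologicalSpace V]

/-- A nonconstant local parametrization of `C`. -/
structure Par (𝒜 : Set (Cht V)) (C : Set V) (φ : ℂ → V) : Prop where
  cont : Continuous φ
  an : ∀ z, ∀ e ∈ 𝒜, φ z ∈ e.source → AnalyticAt ℂ (fun w => e (φ w)) z ∧
      deriv (fun w => e (φ w)) z ≠ 0
  mem : ∀ z, φ z ∈ C

lemma deriv_ne (h1 : SpecRatio) {𝒜 : Set (Cht V)} (hc : Compat 𝒜) {C C' : Set V} {φ : ℂ → V}
    (hφ : Par 𝒜 C φ) {z₀ : ℂ} {e : Cht V} (he : e ∈ 𝒜) (hq : φ z₀ ∈ e.source)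
    {F : ℂ × ℂ → ℂ} (hF : IsLocEq C' (φ z₀) e F) (hC' : φ z₀ ∈ C')
    (ht : TransvAt 𝒜 C C' (φ z₀)) : deriv (fun z => F (e (φ z))) z₀ ≠ 0 := by
  obtain ⟨e', he', hq', F', G', hF', hG', hli⟩ := ht
  obtain ⟨ha', hd'⟩ := hφ.an z₀ e' he' hq'
  obtain ⟨ha, hd⟩ := hφ.an z₀ e he hq
  -- along the curve, F' vanishes
  have hF0 : ∀ᶠ z in 𝓝 z₀, F' (e' (φ z)) = 0 := by
    have := hφ.cont.continuousAt.eventually hF'.2.1
    filter_upwards [this] with z hz
    exact hz.1 (hφ.mem z)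
  have hder : ∀ (P : ℂ × ℂ → ℂ), AnalyticAt ℂ P (e' (φ z₀)) →
      deriv (fun z => P (e' (φ z))) z₀ = fderiv ℂ P (e' (φ z₀)) (deriv (fun w => e' (φ w)) z₀) := by
    intro P hP
    have := (hP.differentiableAt.hasFDerivAt).comp_hasDerivAt z₀
      ha'.differentiableAt.hasDerivAt
    exact this.deriv
  have hFd : fderiv ℂ F' (e' (φ z₀)) (deriv (fun w => e' (φ w)) z₀) = 0 := by
    rw [← hder F' hF'.1]
    have : (fun z => F' (e' (φ z))) =ᶠ[𝓝 z₀] fun _ => (0 : ℂ) := hF0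
    rw [this.deriv_eq]
    simp
  have hGd : deriv (fun z => G' (e' (φ z))) z₀ ≠ 0 := by
    rw [hder G' hG'.1]
    exact indep_ne hli hd' hFd
  -- transport to the chart e
  set G'' : ℂ × ℂ → ℂ := fun y => G' (e' (e.symm y)) with hG''
  have hsym : e.symm (e (φ z₀)) = φ z₀ := e.left_inv hq
  have hGa : AnalyticAt ℂ G'' (e (φ z₀)) := by
    have c1 := hc e he e' he' (φ z₀) ⟨hq, hq'⟩
    have c2 : AnalyticAt ℂ G' ((fun y => e' (e.symm y)) (e (φ z₀))) := by
      simp only [hsym]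
      exact hG'.1
    exact AnalyticAt.comp (g := G') (f := fun y => e' (e.symm y)) c2 c1
  have heq : (fun z => G'' (e (φ z))) =ᶠ[𝓝 z₀] fun z => G' (e' (φ z)) := by
    have := hφ.cont.continuousAt.eventually (e.open_source.mem_nhds hq)
    filter_upwards [this] with z hz
    simp only [hG'']
    rw [e.left_inv hz]
  have hGd2 : deriv (fun z => G'' (e (φ z))) z₀ ≠ 0 := by
    rw [heq.deriv_eq]
    exact hGd
  have hGf : fderiv ℂ G'' (e (φ z₀)) ≠ 0 := by
    intro h0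
    apply hGd2
    have := (hGa.differentiableAt.hasFDerivAt).comp_hasDerivAt z₀
      ha.differentiableAt.hasDerivAt
    have h2 : deriv (fun z => G'' (e (φ z))) z₀ = _ := this.deriv
    rw [h2, h0]
    simp
  have hz : ∀ᶠ y in 𝓝 (e (φ z₀)), (F y = 0 ↔ G'' y = 0) := by
    have t1 : Tendsto e.symm (𝓝 (e (φ z₀))) (𝓝 (φ z₀)) := by
      have := e.continuousAt_symm (e.map_source hq)
      have h2 := this.tendsto
      rwa [hsym] at h2
    filter_upwards [t1.eventually hF.2.1, t1.eventually hG'.2.1,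
      e.open_target.mem_nhds (e.map_source hq)] with y hy1 hy2 hy3
    rw [e.right_inv hy3] at hy1
    rw [← hy1, hy2]
  obtain ⟨H, hH, hHe⟩ := h1 F G'' (e (φ z₀)) hF.1 hGa hz (fun _ => hF.2.2 hC') (fun _ => hGf)
  have hH0 := hH.self_of_nhds
  have hHa : AnalyticAt ℂ (fun z => H (e (φ z))) z₀ := hH0.2.2 (fun w => e (φ w)) z₀ rfl ha
  have hFa : AnalyticAt ℂ (fun z => F (e (φ z))) z₀ :=
    AnalyticAt.comp (g := F) (f := fun w => e (φ w)) hF.1 ha
  have heq2 : (fun z => G'' (e (φ z))) =ᶠ[𝓝 z₀] fun z => H (e (φ z)) * F (e (φ z)) :=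
    ha.continuousAt.eventually hHe
  have hF00 : F (e (φ z₀)) = 0 := hF.2.1.self_of_nhds.1 hC'
  intro h0
  apply hGd2
  rw [heq2.deriv_eq]
  have := (hHa.differentiableAt.hasDerivAt).mul (hFa.differentiableAt.hasDerivAt)
  have h2 : deriv (fun z => H (e (φ z)) * F (e (φ z))) z₀ = _ := this.deriv
  rw [h2, h0, hF00]
  simp

open Classical in
/-- One factor along the curve. -/
lemma factor (h1 : SpecRatio) {𝒜 : Set (Cht V)} (hc : Compat 𝒜) {C C' : Set V} {φ : ℂ → V}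
    (hφ : Par 𝒜 C φ) {z₀ : ℂ} {e : Cht V} (he : e ∈ 𝒜) (hq : φ z₀ ∈ e.source)
    {F : ℂ × ℂ → ℂ} (hF : IsLocEq C' (φ z₀) e F) (a : ℤ)
    (ht : a ≠ 0 → φ z₀ ∈ C' → TransvAt 𝒜 C C' (φ z₀)) :
    ∃ u : ℂ → ℂ, AnalyticAt ℂ u z₀ ∧ u z₀ ≠ 0 ∧ ∀ᶠ z in 𝓝[≠] z₀,
      (F (e (φ z))) ^ a = (z - z₀) ^ (if φ z₀ ∈ C' then a else 0) * u z ∧
        (a ≠ 0 → F (e (φ z)) ≠ 0 ∧ φ z ∉ C') := by
  by_cases ha : a = 0
  · refine ⟨fun _ => 1, analyticAt_const, one_ne_zero, Eventually.of_forall (fun z => ?_)⟩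
    subst ha
    simp
  have hloc : ∀ᶠ z in 𝓝 z₀, (φ z ∈ C' ↔ F (e (φ z)) = 0) :=
    hφ.cont.continuousAt.eventually hF.2.1
  have hea := (hφ.an z₀ e he hq).1
  have hFa : AnalyticAt ℂ (fun z => F (e (φ z))) z₀ :=
    AnalyticAt.comp (g := F) (f := fun w => e (φ w)) hF.1 hea
  by_cases hm : φ z₀ ∈ C'
  · have hd := deriv_ne h1 hc hφ he hq hF hm (ht ha hm)
    have h0 : F (e (φ z₀)) = 0 := hF.2.1.self_of_nhds.1 hm
    obtain ⟨u, hua, hu0, hu⟩ := simple_zero hFa h0 hd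
    refine ⟨fun z => (u z) ^ a, hua.zpow hu0, zpow_ne_zero _ hu0, ?_⟩
    have hune : ∀ᶠ z in 𝓝 z₀, u z ≠ 0 := hua.continuousAt.eventually_ne hu0
    rw [if_pos hm]
    filter_upwards [hloc.filter_mono nhdsWithin_le_nhds, hune.filter_mono nhdsWithin_le_nhds,
      self_mem_nhdsWithin] with z hz1 hz2 hz3
    have hz4 : F (e (φ z)) ≠ 0 := by
      rw [hu z]
      exact mul_ne_zero (sub_ne_zero.2 hz3) hz2
    refine ⟨?_, fun _ => ⟨hz4, fun h => hz4 (hz1.1 h)⟩⟩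
    rw [hu z, mul_zpow]
  · have h0 : F (e (φ z₀)) ≠ 0 := fun h => hm (hF.2.1.self_of_nhds.2 h)
    refine ⟨fun z => (F (e (φ z))) ^ a, hFa.zpow h0, zpow_ne_zero _ h0, ?_⟩
    rw [if_neg hm]
    have hne : ∀ᶠ z in 𝓝 z₀, F (e (φ z)) ≠ 0 := hFa.continuousAt.eventually_ne h0
    filter_upwards [hloc.filter_mono nhdsWithin_le_nhds, hne.filter_mono nhdsWithin_le_nhds]
      with z hz1 hz2
    exact ⟨by simp, fun _ => ⟨hz2, fun h => hz2 (hz1.1 h)⟩⟩

/-- The complement of the curves of `T`. -/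
def off {𝒜 : Set (Cht V)} (T : Finset (Curve 𝒜)) : Set V := {x : V | ∀ C ∈ T, x ∉ C.1}

open Classical in
lemma local_exp (h1 : SpecRatio) (h2 : SpecDense) {𝒜 : Set (Cht V)} (hc : Compat 𝒜) {C : Set V}
    {φ : ℂ → V} (hφ : Par 𝒜 C φ) {T : Finset (Curve 𝒜)} {a : Curve 𝒜 → ℤ}
    (ht : ∀ C' ∈ T, a C' ≠ 0 → ∀ q ∈ C ∩ C'.1, TransvAt 𝒜 C C'.1 q) {R : V → ℂ} {z₀ : ℂ}
    {e : Cht V} (he : e ∈ 𝒜) (hq : φ z₀ ∈ e.source) {F : Curve 𝒜 → ℂ × ℂ → ℂ}
    (hF : ∀ C' ∈ T, IsLocEq C'.1 (φ z₀) e (F C')) {H : ℂ × ℂ → ℂ} (hH : WUnit (e (φ z₀)) H)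
    (hR : ∀ᶠ x in 𝓝 (φ z₀), (∀ C' ∈ T, x ∉ C'.1) →
      R x = H (e x) * ∏ C' ∈ T, (F C' (e x)) ^ (a C')) :
    ∃ u : ℂ → ℂ, AnalyticAt ℂ u z₀ ∧ u z₀ ≠ 0 ∧ ∀ᶠ z in 𝓝[≠] z₀,
      (∀ C' ∈ T, a C' ≠ 0 → φ z ∉ C'.1) ∧
      limUnder (𝓝[off T] (φ z)) R = (z - z₀) ^ (∑ C' ∈ T, if φ z₀ ∈ C'.1 then a C' else 0) * u z := by
  have hfac : ∀ C' : Curve 𝒜, ∃ u : ℂ → ℂ, C' ∈ T → (AnalyticAt ℂ u z₀ ∧ u z₀ ≠ 0 ∧
      ∀ᶠ z in 𝓝[≠] z₀, (F C' (e (φ z))) ^ (a C')
        = (z - z₀) ^ (if φ z₀ ∈ C'.1 then a C' else 0) * u z ∧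
        (a C' ≠ 0 → F C' (e (φ z)) ≠ 0 ∧ φ z ∉ C'.1)) := by
    intro C'
    by_cases h : C' ∈ T
    · obtain ⟨u, hu⟩ := factor h1 hc hφ he hq (hF C' h) (a C')
        (fun ha hm => ht C' h ha _ ⟨hφ.mem z₀, hm⟩)
      exact ⟨u, fun _ => hu⟩
    · exact ⟨fun _ => 0, fun h' => absurd h' h⟩
  choose u hu using hfac
  have hea := (hφ.an z₀ e he hq).1
  have hHa : AnalyticAt ℂ (fun z => H (e (φ z))) z₀ :=
    hH.self_of_nhds.2.2 (fun w => e (φ w)) z₀ rfl hea
  refine ⟨fun z => H (e (φ z)) * ∏ C' ∈ T, u C' z, ?_, ?_, ?_⟩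
  · apply hHa.mul
    exact Finset.analyticAt_fun_prod _ (fun C' hC' => (hu C' hC').1)
  · apply mul_ne_zero hH.self_of_nhds.1
    exact Finset.prod_ne_zero_iff.2 (fun C' hC' => (hu C' hC').2.1)
  · have hall : ∀ᶠ z in 𝓝[≠] z₀, ∀ C' ∈ T, (F C' (e (φ z))) ^ (a C')
        = (z - z₀) ^ (if φ z₀ ∈ C'.1 then a C' else 0) * u C' z ∧
        (a C' ≠ 0 → F C' (e (φ z)) ≠ 0 ∧ φ z ∉ C'.1) :=
      (Finset.eventually_all T).2 (fun C' hC' => (hu C' hC').2.2)
    have hR' : ∀ᶠ z in 𝓝 z₀, ∀ᶠ x in 𝓝 (φ z), (∀ C' ∈ T, x ∉ C'.1) →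
        R x = H (e x) * ∏ C' ∈ T, (F C' (e x)) ^ (a C') :=
      hφ.cont.continuousAt.eventually (eventually_eventually_nhds.2 hR)
    have hsrc : ∀ᶠ z in 𝓝 z₀, φ z ∈ e.source :=
      hφ.cont.continuousAt.eventually (e.open_source.mem_nhds hq)
    have hHc : ∀ᶠ z in 𝓝 z₀, ContinuousAt H (e (φ z)) := by
      have := hea.continuousAt.eventually hH
      filter_upwards [this] with z hz
      exact hz.2.1
    have hFc : ∀ᶠ z in 𝓝 z₀, ∀ C' ∈ T, ContinuousAt (F C') (e (φ z)) := by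
      rw [Finset.eventually_all]
      intro C' hC'
      have h3 := (hF C' hC').1.eventually_analyticAt
      have := hea.continuousAt.eventually h3
      filter_upwards [this] with z hz
      exact hz.continuousAt
    filter_upwards [hall, hR'.filter_mono nhdsWithin_le_nhds, hsrc.filter_mono nhdsWithin_le_nhds,
      hHc.filter_mono nhdsWithin_le_nhds, hFc.filter_mono nhdsWithin_le_nhds,
      self_mem_nhdsWithin] with z hz1 hz2 hz3 hz4 hz5 hz6
    refine ⟨fun C' hC' ha => ((hz1 C' hC').2 ha).2, ?_⟩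
    have hne : (z - z₀) ≠ 0 := sub_ne_zero.2 hz6
    have hlim : Tendsto R (𝓝[off T] (φ z))
        (𝓝 (H (e (φ z)) * ∏ C' ∈ T, (F C' (e (φ z))) ^ (a C'))) := by
      have hec : ContinuousAt e (φ z) := e.continuousAt hz3
      have c1 : ContinuousAt (fun x => H (e x) * ∏ C' ∈ T, (F C' (e x)) ^ (a C')) (φ z) := by
        apply ContinuousAt.mul
        · exact ContinuousAt.comp (f := e) (g := H) hz4 hec
        · apply tendsto_finsetProd
          intro C' hC'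
          have c2 : ContinuousAt (fun x => F C' (e x)) (φ z) :=
            ContinuousAt.comp (f := e) (g := F C') (hz5 C' hC') hec
          by_cases ha : a C' = 0
          · rw [ha]
            simp
          · exact c2.zpow₀ (a C') (Or.inl ((hz1 C' hC').2 ha).1)
      have c3 := c1.tendsto.mono_left (nhdsWithin_le_nhds (s := off T))
      refine c3.congr' ?_
      filter_upwards [hz2.filter_mono nhdsWithin_le_nhds, self_mem_nhdsWithin] with x hx1 hx2
      exact (hx1 hx2).symm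
    have hnb : (𝓝[off T] (φ z)).NeBot := by
      have hd : Dense (off T) := h2 V 𝒜 T
      exact mem_closure_iff_nhdsWithin_neBot.1 (hd (φ z))
    rw [hlim.limUnder_eq]
    have e1 : ∏ C' ∈ T, (F C' (e (φ z))) ^ (a C')
        = ∏ C' ∈ T, ((z - z₀) ^ (if φ z₀ ∈ C'.1 then a C' else 0) * u C' z) :=
      Finset.prod_congr rfl (fun C' hC' => (hz1 C' hC').1)
    have e2 : ∏ C' ∈ T, (z - z₀) ^ (if φ z₀ ∈ C'.1 then a C' else 0)
        = (z - z₀) ^ (∑ C' ∈ T, if φ z₀ ∈ C'.1 then a C' else 0) := by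
      clear hlim hz5 hFc hz1 e1 hz2 hR' hall hu ht hR hF hnb
      induction T using Finset.induction_on with
      | empty => simp
      | insert A T hA ih =>
        rw [Finset.prod_insert hA, Finset.sum_insert hA, zpow_add₀ hne, ih]
    rw [e1, Finset.prod_mul_distrib, e2]
    ring

open Classical in
/-- The number of points of `C ∩ D` for a rational curve. -/
lemma ncard_eq {C D : Set V} {φ : Fin 2 → ℂ → V} (hinj : Function.Injective (φ 0))
    (hinf : φ 1 0 ∉ Set.range (φ 0)) (hC : C = Set.range (φ 0) ∪ {φ 1 0}) (S : Finset ℂ)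
    (hS : ∀ z, φ 0 z ∈ D → z ∈ S) :
    (((C ∩ D).ncard : ℕ) : ℤ)
      = ∑ z ∈ S, (if φ 0 z ∈ D then (1 : ℤ) else 0) + (if φ 1 0 ∈ D then 1 else 0) := by
  set P : Finset V := (S.filter (fun z => φ 0 z ∈ D)).image (φ 0) ∪
    (if φ 1 0 ∈ D then {φ 1 0} else ∅) with hP
  have hPs : (P : Set V) = C ∩ D := by
    ext x
    simp only [hP, hC, Finset.coe_union, Set.mem_union, Finset.mem_coe, Finset.mem_image,
      Finset.mem_filter, Set.mem_inter_iff, Set.mem_range, Set.mem_singleton_iff]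
    constructor
    · rintro (⟨z, ⟨hz1, hz2⟩, rfl⟩ | h)
      · exact ⟨Or.inl ⟨z, rfl⟩, hz2⟩
      · by_cases h1 : φ 1 0 ∈ D
        · rw [if_pos h1] at h
          rw [Finset.mem_singleton] at h
          subst h
          exact ⟨Or.inr rfl, h1⟩
        · rw [if_neg h1] at h
          exact absurd h (Finset.notMem_empty _)
    · rintro ⟨⟨z, rfl⟩ | rfl, hx⟩
      · exact Or.inl ⟨z, ⟨hS z hx, hx⟩, rfl⟩
      · right
        rw [if_pos hx]
        exact Finset.mem_singleton_self _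
  rw [← hPs, Set.ncard_coe_finset]
  have hd : Disjoint ((S.filter (fun z => φ 0 z ∈ D)).image (φ 0))
      (if φ 1 0 ∈ D then ({φ 1 0} : Finset V) else ∅) := by
    by_cases h1 : φ 1 0 ∈ D
    · rw [if_pos h1, Finset.disjoint_singleton_right]
      intro h
      obtain ⟨z, _, hz⟩ := Finset.mem_image.1 h
      exact hinf ⟨z, hz⟩
    · rw [if_neg h1]
      exact Finset.disjoint_empty_right _
  rw [hP, Finset.card_union_of_disjoint hd, Finset.card_image_of_injective _ hinj,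
    Finset.card_filter]
  push_cast
  congr 1
  by_cases h1 : φ 1 0 ∈ D
  · rw [if_pos h1, if_pos h1]
    simp
  · rw [if_neg h1, if_neg h1]
    simp

end

end UUNM

open UUNM

open Classical in
theorem specUniq (h1 : SpecRatio) (h2 : SpecDense) (h3 : SpecQuot) (h4 : SpecLiou) :
    SpecUniq := by
  intro V _ _ _ 𝒜 hc C hrat B n n' hn hn'
  obtain ⟨φ, hcont, han, hinv, hinj, hinf, hC⟩ := hrat
  have hmem : ∀ i z, φ i z ∈ C.1 := by
    intro i z
    rw [hC]
    fin_cases i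
    · exact Or.inl ⟨z, rfl⟩
    · by_cases hz : z = 0
      · right
        subst hz
        rfl
      · left
        exact ⟨z⁻¹, (hinv z hz).symm⟩
  have hpar : ∀ i, Par 𝒜 C.1 (φ i) := fun i => ⟨hcont i, fun z => han i z, hmem i⟩
  obtain ⟨B', ⟨f', hf'⟩, ht', rfl⟩ := hn
  obtain ⟨B'', ⟨f'', hf''⟩, ht'', rfl⟩ := hn'
  obtain ⟨T, hT1, hT2, hloc⟩ := h3 V 𝒜 hc f' f'' _ _ hf' hf''
  obtain ⟨a, ha⟩ : ∃ a : Curve 𝒜 → ℤ, ∀ D, a D = (B - B') D - (B - B'') D := ⟨_, fun _ => rfl⟩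
  have hab : ∀ D, a D = B'' D - B' D := by
    intro D
    rw [ha]
    simp
  have haT : ∀ D, D ∉ T → a D = 0 := by
    intro D hD
    rw [ha, Finsupp.notMem_support_iff.1 (fun h => hD (hT1 h)),
      Finsupp.notMem_support_iff.1 (fun h => hD (hT2 h)), sub_zero]
  have ht : ∀ D ∈ T, a D ≠ 0 → ∀ q ∈ C.1 ∩ D.1, TransvAt 𝒜 C.1 D.1 q := by
    intro D _ hD q hq
    by_cases h : B' D = 0
    · have h5 : B'' D ≠ 0 := by
        intro h6
        apply hD
        rw [hab, h, h6, sub_zero]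
      exact ht'' D (Finsupp.mem_support_iff.2 h5) q hq
    · exact ht' D (Finsupp.mem_support_iff.2 h) q hq
  have main : ∀ i z₀, ∃ u : ℂ → ℂ, AnalyticAt ℂ u z₀ ∧ u z₀ ≠ 0 ∧ ∀ᶠ z in 𝓝[≠] z₀,
      (∀ D ∈ T, a D ≠ 0 → φ i z ∉ D.1) ∧
      limUnder (𝓝[off T] (φ i z)) (fun x => f' x / f'' x)
        = (z - z₀) ^ (∑ D ∈ T, if φ i z₀ ∈ D.1 then a D else 0) * u z := by
    intro i z₀
    obtain ⟨e, he, hq, F, hF, H, hH, hR⟩ := hloc (φ i z₀)
    refine local_exp h1 h2 hc (hpar i) ht he hq hF hH ?_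
    filter_upwards [hR] with x hx hx2
    rw [hx hx2]
    congr 1
    exact Finset.prod_congr rfl (fun D _ => by rw [ha])
  have hfin : {z : ℂ | ∃ D ∈ T, a D ≠ 0 ∧ φ 0 z ∈ D.1}.Finite := by
    by_contra hinfi
    obtain ⟨u, -, -, hu⟩ := main 1 0
    obtain ⟨r, hr, hrr⟩ := Metric.eventually_nhds_iff.1 (eventually_nhdsWithin_iff.1 hu)
    have hsub : {z : ℂ | ∃ D ∈ T, a D ≠ 0 ∧ φ 0 z ∈ D.1} ⊆ Metric.closedBall 0 (1 / r) := by
      rintro z ⟨D, hD, haD, hz⟩
      rw [mem_closedBall_zero_iff]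
      by_contra hlt
      push Not at hlt
      have hz0 : z ≠ 0 := by
        rintro rfl
        rw [norm_zero] at hlt
        have : 0 < 1 / r := by positivity
        linarith
      have hzi : z⁻¹ ≠ 0 := inv_ne_zero hz0
      have h5 : dist z⁻¹ 0 < r := by
        rw [dist_zero_right, norm_inv]
        rw [one_div] at hlt
        have := inv_lt_of_inv_lt₀ hr hlt
        exact this
      have h6 := (hrr h5 hzi).1 D hD haD
      rw [hinv _ hzi, inv_inv] at h6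
      exact h6 hz
    obtain ⟨x, _, hx⟩ := Set.Infinite.exists_accPt_of_subset_isCompact hinfi
      (isCompact_closedBall 0 (1 / r)) hsub
    rw [accPt_iff_frequently_nhdsNE] at hx
    obtain ⟨u, -, -, hu⟩ := main 0 x
    apply hx
    filter_upwards [hu] with z hz
    rintro ⟨D, hD, haD, hz2⟩
    exact hz.1 D hD haD hz2
  have hL := h4 (fun z => limUnder (𝓝[off T] (φ 0 z)) (fun x => f' x / f'' x)) hfin.toFinset
    (fun z => ∑ D ∈ T, if φ 0 z ∈ D.1 then a D else 0)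
    (∑ D ∈ T, if φ 1 0 ∈ D.1 then a D else 0) ?_ ?_ ?_
  · have key : ∑ D ∈ T, a D * ((C.1 ∩ D.1).ncard : ℤ) = 0 := by
      rw [Finset.sum_comm, ← Finset.sum_add_distrib] at hL
      rw [← hL]
      refine Finset.sum_congr rfl (fun D hD => ?_)
      by_cases haD : a D = 0
      · rw [haD]
        simp
      · rw [ncard_eq hinj hinf hC hfin.toFinset (fun z hz => by
          rw [Set.Finite.mem_toFinset]
          exact ⟨D, hD, haD, hz⟩)]
        rw [mul_add, Finset.mul_sum]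
        congr 1
        · refine Finset.sum_congr rfl (fun z _ => ?_)
          split_ifs <;> simp
        · split_ifs <;> simp
    set U : Finset (Curve 𝒜) := T ∪ (B'.support ∪ B''.support) with hU
    have e1 : ∑ D ∈ B'.support, B' D * ((C.1 ∩ D.1).ncard : ℤ)
        = ∑ D ∈ U, B' D * ((C.1 ∩ D.1).ncard : ℤ) := by
      apply Finset.sum_subset
      · intro D hD
        rw [hU, Finset.mem_union, Finset.mem_union]
        exact Or.inr (Or.inl hD)
      · intro D _ hD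
        rw [Finsupp.notMem_support_iff.1 hD, zero_mul]
    have e2 : ∑ D ∈ B''.support, B'' D * ((C.1 ∩ D.1).ncard : ℤ)
        = ∑ D ∈ U, B'' D * ((C.1 ∩ D.1).ncard : ℤ) := by
      apply Finset.sum_subset
      · intro D hD
        rw [hU, Finset.mem_union, Finset.mem_union]
        exact Or.inr (Or.inr hD)
      · intro D _ hD
        rw [Finsupp.notMem_support_iff.1 hD, zero_mul]
    have e3 : ∑ D ∈ T, a D * ((C.1 ∩ D.1).ncard : ℤ)
        = ∑ D ∈ U, a D * ((C.1 ∩ D.1).ncard : ℤ) := by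
      apply Finset.sum_subset
      · intro D hD
        rw [hU, Finset.mem_union]
        exact Or.inl hD
      · intro D _ hD
        rw [haT D hD, zero_mul]
    have e4 : ∑ D ∈ U, a D * ((C.1 ∩ D.1).ncard : ℤ)
        = ∑ D ∈ U, B'' D * ((C.1 ∩ D.1).ncard : ℤ)
          - ∑ D ∈ U, B' D * ((C.1 ∩ D.1).ncard : ℤ) := by
      rw [← Finset.sum_sub_distrib]
      refine Finset.sum_congr rfl (fun D _ => ?_)
      rw [hab]
      ring
    rw [e1, e2]
    rw [e3, e4] at key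
    linarith
  · intro z hz
    apply Finset.sum_eq_zero
    intro D hD
    by_cases h : φ 0 z ∈ D.1
    · rw [if_pos h]
      by_contra haD
      apply hz
      rw [Set.Finite.mem_toFinset]
      exact ⟨D, hD, haD, h⟩
    · rw [if_neg h]
  · intro z₀
    obtain ⟨u, hu1, hu2, hu3⟩ := main 0 z₀
    refine ⟨u, hu1, hu2, ?_⟩
    filter_upwards [hu3] with z hz
    exact hz.2
  · obtain ⟨u, hu1, hu2, hu3⟩ := main 1 0
    refine ⟨u, hu1, hu2, ?_⟩
    filter_upwards [hu3, self_mem_nhdsWithin] with w hw hw0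
    rw [← hinv w hw0, hw.2, sub_zero]

end Pool.Agent.MP_8f595d_ag
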