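import Pool.Agent.Lib.MP_8f595d_ag.VDF

/-!
# Module VCA: the canonical divisor
-/

set_option autoImplicit false

open scoped Topology LinearAlgebra.Projectivization

namespace Pool.Agent.MP_8f595d_ag

namespace VCAM

/-- A choice of the indices of a chart. -/
noncomputable def idx (K : Charts) (e : Cht V) : Fin 12 × Fin 2 :=
  open Classical in
  if h : ∃ i : Fin 12 × Fin 2, K.ch i.1 i.2 = e then h.choose else (0, 0)

lemma idx_spec (K : Charts) (e : Cht V) (he : e ∈ K.atl) :
    K.ch (idx K e).1 (idx K e).2 = e := by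
  have h : ∃ i : Fin 12 × Fin 2, K.ch i.1 i.2 = e := he
  unfold idx
  rw [dif_pos h]
  exact h.choose_spec

/-- The sign. -/
noncomputable def sgn (b : Fin 12) (ε : Fin 2) : ℂ :=
  (if b = 8 then -1 else 1) * (if ε = 0 then 1 else -1)

lemma Jz_eq (b : Fin 12) (ε : Fin 2) (y : ℂ × ℂ) : Jz b ε y = sgn b ε * y.1 := by
  unfold Jz sgn
  split_ifs <;> ring

lemma sgn_ne (b : Fin 12) (ε : Fin 2) : sgn b ε ≠ 0 := by
  unfold sgn
  split_ifs <;> norm_num

lemma incl0 (b : Fin 12) : b ∈ incl 0 ↔ ¬ (b < 8) := by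
  revert b; decide

end VCAM

open VLOM VDFM VCAM in
theorem specCanon (hL : SpecLin) (hLoc : SpecLoc) (hC : SpecCover) (hT : SpecTrans)
    (hI : SpecIntE) : SpecCanon := by
  classical
  intro K h h0
  set l : Unit → Fin 3 → ℂ := fun _ => ln 0 with hl
  have hl0 : ∀ j, l j ≠ 0 := fun _ => h0
  have hli : ∀ i j : Unit, i ≠ j → LinearIndependent ℂ ![l i, l j] :=
    fun i j hij => absurd (Subsingleton.elim i j) hij
  set c : Cht V → V → ℂ := fun e x =>
    Jz (idx K e).1 (idx K e).2 (e x) / (dot (ln 0) (zz (idx K e).1 (idx K e).2 (e x))) ^ 3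
    with hc
  refine ⟨c, ?_⟩
  set m : Fin 12 → ℤ := fun b => if b < 8 then 1 else -2 with hm
  have key := isFormDivisor_of (𝒜 := K.atl) (gam K h l hl0) (gam_inj hI K h l hl0 hli)
    (Sum.elim (fun _ => -3) m) c ?_ ?_
  · rw [Fintype.sum_sum_type] at key
    simpa [K0, gam, hm] using key
  · intro e he e' he' x hx _
    obtain ⟨hx1, hx2⟩ := hx
    have hi := idx_spec K e he
    have hi' := idx_spec K e' he'
    set b := (idx K e).1 with hb
    set ε := (idx K e).2 with hε
    set b' := (idx K e').1 with hb'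
    set ε' := (idx K e').2 with hε'
    have hy : e x ∈ Tgt b ε := by
      rw [← K.target, hi]; exact e.map_source hx1
    have hsy : (K.ch b ε).symm (e x) = x := by
      rw [hi]; exact e.left_inv hx1
    have hx' : (K.ch b ε).symm (e x) ∈ Src b' ε' := by
      rw [hsy, ← K.source, hi']; exact hx2
    obtain ⟨-, g, hg, hz, hJ⟩ := hT b ε b' ε' K (e x) hy hx'
    rw [hsy, hi'] at hz
    rw [hsy, hi', hi] at hJ
    show Jz b ε (e x) / (dot (ln 0) (zz b ε (e x))) ^ 3 =
      Jz b' ε' (e' x) / (dot (ln 0) (zz b' ε' (e' x))) ^ 3 * _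
    rw [hz, dot_smul, div_mul_eq_mul_div, hJ, mul_pow, mul_div_mul_left _ _ (pow_ne_zero 3 hg)]
  · intro q
    obtain ⟨b₀, ε₀, hq⟩ := hC q
    set e := K.ch b₀ ε₀ with he
    have heA : e ∈ K.atl := ⟨(b₀, ε₀), rfl⟩
    have hqe : q ∈ e.source := by rw [he, K.source]; exact hq
    have hi := idx_spec K e heA
    refine ⟨e, heA, hqe, ?_⟩
    set b := (idx K e).1 with hb
    set ε := (idx K e).2 with hε
    have hqs : q ∈ Src b ε := by rw [← K.source, hi]; exact hqe
    refine ⟨gF l b ε, fun i => ?_, fun _ => sgn b ε, analyticAt_const, sgn_ne b ε, ?_⟩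
    · have := gF_loc hLoc K h l hl0 b ε q hqs i
      rw [hi] at this
      exact this
    · filter_upwards [src_nhds K b ε q hqs] with x hx hTx
      have hex : e x = co b ε x := by
        rw [← K.coe b ε x hx, hi]
      have hy : (co b ε x).1 ≠ 0 := by
        intro h0
        exact hTx (Sum.inr b) ((mem_Eb_iff b ε x hx).2 h0)
      have hE : eqL (ln 0) b ε (co b ε x) ≠ 0 := by
        intro h0
        exact hTx (Sum.inl ()) ((mem_Lt_iff hL (ln 0) b ε x hx).2 h0)
      have hcx : c e x = Jz b ε (e x) / (dot (ln 0) (zz b ε (e x))) ^ 3 := rfl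
      rw [hcx, prod_gF, hex, Jz_eq, hLoc.1]
      have hinc := hL.2.2.2.2.2.2.2.1 0 b
      rw [incl0] at hinc
      have hm' : m b = if b < 8 then 1 else -2 := rfl
      have hprod : ∏ j : Unit, (eqL (l j) b ε (co b ε x)) ^ (-3 : ℤ) =
          (eqL (ln 0) b ε (co b ε x)) ^ (-3 : ℤ) := by simp [hl]
      rw [hprod, hm']
      have h3 : (eqL (ln 0) b ε (co b ε x)) ^ (-3 : ℤ) =
          ((eqL (ln 0) b ε (co b ε x)) ^ 3)⁻¹ := by
        rw [zpow_neg]; norm_cast
      rw [h3]
      by_cases hb8 : b < 8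
      · have : ¬ dot (ln 0) (bv b) = 0 := fun hh => (hinc.1 hh) hb8
        rw [if_neg this, if_pos hb8, zpow_one]
        field_simp
      · have : dot (ln 0) (bv b) = 0 := hinc.2 hb8
        rw [if_pos this, if_neg hb8]
        have h2 : (co b ε x).1 ^ (-2 : ℤ) = ((co b ε x).1 ^ 2)⁻¹ := by
          rw [zpow_neg]; norm_cast
        rw [h2]
        field_simp

end Pool.Agent.MP_8f595d_ag
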