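import Pool.Agent.Lib.MP_8f595d_ag.VSpec

/-!
# Module VLO: local equations of the curves
-/

set_option autoImplicit false

open scoped Topology LinearAlgebra.Projectivization

namespace Pool.Agent.MP_8f595d_ag

namespace VLOM

lemma dot_add (l z z' : Fin 3 → ℂ) : dot l (z + z') = dot l z + dot l z' := by
  simp [dot]; ring

lemma dot_smul (l z : Fin 3 → ℂ) (a : ℂ) : dot l (a • z) = a * dot l z := by
  simp [dot]; ring

lemma fin2 (ε : Fin 2) : ε = 0 ∨ ε = 1 := by
  fin_cases ε <;> simp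

lemma dot_zz (l : Fin 3 → ℂ) (b : Fin 12) (ε : Fin 2) (y : ℂ × ℂ) :
    dot l (zz b ε y) = dot l (bv b) +
      y.1 * (dot l (d1 b) * mm ε y 0 + dot l (d2 b) * mm ε y 1) := by
  rcases fin2 ε with rfl | rfl
  · simp only [zz, mm, if_true, dot_add, dot_smul]
    simp
    ring
  · simp only [zz, mm]
    simp [dot_add, dot_smul]
    ring

lemma dot_zz' (l : Fin 3 → ℂ) (b : Fin 12) (ε : Fin 2) (y : ℂ × ℂ) :
    dot l (zz b ε y) =
      (open Classical in if dot l (bv b) = 0 then y.1 else 1) * eqL l b ε y := by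
  unfold eqL
  split_ifs with h
  · rw [dot_zz, h, zero_add]
  · rw [one_mul]

/-- On the source of the chart, the representative is `w₀` times the parametrization. -/
lemma rep_eq (hL : SpecLin) (b : Fin 12) (ε : Fin 2) (x : V) (hx : x ∈ Src b ε) :
    x.1.1.rep = w0 b x.1.1.rep • zz b ε (co b ε x) := by
  obtain ⟨h0, hm, -⟩ := hx
  have hrel := x.2 b
  have hdec := hL.2.1 b x.1.1.rep
  set p := x.1.1.rep with hp
  set m := (x.1.2 b).rep with hmd
  rcases fin2 ε with rfl | rfl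
  · have e1 : (co b 0 x).1 = w1 b p / w0 b p := by simp [co, ← hp]
    have e2 : (co b 0 x).2 = m 1 / m 0 := by simp [co, ← hmd]
    have e3 : (co b 0 x).1 * (co b 0 x).2 = w2 b p / w0 b p := by
      rw [e1, e2]; field_simp; rw [hrel]; ring
    have e4 : zz b 0 (co b 0 x) =
        bv b + (w1 b p / w0 b p) • d1 b + (w2 b p / w0 b p) • d2 b := by
      simp only [zz, if_true]; rw [e3, e1]
    rw [e4, smul_add, smul_add, smul_smul, smul_smul, mul_div_cancel₀ _ h0, mul_div_cancel₀ _ h0]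
    exact hdec
  · have e1 : (co b 1 x).1 = w2 b p / w0 b p := by simp [co, ← hp]
    have e2 : (co b 1 x).2 = m 0 / m 1 := by simp [co, ← hmd]
    have e3 : (co b 1 x).1 * (co b 1 x).2 = w1 b p / w0 b p := by
      rw [e1, e2]; field_simp; rw [← hrel]; ring
    have e4 : zz b 1 (co b 1 x) =
        bv b + (w1 b p / w0 b p) • d1 b + (w2 b p / w0 b p) • d2 b := by
      simp only [zz]; rw [e3, e1]; simp
    rw [e4, smul_add, smul_add, smul_smul, smul_smul, mul_div_cancel₀ _ h0, mul_div_cancel₀ _ h0]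
    exact hdec

/-- The slope is a multiple of `mm`. -/
lemma slope_eq (b : Fin 12) (ε : Fin 2) (x : V) (hx : x ∈ Src b ε) (i : Fin 2) :
    (x.1.2 b).rep i = (x.1.2 b).rep ε * mm ε (co b ε x) i := by
  obtain ⟨h0, hm, -⟩ := hx
  set m := (x.1.2 b).rep with hmd
  rcases fin2 ε with rfl | rfl
  · have e2 : (co b 0 x).2 = m 1 / m 0 := by simp [co, ← hmd]
    rcases fin2 i with rfl | rfl
    · simp [mm]
    · simp only [mm, if_true]; rw [e2]; simp; field_simp
  · have e2 : (co b 1 x).2 = m 0 / m 1 := by simp [co, ← hmd]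
    rcases fin2 i with rfl | rfl
    · simp only [mm]; rw [e2]; simp; field_simp
    · simp [mm]

lemma mem_Eb_iff (b : Fin 12) (ε : Fin 2) (x : V) (hx : x ∈ Src b ε) :
    x ∈ Eb b ↔ (co b ε x).1 = 0 := by
  obtain ⟨h0, hm, -⟩ := hx
  have hrel := x.2 b
  simp only [Eb, Set.mem_ofPred_eq]
  set p := x.1.1.rep with hp
  set m := (x.1.2 b).rep with hmd
  rcases fin2 ε with rfl | rfl
  · have e1 : (co b 0 x).1 = w1 b p / w0 b p := by simp [co, ← hp]
    rw [e1, div_eq_zero_iff]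
    constructor
    · intro h; exact Or.inl h.1
    · intro h
      have h1 : w1 b p = 0 := by tauto
      refine ⟨h1, ?_⟩
      rw [h1, zero_mul] at hrel
      rcases mul_eq_zero.1 hrel.symm with h | h
      · exact h
      · exact absurd h hm
  · have e1 : (co b 1 x).1 = w2 b p / w0 b p := by simp [co, ← hp]
    rw [e1, div_eq_zero_iff]
    constructor
    · intro h; exact Or.inl h.2
    · intro h
      have h1 : w2 b p = 0 := by tauto
      refine ⟨?_, h1⟩
      rw [h1, zero_mul] at hrel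
      rcases mul_eq_zero.1 hrel with h | h
      · exact h
      · exact absurd h hm

/-- If `p` is not the point `b` and is on the line then the slope of `p` at `b` is the slope of
the line. -/
lemma slope_line (hL : SpecLin) (l : Fin 3 → ℂ) (b : Fin 12) (x : V)
    (hp : ¬ (w1 b x.1.1.rep = 0 ∧ w2 b x.1.1.rep = 0)) (hl : dot l x.1.1.rep = 0)
    (hb : dot l (bv b) = 0) :
    dot l (d1 b) * (x.1.2 b).rep 0 + dot l (d2 b) * (x.1.2 b).rep 1 = 0 := by
  have hrel := x.2 b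
  have hdec := hL.2.1 b x.1.1.rep
  rw [hdec] at hl
  set p := x.1.1.rep with hpd
  set m := (x.1.2 b).rep with hmd
  simp only [dot_add, dot_smul] at hl
  rw [hb, mul_zero, zero_add] at hl
  by_cases h1 : w1 b p = 0
  · have h2 : w2 b p ≠ 0 := fun h => hp ⟨h1, h⟩
    apply mul_left_cancel₀ h2
    linear_combination m 1 * hl - dot l (d1 b) * hrel
  · apply mul_left_cancel₀ h1
    linear_combination m 0 * hl + dot l (d2 b) * hrel

lemma mem_Lt_iff (hL : SpecLin) (l : Fin 3 → ℂ) (b : Fin 12) (ε : Fin 2) (x : V)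
    (hx : x ∈ Src b ε) : x ∈ Lt l ↔ eqL l b ε (co b ε x) = 0 := by
  have hrep := rep_eq hL b ε x hx
  have hslope := slope_eq b ε x hx
  have hx' := hx
  obtain ⟨h0, hm, hne⟩ := hx'
  have hdot : dot l x.1.1.rep = w0 b x.1.1.rep * dot l (zz b ε (co b ε x)) := by
    conv_lhs => rw [hrep]
    rw [dot_smul]
  have hother : dot l x.1.1.rep = 0 → ∀ b', b' ≠ b → dot l (bv b') = 0 →
      dot l (d1 b') * (x.1.2 b').rep 0 + dot l (d2 b') * (x.1.2 b').rep 1 = 0 := by
    intro h1 b' hb' h2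
    exact slope_line hL l b' x (hne b' hb') h1 h2
  simp only [Lt, Set.mem_ofPred_eq]
  by_cases hb : dot l (bv b) = 0
  · have hval : dot l (d1 b) * (x.1.2 b).rep 0 + dot l (d2 b) * (x.1.2 b).rep 1 =
        (x.1.2 b).rep ε * eqL l b ε (co b ε x) := by
      rw [hslope 0, hslope 1]
      unfold eqL
      rw [if_pos hb]
      ring
    constructor
    · rintro ⟨-, h⟩
      have := h b hb
      rw [hval] at this
      rcases mul_eq_zero.1 this with h | h
      · exact absurd h hm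
      · exact h
    · intro h
      have h1 : dot l x.1.1.rep = 0 := by
        rw [hdot, dot_zz', h]; ring
      refine ⟨h1, fun b' hb' => ?_⟩
      by_cases hbb : b' = b
      · subst hbb
        rw [hval, h, mul_zero]
      · exact hother h1 b' hbb hb'
  · have hval : eqL l b ε (co b ε x) = dot l (zz b ε (co b ε x)) := by
      unfold eqL; rw [if_neg hb]
    constructor
    · rintro ⟨h, -⟩
      rw [hdot] at h
      rw [hval]
      rcases mul_eq_zero.1 h with h | h
      · exact absurd h h0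
      · exact h
    · intro h
      have h1 : dot l x.1.1.rep = 0 := by
        rw [hdot, ← hval, h]; ring
      refine ⟨h1, fun b' hb' => ?_⟩
      by_cases hbb : b' = b
      · subst hbb
        exact absurd hb' hb
      · exact hother h1 b' hbb hb'

/-- `l = 0` if it vanishes on the basis. -/
lemma l_zero (hL : SpecLin) (l : Fin 3 → ℂ) (b : Fin 12) (h0 : dot l (bv b) = 0)
    (h1 : dot l (d1 b) = 0) (h2 : dot l (d2 b) = 0) : l = 0 := by
  have h : ∀ z, dot l z = 0 := by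
    intro z
    rw [hL.2.1 b z]
    simp only [dot_add, dot_smul]
    rw [h0, h1, h2]; ring
  funext i
  fin_cases i
  · simpa [dot] using h ![1, 0, 0]
  · simpa [dot] using h ![0, 1, 0]
  · simpa [dot] using h ![0, 0, 1]

/-- The two coefficients of the linear function on slopes. -/
lemma mm_lin (A B : ℂ) (ε : Fin 2) :
    ∃ P Q : ℂ, (∀ y : ℂ × ℂ, A * mm ε y 0 + B * mm ε y 1 = P + Q * y.2) ∧
      (P = 0 → Q = 0 → A = 0 ∧ B = 0) := by
  rcases fin2 ε with rfl | rfl
  · exact ⟨A, B, fun y => by simp [mm], fun h1 h2 => ⟨h1, h2⟩⟩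
  · exact ⟨B, A, fun y => by simp [mm]; ring, fun h1 h2 => ⟨h2, h1⟩⟩

lemma fderiv_lin (P Q : ℂ) (y : ℂ × ℂ) :
    HasFDerivAt (fun y : ℂ × ℂ => P + Q * y.2) (Q • ContinuousLinearMap.snd ℂ ℂ ℂ) y := by
  have h := ((hasFDerivAt_snd (𝕜 := ℂ) (E := ℂ) (F := ℂ) (p := y)).const_mul Q).const_add P
  exact h

lemma fderiv_quad (C P Q : ℂ) (y : ℂ × ℂ) :
    HasFDerivAt (fun y : ℂ × ℂ => C + y.1 * (P + Q * y.2))
      (y.1 • (Q • ContinuousLinearMap.snd ℂ ℂ ℂ) +
        (P + Q * y.2) • ContinuousLinearMap.fst ℂ ℂ ℂ) y := by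
  have h := ((hasFDerivAt_fst (𝕜 := ℂ) (E := ℂ) (F := ℂ) (p := y)).mul
    (fderiv_lin P Q y)).const_add C
  exact h

lemma anal_lin (P Q : ℂ) (y : ℂ × ℂ) : AnalyticAt ℂ (fun y : ℂ × ℂ => P + Q * y.2) y :=
  analyticAt_const.add (analyticAt_const.mul analyticAt_snd)

lemma anal_quad (C P Q : ℂ) (y : ℂ × ℂ) :
    AnalyticAt ℂ (fun y : ℂ × ℂ => C + y.1 * (P + Q * y.2)) y :=
  analyticAt_const.add (analyticAt_fst.mul (anal_lin P Q y))

/-- The two forms of the local equation of a line. -/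
lemma eqL_form (hL : SpecLin) (l : Fin 3 → ℂ) (hl : l ≠ 0) (b : Fin 12) (ε : Fin 2) :
    (∃ P Q : ℂ, eqL l b ε = (fun y => P + Q * y.2) ∧ ¬ (P = 0 ∧ Q = 0)) ∨
    (∃ C P Q : ℂ, eqL l b ε = (fun y => C + y.1 * (P + Q * y.2)) ∧ C ≠ 0) := by
  obtain ⟨P, Q, h1, h2⟩ := mm_lin (dot l (d1 b)) (dot l (d2 b)) ε
  by_cases hb : dot l (bv b) = 0
  · left
    refine ⟨P, Q, ?_, ?_⟩
    · funext y
      unfold eqL
      rw [if_pos hb, h1]
    · rintro ⟨hP, hQ⟩
      obtain ⟨h3, h4⟩ := h2 hP hQ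
      exact hl (l_zero hL l b hb h3 h4)
  · right
    refine ⟨dot l (bv b), P, Q, ?_, hb⟩
    funext y
    unfold eqL
    rw [if_neg hb, dot_zz, h1]

lemma eqL_analytic (hL : SpecLin) (l : Fin 3 → ℂ) (hl : l ≠ 0) (b : Fin 12) (ε : Fin 2)
    (y : ℂ × ℂ) : AnalyticAt ℂ (eqL l b ε) y := by
  rcases eqL_form hL l hl b ε with ⟨P, Q, h, -⟩ | ⟨C, P, Q, h, -⟩
  · rw [h]; exact anal_lin P Q y
  · rw [h]; exact anal_quad C P Q y

lemma eqL_fderiv (hL : SpecLin) (l : Fin 3 → ℂ) (hl : l ≠ 0) (b : Fin 12) (ε : Fin 2)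
    (y : ℂ × ℂ) (hy : eqL l b ε y = 0) : fderiv ℂ (eqL l b ε) y ≠ 0 := by
  rcases eqL_form hL l hl b ε with ⟨P, Q, h, h0⟩ | ⟨C, P, Q, h, h0⟩
  · rw [h] at hy ⊢
    rw [(fderiv_lin P Q y).fderiv]
    intro h3
    have h4 := DFunLike.congr_fun h3 ((0 : ℂ), (1 : ℂ))
    have h5 : Q = 0 := by simpa using h4
    simp only [h5, zero_mul, add_zero] at hy
    exact h0 ⟨hy, h5⟩
  · rw [h] at hy ⊢
    rw [(fderiv_quad C P Q y).fderiv]
    intro h3
    have h4 := DFunLike.congr_fun h3 ((1 : ℂ), (0 : ℂ))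
    have h5 : P + Q * y.2 = 0 := by simpa using h4
    simp only [h5, mul_zero, add_zero] at hy
    exact h0 hy

lemma fderiv_fst_ne (y : ℂ × ℂ) : fderiv ℂ (fun y : ℂ × ℂ => y.1) y ≠ 0 := by
  rw [(hasFDerivAt_fst (𝕜 := ℂ) (E := ℂ) (F := ℂ) (p := y)).fderiv]
  intro h3
  have h4 := DFunLike.congr_fun h3 ((1 : ℂ), (0 : ℂ))
  simp at h4

lemma src_nhds (K : Charts) (b : Fin 12) (ε : Fin 2) (q : V) (hq : q ∈ Src b ε) :
    Src b ε ∈ 𝓝 q := by
  have h := (K.ch b ε).open_source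
  rw [K.source] at h
  exact h.mem_nhds hq

end VLOM

open VLOM in
theorem specLoc (hL : SpecLin) : SpecLoc := by
  refine ⟨fun l b ε y => dot_zz' l b ε y, ?_⟩
  intro K b ε q hq
  have hN := src_nhds K b ε q hq
  refine ⟨⟨analyticAt_fst, ?_, fun _ => fderiv_fst_ne _⟩, ?_, ?_⟩
  · filter_upwards [hN] with x hx
    rw [K.coe b ε x hx]
    exact mem_Eb_iff b ε x hx
  · intro b' hb'
    have hno : ∀ x ∈ Src b ε, x ∉ Eb b' := fun x hx h => hx.2.2 b' hb' h
    refine ⟨analyticAt_const, ?_, fun h => absurd h (hno q hq)⟩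
    filter_upwards [hN] with x hx
    simp [hno x hx]
  · intro l hl
    refine ⟨eqL_analytic hL l hl b ε _, ?_, ?_⟩
    · filter_upwards [hN] with x hx
      rw [K.coe b ε x hx]
      exact mem_Lt_iff hL l b ε x hx
    · intro h
      apply eqL_fderiv hL l hl b ε
      rw [K.coe b ε q hq]
      exact (mem_Lt_iff hL l b ε q hq).1 h

end Pool.Agent.MP_8f595d_ag
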