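import Pool.Agent.Lib.MP_8f595d_ag.VCH

/-!
# Module VTO: topology of `V`;  module VCO: the charts cover
-/

set_option autoImplicit false

open scoped Topology LinearAlgebra.Projectivization

namespace Pool.Agent.MP_8f595d_ag

namespace VTOM

open Pool.Agent.SH Pool.Agent.SH.HptM VCHM

/-- the projection from the product of the cones -/
noncomputable def cone (v : {v : Fin 3 → ℂ // v ≠ 0} × (Fin 12 → {v : Fin 2 → ℂ // v ≠ 0})) :
    P2 × (Fin 12 → P1) := Prod.map (prj 3) (Pi.map fun _ => prj 2) v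

lemma cone_open : IsOpenQuotientMap cone := by
  have h1 : ∀ n, IsOpenQuotientMap (prj n) := fun n => ⟨surj n, (quot n).continuous, open_map n⟩
  exact (h1 3).prodMap (IsOpenQuotientMap.piMap fun _ => h1 2)

lemma vset_closed : IsClosed Vset := by
  rw [← cone_open.isQuotientMap.isClosed_preimage]
  have : cone ⁻¹' Vset = ⋂ b : Fin 12, {v : {v : Fin 3 → ℂ // v ≠ 0} ×
      (Fin 12 → {v : Fin 2 → ℂ // v ≠ 0}) |
      w1 b v.1.1 * (v.2 b).1 1 = w2 b v.1.1 * (v.2 b).1 0} := by
    ext v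
    simp only [Set.mem_preimage, Set.mem_iInter, Set.mem_ofPred_eq]
    apply forall_congr'
    intro b
    obtain ⟨a, ha, hv⟩ := mk_rep' v.1.1 v.1.2
    obtain ⟨k, hk, hm⟩ := mk_rep' (v.2 b).1 (v.2 b).2
    change w1 b (Projectivization.mk ℂ v.1.1 v.1.2).rep *
      (Projectivization.mk ℂ (v.2 b).1 (v.2 b).2).rep 1
      = w2 b (Projectivization.mk ℂ v.1.1 v.1.2).rep *
        (Projectivization.mk ℂ (v.2 b).1 (v.2 b).2).rep 0 ↔ _
    rw [hv, hm, w1_smul, w2_smul]
    simp only [Pi.smul_apply, smul_eq_mul]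
    constructor
    · intro h
      have hak : a * k ≠ 0 := mul_ne_zero ha hk
      apply mul_left_cancel₀ hak
      linear_combination h
    · intro h
      linear_combination (a * k) * h
  rw [this]
  refine isClosed_iInter fun b => isClosed_eq ?_ ?_
  · have c1 := (w1_cont b).comp (continuous_subtype_val.comp continuous_fst)
      (X := {v : Fin 3 → ℂ // v ≠ 0} × (Fin 12 → {v : Fin 2 → ℂ // v ≠ 0}))
    have c2 : Continuous (fun v : {v : Fin 3 → ℂ // v ≠ 0} ×
        (Fin 12 → {v : Fin 2 → ℂ // v ≠ 0}) => (v.2 b).1 1) :=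
      (continuous_apply 1).comp (continuous_subtype_val.comp
        ((continuous_apply b).comp continuous_snd))
    exact c1.mul c2
  · have c1 := (w2_cont b).comp (continuous_subtype_val.comp continuous_fst)
      (X := {v : Fin 3 → ℂ // v ≠ 0} × (Fin 12 → {v : Fin 2 → ℂ // v ≠ 0}))
    have c2 : Continuous (fun v : {v : Fin 3 → ℂ // v ≠ 0} ×
        (Fin 12 → {v : Fin 2 → ℂ // v ≠ 0}) => (v.2 b).1 0) :=
      (continuous_apply 0).comp (continuous_subtype_val.comp
        ((continuous_apply b).comp continuous_snd))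
    exact c1.mul c2

end VTOM

open VTOM Pool.Agent.SH Pool.Agent.SH.HptM in
theorem specVTop : SpecVTop := by
  have : CompactSpace P2 := cpt 3
  have : CompactSpace P1 := cpt 2
  have : T2Space P2 := t2 3
  have : T2Space P1 := t2 2
  exact ⟨isCompact_iff_compactSpace.1 vset_closed.isCompact, inferInstance⟩

open VCHM in
theorem specCover (h1 : SpecLin) : SpecCover := by
  intro q
  have hz := q.1.1.rep_nonzero
  have hm : ∀ b, ∃ ε : Fin 2, (q.1.2 b).rep ε ≠ 0 := by
    intro b
    exact Function.ne_iff.1 (q.1.2 b).rep_nonzero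
  obtain ⟨-, hdec, -, -, -, -, hne, -⟩ := h1
  by_cases H : ∃ b, w1 b q.1.1.rep = 0 ∧ w2 b q.1.1.rep = 0
  · obtain ⟨b, hb1, hb2⟩ := H
    have hd := hdec b q.1.1.rep
    rw [hb1, hb2, zero_smul, zero_smul, add_zero, add_zero] at hd
    have hw0 : w0 b q.1.1.rep ≠ 0 := by
      intro h
      rw [h, zero_smul] at hd
      exact hz hd
    obtain ⟨ε, hε⟩ := hm b
    refine ⟨b, ε, hw0, hε, ?_⟩
    intro b' hb' h
    apply hne b b' (Ne.symm hb')
    rw [hd, w1_smul, w2_smul] at h
    exact ⟨(mul_eq_zero.1 h.1).resolve_left hw0, (mul_eq_zero.1 h.2).resolve_left hw0⟩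
  · push Not at H
    have H' : ∀ b, ¬ (w1 b q.1.1.rep = 0 ∧ w2 b q.1.1.rep = 0) := fun b h => H b h.1 h.2
    have hb : ∃ b : Fin 12, w0 b q.1.1.rep ≠ 0 := by
      obtain ⟨j, hj⟩ := Function.ne_iff.1 hz
      fin_cases j
      · refine ⟨0, ?_⟩
        simpa [w0] using hj
      · refine ⟨8, ?_⟩
        unfold w0
        rw [if_neg (by decide), if_pos rfl]
        simpa using hj
      · refine ⟨9, ?_⟩
        unfold w0
        rw [if_neg (by decide), if_neg (by decide)]
        simpa using hj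
    obtain ⟨b, hb⟩ := hb
    obtain ⟨ε, hε⟩ := hm b
    exact ⟨b, ε, hb, hε, fun b' _ => H' b'⟩

end Pool.Agent.MP_8f595d_ag
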