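import Pool.Agent.Lib.MP_8f595d_ag.VIN
import Pool.Agent.Lib.MP_8f595d_ag.VTO
import Pool.Agent.Lib.MP_8f595d_ag.VLO

/-!
# Connectedness and closedness of `V` and of the curves
-/

set_option autoImplicit false

open scoped Topology LinearAlgebra.Projectivization

namespace Pool.Agent.MP_8f595d_ag

namespace VCNM

open Pool.Agent.SH Pool.Agent.SH.HptM

lemma closed_hom {n : ℕ} (f : (Fin n → ℂ) → ℂ) (hf : Continuous f)
    (hh : ∀ (a : ℂ) v, f (a • v) = a * f v) :
    IsClosed {p : ℙ ℂ (Fin n → ℂ) | f p.rep = 0} := by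
  have h := VCHM.isOpen_ne f hf hh
  rw [← isOpen_compl_iff]
  exact h

lemma dot_cont (l : Fin 3 → ℂ) : Continuous (dot l) := by
  unfold dot
  fun_prop

/-- The affine cone without the origin is connected. -/
lemma conn2 : ConnectedSpace {v : Fin 2 → ℂ // v ≠ 0} := by
  have h : 1 < Module.rank ℝ (Fin 2 → ℂ) := by
    apply Module.lt_rank_of_lt_finrank
    rw [finrank_real_of_complex, Module.finrank_fin_fun]
    norm_num
  have := isConnected_compl_singleton_of_one_lt_rank h (0 : Fin 2 → ℂ)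
  exact isConnected_iff_connectedSpace.mp this

lemma cone_mem (z : {z : Fin 3 → ℂ // z ≠ 0}) (m : Fin 12 → {m : Fin 2 → ℂ // m ≠ 0})
    (h : ∀ b, w1 b z.1 * (m b).1 1 = w2 b z.1 * (m b).1 0) : VTOM.cone (z, m) ∈ Vset := by
  intro b
  obtain ⟨a, ha, hv⟩ := VCHM.mk_rep' z.1 z.2
  obtain ⟨k, hk, hm⟩ := VCHM.mk_rep' (m b).1 (m b).2
  change w1 b (Projectivization.mk ℂ z.1 z.2).rep *
      (Projectivization.mk ℂ (m b).1 (m b).2).rep 1
      = w2 b (Projectivization.mk ℂ z.1 z.2).rep *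
        (Projectivization.mk ℂ (m b).1 (m b).2).rep 0
  rw [hv, hm, VCHM.w1_smul, VCHM.w2_smul]
  simp only [Pi.smul_apply, smul_eq_mul]
  linear_combination (a * k) * h b

/-- A set which is parametrized by the cone is connected. -/
lemma conn_of (F : {v : Fin 2 → ℂ // v ≠ 0} → {z : Fin 3 → ℂ // z ≠ 0})
    (G : Fin 12 → {v : Fin 2 → ℂ // v ≠ 0} → {m : Fin 2 → ℂ // m ≠ 0}) (hF : Continuous F)
    (hG : ∀ b, Continuous (G b))
    (hV : ∀ v b, w1 b (F v).1 * (G b v).1 1 = w2 b (F v).1 * (G b v).1 0) (C : Set V)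
    (h1 : ∀ (v : {v : Fin 2 → ℂ // v ≠ 0}) (q : V), q.1.1 = prj 3 (F v) →
      (∀ b, q.1.2 b = prj 2 (G b v)) → q ∈ C)
    (h2 : ∀ q ∈ C, ∃ v, ∀ q' : V, q'.1.1 = prj 3 (F v) →
      (∀ b, q'.1.2 b = prj 2 (G b v)) → q' = q) : IsConnected C := by
  have : ConnectedSpace {v : Fin 2 → ℂ // v ≠ 0} := conn2
  have hcone : Continuous VTOM.cone := VTOM.cone_open.continuous
  have hmem : ∀ v, VTOM.cone (F v, fun b => G b v) ∈ Vset := fun v => cone_mem _ _ (hV v)
  let Ψ : {v : Fin 2 → ℂ // v ≠ 0} → V := fun v => ⟨VTOM.cone (F v, fun b => G b v), hmem v⟩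
  have hΨ : Continuous Ψ := Continuous.subtype_mk
    (hcone.comp (hF.prodMk (continuous_pi fun b => hG b))) _
  have hr : C = Set.range Ψ := by
    ext q
    constructor
    · intro hq
      obtain ⟨v, hv⟩ := h2 q hq
      exact ⟨v, hv (Ψ v) rfl (fun b => rfl)⟩
    · rintro ⟨v, rfl⟩
      exact h1 v (Ψ v) rfl (fun b => rfl)
  rw [hr]
  exact isConnected_range hΨ

/-- The linear form as a linear map. -/
def Lm (l : Fin 3 → ℂ) : (Fin 3 → ℂ) →ₗ[ℂ] ℂ where
  toFun := dot l
  map_add' := VINM.dot_add l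
  map_smul' := fun c z => VINM.dot_smul l z c

lemma ker_equiv (l : Fin 3 → ℂ) (hl : l ≠ 0) :
    Nonempty ((Fin 2 → ℂ) ≃ₗ[ℂ] ↥(LinearMap.ker (Lm l))) := by
  have h0 : Lm l ≠ 0 := by
    intro h
    exact hl (VINM.dot_ext l fun z => LinearMap.congr_fun h z)
  have h1 : Function.Surjective (Lm l) := LinearMap.surjective h0
  have h2 := LinearMap.finrank_range_add_finrank_ker (Lm l)
  rw [LinearMap.range_eq_top.mpr h1, finrank_top, Module.finrank_self,
    Module.finrank_fin_fun] at h2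
  exact ⟨LinearEquiv.ofFinrankEq _ _ (by rw [Module.finrank_fin_fun]; omega)⟩

lemma prj_eq (n : ℕ) (p : ℙ ℂ (Fin n → ℂ)) (z : {z : Fin n → ℂ // z ≠ 0}) (h : p = prj n z) :
    ∃ a : ℂ, a ≠ 0 ∧ p.rep = a • z.1 := by
  subst h
  exact VCHM.mk_rep' z.1 z.2

lemma conn_Lt (hL : SpecLin) (l : Fin 3 → ℂ) (hl : l ≠ 0) : IsConnected (Lt l) := by
  obtain ⟨e⟩ := ker_equiv l hl
  have hec : Continuous fun v : Fin 2 → ℂ => (e v : Fin 3 → ℂ) :=
    LinearMap.continuous_of_finiteDimensional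
      ((LinearMap.ker (Lm l)).subtype ∘ₗ (e : (Fin 2 → ℂ) →ₗ[ℂ] ↥(LinearMap.ker (Lm l))))
  have he0 : ∀ v : {v : Fin 2 → ℂ // v ≠ 0}, (e v.1 : Fin 3 → ℂ) ≠ 0 := by
    intro v h
    apply v.2
    have : e v.1 = 0 := Subtype.ext h
    exact (LinearEquiv.map_eq_zero_iff e).mp this
  have hed : ∀ v : Fin 2 → ℂ, dot l (e v : Fin 3 → ℂ) = 0 := fun v => (e v).2
  let F : {v : Fin 2 → ℂ // v ≠ 0} → {z : Fin 3 → ℂ // z ≠ 0} := fun v => ⟨e v.1, he0 v⟩
  have hF : Continuous F := Continuous.subtype_mk (hec.comp continuous_subtype_val) _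
  have hG : ∀ b : Fin 12, ∃ g : {v : Fin 2 → ℂ // v ≠ 0} → {m : Fin 2 → ℂ // m ≠ 0},
      Continuous g ∧ (∀ v, w1 b (F v).1 * (g v).1 1 = w2 b (F v).1 * (g v).1 0) ∧
      (dot l (bv b) = 0 → ∀ v,
        dot l (d1 b) * (g v).1 0 + dot l (d2 b) * (g v).1 1 = 0) := by
    intro b
    by_cases hb : dot l (bv b) = 0
    · have hne : ![-dot l (d2 b), dot l (d1 b)] ≠ (0 : Fin 2 → ℂ) := by
        intro h
        apply VINM.d_ne hL b l hl hb
        have h1 := congrFun h 0
        have h2 := congrFun h 1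
        simp only [Matrix.cons_val_zero, Matrix.cons_val_one, Pi.zero_apply, neg_eq_zero] at h1 h2
        exact ⟨h2, h1⟩
      refine ⟨fun _ => ⟨![-dot l (d2 b), dot l (d1 b)], hne⟩, continuous_const, fun v => ?_,
        fun _ v => ?_⟩
      · have h3 := VINM.dot_exp hL b l (F v).1
        rw [show dot l (F v).1 = 0 from hed v.1, hb] at h3
        simp only [Matrix.cons_val_zero, Matrix.cons_val_one]
        linear_combination -h3
      · simp only [Matrix.cons_val_zero, Matrix.cons_val_one]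
        ring
    · have hne : ∀ v : {v : Fin 2 → ℂ // v ≠ 0},
          ![w1 b (F v).1, w2 b (F v).1] ≠ (0 : Fin 2 → ℂ) := by
        intro v h
        have h1 := congrFun h 0
        have h2 := congrFun h 1
        simp only [Matrix.cons_val_zero, Matrix.cons_val_one, Pi.zero_apply] at h1 h2
        have h3 := VINM.dot_exp hL b l (F v).1
        rw [show dot l (F v).1 = 0 from hed v.1, h1, h2, zero_mul, zero_mul, add_zero,
          add_zero] at h3
        have h4 : w0 b (F v).1 = 0 := (mul_eq_zero.mp h3.symm).resolve_right hb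
        have h5 := VINM.eq_bv hL b _ h1 h2
        rw [h4, zero_smul] at h5
        exact (F v).2 h5
      refine ⟨fun v => ⟨![w1 b (F v).1, w2 b (F v).1], hne v⟩, ?_, fun v => ?_, fun h => ?_⟩
      · refine Continuous.subtype_mk (continuous_pi fun i => ?_) _
        fin_cases i
        · exact (VCHM.w1_cont b).comp (continuous_subtype_val.comp hF)
        · exact (VCHM.w2_cont b).comp (continuous_subtype_val.comp hF)
      · simp only [Matrix.cons_val_zero, Matrix.cons_val_one]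
        ring
      · exact absurd h hb
  choose G hGc hGV hGl using hG
  have h1 : ∀ (v : {v : Fin 2 → ℂ // v ≠ 0}) (q : V), q.1.1 = prj 3 (F v) →
      (∀ b, q.1.2 b = prj 2 (G b v)) → q ∈ Lt l := by
    intro v q hq1 hq2
    obtain ⟨a, ha, hz⟩ := prj_eq 3 _ _ hq1
    refine ⟨?_, fun b hb => ?_⟩
    · rw [hz, VINM.dot_smul, show dot l (F v).1 = 0 from hed v.1, mul_zero]
    · obtain ⟨k, hk, hm⟩ := prj_eq 2 _ _ (hq2 b)
      rw [hm]
      simp only [Pi.smul_apply, smul_eq_mul]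
      linear_combination k * hGl b hb v
  refine conn_of F G hF hGc (fun v b => hGV b v) _ h1 fun q hq => ?_
  have hqk : q.1.1.rep ∈ LinearMap.ker (Lm l) := hq.1
  have hv0 : e.symm ⟨q.1.1.rep, hqk⟩ ≠ 0 := by
    intro h
    have h5 : (⟨q.1.1.rep, hqk⟩ : ↥(LinearMap.ker (Lm l))) = 0 := by
      rw [← e.apply_symm_apply ⟨q.1.1.rep, hqk⟩, h, map_zero]
    exact q.1.1.rep_nonzero (congrArg Subtype.val h5)
  refine ⟨⟨_, hv0⟩, fun q' hq1 hq2 => ?_⟩
  refine VINM.lt_inj hL l hl q' q (h1 _ q' hq1 hq2) hq ?_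
  rw [hq1]
  have h6 : F ⟨e.symm ⟨q.1.1.rep, hqk⟩, hv0⟩ = ⟨q.1.1.rep, q.1.1.rep_nonzero⟩ := by
    apply Subtype.ext
    show (e (e.symm ⟨q.1.1.rep, hqk⟩) : Fin 3 → ℂ) = q.1.1.rep
    rw [e.apply_symm_apply]
  rw [h6]
  exact Projectivization.mk_rep q.1.1

lemma conn_Eb (hL : SpecLin) (b : Fin 12) : IsConnected (Eb b) := by
  have hbv : bv b ≠ 0 := hL.2.2.2.2.2.1 b
  let F : {v : Fin 2 → ℂ // v ≠ 0} → {z : Fin 3 → ℂ // z ≠ 0} := fun _ => ⟨bv b, hbv⟩
  have hG : ∀ b' : Fin 12, ∃ g : {v : Fin 2 → ℂ // v ≠ 0} → {m : Fin 2 → ℂ // m ≠ 0},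
      Continuous g ∧ (∀ v, w1 b' (F v).1 * (g v).1 1 = w2 b' (F v).1 * (g v).1 0) ∧
      (b' = b → g = id) := by
    intro b'
    by_cases hb : b' = b
    · subst hb
      refine ⟨id, continuous_id, fun v => ?_, fun _ => rfl⟩
      show w1 b' (bv b') * _ = w2 b' (bv b') * _
      rw [(hL.2.2.2.1 b').2.1, (hL.2.2.2.1 b').2.2.1, zero_mul, zero_mul]
    · have hne : ![w1 b' (bv b), w2 b' (bv b)] ≠ (0 : Fin 2 → ℂ) := by
        intro h
        apply hL.2.2.2.2.2.2.1 b b' (Ne.symm hb)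
        have h1 := congrFun h 0
        have h2 := congrFun h 1
        simp only [Matrix.cons_val_zero, Matrix.cons_val_one, Pi.zero_apply] at h1 h2
        exact ⟨h1, h2⟩
      refine ⟨fun _ => ⟨![w1 b' (bv b), w2 b' (bv b)], hne⟩, continuous_const, fun v => ?_,
        fun h => absurd h hb⟩
      simp only [F, Matrix.cons_val_zero, Matrix.cons_val_one]
      ring
  choose G hGc hGV hGb using hG
  have h1 : ∀ (v : {v : Fin 2 → ℂ // v ≠ 0}) (q : V), q.1.1 = prj 3 (F v) →
      (∀ b, q.1.2 b = prj 2 (G b v)) → q ∈ Eb b := by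
    intro v q hq1 hq2
    obtain ⟨a, ha, hz⟩ := prj_eq 3 _ _ hq1
    refine ⟨?_, ?_⟩
    · rw [hz, VCHM.w1_smul, show w1 b (F v).1 = 0 from (hL.2.2.2.1 b).2.1, mul_zero]
    · rw [hz, VCHM.w2_smul, show w2 b (F v).1 = 0 from (hL.2.2.2.1 b).2.2.1, mul_zero]
  refine conn_of F G continuous_const hGc (fun v b => hGV b v) _ h1 fun q hq => ?_
  refine ⟨⟨(q.1.2 b).rep, (q.1.2 b).rep_nonzero⟩, fun q' hq1 hq2 => ?_⟩
  have hq' := h1 _ q' hq1 hq2
  have hp := VINM.eb_proj hL b q' q hq' hq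
  apply Subtype.ext
  refine Prod.ext hp (funext fun b' => ?_)
  by_cases hb : b' = b
  · subst hb
    rw [hq2 b', hGb b' rfl]
    exact Projectivization.mk_rep _
  · apply VINM.p1_eq
    have e' := q'.2 b'
    have e := q.2 b'
    rw [hp] at e'
    refine VINM.slope_unique ?_ e' e
    rintro ⟨k1, k2⟩
    have hE : q ∈ Eb b ∩ Eb b' := ⟨hq, k1, k2⟩
    rw [VINM.eb_disj hL b b' (Ne.symm hb)] at hE
    exact Set.notMem_empty q hE

lemma closed_Eb (b : Fin 12) : IsClosed (Eb b) := by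
  have h1 : IsClosed {q : V | w1 b q.1.1.rep = 0} :=
    (closed_hom (w1 b) (VCHM.w1_cont b) (fun a v => VCHM.w1_smul b a v)).preimage
      (continuous_fst.comp continuous_subtype_val)
  have h2 : IsClosed {q : V | w2 b q.1.1.rep = 0} :=
    (closed_hom (w2 b) (VCHM.w2_cont b) (fun a v => VCHM.w2_smul b a v)).preimage
      (continuous_fst.comp continuous_subtype_val)
  exact h1.inter h2

lemma closed_Lt (l : Fin 3 → ℂ) : IsClosed (Lt l) := by
  have h1 : IsClosed {q : V | dot l q.1.1.rep = 0} :=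
    (closed_hom (dot l) (dot_cont l) (fun a v => VINM.dot_smul l v a)).preimage
      (continuous_fst.comp continuous_subtype_val)
  have h2 : ∀ b : Fin 12, IsClosed {q : V | dot l (bv b) = 0 →
      dot l (d1 b) * (q.1.2 b).rep 0 + dot l (d2 b) * (q.1.2 b).rep 1 = 0} := by
    intro b
    by_cases hb : dot l (bv b) = 0
    · have h3 : IsClosed {p : P1 | dot l (d1 b) * p.rep 0 + dot l (d2 b) * p.rep 1 = 0} :=
        closed_hom (fun m : Fin 2 → ℂ => dot l (d1 b) * m 0 + dot l (d2 b) * m 1)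
          (by fun_prop) (fun a v => by simp only [Pi.smul_apply, smul_eq_mul]; ring)
      have h4 := h3.preimage ((continuous_apply b).comp
        (continuous_snd.comp (continuous_subtype_val (p := fun q => q ∈ Vset))))
      convert h4 using 1
      ext q
      exact ⟨fun h => h hb, fun h _ => h⟩
    · have : {q : V | dot l (bv b) = 0 →
        dot l (d1 b) * (q.1.2 b).rep 0 + dot l (d2 b) * (q.1.2 b).rep 1 = 0} = Set.univ := by
        ext q
        exact ⟨fun _ => Set.mem_univ q, fun _ h => absurd h hb⟩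
      rw [this]
      exact isClosed_univ
  have h5 : Lt l = {q : V | dot l q.1.1.rep = 0} ∩ ⋂ b : Fin 12, {q : V | dot l (bv b) = 0 →
      dot l (d1 b) * (q.1.2 b).rep 0 + dot l (d2 b) * (q.1.2 b).rep 1 = 0} := by
    ext q
    simp only [Set.mem_inter_iff, Set.mem_iInter]
    exact Iff.rfl
  rw [h5]
  exact h1.inter (isClosed_iInter h2)

/-- Every point of `V` lies on the strict transform of a line. -/
lemma exists_line (hL : SpecLin) (q : V) : ∃ l : Fin 3 → ℂ, l ≠ 0 ∧ q ∈ Lt l := by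
  by_cases hq : ∃ b, q ∈ Eb b
  · obtain ⟨b, hb⟩ := hq
    set m := (q.1.2 b).rep with hm
    let l : Fin 3 → ℂ := fun i => w1 b (Pi.single i 1) * m 1 - w2 b (Pi.single i 1) * m 0
    have hl : ∀ z, dot l z = w1 b z * m 1 - w2 b z * m 0 := by
      intro z
      have hz : z = z 0 • Pi.single 0 1 + (1 : ℂ) • (z 1 • Pi.single 1 1 +
          z 2 • (Pi.single 2 1 : Fin 3 → ℂ)) := by
        funext i
        fin_cases i <;> simp
      have k1 : w1 b z = z 0 * w1 b (Pi.single 0 1) + (z 1 * w1 b (Pi.single 1 1) +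
          z 2 * w1 b (Pi.single 2 1)) := by
        conv_lhs => rw [hz]
        rw [(hL.2.2.1 b (z 0) 1 _ _).2.1, (hL.2.2.1 b (z 1) (z 2) _ _).2.1, one_mul]
      have k2 : w2 b z = z 0 * w2 b (Pi.single 0 1) + (z 1 * w2 b (Pi.single 1 1) +
          z 2 * w2 b (Pi.single 2 1)) := by
        conv_lhs => rw [hz]
        rw [(hL.2.2.1 b (z 0) 1 _ _).2.2, (hL.2.2.1 b (z 1) (z 2) _ _).2.2, one_mul]
      rw [k1, k2]
      simp only [dot, l]
      ring
    have hw := hL.2.2.2.1 b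
    have a1 : dot l (d1 b) = m 1 := by
      rw [hl, hw.2.2.2.2.1, hw.2.2.2.2.2.1]; ring
    have a2 : dot l (d2 b) = -m 0 := by
      rw [hl, hw.2.2.2.2.2.2.2.1, hw.2.2.2.2.2.2.2.2]; ring
    have hp : dot l q.1.1.rep = 0 := by
      rw [hl, hb.1, hb.2]; ring
    refine ⟨l, ?_, hp, fun b' hb' => ?_⟩
    · intro h0
      apply (q.1.2 b).rep_nonzero
      have z1 : m 1 = 0 := by rw [← a1, h0]; simp [dot]
      have z0 : m 0 = 0 := by
        have : -m 0 = 0 := by rw [← a2, h0]; simp [dot]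
        exact neg_eq_zero.mp this
      funext i
      fin_cases i
      · exact z0
      · exact z1
    · by_cases hbb : b' = b
      · subst hbb
        rw [a1, a2]
        ring
      · refine VLOM.slope_line hL l b' q (fun h => ?_) hp hb'
        have hE : q ∈ Eb b ∩ Eb b' := ⟨hb, h⟩
        rw [VINM.eb_disj hL b b' (Ne.symm hbb)] at hE
        exact Set.notMem_empty q hE
  · have key : ∀ l : Fin 3 → ℂ, dot l q.1.1.rep = 0 → q ∈ Lt l := fun l h =>
      ⟨h, fun b hb => VLOM.slope_line hL l b q (fun h => hq ⟨b, h⟩) h hb⟩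
    by_cases h0 : q.1.1.rep 0 = 0
    · refine ⟨![1, 0, 0], fun h => ?_, key _ ?_⟩
      · have := congrFun h 0
        simp at this
      · simp [dot, h0]
    · refine ⟨![q.1.1.rep 1, -q.1.1.rep 0, 0], fun h => ?_, key _ ?_⟩
      · have := congrFun h 1
        simp at this
        exact h0 this
      · simp only [dot, Matrix.cons_val_zero, Matrix.cons_val_one, Matrix.cons_val]
        ring

lemma conn_V (hL : SpecLin) (hI : SpecIntE) (hG : SpecGen) : ConnectedSpace V := by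
  obtain ⟨hh, -, hb, -, -, hh0, -⟩ := hG
  have hne := (conn_Lt hL hh hh0).nonempty
  obtain ⟨x, hx⟩ := hne
  have hpre : IsPreconnected (Set.univ : Set V) := by
    refine isPreconnected_of_forall x fun y _ => ?_
    obtain ⟨l, hl0, hl⟩ := exists_line hL y
    by_cases hli : LinearIndependent ℂ ![l, hh]
    · have h1 := (hI.2.2.2.1 l hh hli).2 (fun b h => hb b h.2)
      have h2 : (Lt l ∩ Lt hh).Nonempty := by
        rw [← Set.ncard_pos (Set.finite_of_ncard_ne_zero (by rw [h1]; exact one_ne_zero)), h1]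
        exact one_pos
      exact ⟨Lt l ∪ Lt hh, Set.subset_univ _, Or.inr hx, Or.inl hl,
        IsPreconnected.union' h2 (conn_Lt hL l hl0).isPreconnected
          (conn_Lt hL hh hh0).isPreconnected⟩
    · rw [LinearIndependent.pair_iff' hl0] at hli
      push Not at hli
      obtain ⟨a, ha⟩ := hli
      have hy : y ∈ Lt hh := by
        have hdot : ∀ z, dot hh z = a * dot l z := by
          intro z
          rw [← ha]
          simp only [dot, Pi.smul_apply, smul_eq_mul]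
          ring
        have ha0 : a ≠ 0 := by
          rintro rfl
          apply hh0
          rw [← ha, zero_smul]
        refine ⟨by rw [hdot, hl.1, mul_zero], fun b hb' => absurd hb' (hb b)⟩
      exact ⟨Lt hh, Set.subset_univ _, hx, hy, (conn_Lt hL hh hh0).isPreconnected⟩
  exact { isPreconnected_univ := hpre, toNonempty := ⟨x⟩ }

end VCNM

open VCNM in
theorem specConn (hL : SpecLin) (hI : SpecIntE) (hG : SpecGen) : SpecConn :=
  ⟨conn_V hL hI hG, fun b => ⟨closed_Eb b, conn_Eb hL b⟩,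
    fun l hl => ⟨closed_Lt l, conn_Lt hL l hl⟩⟩

end Pool.Agent.MP_8f595d_ag
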