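import Pool.Agent.Lib.MP_8f595d_ag.VLO

/-!
# Module VDF: divisors of rational functions
-/

set_option autoImplicit false

open scoped Topology LinearAlgebra.Projectivization

namespace Pool.Agent.MP_8f595d_ag

namespace VDFM

section gen

variable {V : Type} [TopologicalSpace V] {𝒜 : Set (Cht V)} {ι : Type} [Fintype ι]

/-- Evaluation of a sum of `single`s with distinct curves. -/
lemma sum_single_apply (γ : ι → Curve 𝒜) (hγ : Function.Injective γ) (α : ι → ℤ) (i : ι) :
    (∑ j, Finsupp.single (γ j) (α j)) (γ i) = α i := by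
  classical
  rw [Finsupp.finsetSum_apply]
  rw [Finset.sum_eq_single i]
  · simp
  · intro j _ hj
    rw [Finsupp.single_apply, if_neg (fun h => hj (hγ h))]
  · intro h; exact absurd (Finset.mem_univ i) h

lemma sum_single_support (γ : ι → Curve 𝒜) (α : ι → ℤ) (C : Curve 𝒜)
    (hC : C ∈ (∑ j, Finsupp.single (γ j) (α j)).support) : ∃ i, γ i = C := by
  classical
  by_contra h
  push Not at h
  rw [Finsupp.mem_support_iff] at hC
  apply hC
  rw [Finsupp.finsetSum_apply]
  refine Finset.sum_eq_zero fun j _ => ?_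
  rw [Finsupp.single_apply, if_neg (h j)]

/-- `IsDivOf` for a divisor given by a family of curves. -/
lemma isDivOf_of (γ : ι → Curve 𝒜) (hγ : Function.Injective γ) (α : ι → ℤ) (f : V → ℂ)
    (h : ∀ q : V, ∃ e ∈ 𝒜, q ∈ e.source ∧ ∃ F : ι → ℂ × ℂ → ℂ,
      (∀ i, IsLocEq (γ i).1 q e (F i)) ∧ ∃ U : ℂ × ℂ → ℂ, AnalyticAt ℂ U (e q) ∧ U (e q) ≠ 0 ∧
        ∀ᶠ x in 𝓝 q, (∀ i, x ∉ (γ i).1) → f x = U (e x) * ∏ i, (F i (e x)) ^ (α i)) :
    IsDivOf 𝒜 f (∑ i, Finsupp.single (γ i) (α i)) := by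
  classical
  refine ⟨Finset.univ.image γ, ?_, ?_⟩
  · intro C hC
    obtain ⟨i, hi⟩ := sum_single_support γ α C hC
    exact Finset.mem_image.2 ⟨i, Finset.mem_univ i, hi⟩
  · intro q
    obtain ⟨e, he, hq, F, hF, U, hU, hU0, hev⟩ := h q
    refine ⟨e, he, hq, Function.extend γ F 0, ?_, U, hU, hU0, ?_⟩
    · intro C hC
      obtain ⟨i, -, rfl⟩ := Finset.mem_image.1 hC
      rw [hγ.extend_apply]
      exact hF i
    · filter_upwards [hev] with x hx hT
      rw [hx (fun i => hT _ (Finset.mem_image.2 ⟨i, Finset.mem_univ i, rfl⟩))]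
      rw [Finset.prod_image (fun i _ j _ hij => hγ hij)]
      congr 1
      refine Finset.prod_congr rfl fun i _ => ?_
      rw [hγ.extend_apply, sum_single_apply γ hγ]

/-- `IsFormDivisor` for a divisor given by a family of curves. -/
lemma isFormDivisor_of (γ : ι → Curve 𝒜) (hγ : Function.Injective γ) (α : ι → ℤ)
    (c : Cht V → V → ℂ)
    (h0 : ∀ e ∈ 𝒜, ∀ e' ∈ 𝒜, ∀ x ∈ e.source ∩ e'.source, (∀ i, x ∉ (γ i).1) →
      c e x = c e' x * (fderiv ℂ (fun y => e' (e.symm y)) (e x)).det)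
    (h : ∀ q : V, ∃ e ∈ 𝒜, q ∈ e.source ∧ ∃ F : ι → ℂ × ℂ → ℂ,
      (∀ i, IsLocEq (γ i).1 q e (F i)) ∧ ∃ U : ℂ × ℂ → ℂ, AnalyticAt ℂ U (e q) ∧ U (e q) ≠ 0 ∧
        ∀ᶠ x in 𝓝 q, (∀ i, x ∉ (γ i).1) → c e x = U (e x) * ∏ i, (F i (e x)) ^ (α i)) :
    IsFormDivisor 𝒜 c (∑ i, Finsupp.single (γ i) (α i)) := by
  classical
  refine ⟨Finset.univ.image γ, ?_, ?_, ?_⟩
  · intro C hC
    obtain ⟨i, hi⟩ := sum_single_support γ α C hC
    exact Finset.mem_image.2 ⟨i, Finset.mem_univ i, hi⟩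
  · intro e he e' he' x hx hT
    exact h0 e he e' he' x hx (fun i => hT _ (Finset.mem_image.2 ⟨i, Finset.mem_univ i, rfl⟩))
  · intro q
    obtain ⟨e, he, hq, F, hF, U, hU, hU0, hev⟩ := h q
    refine ⟨e, he, hq, Function.extend γ F 0, ?_, U, hU, hU0, ?_⟩
    · intro C hC
      obtain ⟨i, -, rfl⟩ := Finset.mem_image.1 hC
      rw [hγ.extend_apply]
      exact hF i
    · filter_upwards [hev] with x hx hT
      rw [hx (fun i => hT _ (Finset.mem_image.2 ⟨i, Finset.mem_univ i, rfl⟩))]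
      rw [Finset.prod_image (fun i _ j _ hij => hγ hij)]
      congr 1
      refine Finset.prod_congr rfl fun i _ => ?_
      rw [hγ.extend_apply, sum_single_apply γ hγ]

end gen

/-- The family of curves `Lt (l j)`, `Eb b`. -/
def gam (K : Charts) (h : SC K) {ι : Type} (l : ι → Fin 3 → ℂ) (hl : ∀ j, l j ≠ 0) :
    ι ⊕ Fin 12 → Curve K.atl :=
  Sum.elim (fun j => cL K h (l j) (hl j)) (cE K h)

lemma gam_inj (hI : SpecIntE) (K : Charts) (h : SC K) {ι : Type} (l : ι → Fin 3 → ℂ)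
    (hl : ∀ j, l j ≠ 0) (hli : ∀ i j, i ≠ j → LinearIndependent ℂ ![l i, l j]) :
    Function.Injective (gam K h l hl) := by
  obtain ⟨-, -, -, -, h1, h2, h3⟩ := hI
  rintro (i | b) (j | b') hij
  · by_contra hne
    have hne' : i ≠ j := fun hh => hne (by rw [hh])
    exact h3 _ _ (hli i j hne') (congrArg Subtype.val hij)
  · exact absurd (congrArg Subtype.val hij).symm (h1 b' (l i))
  · exact absurd (congrArg Subtype.val hij) (h1 b (l j))
  · by_contra hne
    have hne' : b ≠ b' := fun hh => hne (by rw [hh])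
    exact h2 _ _ hne' (congrArg Subtype.val hij)

/-- The local equations of the family `gam` in the chart `(b, ε)`. -/
noncomputable def gF {ι : Type} (l : ι → Fin 3 → ℂ) (b : Fin 12) (ε : Fin 2) :
    ι ⊕ Fin 12 → ℂ × ℂ → ℂ :=
  Sum.elim (fun j => eqL (l j) b ε) (fun b' => if b' = b then (fun y => y.1) else fun _ => 1)

lemma gF_loc (hLoc : SpecLoc) (K : Charts) (h : SC K) {ι : Type} (l : ι → Fin 3 → ℂ)
    (hl : ∀ j, l j ≠ 0) (b : Fin 12) (ε : Fin 2) (q : V) (hq : q ∈ Src b ε)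
    (i : ι ⊕ Fin 12) : IsLocEq (gam K h l hl i).1 q (K.ch b ε) (gF l b ε i) := by
  obtain ⟨h1, h2, h3⟩ := hLoc.2 K b ε q hq
  rcases i with j | b'
  · exact h3 (l j) (hl j)
  · show IsLocEq (Eb b') q (K.ch b ε) (if b' = b then (fun y => y.1) else fun _ => 1)
    by_cases hb : b' = b
    · subst hb
      rw [if_pos rfl]
      exact h1
    · rw [if_neg hb]
      exact h2 b' hb

lemma prod_gF {ι : Type} [Fintype ι] (l : ι → Fin 3 → ℂ) (b : Fin 12) (ε : Fin 2)
    (a : ι → ℤ) (m : Fin 12 → ℤ) (y : ℂ × ℂ) :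
    ∏ i, (gF l b ε i y) ^ (Sum.elim a m i) =
      (∏ j, (eqL (l j) b ε y) ^ (a j)) * y.1 ^ (m b) := by
  rw [Fintype.prod_sum_type]
  congr 1
  rw [Finset.prod_eq_single b]
  · simp [gF]
  · intro b' _ hb'
    simp [gF, hb']
  · intro h; exact absurd (Finset.mem_univ b) h

open VLOM Classical in
/-- The divisor of a rational function, for a family of lines with any finite index type. -/
theorem divF (hL : SpecLin) (hLoc : SpecLoc) (hC : SpecCover) (hI : SpecIntE)
    (K : Charts) (h : SC K) {ι : Type} [Fintype ι] (l : ι → Fin 3 → ℂ) (hl : ∀ j, l j ≠ 0)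
    (hli : ∀ i j, i ≠ j → LinearIndependent ℂ ![l i, l j]) (a : ι → ℤ) (ha : ∑ j, a j = 0) :
    IsDivOf K.atl (fun q => ∏ j, (dot (l j) q.1.1.rep) ^ (a j))
      (∑ j, Finsupp.single (cL K h (l j) (hl j)) (a j) +
        ∑ b, Finsupp.single (cE K h b)
          (∑ j ∈ Finset.univ.filter (fun j => dot (l j) (bv b) = 0), a j)) := by
  set m : Fin 12 → ℤ := fun b => ∑ j ∈ Finset.univ.filter (fun j => dot (l j) (bv b) = 0), a j
    with hm
  have key := isDivOf_of (gam K h l hl) (gam_inj hI K h l hl hli) (Sum.elim a m)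
    (fun q => ∏ j, (dot (l j) q.1.1.rep) ^ (a j)) ?_
  · rw [Fintype.sum_sum_type] at key
    exact key
  · intro q
    obtain ⟨b, ε, hq⟩ := hC q
    refine ⟨K.ch b ε, ⟨(b, ε), rfl⟩, by rw [K.source]; exact hq, gF l b ε,
      fun i => gF_loc hLoc K h l hl b ε q hq i, fun _ => 1, analyticAt_const, one_ne_zero, ?_⟩
    filter_upwards [src_nhds K b ε q hq] with x hx hT
    rw [one_mul, prod_gF, K.coe b ε x hx]
    have hy : (co b ε x).1 ≠ 0 := by
      intro h0
      exact hT (Sum.inr b) ((mem_Eb_iff b ε x hx).2 h0)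
    have hw : w0 b x.1.1.rep ≠ 0 := hx.1
    have hrep := rep_eq hL b ε x hx
    have hdot : ∀ j, dot (l j) x.1.1.rep = w0 b x.1.1.rep *
        ((if dot (l j) (bv b) = 0 then (co b ε x).1 else 1) * eqL (l j) b ε (co b ε x)) := by
      intro j
      conv_lhs => rw [hrep]
      rw [dot_smul, hLoc.1]
    simp_rw [hdot, mul_zpow]
    rw [Finset.prod_mul_distrib, Finset.prod_mul_distrib]
    have e1 : ∏ j, w0 b x.1.1.rep ^ (a j) = 1 := by
      have : ∏ j, w0 b x.1.1.rep ^ (a j) = w0 b x.1.1.rep ^ (∑ j, a j) := by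
        induction (Finset.univ : Finset ι) using Finset.induction_on with
        | empty => simp
        | insert i s hi ih => rw [Finset.prod_insert hi, Finset.sum_insert hi, zpow_add₀ hw, ih]
      rw [this, ha, zpow_zero]
    have e2 : ∏ j, (if dot (l j) (bv b) = 0 then (co b ε x).1 else 1) ^ (a j) =
        (co b ε x).1 ^ (m b) := by
      rw [hm]
      simp only
      rw [Finset.sum_filter]
      induction (Finset.univ : Finset ι) using Finset.induction_on with
      | empty => simp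
      | insert i s hi ih =>
        rw [Finset.prod_insert hi, Finset.sum_insert hi, zpow_add₀ hy, ih]
        congr 1
        split_ifs <;> simp
    rw [e1, e2, one_mul, mul_comm]

end VDFM

theorem specDivF (hL : SpecLin) (hLoc : SpecLoc) (hC : SpecCover) (hI : SpecIntE) :
    SpecDivF := by
  intro K h n l hl hli a ha
  exact VDFM.divF hL hLoc hC hI K h l hl hli a ha

end Pool.Agent.MP_8f595d_ag
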