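import Pool.Agent.Lib.MP_8f595d_ag.VIN

/-! # The Segre embedding of `V` (module VEM) -/

set_option autoImplicit false

open scoped Topology LinearAlgebra.Projectivization

namespace Pool.Agent.MP_8f595d_ag.VEMM

open VINM

/-- the index set -/
abbrev Ix : Type := Fin 3 × (Fin 12 → Fin 2)

/-- the Segre vector -/
def seg (z : Fin 3 → ℂ) (m : Fin 12 → Fin 2 → ℂ) : Ix → ℂ := fun i => z i.1 * ∏ b, m b (i.2 b)

theorem exists_ne {n : ℕ} {v : Fin n → ℂ} (hv : v ≠ 0) : ∃ i, v i ≠ 0 :=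
  Function.ne_iff.mp hv

theorem seg_ne (z : Fin 3 → ℂ) (m : Fin 12 → Fin 2 → ℂ) (hz : z ≠ 0) (hm : ∀ b, m b ≠ 0) :
    seg z m ≠ 0 := by
  obtain ⟨i, hi⟩ := exists_ne hz
  choose ε hε using fun b => exists_ne (hm b)
  intro h
  have h1 := congrFun h (i, ε)
  simp only [seg, Pi.zero_apply] at h1
  exact (mul_ne_zero hi (Finset.prod_ne_zero_iff.mpr fun b _ => hε b)) h1

theorem seg_smul (z : Fin 3 → ℂ) (m : Fin 12 → Fin 2 → ℂ) (c : ℂ) (d : Fin 12 → ℂ) :
    seg (c • z) (fun b => d b • m b) = (c * ∏ b, d b) • seg z m := by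
  funext i
  simp only [seg, Pi.smul_apply, smul_eq_mul, Finset.prod_mul_distrib]
  ring

/-- the Segre vector of a point -/
noncomputable def Sv (q : V) : Ix → ℂ := seg q.1.1.rep (fun b => (q.1.2 b).rep)

theorem Sv_ne (q : V) : Sv q ≠ 0 := seg_ne _ _ q.1.1.rep_nonzero fun b => (q.1.2 b).rep_nonzero

/-- the embedding -/
noncomputable def Φ (q : V) : ℙ ℂ (Ix → ℂ) := Projectivization.mk ℂ (Sv q) (Sv_ne q)

theorem Φ_inj : Function.Injective Φ := by
  intro q q' h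
  rw [Φ, Φ, Projectivization.mk_eq_mk_iff'] at h
  obtain ⟨c, hc⟩ := h
  obtain ⟨i, hi⟩ := exists_ne q.1.1.rep_nonzero
  choose ε hε using fun b => exists_ne (q.1.2 b).rep_nonzero
  have hP : ∏ b, (q.1.2 b).rep (ε b) ≠ 0 := Finset.prod_ne_zero_iff.mpr fun b _ => hε b
  have hall : ∀ (j : Fin 3) (δ : Fin 12 → Fin 2), c * (q'.1.1.rep j * ∏ b, (q'.1.2 b).rep (δ b)) =
      q.1.1.rep j * ∏ b, (q.1.2 b).rep (δ b) := by
    intro j δ
    have := congrFun hc (j, δ)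
    simpa only [Sv, seg, Pi.smul_apply, smul_eq_mul] using this
  have h0 := hall i ε
  have hne : q.1.1.rep i * ∏ b, (q.1.2 b).rep (ε b) ≠ 0 := mul_ne_zero hi hP
  have hc0 : c ≠ 0 := by
    rintro rfl
    rw [zero_mul] at h0
    exact hne h0.symm
  have hi' : q'.1.1.rep i ≠ 0 := by
    intro h1
    rw [h1, zero_mul, mul_zero] at h0
    exact hne h0.symm
  have hP' : ∏ b, (q'.1.2 b).rep (ε b) ≠ 0 := by
    intro h1
    rw [h1, mul_zero, mul_zero] at h0
    exact hne h0.symm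
  apply Subtype.ext
  apply Prod.ext
  · apply eq_of_rep _ _ (c * (∏ b, (q'.1.2 b).rep (ε b)) / ∏ b, (q.1.2 b).rep (ε b))
    funext j
    have h1 := hall j ε
    rw [Pi.smul_apply, smul_eq_mul]
    field_simp
    linear_combination -h1
  · funext b
    apply p1_eq
    have e : ∀ t : Fin 2, c * (q'.1.1.rep i * ((q'.1.2 b).rep t *
        ∏ b' ∈ Finset.univ.erase b, (q'.1.2 b').rep (ε b'))) =
        q.1.1.rep i * ((q.1.2 b).rep t * ∏ b' ∈ Finset.univ.erase b, (q.1.2 b').rep (ε b')) := by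
      intro t
      have h1 := hall i (Function.update ε b t)
      rw [← Finset.mul_prod_erase Finset.univ (fun b' => (q'.1.2 b').rep
          (Function.update ε b t b')) (Finset.mem_univ b),
        ← Finset.mul_prod_erase Finset.univ (fun b' => (q.1.2 b').rep
          (Function.update ε b t b')) (Finset.mem_univ b), Function.update_self] at h1
      have h2 : ∏ b' ∈ Finset.univ.erase b, (q'.1.2 b').rep (Function.update ε b t b') =
          ∏ b' ∈ Finset.univ.erase b, (q'.1.2 b').rep (ε b') := by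
        apply Finset.prod_congr rfl
        intro b' hb'
        rw [Function.update_of_ne (Finset.ne_of_mem_erase hb')]
      have h3 : ∏ b' ∈ Finset.univ.erase b, (q.1.2 b').rep (Function.update ε b t b') =
          ∏ b' ∈ Finset.univ.erase b, (q.1.2 b').rep (ε b') := by
        apply Finset.prod_congr rfl
        intro b' hb'
        rw [Function.update_of_ne (Finset.ne_of_mem_erase hb')]
      rw [h2, h3] at h1
      exact h1
    have hA : ∏ b' ∈ Finset.univ.erase b, (q.1.2 b').rep (ε b') ≠ 0 :=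
      Finset.prod_ne_zero_iff.mpr fun b' _ => hε b'
    have e0 := e 0
    have e1 := e 1
    have hB : q.1.1.rep i * ∏ b' ∈ Finset.univ.erase b, (q.1.2 b').rep (ε b') ≠ 0 :=
      mul_ne_zero hi hA
    apply mul_left_cancel₀ hB
    linear_combination (-(q'.1.2 b).rep 1) * e0 + (q'.1.2 b).rep 0 * e1

section sec

variable (hL : SpecLin)

/-- `w₀` as a linear map -/
noncomputable def W0 (b : Fin 12) : (Fin 3 → ℂ) →ₗ[ℂ] ℂ where
  toFun := w0 b
  map_add' z z' := by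
    have h := (hL.2.2.1 b 1 1 z z').1
    rwa [one_smul, one_smul, one_mul, one_mul] at h
  map_smul' c z := by
    have h := (hL.2.2.1 b c 0 z z).1
    rw [zero_smul, add_zero, zero_mul, add_zero] at h
    exact h

/-- `w₁` as a linear map -/
noncomputable def W1 (b : Fin 12) : (Fin 3 → ℂ) →ₗ[ℂ] ℂ where
  toFun := w1 b
  map_add' z z' := by
    have h := (hL.2.2.1 b 1 1 z z').2.1
    rwa [one_smul, one_smul, one_mul, one_mul] at h
  map_smul' c z := by
    have h := (hL.2.2.1 b c 0 z z).2.1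
    rw [zero_smul, add_zero, zero_mul, add_zero] at h
    exact h

/-- `w₂` as a linear map -/
noncomputable def W2 (b : Fin 12) : (Fin 3 → ℂ) →ₗ[ℂ] ℂ where
  toFun := w2 b
  map_add' z z' := by
    have h := (hL.2.2.1 b 1 1 z z').2.2
    rwa [one_smul, one_smul, one_mul, one_mul] at h
  map_smul' c z := by
    have h := (hL.2.2.1 b c 0 z z).2.2
    rw [zero_smul, add_zero, zero_mul, add_zero] at h
    exact h

/-- restriction to the first index -/
def rs (δ : Fin 12 → Fin 2) : (Ix → ℂ) →ₗ[ℂ] (Fin 3 → ℂ) where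
  toFun := fun s j => s (j, δ)
  map_add' := fun _ _ => rfl
  map_smul' := fun _ _ => rfl

/-- a linear form in the first index of Segre vectors -/
noncomputable def Fn (W : (Fin 3 → ℂ) →ₗ[ℂ] ℂ) (δ : Fin 12 → Fin 2) : (Ix → ℂ) →L[ℂ] ℂ :=
  LinearMap.toContinuousLinearMap (W.comp (rs δ))

theorem Fn_seg (W : (Fin 3 → ℂ) →ₗ[ℂ] ℂ) (δ : Fin 12 → Fin 2) (z : Fin 3 → ℂ)
    (m : Fin 12 → Fin 2 → ℂ) : Fn W δ (seg z m) = W z * ∏ b, m b (δ b) := by
  show W (fun j => z j * ∏ b, m b (δ b)) = _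
  have h : (fun j => z j * ∏ b, m b (δ b)) = (∏ b, m b (δ b)) • z := by
    funext j
    rw [Pi.smul_apply, smul_eq_mul, mul_comm]
  rw [h, map_smul, smul_eq_mul, mul_comm]

theorem zz_an (b : Fin 12) (ε : Fin 2) (y : ℂ × ℂ) : AnalyticAt ℂ (zz b ε) y := by
  have h1 : AnalyticAt ℂ (fun y : ℂ × ℂ => y.1) y := analyticAt_fst
  have h2 : AnalyticAt ℂ (fun y : ℂ × ℂ => y.2) y := analyticAt_snd
  unfold zz
  split_ifs
  · exact (analyticAt_const.add (h1.smul analyticAt_const)).add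
      ((h1.mul h2).smul analyticAt_const)
  · exact (analyticAt_const.add ((h1.mul h2).smul analyticAt_const)).add
      (h1.smul analyticAt_const)

/-- the slopes in the chart -/
noncomputable def nn (b₀ : Fin 12) (ε₀ : Fin 2) (y : ℂ × ℂ) (b : Fin 12) : Fin 2 → ℂ :=
  if b = b₀ then mm ε₀ y else ![w1 b (zz b₀ ε₀ y), w2 b (zz b₀ ε₀ y)]

include hL in
theorem nn_an (b₀ : Fin 12) (ε₀ : Fin 2) (b : Fin 12) (t : Fin 2) (y : ℂ × ℂ) :
    AnalyticAt ℂ (fun y => nn b₀ ε₀ y b t) y := by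
  unfold nn
  split_ifs with hb
  · have h2 : AnalyticAt ℂ (fun y : ℂ × ℂ => y.2) y := analyticAt_snd
    unfold mm
    split_ifs
    · fin_cases t
      · exact analyticAt_const
      · exact h2
    · fin_cases t
      · exact h2
      · exact analyticAt_const
  · have h1 : AnalyticAt ℂ (fun y => w1 b (zz b₀ ε₀ y)) y :=
      ((LinearMap.toContinuousLinearMap (W1 hL b)).analyticAt _).comp (zz_an b₀ ε₀ y)
    have h2 : AnalyticAt ℂ (fun y => w2 b (zz b₀ ε₀ y)) y :=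
      ((LinearMap.toContinuousLinearMap (W2 hL b)).analyticAt _).comp (zz_an b₀ ε₀ y)
    fin_cases t
    · exact h1
    · exact h2

/-- the section -/
noncomputable def ss (b₀ : Fin 12) (ε₀ : Fin 2) (y : ℂ × ℂ) : Ix → ℂ :=
  seg (zz b₀ ε₀ y) (nn b₀ ε₀ y)

include hL in
theorem ss_an (b₀ : Fin 12) (ε₀ : Fin 2) (y : ℂ × ℂ) : AnalyticAt ℂ (ss b₀ ε₀) y := by
  rw [analyticAt_pi_iff]
  intro i
  have h1 : AnalyticAt ℂ (fun y => zz b₀ ε₀ y i.1) y := (analyticAt_pi_iff.mp (zz_an b₀ ε₀ y)) i.1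
  have h2 : AnalyticAt ℂ (fun y => ∏ b, nn b₀ ε₀ y b (i.2 b)) y :=
    Finset.analyticAt_fun_prod _ fun b _ => nn_an hL b₀ ε₀ b (i.2 b) y
  exact h1.mul h2

include hL in
theorem zz_ne (b : Fin 12) (ε : Fin 2) (y : ℂ × ℂ) : zz b ε y ≠ 0 := by
  intro h
  have h0 : w0 b (zz b ε y) = 1 := by
    have h1 := hL.2.2.2.2.1 b y
    fin_cases ε
    · exact h1.1
    · exact h1.2.2.2.1
  rw [h] at h0
  have h2 := (W0 hL b).map_zero
  have h3 : w0 b 0 = 0 := h2
  rw [h3] at h0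
  exact zero_ne_one h0

theorem mm_ne (ε : Fin 2) (y : ℂ × ℂ) : mm ε y ≠ 0 := by
  intro h
  unfold mm at h
  split_ifs at h
  · have := congrFun h 0
    simp at this
  · have := congrFun h 1
    simp at this

theorem nn_ne (b₀ : Fin 12) (ε₀ : Fin 2) (y : ℂ × ℂ) (hy : y ∈ Tgt b₀ ε₀) (b : Fin 12) :
    nn b₀ ε₀ y b ≠ 0 := by
  unfold nn
  split_ifs with hb
  · exact mm_ne ε₀ y
  · intro h
    apply hy b hb
    have h1 := congrFun h 0
    have h2 := congrFun h 1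
    simp only [Matrix.cons_val_zero, Matrix.cons_val_one, Pi.zero_apply] at h1 h2
    exact ⟨h1, h2⟩

include hL in
/-- in the chart the embedding is given by the section -/
theorem Φ_eq (K : Charts) (b₀ : Fin 12) (ε₀ : Fin 2) (x : V) (hx : x ∈ Src b₀ ε₀) :
    ∃ h : ss b₀ ε₀ (K.ch b₀ ε₀ x) ≠ 0, Φ x = Projectivization.mk ℂ (ss b₀ ε₀ (K.ch b₀ ε₀ x)) h := by
  have hx' : x ∈ (K.ch b₀ ε₀).source := by rw [K.source]; exact hx
  have hy : K.ch b₀ ε₀ x ∈ Tgt b₀ ε₀ := by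
    rw [← K.target]
    exact (K.ch b₀ ε₀).map_source hx'
  have hs := K.symm b₀ ε₀ _ hy
  rw [(K.ch b₀ ε₀).left_inv hx'] at hs
  set y := K.ch b₀ ε₀ x with hyd
  have hne : ss b₀ ε₀ y ≠ 0 := seg_ne _ _ (zz_ne hL b₀ ε₀ y) (nn_ne b₀ ε₀ y hy)
  refine ⟨hne, ?_⟩
  have h1 : x.1.1 = Projectivization.mk ℂ (zz b₀ ε₀ y) (zz_ne hL b₀ ε₀ y) := by
    rw [hs]
    show mk2 (zz b₀ ε₀ y) = _
    rw [mk2, dif_pos (zz_ne hL b₀ ε₀ y)]
  have hv2 : ∀ (v : Fin 2 → ℂ) (hv : v ≠ 0), mk1 (v 0) (v 1) = Projectivization.mk ℂ v hv := by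
    intro v hv
    have hv' : (![v 0, v 1] : Fin 2 → ℂ) = v := by
      funext i
      fin_cases i <;> rfl
    rw [mk1, dif_pos (by rw [hv']; exact hv)]
    congr 1
  have h2 : ∀ b, x.1.2 b = Projectivization.mk ℂ (nn b₀ ε₀ y b) (nn_ne b₀ ε₀ y hy b) := by
    intro b
    rw [hs]
    show slp b₀ ε₀ y b = _
    rw [← hv2]
    unfold slp nn
    split_ifs with hb
    · rfl
    · rfl
  obtain ⟨c, hc, hc'⟩ := rep_mk (zz b₀ ε₀ y) (zz_ne hL b₀ ε₀ y)
  choose d hd hd' using fun b => rep_mk (nn b₀ ε₀ y b) (nn_ne b₀ ε₀ y hy b)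
  rw [Φ, Projectivization.mk_eq_mk_iff']
  refine ⟨c * ∏ b, d b, ?_⟩
  rw [ss, ← seg_smul, Sv, h1, hc']
  congr 1
  funext b
  rw [h2 b, hd' b]

theorem coord_zero {E : Type} [NormedAddCommGroup E] [NormedSpace ℂ E] (s : ℂ × ℂ → E)
    (y : ℂ × ℂ) (hs : DifferentiableAt ℂ s y) (A B : E →L[ℂ] ℂ) (g : ℂ × ℂ →L[ℂ] ℂ)
    (hAB : ∀ x, B (s x) = g x * A (s x)) (hA : A (s y) ≠ 0) (v : ℂ × ℂ) (c : ℂ)
    (hv : fderiv ℂ s y v = c • s y) : g v = 0 := by
  have h1 : HasFDerivAt (fun x => A (s x)) (A.comp (fderiv ℂ s y)) y :=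
    A.hasFDerivAt.comp y hs.hasFDerivAt
  have h2 : HasFDerivAt (fun x => B (s x)) (B.comp (fderiv ℂ s y)) y :=
    B.hasFDerivAt.comp y hs.hasFDerivAt
  have h3 := (g.hasFDerivAt (x := y)).mul h1
  have h4 : (fun x => B (s x)) = fun x => g x * A (s x) := funext hAB
  rw [h4] at h2
  have h5 := h2.unique h3
  have h6 := congrArg (fun T : ℂ × ℂ →L[ℂ] ℂ => T v) h5
  simp only [ContinuousLinearMap.comp_apply, add_apply,
    smul_apply, smul_eq_mul, hv, map_smul, hAB] at h6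
  have h7 : g v * A (s y) = 0 := by linear_combination -h6
  rcases mul_eq_zero.mp h7 with h8 | h8
  · exact h8
  · exact absurd h8 hA

include hL in
theorem immersion (b₀ : Fin 12) (ε₀ : Fin 2) (y : ℂ × ℂ) (hy : y ∈ Tgt b₀ ε₀) (v : ℂ × ℂ)
    (hv : v ≠ 0) (c : ℂ) : fderiv ℂ (ss b₀ ε₀) y v ≠ c • ss b₀ ε₀ y := by
  intro h
  apply hv
  have hd : DifferentiableAt ℂ (ss b₀ ε₀) y := (ss_an hL b₀ ε₀ y).differentiableAt
  choose δ' hδ' using fun b => exists_ne (nn_ne b₀ ε₀ y hy b)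
  -- the index
  set δ : Fin 12 → Fin 2 := fun b => if b = b₀ then ε₀ else δ' b with hδ
  have hmm : ∀ x : ℂ × ℂ, mm ε₀ x ε₀ = 1 := by
    intro x
    fin_cases ε₀ <;> simp [mm]
  have hnn : ∀ b, nn b₀ ε₀ y b (δ b) ≠ 0 := by
    intro b
    by_cases hb : b = b₀
    · have : nn b₀ ε₀ y b (δ b) = 1 := by
        rw [hδ]
        simp only [hb, if_true, nn]
        exact hmm y
      rw [this]
      exact one_ne_zero
    · have : δ b = δ' b := by rw [hδ]; simp [hb]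
      rw [this]
      exact hδ' b
  have hw : ∀ x, w0 b₀ (zz b₀ ε₀ x) = 1 := by
    intro x
    have h1 := hL.2.2.2.2.1 b₀ x
    fin_cases ε₀
    · exact h1.1
    · exact h1.2.2.2.1
  set A := Fn (W0 hL b₀) δ with hAd
  have hA : ∀ x, A (ss b₀ ε₀ x) = ∏ b, nn b₀ ε₀ x b (δ b) := by
    intro x
    rw [hAd, ss, Fn_seg]
    show w0 b₀ (zz b₀ ε₀ x) * _ = _
    rw [hw, one_mul]
  have hAy : A (ss b₀ ε₀ y) ≠ 0 := by
    rw [hA]
    exact Finset.prod_ne_zero_iff.mpr fun b _ => hnn b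
  have e1 : v.1 = 0 := by
    refine coord_zero (ss b₀ ε₀) y hd A (Fn (if ε₀ = 0 then W1 hL b₀ else W2 hL b₀) δ)
      (ContinuousLinearMap.fst ℂ ℂ ℂ) ?_ hAy v c h
    intro x
    rw [hA, ss, Fn_seg]
    congr 1
    have h1 := hL.2.2.2.2.1 b₀ x
    fin_cases ε₀
    · exact h1.2.1
    · exact h1.2.2.2.2.2
  have e2 : v.2 = 0 := by
    refine coord_zero (ss b₀ ε₀) y hd A (Fn (W0 hL b₀) (Function.update δ b₀ (1 - ε₀)))
      (ContinuousLinearMap.snd ℂ ℂ ℂ) ?_ hAy v c h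
    intro x
    rw [hA, ss, Fn_seg]
    show w0 b₀ (zz b₀ ε₀ x) * _ = x.2 * _
    rw [hw, one_mul, ← Finset.mul_prod_erase Finset.univ _ (Finset.mem_univ b₀),
      ← Finset.mul_prod_erase Finset.univ (fun b => nn b₀ ε₀ x b (δ b)) (Finset.mem_univ b₀),
      Function.update_self]
    have h2 : ∏ b ∈ Finset.univ.erase b₀, nn b₀ ε₀ x b (Function.update δ b₀ (1 - ε₀) b) =
        ∏ b ∈ Finset.univ.erase b₀, nn b₀ ε₀ x b (δ b) := by
      apply Finset.prod_congr rfl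
      intro b hb
      rw [Function.update_of_ne (Finset.ne_of_mem_erase hb)]
    rw [h2]
    have h3 : nn b₀ ε₀ x b₀ (δ b₀) = 1 := by
      rw [hδ]
      simp only [if_true, nn]
      exact hmm x
    have h4 : nn b₀ ε₀ x b₀ (1 - ε₀) = x.2 := by
      simp only [if_true, nn]
      fin_cases ε₀ <;> simp [mm]
    rw [h3, h4, one_mul]
  exact Prod.ext e1 e2

end sec

end Pool.Agent.MP_8f595d_ag.VEMM

namespace Pool.Agent.MP_8f595d_ag

open VEMM in
theorem specEmb (hL : SpecLin) (hC : SpecCover) : SpecEmb := by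
  intro K
  refine ⟨Ix, inferInstance, Φ, Φ_inj, fun q => ?_⟩
  obtain ⟨b, ε, hq⟩ := hC q
  have hq' : q ∈ (K.ch b ε).source := by rw [K.source]; exact hq
  refine ⟨K.ch b ε, ⟨(b, ε), rfl⟩, hq', ss b ε, ss_an hL b ε _, ?_, ?_⟩
  · have h1 : (K.ch b ε).source ∈ 𝓝 q := (K.ch b ε).open_source.mem_nhds hq'
    filter_upwards [h1] with x hx
    rw [K.source] at hx
    exact Φ_eq hL K b ε x hx
  · intro v hv c
    apply immersion hL b ε _ _ v hv c
    rw [← K.target]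
    exact (K.ch b ε).map_source hq'

end Pool.Agent.MP_8f595d_ag
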