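import Pool.Agent.Lib.MP_8f595d_ag.VSpec
import Pool.Agent.Lib.MP_8f595d_ag.TSpec
import Pool.Agent.Lib.MP_8f595d_ag.VCH
import Pool.Agent.Lib.MP_8f595d_ag.VCA

section
/-!
# Module VBA: linear algebra and the incidence table
-/
set_option autoImplicit false

namespace Pool.Agent.MP_8f595d_ag

namespace VbaM

lemma th_sq : th ^ 2 = -3 := by
  unfold th
  have h : ((Real.sqrt 3 : ℝ) : ℂ) ^ 2 = 3 := by
    have : (Real.sqrt 3) ^ 2 = 3 := Real.sq_sqrt (by norm_num)
    exact_mod_cast this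
  rw [mul_pow, h, Complex.I_sq]
  norm_num

lemma om_eq : om ^ 2 + om + 1 = 0 := by
  unfold om
  linear_combination (1 / 4 : ℂ) * th_sq

lemma th_eq : th = 2 * om + 1 := by
  unfold om
  ring

lemma om_ne : om ≠ 0 := by
  intro h
  have := om_eq
  rw [h] at this
  norm_num at this

lemma th_ne : th ≠ 0 := by
  intro h
  have := th_sq
  rw [h] at this
  norm_num at this

/-! ### the three types of points -/

lemma bv_lt {b : Fin 12} (h : b < 8) : bv b 0 = 1 := by
  revert h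
  fin_cases b <;> intro h <;> first | (simp [bv]; done) | exact absurd h (by decide)

lemma bv_8 : bv 8 = ![0, 1, 0] := rfl

lemma bv_gt {b : Fin 12} (h : 8 < b) : bv b 0 = 0 ∧ bv b 2 = 1 := by
  revert h
  fin_cases b <;> intro h <;> first | (simp [bv]; done) | exact absurd h (by decide)

lemma bv_lt_eq {b : Fin 12} (h : b < 8) : bv b = ![1, bv b 1, bv b 2] := by
  ext i
  fin_cases i
  · exact bv_lt h
  · rfl
  · rfl

lemma bv_gt_eq {b : Fin 12} (h : 8 < b) : bv b = ![0, bv b 1, 1] := by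
  ext i
  fin_cases i
  · exact (bv_gt h).1
  · rfl
  · exact (bv_gt h).2

/-! ### formulas in the three types -/

lemma w_lt {b : Fin 12} (h : b < 8) (z : Fin 3 → ℂ) :
    w0 b z = z 0 ∧ w1 b z = z 1 - bv b 1 * z 0 ∧ w2 b z = z 2 - bv b 2 * z 0 := by
  simp [w0, w1, w2, h]

lemma w_8 (z : Fin 3 → ℂ) : w0 8 z = z 1 ∧ w1 8 z = z 0 ∧ w2 8 z = z 2 := by
  simp [w0, w1, w2]

lemma w_gt {b : Fin 12} (h : 8 < b) (z : Fin 3 → ℂ) :
    w0 b z = z 2 ∧ w1 b z = z 0 ∧ w2 b z = z 1 - bv b 1 * z 2 := by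
  have h1 : ¬ b < 8 := by omega
  have h2 : ¬ b = 8 := by omega
  simp [w0, w1, w2, h1, h2]

lemma d_lt {b : Fin 12} (h : b < 8) : d1 b = ![0, 1, 0] ∧ d2 b = ![0, 0, 1] := by
  have h1 : b ≤ 8 := by omega
  simp [d1, d2, h, h1]

lemma d_8 : d1 8 = ![1, 0, 0] ∧ d2 8 = ![0, 0, 1] := by
  simp [d1, d2]

lemma d_gt {b : Fin 12} (h : 8 < b) : d1 b = ![1, 0, 0] ∧ d2 b = ![0, 1, 0] := by
  have h1 : ¬ b < 8 := by omega
  have h2 : ¬ b ≤ 8 := by omega
  simp [d1, d2, h1, h2]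

lemma w_lin (b : Fin 12) (x y : ℂ) (z z' : Fin 3 → ℂ) :
    w0 b (x • z + y • z') = x * w0 b z + y * w0 b z' ∧
    w1 b (x • z + y • z') = x * w1 b z + y * w1 b z' ∧
    w2 b (x • z + y • z') = x * w2 b z + y * w2 b z' := by
  rcases lt_trichotomy b 8 with h | h | h
  · obtain ⟨a1, a2, a3⟩ := w_lt h (x • z + y • z')
    obtain ⟨b1, b2, b3⟩ := w_lt h z
    obtain ⟨c1, c2, c3⟩ := w_lt h z'
    rw [a1, a2, a3, b1, b2, b3, c1, c2, c3]
    simp only [Pi.add_apply, Pi.smul_apply, smul_eq_mul]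
    refine ⟨trivial, ?_, ?_⟩ <;> ring
  · subst h
    obtain ⟨a1, a2, a3⟩ := w_8 (x • z + y • z')
    obtain ⟨b1, b2, b3⟩ := w_8 z
    obtain ⟨c1, c2, c3⟩ := w_8 z'
    rw [a1, a2, a3, b1, b2, b3, c1, c2, c3]
    simp only [Pi.add_apply, Pi.smul_apply, smul_eq_mul]
    exact ⟨trivial, trivial, trivial⟩
  · obtain ⟨a1, a2, a3⟩ := w_gt h (x • z + y • z')
    obtain ⟨b1, b2, b3⟩ := w_gt h z
    obtain ⟨c1, c2, c3⟩ := w_gt h z'
    rw [a1, a2, a3, b1, b2, b3, c1, c2, c3]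
    simp only [Pi.add_apply, Pi.smul_apply, smul_eq_mul]
    refine ⟨trivial, trivial, ?_⟩
    ring

lemma w_dec (b : Fin 12) (z : Fin 3 → ℂ) : z = w0 b z • bv b + w1 b z • d1 b + w2 b z • d2 b := by
  have key : ∀ i, z i = w0 b z * bv b i + w1 b z * d1 b i + w2 b z * d2 b i := by
    rcases lt_trichotomy b 8 with h | h | h
    · obtain ⟨a1, a2, a3⟩ := w_lt h z
      obtain ⟨e1, e2⟩ := d_lt h
      rw [a1, a2, a3, e1, e2]
      intro i
      fin_cases i
      · simp [bv_lt h]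
      · simp
        ring
      · simp
        ring
    · subst h
      obtain ⟨a1, a2, a3⟩ := w_8 z
      obtain ⟨e1, e2⟩ := d_8
      rw [a1, a2, a3, e1, e2, bv_8]
      intro i
      fin_cases i <;> simp
    · obtain ⟨a1, a2, a3⟩ := w_gt h z
      obtain ⟨e1, e2⟩ := d_gt h
      rw [a1, a2, a3, e1, e2]
      intro i
      fin_cases i
      · simp [(bv_gt h).1]
      · simp
        ring
      · simp [(bv_gt h).2]
  ext i
  simp only [Pi.add_apply, Pi.smul_apply, smul_eq_mul]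
  exact key i

lemma w_val (b : Fin 12) : w0 b (bv b) = 1 ∧ w1 b (bv b) = 0 ∧ w2 b (bv b) = 0 ∧
    w0 b (d1 b) = 0 ∧ w1 b (d1 b) = 1 ∧ w2 b (d1 b) = 0 ∧
    w0 b (d2 b) = 0 ∧ w1 b (d2 b) = 0 ∧ w2 b (d2 b) = 1 := by
  rcases lt_trichotomy b 8 with h | h | h
  · obtain ⟨a1, a2, a3⟩ := w_lt h (bv b)
    obtain ⟨b1, b2, b3⟩ := w_lt h (d1 b)
    obtain ⟨c1, c2, c3⟩ := w_lt h (d2 b)
    rw [a1, a2, a3, b1, b2, b3, c1, c2, c3]
    obtain ⟨e1, e2⟩ := d_lt h
    rw [e1, e2, bv_lt h]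
    simp
  · subst h
    obtain ⟨a1, a2, a3⟩ := w_8 (bv 8)
    obtain ⟨b1, b2, b3⟩ := w_8 (d1 8)
    obtain ⟨c1, c2, c3⟩ := w_8 (d2 8)
    rw [a1, a2, a3, b1, b2, b3, c1, c2, c3]
    obtain ⟨e1, e2⟩ := d_8
    rw [e1, e2, bv_8]
    simp
  · obtain ⟨a1, a2, a3⟩ := w_gt h (bv b)
    obtain ⟨b1, b2, b3⟩ := w_gt h (d1 b)
    obtain ⟨c1, c2, c3⟩ := w_gt h (d2 b)
    rw [a1, a2, a3, b1, b2, b3, c1, c2, c3]
    obtain ⟨e1, e2⟩ := d_gt h
    rw [e1, e2, (bv_gt h).1, (bv_gt h).2]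
    simp

lemma w_comb (b : Fin 12) (p q : ℂ) :
    w0 b (bv b + p • d1 b + q • d2 b) = 1 ∧ w1 b (bv b + p • d1 b + q • d2 b) = p ∧
    w2 b (bv b + p • d1 b + q • d2 b) = q := by
  obtain ⟨v1, v2, v3, v4, v5, v6, v7, v8, v9⟩ := w_val b
  have h1 := w_lin b 1 q (bv b + p • d1 b) (d2 b)
  have h2 := w_lin b 1 p (bv b) (d1 b)
  simp only [one_smul, one_mul] at h1 h2
  obtain ⟨a1, a2, a3⟩ := h1
  obtain ⟨b1, b2, b3⟩ := h2
  rw [a1, a2, a3, b1, b2, b3, v1, v2, v3, v4, v5, v6, v7, v8, v9]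
  simp

lemma w_zz (b : Fin 12) (y : ℂ × ℂ) : w0 b (zz b 0 y) = 1 ∧ w1 b (zz b 0 y) = y.1 ∧
    w2 b (zz b 0 y) = y.1 * y.2 ∧ w0 b (zz b 1 y) = 1 ∧ w1 b (zz b 1 y) = y.1 * y.2 ∧
    w2 b (zz b 1 y) = y.1 := by
  have e0 : zz b 0 y = bv b + y.1 • d1 b + (y.1 * y.2) • d2 b := by simp [zz]
  have e1 : zz b 1 y = bv b + (y.1 * y.2) • d1 b + y.1 • d2 b := by simp [zz]
  obtain ⟨a1, a2, a3⟩ := w_comb b y.1 (y.1 * y.2)
  obtain ⟨b1, b2, b3⟩ := w_comb b (y.1 * y.2) y.1
  rw [e0, e1]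
  exact ⟨a1, a2, a3, b1, b2, b3⟩

lemma w0_zero (b : Fin 12) : w0 b 0 = 0 := by
  have := (w_lin b 0 0 0 0).1
  simpa using this

lemma bv_ne (b : Fin 12) : bv b ≠ 0 := by
  intro h
  have h1 := (w_val b).1
  rw [h, w0_zero] at h1
  exact one_ne_zero h1.symm

/-! ### Eisenstein integers `a + b ω` as pairs -/

/-- the value of a pair -/
noncomputable def ev (p : ℤ × ℤ) : ℂ := (p.1 : ℂ) + (p.2 : ℂ) * om

/-- the product -/
def mulE (p q : ℤ × ℤ) : ℤ × ℤ := (p.1 * q.1 - p.2 * q.2, p.1 * q.2 + p.2 * q.1 - p.2 * q.2)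

lemma ev_add (p q : ℤ × ℤ) : ev (p + q) = ev p + ev q := by
  simp [ev]; ring

lemma ev_sub (p q : ℤ × ℤ) : ev (p - q) = ev p - ev q := by
  simp [ev]; ring

lemma ev_mul (p q : ℤ × ℤ) : ev (mulE p q) = ev p * ev q := by
  simp only [ev, mulE]
  push_cast
  linear_combination (-(p.2 : ℂ) * (q.2 : ℂ)) * om_eq

lemma ev_eq_zero (p : ℤ × ℤ) : ev p = 0 ↔ p = 0 := by
  constructor
  · intro h
    have h1 : ((p.1 ^ 2 - p.1 * p.2 + p.2 ^ 2 : ℤ) : ℂ) = 0 := by
      have h2 : ev p * ((p.1 : ℂ) + (p.2 : ℂ) * om ^ 2) = 0 := by rw [h, zero_mul]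
      simp only [ev] at h2
      push_cast
      linear_combination h2 - ((p.1 : ℂ) * p.2 + (p.2 : ℂ) ^ 2 * (om - 1)) * om_eq
    have h2 : (p.1 ^ 2 - p.1 * p.2 + p.2 ^ 2 : ℤ) = 0 := by exact_mod_cast h1
    have h3 : (2 * p.1 - p.2) ^ 2 + 3 * p.2 ^ 2 = 0 := by linarith
    have h4 : p.2 = 0 := by nlinarith [sq_nonneg (2 * p.1 - p.2), sq_nonneg p.2]
    have h5 : p.1 = 0 := by
      rw [h4] at h3
      nlinarith
    exact Prod.ext h5 h4
  · intro h
    rw [h]
    simp [ev]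

/-- twice the points -/
def B2 : Fin 12 → Fin 3 → ℤ × ℤ :=
  ![![(2, 0), (0, 0), (2, 4)], ![(2, 0), (0, 0), (-2, -4)],
    ![(2, 0), (2, 0), (2, 0)], ![(2, 0), (0, 2), (2, 0)], ![(2, 0), (-2, -2), (2, 0)],
    ![(2, 0), (-2, 0), (-2, 0)], ![(2, 0), (0, -2), (-2, 0)], ![(2, 0), (2, 2), (-2, 0)],
    ![(0, 0), (2, 0), (0, 0)], ![(0, 0), (-1, 0), (2, 0)], ![(0, 0), (0, -1), (2, 0)],
    ![(0, 0), (1, 1), (2, 0)]]

/-- the lines -/
def LE : Fin 9 → Fin 3 → ℤ × ℤ :=
  ![![(1, 0), (0, 0), (0, 0)], ![(-1, 0), (0, 0), (1, 0)], ![(1, 0), (0, 0), (1, 0)],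
    ![(-1, -2), (2, 0), (1, 0)], ![(2, 1), (2, 0), (0, 1)], ![(-1, 1), (2, 0), (-1, -1)],
    ![(1, 2), (2, 0), (1, 0)], ![(-2, -1), (2, 0), (0, 1)], ![(1, -1), (2, 0), (-1, -1)]]

lemma om_sq : om ^ 2 = -1 - om := by linear_combination om_eq

lemma B2_eq (b : Fin 12) (i : Fin 3) : 2 * bv b i = ev (B2 b i) := by
  fin_cases b <;> fin_cases i <;> simp [bv, B2, ev, th_eq, om_sq] <;> ring

lemma LE_eq (i : Fin 9) (j : Fin 3) : ln i j = ev (LE i j) := by
  fin_cases i <;> fin_cases j <;> simp [ln, LE, ev, th_eq] <;>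
  first
  | ring1
  | linear_combination om_eq
  | linear_combination (2 : ℂ) * om_eq
  | linear_combination (-2 : ℂ) * om_eq
  | linear_combination (2 * om - 1) * om_eq
  | linear_combination (-(2 * om - 1)) * om_eq

/-- the incidence form -/
def dotE (i : Fin 9) (b : Fin 12) : ℤ × ℤ :=
  mulE (LE i 0) (B2 b 0) + mulE (LE i 1) (B2 b 1) + mulE (LE i 2) (B2 b 2)

lemma dot_eq (i : Fin 9) (b : Fin 12) : 2 * dot (ln i) (bv b) = ev (dotE i b) := by
  unfold dot dotE
  rw [ev_add, ev_add, ev_mul, ev_mul, ev_mul, ← LE_eq, ← LE_eq, ← LE_eq, ← B2_eq, ← B2_eq, ← B2_eq]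
  ring

lemma dotE_iff : ∀ (i : Fin 9) (b : Fin 12), dotE i b = 0 ↔ b ∈ incl i := by decide

lemma inc (i : Fin 9) (b : Fin 12) : dot (ln i) (bv b) = 0 ↔ b ∈ incl i := by
  rw [← dotE_iff, ← ev_eq_zero, ← dot_eq]
  simp

/-- four times `w₁`, `w₂` of the points -/
def W1E (b' b : Fin 12) : ℤ × ℤ :=
  if b' < 8 then (B2 b 1 + B2 b 1) - mulE (B2 b' 1) (B2 b 0) else B2 b 0 + B2 b 0

def W2E (b' b : Fin 12) : ℤ × ℤ :=
  if b' < 8 then (B2 b 2 + B2 b 2) - mulE (B2 b' 2) (B2 b 0)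
  else if b' = 8 then B2 b 2 + B2 b 2 else (B2 b 1 + B2 b 1) - mulE (B2 b' 1) (B2 b 2)

lemma W1E_eq (b' b : Fin 12) : 4 * w1 b' (bv b) = ev (W1E b' b) := by
  unfold w1 W1E
  split_ifs
  · rw [ev_sub, ev_add, ev_mul, ← B2_eq, ← B2_eq, ← B2_eq]; ring
  · rw [ev_add, ← B2_eq]; ring

lemma W2E_eq (b' b : Fin 12) : 4 * w2 b' (bv b) = ev (W2E b' b) := by
  unfold w2 W2E
  split_ifs
  · rw [ev_sub, ev_add, ev_mul, ← B2_eq, ← B2_eq, ← B2_eq]; ring
  · rw [ev_add, ← B2_eq]; ring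
  · rw [ev_sub, ev_add, ev_mul, ← B2_eq, ← B2_eq, ← B2_eq]; ring

lemma WE_ne : ∀ b b' : Fin 12, b ≠ b' → ¬ (W1E b' b = 0 ∧ W2E b' b = 0) := by decide

lemma sep (b b' : Fin 12) (h : b ≠ b') : ¬ (w1 b' (bv b) = 0 ∧ w2 b' (bv b) = 0) := by
  rintro ⟨h1, h2⟩
  apply WE_ne b b' h
  rw [← ev_eq_zero, ← ev_eq_zero, ← W1E_eq, ← W2E_eq, h1, h2]
  simp

lemma ex_not : ∀ i : Fin 9, ∃ b, b ∉ incl i := by decide

lemma ex_diff : ∀ i j : Fin 9, i ≠ j → ∃ b, b ∈ incl i ∧ b ∉ incl j := by decide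

lemma dot_comb (x y : ℂ) (l l' z : Fin 3 → ℂ) :
    dot (x • l + y • l') z = x * dot l z + y * dot l' z := by
  simp [dot]; ring

lemma dot_zero (z : Fin 3 → ℂ) : dot 0 z = 0 := by simp [dot]

lemma ln_ne (i : Fin 9) : ln i ≠ 0 := by
  obtain ⟨b, hb⟩ := ex_not i
  intro h
  apply hb
  rw [← inc, h, dot_zero]

lemma ln_indep (i j : Fin 9) (hij : i ≠ j) : LinearIndependent ℂ ![ln i, ln j] := by
  rw [LinearIndependent.pair_iff]
  intro s t hst
  obtain ⟨b, hb1, hb2⟩ := ex_diff i j hij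
  obtain ⟨b', hb1', hb2'⟩ := ex_diff j i hij.symm
  have h1 := dot_comb s t (ln i) (ln j) (bv b)
  have h2 := dot_comb s t (ln i) (ln j) (bv b')
  rw [hst, dot_zero] at h1 h2
  rw [(inc i b).mpr hb1, mul_zero, zero_add] at h1
  rw [(inc j b').mpr hb1', mul_zero, add_zero] at h2
  have h3 : dot (ln j) (bv b) ≠ 0 := fun h => hb2 ((inc j b).mp h)
  have h4 : dot (ln i) (bv b') ≠ 0 := fun h => hb2' ((inc i b').mp h)
  constructor
  · rcases mul_eq_zero.mp h2.symm with h | h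
    · exact h
    · exact absurd h h4
  · rcases mul_eq_zero.mp h1.symm with h | h
    · exact h
    · exact absurd h h3

end VbaM

theorem specLin : SpecLin :=
  ⟨⟨VbaM.th_sq, VbaM.om_eq, VbaM.om_ne, VbaM.th_ne, VbaM.th_eq⟩, VbaM.w_dec, VbaM.w_lin, VbaM.w_val,
    VbaM.w_zz, VbaM.bv_ne, VbaM.sep, VbaM.inc, VbaM.ln_ne, VbaM.ln_indep⟩

end Pool.Agent.MP_8f595d_ag
end

section
/-!
# Module THO: `Xp` is homeomorphic to `V ∖ D`
-/
set_option autoImplicit false

open scoped Topology LinearAlgebra.Projectivization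

open Pool.Agent.SH (pt1)

namespace Pool.Agent.MP_8f595d_ag

namespace THOM

lemma pt1_mk1 (α : ℂ) : pt1 α = mk1 1 α := by
  rw [mk1, dif_pos]
  rfl

/-- Slopes. -/
lemma eq_pt1_iff (m : P1) (α : ℂ) : m.rep 1 = α * m.rep 0 ↔ m = pt1 α := by
  constructor
  · intro h
    rw [pt1_mk1]
    refine (VCHM.mk1_eq m (fun h => one_ne_zero h.1) ?_).symm
    rw [h, one_mul]
  · rintro rfl
    have := mk1_eq 1 α
    rw [← pt1_mk1] at this
    rw [← this, one_mul]

lemma inf_or (b : Fin 12) : b < 8 ∨ ¬ b < 8 := em _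

lemma w1_inf {b : Fin 12} (h : ¬ b < 8) (z : Fin 3 → ℂ) : w1 b z = z 0 := by
  rw [w1, if_neg h]

lemma d1_inf {b : Fin 12} (h : ¬ b < 8) : d1 b = ![1, 0, 0] := by
  rw [d1, if_neg h]

lemma bv0_inf {b : Fin 12} (h : ¬ b < 8) : bv b 0 = 0 := by
  revert h
  fin_cases b <;> intro h <;> first | rfl | exact absurd (by decide) h

/-- The affine points. -/
def cs (i : Fin 8) : Fin 12 := Fin.castLE (by norm_num) i

lemma cs_lt (i : Fin 8) : cs i < 8 := by
  revert i; decide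

lemma bv_cs (i : Fin 8) : bv (cs i) = ![1, (Pt i).1, (Pt i).2] := by
  fin_cases i <;> rfl

lemma exists_cs {b : Fin 12} (h : b < 8) : ∃ i, cs i = b := by
  revert h; revert b; decide

lemma w1_cs (i : Fin 8) (z : Fin 3 → ℂ) : w1 (cs i) z = z 1 - (Pt i).1 * z 0 := by
  rw [w1, if_pos (cs_lt i), bv_cs]
  rfl

lemma w2_cs (i : Fin 8) (z : Fin 3 → ℂ) : w2 (cs i) z = z 2 - (Pt i).2 * z 0 := by
  rw [w2, if_pos (cs_lt i), bv_cs]
  rfl

/-- The homogeneous coordinates of an affine point. -/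
def hc (p : ℂ × ℂ) : Fin 3 → ℂ := ![1, p.1, p.2]

lemma hc_ne (p : ℂ × ℂ) : hc p ≠ 0 := by
  intro h
  have := congrFun h 0
  exact one_ne_zero this

open Classical in
/-- The map from the blow-up of the plane. -/
noncomputable def f0 (q : Bl Pt) : P2 × (Fin 12 → P1) :=
  (mk2 (hc q.1.1), fun b => if h : (b : ℕ) < 8 then q.1.2 ⟨b, h⟩
    else mk1 (w1 b (hc q.1.1)) (w2 b (hc q.1.1)))

lemma f0_cs (q : Bl Pt) (i : Fin 8) : (f0 q).2 (cs i) = q.1.2 i := by
  show (if h : ((cs i : Fin 12) : ℕ) < 8 then q.1.2 ⟨cs i, h⟩ else _) = _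
  have h : ((cs i : Fin 12) : ℕ) < 8 := i.2
  rw [dif_pos h]
  rfl

lemma f0_inf (q : Bl Pt) {b : Fin 12} (h : ¬ b < 8) :
    (f0 q).2 b = mk1 (w1 b (hc q.1.1)) (w2 b (hc q.1.1)) := by
  show (if h : (b : ℕ) < 8 then q.1.2 ⟨b, h⟩ else _) = _
  rw [dif_neg]
  exact h

lemma f0_mem (q : Bl Pt) : f0 q ∈ Vset := by
  intro b
  obtain ⟨k, hk, h⟩ := VCHM.mk2_rep (hc_ne q.1.1)
  show w1 b (mk2 (hc q.1.1)).rep * ((f0 q).2 b).rep 1 = w2 b (mk2 (hc q.1.1)).rep * _
  rw [h, VCHM.w1_smul, VCHM.w2_smul]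
  by_cases hb : b < 8
  · obtain ⟨i, rfl⟩ := exists_cs hb
    rw [f0_cs, w1_cs, w2_cs]
    have h1 := q.2 i
    show k * (q.1.1.1 - (Pt i).1 * 1) * _ = k * (q.1.1.2 - (Pt i).2 * 1) * _
    linear_combination k * h1
  · rw [f0_inf q hb]
    have h1 := mk1_eq (w1 b (hc q.1.1)) (w2 b (hc q.1.1))
    linear_combination k * h1

/-- The map to the blow-up of the plane. -/
noncomputable def g0 (v : V) : (ℂ × ℂ) × (Fin 8 → P1) :=
  ((v.1.1.rep 1 / v.1.1.rep 0, v.1.1.rep 2 / v.1.1.rep 0), fun i => v.1.2 (cs i))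

lemma g0_mem (v : V) (h0 : v.1.1.rep 0 ≠ 0) : g0 v ∈ Bset Pt := by
  intro i
  have h1 := v.2 (cs i)
  rw [w1_cs, w2_cs] at h1
  show (v.1.1.rep 1 / v.1.1.rep 0 - (Pt i).1) * (v.1.2 (cs i)).rep 1 =
    (v.1.1.rep 2 / v.1.1.rep 0 - (Pt i).2) * (v.1.2 (cs i)).rep 0
  field_simp
  linear_combination h1

lemma hc_g0 (v : V) (h0 : v.1.1.rep 0 ≠ 0) : hc (g0 v).1 = (v.1.1.rep 0)⁻¹ • v.1.1.rep := by
  funext j
  fin_cases j
  · show (1 : ℂ) = (v.1.1.rep 0)⁻¹ * v.1.1.rep 0
    rw [inv_mul_cancel₀ h0]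
  · show v.1.1.rep 1 / v.1.1.rep 0 = (v.1.1.rep 0)⁻¹ * v.1.1.rep 1
    rw [div_eq_inv_mul]
  · show v.1.1.rep 2 / v.1.1.rep 0 = (v.1.1.rep 0)⁻¹ * v.1.1.rep 2
    rw [div_eq_inv_mul]

lemma f0_g0 (v : V) (h0 : v.1.1.rep 0 ≠ 0) : f0 ⟨g0 v, g0_mem v h0⟩ = v.1 := by
  refine Prod.ext ?_ (funext fun b => ?_)
  · show mk2 (hc (g0 v).1) = v.1.1
    rw [hc_g0 v h0]
    exact VCHM.mk2_smul _ (inv_ne_zero h0)
  · by_cases hb : b < 8
    · obtain ⟨i, rfl⟩ := exists_cs hb
      rw [f0_cs]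
      rfl
    · rw [f0_inf _ hb]
      show mk1 (w1 b (hc (g0 v).1)) (w2 b (hc (g0 v).1)) = v.1.2 b
      refine VCHM.mk1_eq _ ?_ ?_
      · rintro ⟨h, -⟩
        rw [w1_inf hb] at h
        exact one_ne_zero h
      · rw [hc_g0 v h0, VCHM.w1_smul, VCHM.w2_smul]
        have := v.2 b
        linear_combination (v.1.1.rep 0)⁻¹ * this

lemma f0_rep0 (q : Bl Pt) : ((f0 q).1).rep 0 ≠ 0 := by
  obtain ⟨k, hk, h⟩ := VCHM.mk2_rep (hc_ne q.1.1)
  show (mk2 (hc q.1.1)).rep 0 ≠ 0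
  rw [h]
  show k * 1 ≠ 0
  rw [mul_one]
  exact hk

lemma g0_f0 (q : Bl Pt) : g0 ⟨f0 q, f0_mem q⟩ = q.1 := by
  obtain ⟨k, hk, h⟩ := VCHM.mk2_rep (hc_ne q.1.1)
  refine Prod.ext (Prod.ext ?_ ?_) (funext fun i => ?_)
  · show (mk2 (hc q.1.1)).rep 1 / (mk2 (hc q.1.1)).rep 0 = q.1.1.1
    rw [h]
    show k * q.1.1.1 / (k * 1) = q.1.1.1
    rw [mul_one, mul_div_cancel_left₀ _ hk]
  · show (mk2 (hc q.1.1)).rep 2 / (mk2 (hc q.1.1)).rep 0 = q.1.1.2
    rw [h]
    show k * q.1.1.2 / (k * 1) = q.1.1.2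
    rw [mul_one, mul_div_cancel_left₀ _ hk]
  · exact f0_cs q i

/-! ### lines -/

lemma ln_eq (j : Fin 8) : ∃ k : ℂ, k ≠ 0 ∧ ln j.succ = k • ![-(la j).2, -(la j).1, 1] := by
  have h := VbaM.om_eq
  have h1 : om * om ^ 2 = 1 := by linear_combination (om - 1) * h
  have h2 := VbaM.om_ne
  have h3 : om ^ 2 ≠ 0 := pow_ne_zero 2 h2
  have e1 : ∀ k a b c a' b' c' : ℂ, a = k * a' → b = k * b' → c = k * c' →
      (![a, b, c] : Fin 3 → ℂ) = k • ![a', b', c'] := by
    intro k a b c a' b' c' ha hb hc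
    funext i
    fin_cases i
    · exact ha
    · exact hb
    · exact hc
  fin_cases j
  · refine ⟨1, one_ne_zero, ?_⟩
    exact e1 1 (-1) 0 1 (-1) (-0) 1 (by ring) (by ring) (by ring)
  · refine ⟨1, one_ne_zero, ?_⟩
    exact e1 1 1 0 1 (-(-1)) (-0) 1 (by ring) (by ring) (by ring)
  · refine ⟨1, one_ne_zero, ?_⟩
    exact e1 1 (-th) 2 1 (-th) (-(-2)) 1 (by ring) (by ring) (by ring)
  · refine ⟨om, h2, ?_⟩
    exact e1 om (-th * om) 2 om (-th) (-(-2 * om ^ 2)) 1 (by ring)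
      (by linear_combination -2 * h1) (by ring)
  · refine ⟨om ^ 2, h3, ?_⟩
    exact e1 (om ^ 2) (-th * om ^ 2) 2 (om ^ 2) (-th) (-(-2 * om)) 1 (by ring)
      (by linear_combination -2 * h1) (by ring)
  · refine ⟨1, one_ne_zero, ?_⟩
    exact e1 1 th 2 1 (-(-th)) (-(-2)) 1 (by ring) (by ring) (by ring)
  · refine ⟨om, h2, ?_⟩
    exact e1 om (th * om) 2 om (-(-th)) (-(-2 * om ^ 2)) 1 (by ring)
      (by linear_combination -2 * h1) (by ring)
  · refine ⟨om ^ 2, h3, ?_⟩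
    exact e1 (om ^ 2) (th * om ^ 2) 2 (om ^ 2) (-(-th)) (-(-2 * om)) 1 (by ring)
      (by linear_combination -2 * h1) (by ring)

lemma dot_smul_right (l z : Fin 3 → ℂ) (k : ℂ) : dot l (k • z) = k * dot l z := by
  simp only [dot, Pi.smul_apply, smul_eq_mul]
  ring

lemma dot_form (j : Fin 8) (k : ℂ) (z : Fin 3 → ℂ) :
    dot (k • ![-(la j).2, -(la j).1, 1]) z = k * (z 2 - (la j).1 * z 1 - (la j).2 * z 0) := by
  show k * -(la j).2 * z 0 + k * -(la j).1 * z 1 + k * 1 * z 2 = _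
  ring

lemma f0_line (q : Bl Pt) (j : Fin 8) :
    (⟨f0 q, f0_mem q⟩ : V) ∈ Lt (ln j.succ) ↔ q ∈ Ls Pt (la j) := by
  obtain ⟨k, hk, hl⟩ := ln_eq j
  obtain ⟨κ, hκ, hr⟩ := VCHM.mk2_rep (hc_ne q.1.1)
  have h0 : dot (ln j.succ) ((f0 q).1).rep = 0 ↔ q.1.1.2 = (la j).1 * q.1.1.1 + (la j).2 := by
    show dot (ln j.succ) (mk2 (hc q.1.1)).rep = 0 ↔ _
    rw [hr, dot_smul_right, hl, dot_form]
    show κ * (k * (q.1.1.2 - (la j).1 * q.1.1.1 - (la j).2 * 1)) = 0 ↔ _
    constructor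
    · intro h
      rcases mul_eq_zero.1 h with h | h
      · exact absurd h hκ
      rcases mul_eq_zero.1 h with h | h
      · exact absurd h hk
      linear_combination h
    · intro h
      rw [h]
      ring
  have h1 : ∀ i : Fin 8, dot (ln j.succ) (bv (cs i)) = 0 ↔
      (Pt i).2 = (la j).1 * (Pt i).1 + (la j).2 := by
    intro i
    rw [hl, dot_form, bv_cs]
    show k * ((Pt i).2 - (la j).1 * (Pt i).1 - (la j).2 * 1) = 0 ↔ _
    constructor
    · intro h
      rcases mul_eq_zero.1 h with h | h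
      · exact absurd h hk
      linear_combination h
    · intro h
      rw [h]
      ring
  have h2 : ∀ (i : Fin 8) (m : P1), dot (ln j.succ) (d1 (cs i)) * m.rep 0 +
      dot (ln j.succ) (d2 (cs i)) * m.rep 1 = 0 ↔ m = pt1 (la j).1 := by
    intro i m
    rw [← eq_pt1_iff, (VbaM.d_lt (cs_lt i)).1, (VbaM.d_lt (cs_lt i)).2, hl, dot_form, dot_form]
    show k * (0 - (la j).1 * 1 - (la j).2 * 0) * m.rep 0 +
      k * (1 - (la j).1 * 0 - (la j).2 * 0) * m.rep 1 = 0 ↔ _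
    constructor
    · intro h
      have h' : k * (m.rep 1 - (la j).1 * m.rep 0) = 0 := by linear_combination h
      rcases mul_eq_zero.1 h' with h | h
      · exact absurd h hk
      exact sub_eq_zero.1 h
    · intro h
      rw [h]
      ring
  constructor
  · rintro ⟨ha, hb⟩
    refine ⟨h0.1 ha, fun i hi => ?_⟩
    have := hb (cs i) ((h1 i).2 hi)
    rw [show ((⟨f0 q, f0_mem q⟩ : V).1.2 (cs i)) = q.1.2 i from f0_cs q i] at this
    exact (h2 i _).1 this
  · rintro ⟨ha, hb⟩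
    refine ⟨h0.2 ha, fun b hb' => ?_⟩
    by_cases hlt : b < 8
    · obtain ⟨i, rfl⟩ := exists_cs hlt
      rw [show ((⟨f0 q, f0_mem q⟩ : V).1.2 (cs i)) = q.1.2 i from f0_cs q i]
      exact (h2 i _).2 (hb i ((h1 i).1 hb'))
    · rw [show ((⟨f0 q, f0_mem q⟩ : V).1.2 b) = mk1 (w1 b (hc q.1.1)) (w2 b (hc q.1.1)) from
        f0_inf q hlt]
      obtain ⟨r, hr0, hr1⟩ := VCHM.mk1_rep (a := w1 b (hc q.1.1)) (c := w2 b (hc q.1.1))
        (VCHM.vec_ne (fun h => by
          rw [w1_inf hlt] at h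
          exact one_ne_zero h.1))
      rw [hr1]
      have h3 : dot (ln j.succ) (hc q.1.1) = 0 := by
        have h4 := h0.2 ha
        rw [show ((f0 q).1).rep = κ • hc q.1.1 from hr, dot_smul_right] at h4
        rcases mul_eq_zero.1 h4 with h | h
        · exact absurd h hκ
        · exact h
      have h5 := VbaM.w_dec b (hc q.1.1)
      have h6 : dot (ln j.succ) (hc q.1.1) = w0 b (hc q.1.1) * dot (ln j.succ) (bv b) +
          w1 b (hc q.1.1) * dot (ln j.succ) (d1 b) + w2 b (hc q.1.1) * dot (ln j.succ) (d2 b) := by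
        conv_lhs => rw [h5]
        simp only [dot, Pi.add_apply, Pi.smul_apply, smul_eq_mul]
        ring
      rw [h3, hb', mul_zero, zero_add] at h6
      show dot (ln j.succ) (d1 b) * (r * w1 b (hc q.1.1)) +
        dot (ln j.succ) (d2 b) * (r * w2 b (hc q.1.1)) = 0
      linear_combination (-r) * h6

/-! ### the complement of the divisor -/

lemma Dset_lt (i : Fin 9) : Dset ⟨i, by omega⟩ = Lt (ln i) := by
  rw [Dset, dif_pos i.2]

lemma mem_compl_iff (v : V) : v ∈ (⋃ i : Fin 13, Dset i)ᶜ ↔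
    v.1.1.rep 0 ≠ 0 ∧ ∀ j : Fin 8, v ∉ Lt (ln j.succ) := by
  rw [Set.mem_compl_iff, Set.mem_iUnion, not_exists]
  constructor
  · intro h
    refine ⟨?_, fun j hj => ?_⟩
    · intro h0
      have h1 : ∀ b : Fin 12, ¬ b < 8 → (v.1.2 b).rep 0 = 0 := by
        intro b hb
        have h2 : v ∉ Eb b := by
          have h3 := h ⟨(b : ℕ) + 1, by omega⟩
          have h4 : ¬ ((b : ℕ) + 1 < 9) := by
            have : ¬ ((b : ℕ) < 8) := hb
            omega
          rw [Dset, dif_neg (by exact h4)] at h3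
          simpa using h3
        have h5 : w1 b v.1.1.rep = 0 := by rw [w1_inf hb, h0]
        have h6 : w2 b v.1.1.rep ≠ 0 := fun h => h2 ⟨h5, h⟩
        have h7 := v.2 b
        rw [h5, zero_mul] at h7
        rcases mul_eq_zero.1 h7.symm with h | h
        · exact absurd h h6
        · exact h
      have h8 := h ⟨0, by omega⟩
      apply h8
      rw [Dset, dif_pos (by norm_num)]
      refine ⟨?_, fun b hb => ?_⟩
      · show 1 * v.1.1.rep 0 + 0 * v.1.1.rep 1 + 0 * v.1.1.rep 2 = 0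
        rw [h0]; ring
      · have hb1 : bv b 0 = 0 := by
          have : 1 * bv b 0 + 0 * bv b 1 + 0 * bv b 2 = 0 := hb
          linear_combination this
        have hb2 : ¬ b < 8 := by
          intro hlt
          rw [VbaM.bv_lt hlt] at hb1
          exact one_ne_zero hb1
        rw [h1 b hb2, mul_zero, zero_add]
        have h9 : dot (ln ⟨0, by norm_num⟩) (d2 b) = 0 := by
          show 1 * d2 b 0 + 0 * d2 b 1 + 0 * d2 b 2 = 0
          have : d2 b 0 = 0 := by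
            rw [d2]
            split_ifs <;> rfl
          rw [this]; ring
        rw [h9, zero_mul]
    · apply h ⟨(j : ℕ) + 1, by omega⟩
      have h1 : ((j : ℕ) + 1) < 9 := by omega
      rw [Dset, dif_pos (by exact h1)]
      exact hj
  · rintro ⟨h0, h1⟩ i hi
    rw [Dset] at hi
    split_ifs at hi with h
    · rcases Nat.eq_zero_or_pos (i : ℕ) with h2 | h2
      · have h3 : (⟨(i : ℕ), h⟩ : Fin 9) = 0 := Fin.ext h2
        rw [h3] at hi
        apply h0
        have : 1 * v.1.1.rep 0 + 0 * v.1.1.rep 1 + 0 * v.1.1.rep 2 = 0 := hi.1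
        linear_combination this
      · apply h1 ⟨(i : ℕ) - 1, by omega⟩
        have h3 : (⟨(i : ℕ), h⟩ : Fin 9) = Fin.succ ⟨(i : ℕ) - 1, by omega⟩ := by
          apply Fin.ext
          simp only [Fin.val_succ]
          omega
        rw [h3] at hi
        exact hi
    · have hb : ¬ ((⟨(i : ℕ) - 1, by omega⟩ : Fin 12) < 8) := by
        intro hlt
        have : (i : ℕ) - 1 < 8 := hlt
        omega
      have h2 : w1 _ v.1.1.rep = 0 := hi.1
      rw [w1_inf hb] at h2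
      exact h0 h2

lemma mem_Xp_iff (q : Bl Pt) : q ∈ Xp ↔ ∀ j : Fin 8, q ∉ Ls Pt (la j) := by
  rw [Xp, Set.mem_sdiff, Set.mem_iUnion, not_exists]
  simp

/-! ### continuity -/

lemma hc_cont : Continuous hc := by
  apply continuous_pi
  intro j
  fin_cases j
  · exact continuous_const
  · exact continuous_fst
  · exact continuous_snd

lemma f0_cont : Continuous f0 := by
  have h1 : Continuous fun q : Bl Pt => hc q.1.1 :=
    hc_cont.comp (continuous_fst.comp continuous_subtype_val)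
  refine Continuous.prodMk ?_ (continuous_pi fun b => ?_)
  · exact VCHM.mk2_cont.comp_continuous h1 (fun q => hc_ne _)
  · by_cases hb : b < 8
    · obtain ⟨i, rfl⟩ := exists_cs hb
      have h2 : (fun q => (f0 q).2 (cs i)) = fun q : Bl Pt => q.1.2 i :=
        funext fun q => f0_cs q i
      show Continuous (fun q => (f0 q).2 (cs i))
      rw [h2]
      exact (continuous_apply i).comp (continuous_snd.comp continuous_subtype_val)
    · have h2 : (fun q => (f0 q).2 b) =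
          fun q : Bl Pt => mk1 (w1 b (hc q.1.1)) (w2 b (hc q.1.1)) :=
        funext fun q => f0_inf q hb
      show Continuous (fun q => (f0 q).2 b)
      rw [h2, ← continuousOn_univ]
      refine VCHM.mk1_contAt ((VCHM.w1_cont b).comp h1).continuousOn
        ((VCHM.w2_cont b).comp h1).continuousOn (fun q _ h => ?_)
      rw [w1_inf hb] at h
      exact one_ne_zero h.1

lemma g0_cont : ContinuousOn g0 {v : V | v.1.1.rep 0 ≠ 0} := by
  have c1 : Continuous fun v : V => v.1.1 := continuous_fst.comp continuous_subtype_val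
  have h1 := VCHM.contOn_div (n := 3) (fun v => v 1) (fun v => v 0)
    (continuous_apply 1) (continuous_apply 0) (fun a v => rfl) (fun a v => rfl)
  have h2 := VCHM.contOn_div (n := 3) (fun v => v 2) (fun v => v 0)
    (continuous_apply 2) (continuous_apply 0) (fun a v => rfl) (fun a v => rfl)
  have h3 : Continuous fun v : V => (fun i : Fin 8 => v.1.2 (cs i)) :=
    continuous_pi fun i => (continuous_apply (cs i)).comp
      (continuous_snd.comp continuous_subtype_val)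
  exact ((h1.comp c1.continuousOn (fun v hv => hv)).prodMk
    (h2.comp c1.continuousOn (fun v hv => hv))).prodMk h3.continuousOn

end THOM

open THOM in
theorem specHomeo : SpecHomeo := by
  refine ⟨{
    toFun := fun q => ⟨⟨f0 q.1, f0_mem q.1⟩, (mem_compl_iff _).2 ⟨f0_rep0 q.1, fun j h =>
      (mem_Xp_iff q.1).1 q.2 j ((f0_line q.1 j).1 h)⟩⟩
    invFun := fun v => ⟨⟨g0 v.1, g0_mem v.1 ((mem_compl_iff _).1 v.2).1⟩, (mem_Xp_iff _).2
      (fun j h => ((mem_compl_iff _).1 v.2).2 j (by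
        have h1 := (f0_line _ j).2 h
        have h2 : (⟨f0 ⟨g0 v.1, g0_mem v.1 ((mem_compl_iff _).1 v.2).1⟩, f0_mem _⟩ : V) = v.1 :=
          Subtype.ext (f0_g0 v.1 ((mem_compl_iff _).1 v.2).1)
        rw [h2] at h1
        exact h1))⟩
    left_inv := fun q => Subtype.ext (Subtype.ext (g0_f0 q.1))
    right_inv := fun v => Subtype.ext (Subtype.ext (f0_g0 v.1 ((mem_compl_iff _).1 v.2).1))
    continuous_toFun := Continuous.subtype_mk (Continuous.subtype_mk
      (f0_cont.comp continuous_subtype_val) _) _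
    continuous_invFun := Continuous.subtype_mk (Continuous.subtype_mk
      (g0_cont.comp_continuous continuous_subtype_val
        (fun v => ((mem_compl_iff _).1 v.2).1)) _) _ }⟩

end Pool.Agent.MP_8f595d_ag
end

section
/-!
# Module VGE: general lines
-/
set_option autoImplicit false

namespace Pool.Agent.MP_8f595d_ag

namespace VgeM

open VbaM

/-- lines through exactly one of the points -/
def GE : Fin 12 → Fin 3 → ℤ × ℤ :=
  ![![(-2, -4), (2, 0), (2, 0)], ![(2, 4), (2, 0), (2, 0)], ![(-4, 0), (2, 0), (2, 0)],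
    ![(-2, -2), (2, 0), (2, 0)], ![(0, 2), (2, 0), (2, 0)], ![(4, 0), (2, 0), (2, 0)],
    ![(2, 2), (2, 0), (2, 0)], ![(0, -2), (2, 0), (2, 0)], ![(2, 0), (0, 0), (4, 0)],
    ![(2, 0), (2, 0), (1, 0)], ![(2, 0), (2, 0), (0, 1)], ![(2, 0), (2, 0), (-1, -1)]]

/-- a line through none of the points -/
def HE : Fin 3 → ℤ × ℤ := ![(1, 0), (3, 0), (5, 0)]

/-- the form of a table -/
noncomputable def fm (t : Fin 3 → ℤ × ℤ) : Fin 3 → ℂ := fun j => ev (t j)

/-- the pairing -/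
def pairE (t : Fin 3 → ℤ × ℤ) (b : Fin 12) : ℤ × ℤ :=
  mulE (t 0) (B2 b 0) + mulE (t 1) (B2 b 1) + mulE (t 2) (B2 b 2)

lemma dot_fm (t : Fin 3 → ℤ × ℤ) (b : Fin 12) : 2 * dot (fm t) (bv b) = ev (pairE t b) := by
  unfold dot pairE fm
  rw [ev_add, ev_add, ev_mul, ev_mul, ev_mul, ← B2_eq, ← B2_eq, ← B2_eq]
  ring

lemma dot_fm_iff (t : Fin 3 → ℤ × ℤ) (b : Fin 12) : dot (fm t) (bv b) = 0 ↔ pairE t b = 0 := by
  rw [← ev_eq_zero, ← dot_fm]
  simp

lemma ne_of {l : Fin 3 → ℂ} {b : Fin 12} (h : dot l (bv b) ≠ 0) : l ≠ 0 := by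
  intro h0
  apply h
  rw [h0, dot_zero]

lemma indep {l l' z : Fin 3 → ℂ} (h1 : dot l z = 0) (h2 : dot l' z ≠ 0) (h3 : l ≠ 0) :
    LinearIndependent ℂ ![l, l'] := by
  rw [LinearIndependent.pair_iff]
  intro s t hst
  have h4 := dot_comb s t l l' z
  rw [hst, dot_zero, h1, mul_zero, zero_add] at h4
  have ht : t = 0 := by
    rcases mul_eq_zero.mp h4.symm with h | h
    · exact h
    · exact absurd h h2
  refine ⟨?_, ht⟩
  rw [ht, zero_smul, add_zero] at hst
  rcases smul_eq_zero.mp hst with h | h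
  · exact h
  · exact absurd h h3

lemma GE_iff : ∀ b b' : Fin 12, pairE (GE b) b' = 0 ↔ b = b' := by decide

lemma HE_ne : ∀ b : Fin 12, pairE HE b ≠ 0 := by decide

lemma ex_other : ∀ (i : Fin 9) (b : Fin 12), ∃ b', b' ∈ incl i ∧ b' ≠ b := by decide

lemma ex_ne : ∀ b : Fin 12, ∃ b', b ≠ b' := by decide

end VgeM

open VbaM VgeM in
theorem specGen : SpecGen := by
  have hH : ∀ b, dot (fm HE) (bv b) ≠ 0 := by
    intro b h
    exact HE_ne b ((dot_fm_iff _ _).mp h)
  have hG : ∀ b, dot (fm (GE b)) (bv b) = 0 := by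
    intro b
    exact (dot_fm_iff _ _).mpr ((GE_iff b b).mpr rfl)
  have hG' : ∀ b b', b ≠ b' → dot (fm (GE b)) (bv b') ≠ 0 := by
    intro b b' hbb h
    exact hbb ((GE_iff b b').mp ((dot_fm_iff _ _).mp h))
  have hGn : ∀ b, fm (GE b) ≠ 0 := by
    intro b
    obtain ⟨b', hb'⟩ := ex_ne b
    exact ne_of (hG' b b' hb')
  refine ⟨fm HE, fun b => fm (GE b), hH, hG, hG', ne_of (hH 0), hGn, ?_, ?_, ?_, ?_⟩
  · intro b
    exact indep (hG b) (hH b) (hGn b)
  · intro b b' hbb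
    exact indep (hG b) (hG' b' b hbb.symm) (hGn b)
  · intro i b
    obtain ⟨b', h1, h2⟩ := ex_other i b
    exact indep ((inc i b').mpr h1) (hG' b b' h2.symm) (ln_ne i)
  · intro i
    obtain ⟨b', h1, _⟩ := ex_other i 0
    exact indep ((inc i b').mpr h1) (hH b') (ln_ne i)

end Pool.Agent.MP_8f595d_ag
end

section
/-!
# Module VPO: plane curves of degree `18 k` with high multiplicities
-/
set_option autoImplicit false

namespace Pool.Agent.MP_8f595d_ag

namespace VpoM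

open MvPolynomial VbaM

/-! ### dimension counts -/

/-- index set of the monomials of degree `< m` in two variables -/
abbrev Tri (m : ℕ) : Type := (s : Fin m) × Fin ((s : ℕ) + 1)

lemma card_tri (m : ℕ) : 2 * Fintype.card (Tri m) = m * (m + 1) := by
  rw [Fintype.card_sigma]
  simp only [Fintype.card_fin]
  rw [Fin.sum_univ_eq_sum_range (fun i => i + 1) m]
  induction m with
  | zero => simp
  | succ n ih =>
    rw [Finset.sum_range_succ, mul_add, ih]
    ring

/-- exponents in three variables -/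
noncomputable def e3 (n : ℕ) (p : Tri (n + 1)) : Fin 3 →₀ ℕ :=
  Finsupp.single 0 (n - (p.1 : ℕ)) + Finsupp.single 1 ((p.1 : ℕ) - (p.2 : ℕ)) +
    Finsupp.single 2 (p.2 : ℕ)

lemma e3_inj (n : ℕ) : Function.Injective (e3 n) := by
  rintro ⟨s, j⟩ ⟨s', j'⟩ h
  have h0 := DFunLike.congr_fun h 0
  have h1 := DFunLike.congr_fun h 1
  have h2 := DFunLike.congr_fun h 2
  simp [e3] at h0 h1 h2
  have hs := s.2
  have hs' := s'.2
  have hj := j.2
  have hj' := j'.2
  have e1 : s = s' := by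
    apply Fin.ext
    omega
  subst e1
  have e2 : j = j' := Fin.ext h2
  subst e2
  rfl

/-- homogeneous polynomials of degree `n` from their coefficients -/
noncomputable def Phi (n : ℕ) : (Tri (n + 1) → ℂ) →ₗ[ℂ] MvPolynomial (Fin 3) ℂ where
  toFun c := ∑ p, c p • monomial (e3 n p) (1 : ℂ)
  map_add' c c' := by
    rw [← Finset.sum_add_distrib]
    refine Finset.sum_congr rfl fun p _ => ?_
    rw [Pi.add_apply, add_smul]
  map_smul' r c := by
    rw [RingHom.id_apply, Finset.smul_sum]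
    refine Finset.sum_congr rfl fun p _ => ?_
    rw [Pi.smul_apply, smul_eq_mul, mul_smul]

lemma coeff_Phi (n : ℕ) (c : Tri (n + 1) → ℂ) (p : Tri (n + 1)) : coeff (e3 n p) (Phi n c) = c p := by
  change coeff (e3 n p) (∑ q, c q • monomial (e3 n q) (1 : ℂ)) = c p
  rw [coeff_sum, Finset.sum_eq_single p]
  · simp
  · intro q _ hq
    rw [coeff_smul, coeff_monomial, if_neg (fun h => hq (e3_inj n h))]
    simp
  · intro h
    exact absurd (Finset.mem_univ p) h

lemma Phi_inj (n : ℕ) : Function.Injective (Phi n) := by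
  intro c c' h
  ext p
  rw [← coeff_Phi n c p, h, coeff_Phi]

lemma Phi_hom (n : ℕ) (c : Tri (n + 1) → ℂ) : (Phi n c).IsHomogeneous n := by
  change (∑ q, c q • monomial (e3 n q) (1 : ℂ)).IsHomogeneous n
  apply IsHomogeneous.sum
  intro p _
  rw [smul_monomial]
  apply isHomogeneous_monomial
  have hs := p.1.2
  have hj := p.2.2
  rw [e3, map_add, map_add, Finsupp.degree_single, Finsupp.degree_single, Finsupp.degree_single]
  omega

/-! ### substitution at a point -/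

/-- substitution of `b + X d₁ + Y d₂` -/
noncomputable def sb (b : Fin 12) : MvPolynomial (Fin 3) ℂ →ₐ[ℂ] MvPolynomial (Fin 2) ℂ :=
  aeval (fun i => C (bv b i) + C (d1 b i) * X 0 + C (d2 b i) * X 1)

lemma eval_sb (b : Fin 12) (u w : ℂ) (R : MvPolynomial (Fin 3) ℂ) :
    eval ![u, w] (sb b R) = eval (bv b + u • d1 b + w • d2 b) R := by
  have h : ((aeval ![u, w] : MvPolynomial (Fin 2) ℂ →ₐ[ℂ] ℂ).comp (sb b)) =
      aeval (bv b + u • d1 b + w • d2 b) := by
    apply MvPolynomial.algHom_ext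
    intro i
    simp [sb]
    ring
  have h2 := DFunLike.congr_fun h R
  simpa [MvPolynomial.aeval_eq_eval] using h2

/-- exponents in two variables -/
noncomputable def e2 (s j : ℕ) : Fin 2 →₀ ℕ := Finsupp.single 0 (s - j) + Finsupp.single 1 j

lemma e2_eq (t : Fin 2 →₀ ℕ) : t = e2 (t 0 + t 1) (t 1) := by
  ext i
  fin_cases i <;> simp [e2]

/-- divisibility by the power of `y₁`, first chart -/
lemma div0 {m : ℕ} {G : MvPolynomial (Fin 2) ℂ} (h : ∀ t : Fin 2 →₀ ℕ, t 0 + t 1 < m → coeff t G = 0) :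
    ∃ Q : ℂ × ℂ → ℂ, AnalyticOnNhd ℂ Q Set.univ ∧
      ∀ y : ℂ × ℂ, eval ![y.1, y.1 * y.2] G = y.1 ^ m * Q y := by
  refine ⟨fun y => ∑ t ∈ G.support, coeff t G * (y.1 ^ (t 0 + t 1 - m) * y.2 ^ (t 1)), ?_, ?_⟩
  · apply Finset.analyticOnNhd_fun_sum
    intro t _
    exact analyticOnNhd_const.mul ((analyticOnNhd_fst.pow _).mul (analyticOnNhd_snd.pow _))
  · intro y
    rw [eval_eq', Finset.mul_sum]
    refine Finset.sum_congr rfl fun t ht => ?_
    have htm : m ≤ t 0 + t 1 := by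
      by_contra hlt
      push Not at hlt
      exact (mem_support_iff.mp ht) (h t hlt)
    rw [Fin.prod_univ_two]
    simp only [Matrix.cons_val_zero, Matrix.cons_val_one]
    have e1 : y.1 ^ (t 0 + t 1) = y.1 ^ m * y.1 ^ (t 0 + t 1 - m) := by
      rw [← pow_add]
      congr 1
      omega
    calc coeff t G * (y.1 ^ (t 0) * (y.1 * y.2) ^ (t 1))
        = coeff t G * (y.1 ^ (t 0 + t 1) * y.2 ^ (t 1)) := by rw [mul_pow, pow_add]; ring
      _ = y.1 ^ m * (coeff t G * (y.1 ^ (t 0 + t 1 - m) * y.2 ^ (t 1))) := by rw [e1]; ring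

/-- divisibility by the power of `y₁`, second chart -/
lemma div1 {m : ℕ} {G : MvPolynomial (Fin 2) ℂ} (h : ∀ t : Fin 2 →₀ ℕ, t 0 + t 1 < m → coeff t G = 0) :
    ∃ Q : ℂ × ℂ → ℂ, AnalyticOnNhd ℂ Q Set.univ ∧
      ∀ y : ℂ × ℂ, eval ![y.1 * y.2, y.1] G = y.1 ^ m * Q y := by
  refine ⟨fun y => ∑ t ∈ G.support, coeff t G * (y.1 ^ (t 0 + t 1 - m) * y.2 ^ (t 0)), ?_, ?_⟩
  · apply Finset.analyticOnNhd_fun_sum
    intro t _
    exact analyticOnNhd_const.mul ((analyticOnNhd_fst.pow _).mul (analyticOnNhd_snd.pow _))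
  · intro y
    rw [eval_eq', Finset.mul_sum]
    refine Finset.sum_congr rfl fun t ht => ?_
    have htm : m ≤ t 0 + t 1 := by
      by_contra hlt
      push Not at hlt
      exact (mem_support_iff.mp ht) (h t hlt)
    rw [Fin.prod_univ_two]
    simp only [Matrix.cons_val_zero, Matrix.cons_val_one]
    have e1 : y.1 ^ (t 0 + t 1) = y.1 ^ m * y.1 ^ (t 0 + t 1 - m) := by
      rw [← pow_add]
      congr 1
      omega
    calc coeff t G * ((y.1 * y.2) ^ (t 0) * y.1 ^ (t 1))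
        = coeff t G * (y.1 ^ (t 0 + t 1) * y.2 ^ (t 0)) := by rw [mul_pow, pow_add]; ring
      _ = y.1 ^ m * (coeff t G * (y.1 ^ (t 0 + t 1 - m) * y.2 ^ (t 0))) := by rw [e1]; ring

/-- the multiplicities -/
def mu (k : ℕ) (b : Fin 12) : ℕ := if b < 8 then 3 * k else k

/-- the conditions -/
noncomputable def Psi (k : ℕ) : (Tri (10 * k + 1) → ℂ) →ₗ[ℂ] ((b : Fin 12) → (Tri (mu k b) → ℂ)) where
  toFun c b q := coeff (e2 q.1 q.2) (sb b (Phi (10 * k) c))
  map_add' c c' := by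
    ext b q
    simp [map_add]
  map_smul' r c := by
    ext b q
    simp [map_smul]

lemma ker_dim (k : ℕ) : 12 * k ^ 2 + k + 1 ≤ Module.finrank ℂ (LinearMap.ker (Psi k)) := by
  have h1 := LinearMap.finrank_range_add_finrank_ker (Psi k)
  have h2 : Module.finrank ℂ (LinearMap.range (Psi k)) ≤
      Module.finrank ℂ ((b : Fin 12) → (Tri (mu k b) → ℂ)) := Submodule.finrank_le _
  have h3 : Module.finrank ℂ ((b : Fin 12) → (Tri (mu k b) → ℂ)) =
      ∑ b : Fin 12, Fintype.card (Tri (mu k b)) := by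
    rw [Module.finrank_pi_fintype]
    refine Finset.sum_congr rfl fun b _ => ?_
    rw [Module.finrank_fintype_fun_eq_card]
  have h4 : Module.finrank ℂ (Tri (10 * k + 1) → ℂ) = Fintype.card (Tri (10 * k + 1)) :=
    Module.finrank_fintype_fun_eq_card ℂ
  have h5 := card_tri (10 * k + 1)
  have h6 : 2 * ∑ b : Fin 12, Fintype.card (Tri (mu k b)) = 76 * k ^ 2 + 28 * k := by
    rw [Finset.mul_sum]
    have : ∀ b : Fin 12, 2 * Fintype.card (Tri (mu k b)) = mu k b * (mu k b + 1) := fun b => card_tri _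
    rw [Finset.sum_congr rfl fun b _ => this b]
    simp only [Fin.sum_univ_succ, mu]
    simp
    ring
  nlinarith

/-! ### the product of the lines -/

/-- the linear polynomial -/
noncomputable def lin (l : Fin 3 → ℂ) : MvPolynomial (Fin 3) ℂ := ∑ j, C (l j) * X j

lemma eval_lin (l z : Fin 3 → ℂ) : eval z (lin l) = dot l z := by
  simp [lin, dot, Fin.sum_univ_three]

lemma lin_hom (l : Fin 3 → ℂ) : (lin l).IsHomogeneous 1 := by
  apply IsHomogeneous.sum
  intro j _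
  have := (isHomogeneous_C (Fin 3) (l j)).mul (isHomogeneous_X ℂ j)
  simpa using this

/-- the product of the lines `1, ..., 8` -/
noncomputable def prodL : MvPolynomial (Fin 3) ℂ := ∏ i : Fin 8, lin (ln i.succ)

lemma prodL_hom : prodL.IsHomogeneous 8 := by
  have := IsHomogeneous.prod Finset.univ (fun i : Fin 8 => lin (ln i.succ)) (fun _ => 1)
    (fun i _ => lin_hom _)
  unfold prodL
  simpa using this

lemma lin_ne (i : Fin 9) : lin (ln i) ≠ 0 := by
  obtain ⟨b, hb⟩ := ex_not i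
  intro h
  apply hb
  rw [← inc, ← eval_lin, h, map_zero]

lemma prodL_ne : prodL ≠ 0 := Finset.prod_ne_zero_iff.mpr fun _ _ => lin_ne _

/-- the second factor of the line in the chart -/
noncomputable def ge (l : Fin 3 → ℂ) (b : Fin 12) (ε : Fin 2) (y : ℂ × ℂ) : ℂ :=
  open Classical in
  if dot l (bv b) = 0 then dot l (d1 b) * mm ε y 0 + dot l (d2 b) * mm ε y 1 else dot l (zz b ε y)

lemma dot_zz (l : Fin 3 → ℂ) (b : Fin 12) (ε : Fin 2) (y : ℂ × ℂ) :
    dot l (zz b ε y) = dot l (bv b) + y.1 * (dot l (d1 b) * mm ε y 0 + dot l (d2 b) * mm ε y 1) := by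
  fin_cases ε
  · simp [zz, mm, dot]; ring
  · simp [zz, mm, dot]; ring

lemma an_dot (l : Fin 3 → ℂ) (b : Fin 12) (ε : Fin 2) :
    AnalyticOnNhd ℂ (fun y : ℂ × ℂ => dot l (d1 b) * mm ε y 0 + dot l (d2 b) * mm ε y 1) Set.univ := by
  have h0 : ∀ i, AnalyticOnNhd ℂ (fun y : ℂ × ℂ => mm ε y i) Set.univ := by
    intro i
    fin_cases ε <;> fin_cases i
    · simpa [mm] using (analyticOnNhd_const (v := (1 : ℂ)))
    · simpa [mm] using (analyticOnNhd_snd (𝕜 := ℂ) (E := ℂ) (F := ℂ))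
    · simpa [mm] using (analyticOnNhd_snd (𝕜 := ℂ) (E := ℂ) (F := ℂ))
    · simpa [mm] using (analyticOnNhd_const (v := (1 : ℂ)))
  exact (analyticOnNhd_const.mul (h0 0)).add (analyticOnNhd_const.mul (h0 1))

/-- one line -/
lemma one_line (i : Fin 9) (b : Fin 12) (ε : Fin 2) :
    ∃ Q : ℂ × ℂ → ℂ, AnalyticOnNhd ℂ Q Set.univ ∧ ∀ y : ℂ × ℂ,
      dot (ln i) (zz b ε y) = y.1 ^ (if b ∈ incl i then 1 else 0) * Q y := by
  by_cases h : b ∈ incl i
  · refine ⟨_, an_dot (ln i) b ε, fun y => ?_⟩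
    rw [dot_zz, (inc i b).mpr h, zero_add, if_pos h, pow_one]
  · refine ⟨_, (analyticOnNhd_const (v := dot (ln i) (bv b))).add
      (analyticOnNhd_fst.mul (an_dot (ln i) b ε)), fun y => ?_⟩
    rw [dot_zz, if_neg h, pow_zero, one_mul]
    rfl

lemma count_lt : ∀ b : Fin 12, ∑ i : Fin 8, (if b ∈ incl i.succ then 1 else 0) =
    if b < 8 then 3 else 2 := by decide

lemma lines (b : Fin 12) (ε : Fin 2) :
    ∃ Q : ℂ × ℂ → ℂ, AnalyticOnNhd ℂ Q Set.univ ∧ ∀ y : ℂ × ℂ,
      eval (zz b ε y) prodL = y.1 ^ (if b < 8 then 3 else 2) * Q y := by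
  choose Q hQ hQe using fun i : Fin 9 => one_line i b ε
  refine ⟨fun y => ∏ i : Fin 8, Q i.succ y, ?_, fun y => ?_⟩
  · apply Finset.analyticOnNhd_fun_prod
    intro i _
    exact hQ _
  · rw [prodL, map_prod, ← count_lt b, ← Finset.prod_pow_eq_pow_sum, ← Finset.prod_mul_distrib]
    refine Finset.prod_congr rfl fun i _ => ?_
    rw [eval_lin, hQe]

end VpoM

open MvPolynomial VbaM VpoM in
theorem specPoly : SpecPoly := by
  intro k
  have hinj : Function.Injective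
      ((LinearMap.mulLeft ℂ (prodL ^ k)).comp (Phi (10 * k))) := by
    rw [LinearMap.coe_comp]
    apply Function.Injective.comp _ (Phi_inj _)
    intro x y hxy
    exact mul_left_cancel₀ (pow_ne_zero k prodL_ne) hxy
  refine ⟨(LinearMap.ker (Psi k)).map ((LinearMap.mulLeft ℂ (prodL ^ k)).comp (Phi (10 * k))), ?_, ?_⟩
  · have h1 := (Submodule.equivMapOfInjective _ hinj (LinearMap.ker (Psi k))).finrank_eq
    rw [← h1]
    exact ker_dim k
  · intro P hP
    rw [Submodule.mem_map] at hP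
    obtain ⟨c, hc, hcP⟩ := hP
    have hP' : P = prodL ^ k * Phi (10 * k) c := by
      rw [← hcP]; rfl
    have hvan : ∀ b (t : Fin 2 →₀ ℕ), t 0 + t 1 < mu k b → coeff t (sb b (Phi (10 * k) c)) = 0 := by
      intro b t ht
      rw [LinearMap.mem_ker] at hc
      have h1 := congrFun (congrFun hc b) ⟨⟨t 0 + t 1, ht⟩, ⟨t 1, by simp⟩⟩
      rw [e2_eq t]
      exact h1
    constructor
    · rw [hP']
      have h1 := (prodL_hom.pow k).mul (Phi_hom (10 * k) c)
      have h2 : 8 * k + 10 * k = 18 * k := by ring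
      rw [h2] at h1
      exact h1
    · intro b ε
      obtain ⟨Q1, hQ1, hQe1⟩ := lines b ε
      have h2 : ∃ Q : ℂ × ℂ → ℂ, AnalyticOnNhd ℂ Q Set.univ ∧
          ∀ y : ℂ × ℂ, eval (zz b ε y) (Phi (10 * k) c) = y.1 ^ (mu k b) * Q y := by
        fin_cases ε
        · obtain ⟨Q, hQ, hQe⟩ := div0 (hvan b)
          refine ⟨Q, hQ, fun y => ?_⟩
          rw [← hQe y, eval_sb]
          simp [zz]
        · obtain ⟨Q, hQ, hQe⟩ := div1 (hvan b)
          refine ⟨Q, hQ, fun y => ?_⟩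
          rw [← hQe y, eval_sb]
          simp [zz]
      obtain ⟨Q2, hQ2, hQe2⟩ := h2
      refine ⟨fun y => Q1 y ^ k * Q2 y, (hQ1.pow k).mul hQ2, fun y => ?_⟩
      rw [hP', map_mul, map_pow, hQe1, hQe2, mul_pow, ← pow_mul]
      by_cases hb : b < 8
      · simp only [mu, if_pos hb]
        ring
      · simp only [mu, if_neg hb]
        ring

end Pool.Agent.MP_8f595d_ag
end

section
/-!
# Module VKO: log-general type
-/
set_option autoImplicit false

open scoped Topology LinearAlgebra.Projectivization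

namespace Pool.Agent.MP_8f595d_ag

namespace VkoM

open MvPolynomial VLOM VCAM

lemma eval_smul_hom {n : ℕ} {P : MvPolynomial (Fin 3) ℂ} (hP : P.IsHomogeneous n) (r : ℂ)
    (z : Fin 3 → ℂ) : eval (r • z) P = r ^ n * eval z P := by
  rw [eval_eq', eval_eq', Finset.mul_sum]
  refine Finset.sum_congr rfl fun d hd => ?_
  have h1 : d.degree = n := by
    by_contra hne
    exact (mem_support_iff.mp hd) (hP.coeff_eq_zero hne)
  have h2 : ∏ i, (r • z) i ^ d i = r ^ n * ∏ i, z i ^ d i := by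
    have h3 : n = ∑ i, d i := by
      rw [← h1, Finsupp.degree_eq_sum]
    rw [h3, ← Finset.prod_pow_eq_pow_sum, ← Finset.prod_mul_distrib]
    refine Finset.prod_congr rfl fun i _ => ?_
    rw [Pi.smul_apply, smul_eq_mul, mul_pow]
  rw [h2]
  ring

/-- the finite set of curves -/
noncomputable def TT (K : Charts) (h : SC K) (hn : ∀ i, ln i ≠ 0) : Finset (Curve K.atl) :=
  open Classical in
  (Finset.univ.image (fun i : Fin 9 => cL K h (ln i) (hn i))) ∪
    (Finset.univ.image (fun b => cE K h b))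

lemma off_iff (K : Charts) (h : SC K) (hn : ∀ i, ln i ≠ 0) (x : V) :
    (∀ C ∈ TT K h hn, x ∉ C.1) ↔ (∀ i, x ∉ Lt (ln i)) ∧ ∀ b, x ∉ Eb b := by
  classical
  constructor
  · intro hx
    constructor
    · intro i
      have : cL K h (ln i) (hn i) ∈ TT K h hn := by
        unfold TT
        exact Finset.mem_union_left _ (Finset.mem_image_of_mem _ (Finset.mem_univ i))
      exact hx _ this
    · intro b
      have : cE K h b ∈ TT K h hn := by
        unfold TT
        exact Finset.mem_union_right _ (Finset.mem_image_of_mem _ (Finset.mem_univ b))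
      exact hx _ this
  · rintro ⟨h1, h2⟩ C hC
    unfold TT at hC
    rcases Finset.mem_union.mp hC with hC | hC
    · obtain ⟨i, _, rfl⟩ := Finset.mem_image.mp hC
      exact h1 i
    · obtain ⟨b, _, rfl⟩ := Finset.mem_image.mp hC
      exact h2 b

/-- the coefficient of the form -/
noncomputable def fc (m : ℕ) (P : MvPolynomial (Fin 3) ℂ) (b : Fin 12) (ε : Fin 2)
    (y : ℂ × ℂ) : ℂ :=
  eval (zz b ε y) P * (Jz b ε y ^ m / (∏ i : Fin 9, dot (ln i) (zz b ε y)) ^ m)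

/-- the form -/
noncomputable def cform (K : Charts) (T : Finset (Curve K.atl)) (m : ℕ) :
    MvPolynomial (Fin 3) ℂ →ₗ[ℂ] (Cht V → V → ℂ) where
  toFun P e x := open Classical in
    if e ∈ K.atl ∧ x ∈ e.source ∧ ∀ C ∈ T, x ∉ C.1 then
      fc m P (idx K e).1 (idx K e).2 (e x) else 0
  map_add' P P' := by
    ext e x
    simp only [Pi.add_apply]
    split_ifs
    · simp only [fc, map_add]; ring
    · ring
  map_smul' r P := by
    ext e x
    simp only [Pi.smul_apply, RingHom.id_apply, smul_eq_mul]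
    split_ifs
    · simp only [fc, smul_eval]; ring
    · ring

lemma cform_pos (K : Charts) (T : Finset (Curve K.atl)) (m : ℕ) (P : MvPolynomial (Fin 3) ℂ)
    (e : Cht V) (x : V) (h : e ∈ K.atl ∧ x ∈ e.source ∧ ∀ C ∈ T, x ∉ C.1) :
    cform K T m P e x = fc m P (idx K e).1 (idx K e).2 (e x) := by
  classical
  exact if_pos h

lemma cform_neg (K : Charts) (T : Finset (Curve K.atl)) (m : ℕ) (P : MvPolynomial (Fin 3) ℂ)
    (e : Cht V) (x : V) (h : ¬ (e ∈ K.atl ∧ x ∈ e.source ∧ ∀ C ∈ T, x ∉ C.1)) :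
    cform K T m P e x = 0 := by
  classical
  exact if_neg h

lemma count9 : ∀ b : Fin 12, ∑ i : Fin 9, (if b ∈ incl i then 1 else 0) = 3 := by decide

/-- the product of the nine forms in a chart -/
lemma prod9 (hL : SpecLin) (hLoc : SpecLoc) (b : Fin 12) (ε : Fin 2) (y : ℂ × ℂ) :
    ∏ i : Fin 9, dot (ln i) (zz b ε y) = y.1 ^ 3 * ∏ i : Fin 9, eqL (ln i) b ε y := by
  rw [← count9 b, ← Finset.prod_pow_eq_pow_sum, ← Finset.prod_mul_distrib]
  refine Finset.prod_congr rfl fun i _ => ?_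
  rw [hLoc.1]
  congr 1
  have hinc := hL.2.2.2.2.2.2.2.1 i b
  by_cases hb : b ∈ incl i
  · rw [if_pos (hinc.mpr hb), if_pos hb, pow_one]
  · rw [if_neg (fun h => hb (hinc.mp h)), if_neg hb, pow_zero]

/-- the local equations of the components of `D` -/
noncomputable def FD (b : Fin 12) (ε : Fin 2) (i : Fin 13) (y : ℂ × ℂ) : ℂ :=
  if h : (i : ℕ) < 9 then eqL (ln ⟨i, h⟩) b ε y
  else if b = ⟨(i : ℕ) - 1, by omega⟩ then y.1 else 1

lemma FD_loc (hLoc : SpecLoc) (hn : ∀ i, ln i ≠ 0) (K : Charts) (b : Fin 12) (ε : Fin 2) (q : V)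
    (hq : q ∈ Src b ε) (i : Fin 13) : IsLocEq (Dset i) q (K.ch b ε) (FD b ε i) := by
  by_cases h : (i : ℕ) < 9
  · have e1 : Dset i = Lt (ln ⟨i, h⟩) := by unfold Dset; rw [dif_pos h]
    have e2 : FD b ε i = eqL (ln ⟨i, h⟩) b ε := by
      funext y; unfold FD; rw [dif_pos h]
    rw [e1, e2]
    exact (hLoc.2 K b ε q hq).2.2 _ (hn _)
  · have e1 : Dset i = Eb ⟨(i : ℕ) - 1, by omega⟩ := by unfold Dset; rw [dif_neg h]
    rw [e1]
    by_cases hb : b = ⟨(i : ℕ) - 1, by omega⟩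
    · have e2 : FD b ε i = fun y => y.1 := by
        funext y; unfold FD; rw [dif_neg h, if_pos hb]
      rw [e2, ← hb]
      exact (hLoc.2 K b ε q hq).1
    · have e2 : FD b ε i = fun _ => 1 := by
        funext y; unfold FD; rw [dif_neg h, if_neg hb]
      rw [e2]
      exact (hLoc.2 K b ε q hq).2.1 _ (fun h => hb h.symm)

lemma prodFD (b : Fin 12) (ε : Fin 2) (y : ℂ × ℂ) :
    ∏ i : Fin 13, FD b ε i y = (∏ i : Fin 9, eqL (ln i) b ε y) * (if b < 8 then 1 else y.1) := by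
  have h0 := Fin.prod_univ_add (a := 9) (b := 4) (fun i : Fin (9 + 4) => FD b ε i y)
  change ∏ i : Fin (9 + 4), FD b ε i y = _
  rw [h0]
  refine congrArg₂ (fun s t : ℂ => s * t) ?_ ?_
  · refine Finset.prod_congr rfl fun i _ => ?_
    unfold FD
    rw [dif_pos (by simp)]
    rfl
  · have h1 : ∀ j : Fin 4, FD b ε (Fin.natAdd 9 j) y =
        if b = ⟨8 + (j : ℕ), by omega⟩ then y.1 else 1 := by
      intro j
      unfold FD
      rw [dif_neg (by simp)]
      have h2 : (⟨((Fin.natAdd 9 j : Fin (9 + 4)) : ℕ) - 1, by omega⟩ : Fin 12) =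
          ⟨8 + (j : ℕ), by omega⟩ := by
        apply Fin.ext
        simp
      rw [h2]
    rw [Finset.prod_congr rfl fun j _ => h1 j, Fin.prod_univ_four]
    fin_cases b <;> simp

/-- nonzero linear forms give nonzero polynomials -/
lemma lin_ne_zero {l : Fin 3 → ℂ} (hl : l ≠ 0) : VpoM.lin l ≠ 0 := by
  intro h
  apply hl
  funext j
  have h1 : eval (Pi.single j 1) (VpoM.lin l) = 0 := by rw [h, map_zero]
  rw [VpoM.eval_lin] at h1
  fin_cases j <;> simpa [dot] using h1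

/-- `w₁` as a form -/
noncomputable def l1 (b : Fin 12) : Fin 3 → ℂ := if b < 8 then ![-bv b 1, 1, 0] else ![1, 0, 0]

lemma dot_l1 (b : Fin 12) (z : Fin 3 → ℂ) : dot (l1 b) z = w1 b z := by
  unfold l1 w1
  split_ifs
  · simp [dot]; ring
  · simp [dot]

lemma l1_ne (b : Fin 12) : l1 b ≠ 0 := by
  intro h
  unfold l1 at h
  split_ifs at h
  · have := congrFun h 1
    simp at this
  · have := congrFun h 0
    simp at this

/-- the auxiliary polynomial -/
noncomputable def RR : MvPolynomial (Fin 3) ℂ :=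
  (∏ b : Fin 12, VpoM.lin (l1 b)) * (∏ i : Fin 9, VpoM.lin (ln i)) * X 0

lemma RR_ne (hn : ∀ i, ln i ≠ 0) : RR ≠ 0 := by
  unfold RR
  refine mul_ne_zero (mul_ne_zero ?_ ?_) (X_ne_zero 0)
  · exact Finset.prod_ne_zero_iff.mpr fun b _ => lin_ne_zero (l1_ne b)
  · exact Finset.prod_ne_zero_iff.mpr fun i _ => lin_ne_zero (hn i)

/-- injectivity on homogeneous polynomials -/
lemma inj (hL : SpecLin) (K : Charts) (h : SC K) (hn : ∀ i, ln i ≠ 0) (m n : ℕ)
    (P : MvPolynomial (Fin 3) ℂ) (hP : P.IsHomogeneous n) (h0 : cform K (TT K h hn) m P = 0) :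
    P = 0 := by
  have key : P * RR = 0 := by
    apply MvPolynomial.funext
    intro z
    rw [map_mul, map_zero]
    by_cases hR : eval z RR = 0
    · rw [hR, mul_zero]
    · have hR' := hR
      unfold RR at hR'
      rw [map_mul, map_mul, map_prod, map_prod, eval_X] at hR'
      have hz0 : z 0 ≠ 0 := right_ne_zero_of_mul hR'
      have hw : ∀ b, w1 b z ≠ 0 := by
        intro b hb
        apply left_ne_zero_of_mul (left_ne_zero_of_mul hR')
        apply Finset.prod_eq_zero (Finset.mem_univ b)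
        rw [VpoM.eval_lin, dot_l1, hb]
      have hd : ∀ i, dot (ln i) z ≠ 0 := by
        intro i hi
        apply right_ne_zero_of_mul (left_ne_zero_of_mul hR')
        apply Finset.prod_eq_zero (Finset.mem_univ i)
        rw [VpoM.eval_lin, hi]
      have hw0 : w0 0 z ≠ 0 := by
        have : w0 0 z = z 0 := by simp [w0]
        rw [this]; exact hz0
      have hdec := hL.2.1 0 z
      set y : ℂ × ℂ := (w1 0 z / w0 0 z, w2 0 z / w1 0 z) with hy
      have hw10 := hw 0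
      have hzz : zz 0 0 y = (1 / w0 0 z) • z := by
        have e1 : y.1 * y.2 = w2 0 z / w0 0 z := by
          rw [hy]; field_simp
        have e2 : zz 0 0 y = bv 0 + y.1 • d1 0 + (y.1 * y.2) • d2 0 := by simp [zz]
        rw [one_div, eq_inv_smul_iff₀ hw0, e2, e1, smul_add, smul_add, smul_smul, smul_smul]
        have e3 : w0 0 z * y.1 = w1 0 z := by rw [hy]; exact mul_div_cancel₀ _ hw0
        rw [e3, mul_div_cancel₀ _ hw0]
        exact hdec.symm
      have hw1s : ∀ (b : Fin 12) (r : ℂ) (v : Fin 3 → ℂ), w1 b (r • v) = r * w1 b v := by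
        intro b r v
        have := (hL.2.2.1 b r 0 v 0).2.1
        simpa using this
      have hyT : y ∈ Tgt 0 0 := by
        intro b' _ hb'
        rw [hzz, hw1s] at hb'
        exact mul_ne_zero (one_div_ne_zero hw0) (hw b') hb'.1
      set e : Cht V := K.ch 0 0 with he
      have heA : e ∈ K.atl := ⟨(0, 0), rfl⟩
      have hyt : y ∈ e.target := by rw [he, K.target]; exact hyT
      set x : V := e.symm y with hx
      have hxs : x ∈ e.source := e.map_target hyt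
      have hex : e x = y := e.right_inv hyt
      have hxS : x ∈ Src 0 0 := by rw [← K.source, ← he]; exact hxs
      have hrep := rep_eq hL 0 0 x hxS
      rw [← K.coe 0 0 x hxS, ← he, hex, hzz, smul_smul] at hrep
      set r : ℂ := w0 0 x.1.1.rep * (1 / w0 0 z) with hr
      have hr0 : r ≠ 0 := mul_ne_zero hxS.1 (one_div_ne_zero hw0)
      -- off the curves
      have hoff : ∀ C ∈ TT K h hn, x ∉ C.1 := by
        rw [off_iff]
        constructor
        · intro i hi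
          have h1 : dot (ln i) x.1.1.rep = 0 := hi.1
          rw [hrep, dot_smul] at h1
          exact mul_ne_zero hr0 (hd i) h1
        · intro b hb
          have h1 : w1 b x.1.1.rep = 0 := hb.1
          rw [hrep, hw1s] at h1
          exact mul_ne_zero hr0 (hw b) h1
      have hc : cform K (TT K h hn) m P e x = 0 := by rw [h0]; rfl
      rw [cform_pos K _ m P e x ⟨heA, hxs, hoff⟩, hex] at hc
      have hi := idx_spec K e heA
      set b := (idx K e).1 with hb
      set ε := (idx K e).2 with hε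
      have hxS' : x ∈ Src b ε := by rw [← K.source, hi]; exact hxs
      have hrep' := rep_eq hL b ε x hxS'
      rw [← K.coe b ε x hxS', hi, hex, hrep] at hrep'
      have hwb : w0 b x.1.1.rep ≠ 0 := hxS'.1
      have hzb : zz b ε y = ((w0 b x.1.1.rep)⁻¹ * r) • z := by
        rw [mul_smul, hrep']
        have e3 : w0 b (r • z) = w0 b x.1.1.rep := by rw [hrep]
        rw [e3, smul_smul, inv_mul_cancel₀ hwb, one_smul]
      have hr' : (w0 b x.1.1.rep)⁻¹ * r ≠ 0 := mul_ne_zero (inv_ne_zero hwb) hr0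
      have hy1 : y.1 ≠ 0 := by
        rw [hy]; exact div_ne_zero hw10 hw0
      unfold fc at hc
      rcases mul_eq_zero.mp hc with hc | hc
      · rw [hzb, eval_smul_hom hP] at hc
        rcases mul_eq_zero.mp hc with hc | hc
        · exact absurd hc (pow_ne_zero _ hr')
        · rw [hc, zero_mul]
      · exfalso
        rcases div_eq_zero_iff.mp hc with hc | hc
        · rw [Jz_eq] at hc
          exact pow_ne_zero _ (mul_ne_zero (sgn_ne b ε) hy1) hc
        · apply pow_ne_zero _ _ hc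
          rw [Finset.prod_ne_zero_iff]
          intro i _
          rw [hzb, dot_smul]
          exact mul_ne_zero hr' (hd i)
  rcases mul_eq_zero.mp key with hk | hk
  · exact hk
  · exact absurd hk (RR_ne hn)

end VkoM

open VLOM VCAM VkoM MvPolynomial in
theorem specKod (hPoly : SpecPoly) (hT : SpecTrans) (hLoc : SpecLoc) (hC : SpecCover)
    (hL : SpecLin) : SpecKod := by
  classical
  intro K h hD
  have hn : ∀ i, ln i ≠ 0 := hL.2.2.2.2.2.2.2.2.1
  refine ⟨1, one_pos, fun M => ⟨3 * (M + 1), by omega, by omega, TT K h hn, ?_⟩⟩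
  set k : ℕ := M + 1 with hk
  obtain ⟨W, hWdim, hW⟩ := hPoly k
  set f := (cform K (TT K h hn) (3 * k)).domRestrict W with hf
  have hfinj : Function.Injective f := by
    rw [← LinearMap.ker_eq_bot, LinearMap.ker_eq_bot']
    intro P hP
    apply Subtype.ext
    exact inj hL K h hn (3 * k) (18 * k) P.1 (hW P.1 P.2).1 hP
  refine ⟨LinearMap.range f, ?_, ?_⟩
  · intro c hc
    obtain ⟨⟨P, hP⟩, hPc⟩ := hc
    obtain ⟨hhom, hmult⟩ := hW P hP
    have hcP : c = cform K (TT K h hn) (3 * k) P := hPc.symm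
    rw [hcP]
    refine ⟨?_, fun e x hex => cform_neg K _ _ P e x hex, ?_, ?_⟩
    · intro i
      unfold TT
      by_cases hi9 : (i : ℕ) < 9
      · have e1 : Dset i = Lt (ln ⟨i, hi9⟩) := by unfold Dset; rw [dif_pos hi9]
        have e2 : Dc K hD i = cL K h (ln ⟨i, hi9⟩) (hn _) := Subtype.ext e1
        rw [e2]
        exact Finset.mem_union_left _ (Finset.mem_image_of_mem _ (Finset.mem_univ _))
      · have e1 : Dset i = Eb ⟨(i : ℕ) - 1, by omega⟩ := by unfold Dset; rw [dif_neg hi9]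
        have e2 : Dc K hD i = cE K h ⟨(i : ℕ) - 1, by omega⟩ := Subtype.ext e1
        rw [e2]
        exact Finset.mem_union_right _ (Finset.mem_image_of_mem _ (Finset.mem_univ _))
    · intro e he e' he' x hx hoff
      obtain ⟨hx1, hx2⟩ := hx
      rw [cform_pos K _ _ P e x ⟨he, hx1, hoff⟩, cform_pos K _ _ P e' x ⟨he', hx2, hoff⟩]
      have hi := idx_spec K e he
      have hi' := idx_spec K e' he'
      set b := (idx K e).1 with hb
      set ε := (idx K e).2 with hε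
      set b' := (idx K e').1 with hb'
      set ε' := (idx K e').2 with hε'
      have hy : e x ∈ Tgt b ε := by
        rw [← K.target, hi]; exact e.map_source hx1
      have hsy : (K.ch b ε).symm (e x) = x := by
        rw [hi]; exact e.left_inv hx1
      have hx' : (K.ch b ε).symm (e x) ∈ Src b' ε' := by
        rw [hsy, ← K.source, hi']; exact hx2
      obtain ⟨-, g, hg, hz, hJ⟩ := hT b ε b' ε' K (e x) hy hx'
      rw [hsy, hi'] at hz
      rw [hsy, hi', hi] at hJ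
      unfold fc
      rw [hz, eval_smul_hom hhom]
      have h9 : ∏ i : Fin 9, dot (ln i) (g • zz b ε (e x)) =
          g ^ 9 * ∏ i : Fin 9, dot (ln i) (zz b ε (e x)) := by
        have : ∀ i : Fin 9, dot (ln i) (g • zz b ε (e x)) = g * dot (ln i) (zz b ε (e x)) :=
          fun i => dot_smul _ _ _
        rw [Finset.prod_congr rfl fun i _ => this i, Finset.prod_mul_distrib, Finset.prod_const,
          Finset.card_univ, Fintype.card_fin]
      rw [h9]
      set det := (fderiv ℂ (fun y => e' (e.symm y)) (e x)).det with hdet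
      have hJ' : Jz b' ε' (e' x) ^ (3 * k) * det ^ (3 * k) = g ^ (9 * k) * Jz b ε (e x) ^ (3 * k) := by
        rw [← mul_pow, hJ, mul_pow, ← pow_mul]
        congr 2
        ring
      set E := ∏ i : Fin 9, dot (ln i) (zz b ε (e x)) with hE
      have hg27 : (g ^ 9) ^ (3 * k) = g ^ (18 * k) * g ^ (9 * k) := by
        rw [← pow_mul, ← pow_add]; congr 1; ring
      calc eval (zz b ε (e x)) P * (Jz b ε (e x) ^ (3 * k) / E ^ (3 * k))
          = eval (zz b ε (e x)) P * ((g ^ (18 * k) * g ^ (9 * k)) * Jz b ε (e x) ^ (3 * k) /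
              ((g ^ (18 * k) * g ^ (9 * k)) * E ^ (3 * k))) := by
            rw [mul_div_mul_left _ _ (mul_ne_zero (pow_ne_zero _ hg) (pow_ne_zero _ hg))]
        _ = g ^ (18 * k) * eval (zz b ε (e x)) P * ((g ^ (9 * k) * Jz b ε (e x) ^ (3 * k)) /
              (g ^ 9 * E) ^ (3 * k)) := by
            rw [mul_pow, hg27]; ring
        _ = g ^ (18 * k) * eval (zz b ε (e x)) P * (Jz b' ε' (e' x) ^ (3 * k) /
              (g ^ 9 * E) ^ (3 * k)) * det ^ (3 * k) := by
            rw [← hJ']; ring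
    · intro q
      obtain ⟨b₀, ε₀, hq⟩ := hC q
      set e := K.ch b₀ ε₀ with he
      have heA : e ∈ K.atl := ⟨(b₀, ε₀), rfl⟩
      have hqe : q ∈ e.source := by rw [he, K.source]; exact hq
      have hi := idx_spec K e heA
      refine ⟨e, heA, hqe, ?_⟩
      set b := (idx K e).1 with hb
      set ε := (idx K e).2 with hε
      have hqs : q ∈ Src b ε := by rw [← K.source, hi]; exact hqe
      obtain ⟨Q, hQ, hQe⟩ := hmult b ε
      refine ⟨FD b ε, fun i => ?_, fun y => sgn b ε ^ (3 * k) * Q y, ?_, ?_⟩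
      · have := FD_loc hLoc hn K b ε q hqs i
        rw [hi] at this
        exact this
      · exact analyticAt_const.mul (hQ _ (Set.mem_univ _))
      · filter_upwards [src_nhds K b ε q hqs] with x hx hTx
        have hxe : x ∈ e.source := by rw [← hi, K.source]; exact hx
        rw [cform_pos K _ _ P e x ⟨heA, hxe, hTx⟩]
        rw [off_iff] at hTx
        have hex : e x = co b ε x := by
          rw [← K.coe b ε x hx, hi]
        have hy : (e x).1 ≠ 0 := by
          rw [hex]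
          intro h0
          exact hTx.2 b ((mem_Eb_iff b ε x hx).2 h0)
        have hE : ∀ i, eqL (ln i) b ε (e x) ≠ 0 := by
          intro i
          rw [hex]
          intro h0
          exact hTx.1 i ((mem_Lt_iff hL (ln i) b ε x hx).2 h0)
        set y := e x with hyd
        show fc (3 * k) P b ε y * _ = _
        rw [fc, prodFD, prod9 hL hLoc, hQe, Jz_eq]
        set E := ∏ i : Fin 9, eqL (ln i) b ε y with hEd
        have hE0 : E ≠ 0 := Finset.prod_ne_zero_iff.mpr fun i _ => hE i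
        have hs := sgn_ne b ε
        have hp9 : y.1 ^ (9 * k) ≠ 0 := pow_ne_zero _ hy
        have hEk : E ^ (3 * k) ≠ 0 := pow_ne_zero _ hE0
        by_cases hb8 : b < 8
        · rw [if_pos hb8, if_pos hb8, mul_one]
          have e1 : y.1 ^ (6 * k) * Q y * ((sgn b ε * y.1) ^ (3 * k) / (y.1 ^ 3 * E) ^ (3 * k)) *
              E ^ (3 * k) = sgn b ε ^ (3 * k) * Q y * (y.1 ^ (9 * k) * E ^ (3 * k)) /
              (y.1 ^ (9 * k) * E ^ (3 * k)) := by
            have e2 : (y.1 ^ 3 * E) ^ (3 * k) = y.1 ^ (9 * k) * E ^ (3 * k) := by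
              rw [mul_pow, ← pow_mul]; congr 2; ring
            have e3 : y.1 ^ (9 * k) = y.1 ^ (6 * k) * y.1 ^ (3 * k) := by
              rw [← pow_add]; congr 1; ring
            rw [e2]
            nth_rewrite 2 [e3]
            rw [mul_pow]
            ring
          rw [e1, mul_div_cancel_right₀ _ (mul_ne_zero hp9 hEk)]
        · rw [if_neg hb8, if_neg hb8]
          have e1 : y.1 ^ (3 * k) * Q y * ((sgn b ε * y.1) ^ (3 * k) / (y.1 ^ 3 * E) ^ (3 * k)) *
              (E * y.1) ^ (3 * k) = sgn b ε ^ (3 * k) * Q y * (y.1 ^ (9 * k) * E ^ (3 * k)) /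
              (y.1 ^ (9 * k) * E ^ (3 * k)) := by
            have e2 : (y.1 ^ 3 * E) ^ (3 * k) = y.1 ^ (9 * k) * E ^ (3 * k) := by
              rw [mul_pow, ← pow_mul]; congr 2; ring
            have e3 : y.1 ^ (9 * k) = y.1 ^ (3 * k) * y.1 ^ (3 * k) * y.1 ^ (3 * k) := by
              rw [← pow_add, ← pow_add]; congr 1; ring
            rw [e2]
            nth_rewrite 2 [e3]
            rw [mul_pow, mul_pow]
            ring
          rw [e1, mul_div_cancel_right₀ _ (mul_ne_zero hp9 hEk)]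
  · rw [LinearMap.finrank_range_of_inj hfinj]
    have h1 : ((12 * k ^ 2 + k + 1 : ℕ) : ℝ) ≤ (Module.finrank ℂ W : ℝ) := by exact_mod_cast hWdim
    push_cast at h1 ⊢
    nlinarith [sq_nonneg (k : ℝ), (Nat.cast_nonneg k : (0 : ℝ) ≤ k)]

end Pool.Agent.MP_8f595d_ag
end
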