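import Pool.Agent.Lib.MP_8f595d_ag.VTR

/-!
# Module VMA: `V` is a complex manifold
-/

set_option autoImplicit false

open scoped Topology LinearAlgebra.Projectivization Manifold ContDiff

namespace Pool.Agent.MP_8f595d_ag

theorem specMan (h : SpecTrans) : SpecMan := by
  intro K hc
  let _ := K.charted hc
  apply isManifold_of_contDiffOn
  rintro e e' ⟨⟨b, ε⟩, rfl⟩ ⟨⟨b', ε'⟩, rfl⟩
  intro y hy
  apply ContDiffAt.contDiffWithinAt
  have hs : y ∈ ((K.ch b ε).symm ≫ₕ K.ch b' ε').source := by
    simpa using hy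
  rw [OpenPartialHomeomorph.trans_source, OpenPartialHomeomorph.symm_source] at hs
  obtain ⟨hs1, hs2⟩ := hs
  rw [K.target] at hs1
  rw [Set.mem_preimage, K.source] at hs2
  have := (h b ε b' ε' K y hs1 hs2).1
  exact this.contDiffAt

end Pool.Agent.MP_8f595d_ag
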