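import Pool.Agent.Lib.MP_8f595d_ag.VDF

/-!
# Module VNU: intersection numbers
-/

set_option autoImplicit false

open scoped Topology LinearAlgebra.Projectivization

namespace Pool.Agent.MP_8f595d_ag

namespace VNUM

section gen

variable {V : Type} [TopologicalSpace V] {𝒜 : Set (Cht V)} {ι : Type} [Fintype ι]

lemma sum_support (γ : ι → Curve 𝒜) (β : ι → ℤ) (n : Curve 𝒜 → ℤ) :
    ∑ C ∈ (∑ i, Finsupp.single (γ i) (β i)).support,
      (∑ i, Finsupp.single (γ i) (β i)) C * n C = ∑ i, β i * n (γ i) := by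
  classical
  have h : ∀ s : Finset ι, (∑ i ∈ s, Finsupp.single (γ i) (β i)).sum (fun C m => m * n C) =
      ∑ i ∈ s, β i * n (γ i) := by
    intro s
    induction s using Finset.induction_on with
    | empty => simp
    | insert i s hi ih =>
      rw [Finset.sum_insert hi, Finset.sum_insert hi, Finsupp.sum_add_index', ih,
        Finsupp.sum_single_index]
      · simp
      · intro C; simp
      · intro C m m'; ring
  exact h Finset.univ

lemma curveDot_of (C : Curve 𝒜) (B : Div 𝒜) (γ : ι → Curve 𝒜) (β : ι → ℤ)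
    (hlin : LinEquiv 𝒜 B (∑ i, Finsupp.single (γ i) (β i)))
    (ht : ∀ i, ∀ q ∈ C.1 ∩ (γ i).1, TransvAt 𝒜 C.1 (γ i).1 q) :
    CurveDot 𝒜 C B (∑ i, β i * ((C.1 ∩ (γ i).1).ncard : ℤ)) := by
  refine ⟨∑ i, Finsupp.single (γ i) (β i), hlin, fun C' hC' => ?_, ?_⟩
  · obtain ⟨i, rfl⟩ := VDFM.sum_single_support γ β C' hC'
    exact ht i
  · exact (sum_support γ β (fun C' => ((C.1 ∩ C'.1).ncard : ℤ))).symm

end gen

lemma sum13 {M : Type} [AddCommGroup M] (f : Fin 13 → M) (L : Fin 9 → M) (E : Fin 12 → M)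
    (h1 : ∀ (i : Fin 13) (hi : (i : ℕ) < 9), f i = L ⟨i, hi⟩)
    (h2 : ∀ (i : Fin 13) (_ : ¬ (i : ℕ) < 9), f i = E ⟨(i : ℕ) - 1, by omega⟩) :
    ∑ i, f i = ∑ i, L i + ∑ b : Fin 12, (if b < 8 then (0 : ℤ) else 1) • E b := by
  have e1 : ∑ i : Fin 13, f i = ∑ i : Fin 9, f (Fin.castAdd 4 i) +
      ∑ j : Fin 4, f (Fin.natAdd 9 j) := Fin.sum_univ_add (a := 9) (b := 4) _
  have e2 : ∑ b : Fin 12, (if b < 8 then (0 : ℤ) else 1) • E b =
      ∑ i : Fin 8, (if (Fin.castAdd 4 i : Fin 12) < 8 then (0 : ℤ) else 1) •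
        E (Fin.castAdd 4 i) +
      ∑ j : Fin 4, (if (Fin.natAdd 8 j : Fin 12) < 8 then (0 : ℤ) else 1) •
        E (Fin.natAdd 8 j) :=
    Fin.sum_univ_add (a := 8) (b := 4) (fun b : Fin 12 => (if b < 8 then (0 : ℤ) else 1) • E b)
  rw [e1, e2]
  congr 1
  · refine Finset.sum_congr rfl fun i _ => ?_
    exact h1 (Fin.castAdd 4 i) i.2
  · have e3 : ∑ i : Fin 8, (if (Fin.castAdd 4 i : Fin 12) < 8 then (0 : ℤ) else 1) •
        E (Fin.castAdd 4 i) = 0 := by
      refine Finset.sum_eq_zero fun i _ => ?_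
      have : (Fin.castAdd 4 i : Fin 12) < 8 := by
        rw [Fin.lt_def]; exact i.2
      rw [if_pos this, zero_smul]
    rw [e3, zero_add]
    refine Finset.sum_congr rfl fun j _ => ?_
    have h3 : ¬ ((Fin.natAdd 9 j : Fin 13) : ℕ) < 9 := by
      simp
    have h4 : ¬ (Fin.natAdd 8 j : Fin 12) < 8 := by
      rw [Fin.lt_def]
      simp
    rw [h2 _ h3, if_neg h4, one_smul]
    congr 1
    apply Fin.ext
    simp

lemma count4 (i : Fin 9) : (1 * 1 + ∑ b : Fin 12, (if b ∈ incl i then (-1 : ℤ) else 0) *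
    if b ∈ incl i then 1 else 0) = -3 := by
  revert i
  decide

end VNUM

open VDFM VNUM in
theorem specNum (hL : SpecLin) (hLoc : SpecLoc) (hC : SpecCover) (hI : SpecIntE)
    (hT : SpecTransv) (hG : SpecGen) : SpecNum := by
  classical
  intro K h h0 hD
  obtain ⟨hh, g, hh1, hg1, hg2, hh2, hg3, hgh, hgg, hlg, hlh⟩ := hG
  have hln := hL.2.2.2.2.2.2.2.2.1
  have hll := hL.2.2.2.2.2.2.2.2.2
  have hinc := hL.2.2.2.2.2.2.2.1
  obtain ⟨hsym, hTE, hTL⟩ := hT
  have hI' := hI
  obtain ⟨hI1, hI2, hI3, hI4, -⟩ := hI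
  -- independence in the other order
  have hsw : ∀ u v : Fin 3 → ℂ, LinearIndependent ℂ ![u, v] → LinearIndependent ℂ ![v, u] := by
    intro u v huv
    rw [LinearIndependent.pair_iff] at huv ⊢
    intro s t hst
    have := huv t s (by rw [add_comm]; exact hst)
    exact ⟨this.2, this.1⟩
  -- the curves
  set L : Fin 9 → Div K.atl := fun i => Finsupp.single (cL K h (ln i) (hln i)) 1 with hLd
  set H : Div K.atl := Finsupp.single (cL K h hh hh2) 1 with hHd
  set G : Fin 12 → Div K.atl := fun b => Finsupp.single (cL K h (g b) (hg3 b)) 1 with hGd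
  set E : Fin 12 → Div K.atl := fun b => Finsupp.single (cE K h b) 1 with hEd
  have hsm : ∀ (C : Curve K.atl) (n : ℤ), Finsupp.single C n = n • Finsupp.single C (1 : ℤ) := by
    intro C n
    rw [Finsupp.smul_single, smul_eq_mul, mul_one]
  -- the divisor of a product
  have hdiv : ∀ (a9 : Fin 9 → ℤ) (ah : ℤ) (ag : Fin 12 → ℤ), ∑ i, a9 i + (ah + ∑ b, ag b) = 0 →
      ∃ f : V → ℂ, IsDivOf K.atl f ((∑ i, a9 i • L i + (ah • H + ∑ b, ag b • G b)) +
        ∑ b, ((∑ i, if b ∈ incl i then a9 i else 0) + ag b) • E b) := by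
    intro a9 ah ag hsum
    set l : Fin 9 ⊕ (Unit ⊕ Fin 12) → Fin 3 → ℂ := Sum.elim ln (Sum.elim (fun _ => hh) g)
      with hl
    have hl0 : ∀ j, l j ≠ 0 := by
      rintro (i | (u | b))
      · exact hln i
      · exact hh2
      · exact hg3 b
    have hli : ∀ i j, i ≠ j → LinearIndependent ℂ ![l i, l j] := by
      rintro (i | (u | b)) (j | (u' | b')) hij
      · exact hll i j (fun hc => hij (by rw [hc]))
      · exact hlh i
      · exact hlg i b'
      · exact hsw _ _ (hlh j)
      · exact absurd rfl hij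
      · exact hsw _ _ (hgh b')
      · exact hsw _ _ (hlg j b)
      · exact hgh b
      · exact hgg b b' (fun hc => hij (by rw [hc]))
    set a : Fin 9 ⊕ (Unit ⊕ Fin 12) → ℤ := Sum.elim a9 (Sum.elim (fun _ => ah) ag) with hadef
    have key := divF hL hLoc hC hI' K h l hl0 hli a (by
      rw [Fintype.sum_sum_type, Fintype.sum_sum_type]
      simpa [hadef] using hsum)
    refine ⟨fun q => ∏ j, (dot (l j) q.1.1.rep) ^ (a j), ?_⟩
    · convert key using 1
      rw [Fintype.sum_sum_type, Fintype.sum_sum_type]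
      congr 1
      · simp only [hl, hadef, Sum.elim_inl, Sum.elim_inr, Finset.univ_unique, Finset.sum_singleton,
          hLd, hHd, hGd, Finsupp.smul_single, smul_eq_mul, mul_one]
      · refine Finset.sum_congr rfl fun b _ => ?_
        rw [hsm (cE K h b)]
        congr 1
        rw [Finset.sum_filter, Fintype.sum_sum_type, Fintype.sum_sum_type]
        simp only [hl, hadef, Sum.elim_inl, Sum.elim_inr, Finset.univ_unique,
          Finset.sum_singleton, hinc, if_neg (hh1 b), zero_add]
        congr 1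
        rw [Finset.sum_eq_single b]
        · rw [if_pos (hg1 b)]
        · intro b' _ hb'
          rw [if_neg (hg2 b' b hb')]
        · intro hc; exact absurd (Finset.mem_univ b) hc
  -- intersection numbers with the curves of the family `H, G b`
  have nLH : ∀ i, (((cL K h (ln i) (hln i)).1 ∩ (cL K h hh hh2).1).ncard : ℤ) = 1 := by
    intro i
    have := (hI4 (ln i) hh (hlh i)).2 (fun b hb => hh1 b hb.2)
    exact_mod_cast this
  have nLE : ∀ i b, (((cL K h (ln i) (hln i)).1 ∩ (cE K h b).1).ncard : ℤ) =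
      if b ∈ incl i then 1 else 0 := by
    intro i b
    show ((Lt (ln i) ∩ Eb b).ncard : ℤ) = _
    rw [Set.inter_comm]
    split_ifs with hb
    · exact_mod_cast hI1 b (ln i) (hln i) ((hinc i b).2 hb)
    · rw [hI2 b (ln i) (fun hc => hb ((hinc i b).1 hc))]
      simp
  have nEH : ∀ b, (((cE K h b).1 ∩ (cL K h hh hh2).1).ncard : ℤ) = 0 := by
    intro b
    show ((Eb b ∩ Lt hh).ncard : ℤ) = _
    rw [hI2 b hh (hh1 b)]
    simp
  have nEG : ∀ b b', (((cE K h b).1 ∩ (cL K h (g b') (hg3 b')).1).ncard : ℤ) =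
      if b' = b then 1 else 0 := by
    intro b b'
    show ((Eb b ∩ Lt (g b')).ncard : ℤ) = _
    split_ifs with hb
    · subst hb
      exact_mod_cast hI1 b' (g b') (hg3 b') (hg1 b')
    · rw [hI2 b (g b') (hg2 b' b hb)]
      simp
  have nLG : ∀ b, (((cL K h (ln 0) (hln 0)).1 ∩ (cL K h (g b) (hg3 b)).1).ncard : ℤ) =
      if b < 8 then 1 else 0 := by
    intro b
    show ((Lt (ln 0) ∩ Lt (g b)).ncard : ℤ) = _
    have hb0 : b ∈ incl 0 ↔ ¬ (b < 8) := by revert b; decide
    split_ifs with hb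
    · have := (hI4 (ln 0) (g b) (hlg 0 b)).2 (fun b' hb' => by
        by_cases hbb : b = b'
        · subst hbb
          exact hb0.1 ((hinc 0 b).1 hb'.1) hb
        · exact hg2 b b' hbb hb'.2)
      exact_mod_cast this
    · rw [(hI4 (ln 0) (g b) (hlg 0 b)).1 ⟨b, (hinc 0 b).2 (hb0.2 hb), hg1 b⟩]
      simp
  -- the two families
  set γG : Unit ⊕ Fin 12 → Curve K.atl :=
    Sum.elim (fun _ => cL K h hh hh2) (fun b => cL K h (g b) (hg3 b)) with hγG
  set γE : Unit ⊕ Fin 12 → Curve K.atl :=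
    Sum.elim (fun _ => cL K h hh hh2) (fun b => cE K h b) with hγE
  have tLG : ∀ i, ∀ j, ∀ q ∈ (cL K h (ln i) (hln i)).1 ∩ (γG j).1,
      TransvAt K.atl (cL K h (ln i) (hln i)).1 (γG j).1 q := by
    rintro i (u | b) q hq
    · exact hTL K (ln i) hh (hlh i) q hq
    · exact hTL K (ln i) (g b) (hlg i b) q hq
  have tEG : ∀ b, ∀ j, ∀ q ∈ (cE K h b).1 ∩ (γG j).1,
      TransvAt K.atl (cE K h b).1 (γG j).1 q := by
    rintro b (u | b') q hq
    · exact hTE K b hh hh2 q hq
    · exact hTE K b (g b') (hg3 b') q hq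
  have tLE : ∀ i, ∀ j, ∀ q ∈ (cL K h (ln i) (hln i)).1 ∩ (γE j).1,
      TransvAt K.atl (cL K h (ln i) (hln i)).1 (γE j).1 q := by
    rintro i (u | b) q hq
    · exact hTL K (ln i) hh (hlh i) q hq
    · exact hsym K _ _ q (hTE K b (ln i) (hln i) q ⟨hq.2, hq.1⟩)
  -- the self-intersection numbers
  have sL : ∀ i, SelfInt K.atl (cL K h (ln i) (hln i)) (-3) := by
    intro i
    have hlin : LinEquiv K.atl (L i) (∑ j, Finsupp.single (γE j)
        (Sum.elim (fun _ => (1 : ℤ)) (fun b => if b ∈ incl i then (-1 : ℤ) else 0) j)) := by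
      obtain ⟨f, hf⟩ := hdiv (fun j => if j = i then 1 else 0) (-1) (fun _ => 0) (by
        simp)
      refine ⟨f, ?_⟩
      convert hf using 1
      rw [Fintype.sum_sum_type]
      simp only [hγE, Sum.elim_inl, Sum.elim_inr, Finset.univ_unique, Finset.sum_singleton]
      have e1 : ∑ j, (if j = i then (1 : ℤ) else 0) • L j = L i := by
        simp [ite_smul]
      have e2 : ∀ b, ((∑ j, if b ∈ incl j then (if j = i then (1 : ℤ) else 0) else 0) + 0) • E b =
          - Finsupp.single (cE K h b) (if b ∈ incl i then (-1 : ℤ) else 0) := by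
        intro b
        have : (∑ j, if b ∈ incl j then (if j = i then (1 : ℤ) else 0) else 0) =
            if b ∈ incl i then 1 else 0 := by
          rw [Finset.sum_eq_single i]
          · simp
          · intro j _ hj; simp [hj]
          · intro hc; exact absurd (Finset.mem_univ i) hc
        rw [this, add_zero, hEd]
        simp only
        rw [← hsm, ← Finsupp.single_neg]
        congr 1
        split_ifs <;> simp
      rw [e1, Finset.sum_congr rfl (fun b _ => e2 b), Finset.sum_neg_distrib]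
      simp only [zero_smul, Finset.sum_const_zero, add_zero, hHd]
      rw [neg_smul, one_smul]
      abel
    have := curveDot_of (cL K h (ln i) (hln i)) (L i) γE _ hlin (tLE i)
    have hval : (∑ j, Sum.elim (fun _ => (1 : ℤ)) (fun b => if b ∈ incl i then (-1 : ℤ) else 0) j *
        (((cL K h (ln i) (hln i)).1 ∩ (γE j).1).ncard : ℤ)) = -3 := by
      rw [Fintype.sum_sum_type]
      simp only [hγE, Sum.elim_inl, Sum.elim_inr, Finset.univ_unique, Finset.sum_singleton, nLH,
        nLE]
      exact count4 i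
    rw [hval] at this
    exact this
  have sE : ∀ b, SelfInt K.atl (cE K h b) (-1) := by
    intro b
    have hlin : LinEquiv K.atl (E b) (∑ j, Finsupp.single (γG j)
        (Sum.elim (fun _ => (1 : ℤ)) (fun b' => if b' = b then (-1 : ℤ) else 0) j)) := by
      obtain ⟨f, hf⟩ := hdiv (fun _ => 0) (-1) (fun b' => if b' = b then 1 else 0) (by
        simp)
      refine ⟨f, ?_⟩
      convert hf using 1
      rw [Fintype.sum_sum_type]
      simp only [hγG, Sum.elim_inl, Sum.elim_inr, Finset.univ_unique, Finset.sum_singleton]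
      have e1 : ∑ b', (if b' = b then (1 : ℤ) else 0) • G b' = G b := by
        simp [ite_smul]
      have e2 : ∑ b', ((∑ j : Fin 9, if b' ∈ incl j then (0 : ℤ) else 0) +
          (if b' = b then (1 : ℤ) else 0)) • E b' = E b := by
        simp [ite_smul]
      have e3 : ∑ b', Finsupp.single (cL K h (g b') (hg3 b')) (if b' = b then (-1 : ℤ) else 0) =
          - G b := by
        rw [Finset.sum_eq_single b]
        · simp [hGd]
        · intro b' _ hb'; simp [hb']
        · intro hc; exact absurd (Finset.mem_univ b) hc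
      rw [e1, e2, e3]
      simp only [zero_smul, Finset.sum_const_zero, zero_add, hHd]
      rw [neg_smul, one_smul]
      abel
    have := curveDot_of (cE K h b) (E b) γG _ hlin (tEG b)
    have hval : (∑ j, Sum.elim (fun _ => (1 : ℤ)) (fun b' => if b' = b then (-1 : ℤ) else 0) j *
        (((cE K h b).1 ∩ (γG j).1).ncard : ℤ)) = -1 := by
      rw [Fintype.sum_sum_type]
      simp only [hγG, Sum.elim_inl, Sum.elim_inr, Finset.univ_unique, Finset.sum_singleton, nEH,
        nEG]
      simp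
    rw [hval] at this
    exact this
  -- the components of the boundary
  have hD1 : ∀ (i : Fin 13) (hi : (i : ℕ) < 9), Dc K hD i = cL K h (ln ⟨i, hi⟩) (hln _) := by
    intro i hi
    apply Subtype.ext
    show Dset i = Lt (ln ⟨i, hi⟩)
    unfold Dset
    rw [dif_pos hi]
  have hD2 : ∀ (i : Fin 13) (hi : ¬ (i : ℕ) < 9), Dc K hD i = cE K h ⟨(i : ℕ) - 1, by omega⟩ := by
    intro i hi
    apply Subtype.ext
    show Dset i = Eb ⟨(i : ℕ) - 1, by omega⟩
    unfold Dset
    rw [dif_neg hi]
  refine ⟨fun i => ?_, ?_⟩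
  · by_cases hi : (i : ℕ) < 9
    · rw [if_pos hi, hD1 i hi]
      exact sL _
    · rw [if_neg hi, hD2 i hi]
      exact sE _
  -- the divisor `K0 + D`
  have hsumD : ∑ i, Finsupp.single (Dc K hD i) (1 : ℤ) =
      ∑ i, L i + ∑ b : Fin 12, (if b < 8 then (0 : ℤ) else 1) • E b := by
    refine sum13 _ L E (fun i hi => ?_) (fun i hi => ?_)
    · rw [hD1 i hi]
    · rw [hD2 i hi]
  set ag : Fin 12 → ℤ := fun b => if b < 8 then 2 else 1 with hag
  have hlin : LinEquiv K.atl (K0 K h h0 + ∑ i, Finsupp.single (Dc K hD i) 1)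
      (∑ j, Finsupp.single (γG j) (Sum.elim (fun _ => (-14 : ℤ)) ag j)) := by
    obtain ⟨f, hf⟩ := hdiv (fun i => if i = 0 then -2 else 1) 14 (fun b => - ag b) (by
      simp only [hag]; decide)
    refine ⟨f, ?_⟩
    convert hf using 1
    rw [Fintype.sum_sum_type, hsumD]
    simp only [hγG, Sum.elim_inl, Sum.elim_inr, Finset.univ_unique, Finset.sum_singleton]
    have e0 : K0 K h h0 = (-3 : ℤ) • L 0 +
        ∑ b : Fin 12, (if b < 8 then (1 : ℤ) else -2) • E b := by
      unfold K0
      rw [hsm]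
      congr 1
      refine Finset.sum_congr rfl fun b _ => ?_
      rw [hsm]
    have e1 : ∑ i, (if i = 0 then (-2 : ℤ) else 1) • L i = ∑ i, L i + (-3 : ℤ) • L 0 := by
      have : ∀ i, (if i = 0 then (-2 : ℤ) else 1) • L i =
          L i + (if i = 0 then (-3 : ℤ) • L i else 0) := by
        intro i
        split_ifs
        · module
        · simp
      rw [Finset.sum_congr rfl (fun i _ => this i), Finset.sum_add_distrib]
      simp
    have e2 : ∀ b : Fin 12, ((∑ i, if b ∈ incl i then (if i = 0 then (-2 : ℤ) else 1) else 0) +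
        - ag b) • E b = (if b < 8 then (1 : ℤ) else -2) • E b +
        (if b < 8 then (0 : ℤ) else 1) • E b := by
      intro b
      rw [← add_smul]
      congr 1
      simp only [hag]
      revert b
      decide
    have e3 : ∑ b, Finsupp.single (cL K h (g b) (hg3 b)) (ag b) = ∑ b, ag b • G b :=
      Finset.sum_congr rfl fun b _ => hsm _ _
    rw [e0, e1, Finset.sum_congr rfl (fun b _ => e2 b), Finset.sum_add_distrib, e3,
      hsm (cL K h hh hh2)]
    simp only [neg_smul, Finset.sum_neg_distrib, hHd]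
    abel
  refine ⟨fun C => ∑ j, Sum.elim (fun _ => (-14 : ℤ)) ag j *
    ((C.1 ∩ (γG j).1).ncard : ℤ), ?_, ?_⟩
  · intro C hC'
    refine curveDot_of C _ γG _ hlin ?_
    have hCC : C = cL K h (ln 0) (hln 0) ∨ ∃ b, C = cE K h b := by
      by_contra hcon
      push Not at hcon
      rw [Finsupp.mem_support_iff] at hC'
      apply hC'
      unfold K0
      rw [Finsupp.add_apply, Finsupp.finsetSum_apply, Finsupp.single_apply,
        if_neg (fun hc => hcon.1 hc.symm), zero_add]
      refine Finset.sum_eq_zero fun b _ => ?_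
      rw [Finsupp.single_apply, if_neg (fun hc => hcon.2 b hc.symm)]
    rcases hCC with rfl | ⟨b, rfl⟩
    · exact tLG 0
    · exact tEG b
  · have hK0 : K0 K h h0 = ∑ j, Finsupp.single
        (Sum.elim (fun _ => cL K h (ln 0) h0) (cE K h) j : Curve K.atl)
        (Sum.elim (fun _ : Unit => (-3 : ℤ)) (fun b : Fin 12 => if b < 8 then (1 : ℤ) else -2)
          j) := by
      rw [Fintype.sum_sum_type]
      simp [K0]
    rw [hK0, sum_support]
    rw [Fintype.sum_sum_type]
    simp only [hγG, Sum.elim_inl, Sum.elim_inr, Finset.univ_unique, Finset.sum_singleton,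
      Fintype.sum_sum_type]
    have n1 : (((cL K h (ln 0) h0).1 ∩ (cL K h hh hh2).1).ncard : ℤ) = 1 := nLH 0
    have n2 : ∀ b, (((cL K h (ln 0) h0).1 ∩ (cL K h (g b) (hg3 b)).1).ncard : ℤ) =
      if b < 8 then 1 else 0 := nLG
    simp only [n1, n2, nEH, nEG, hag]
    decide

end Pool.Agent.MP_8f595d_ag
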