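import Pool.Agent.Lib.MP_8f595d_ag.VSpec
import Pool.Agent.Lib.MP_8f595d_ag.TSpec
import Pool.Agent.Lib.MP_8f595d_ag.USpec
import Pool.Agent.Lib.MP_8f595d_ag.URA
import Pool.Agent.Lib.MP_8f595d_ag.UDE
import Pool.Agent.Lib.MP_8f595d_ag.ULF
import Pool.Agent.Lib.MP_8f595d_ag.ULI
import Pool.Agent.Lib.MP_8f595d_ag.UUN
import Pool.Agent.Lib.MP_8f595d_ag.URC
import Pool.Agent.Lib.MP_8f595d_ag.UCO
import Pool.Agent.Lib.MP_8f595d_ag.UNM
import Pool.Agent.Lib.MP_8f595d_ag.VKO
import Pool.Agent.Lib.MP_8f595d_ag.VTO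
import Pool.Agent.Lib.MP_8f595d_ag.VCH
import Pool.Agent.Lib.MP_8f595d_ag.VTR
import Pool.Agent.Lib.MP_8f595d_ag.VMA
import Pool.Agent.Lib.MP_8f595d_ag.VCN
import Pool.Agent.Lib.MP_8f595d_ag.VLO
import Pool.Agent.Lib.MP_8f595d_ag.VDF
import Pool.Agent.Lib.MP_8f595d_ag.VCA
import Pool.Agent.Lib.MP_8f595d_ag.VIN
import Pool.Agent.Lib.MP_8f595d_ag.VNU
import Pool.Agent.Lib.MP_8f595d_ag.VEM
import Pool.Agent.Lib.MP_8f595d_ag.TUB
import Pool.Agent.Lib.MP_8f595d_ag.TEX
import Pool.Agent.Lib.MP_8f595d_ag.TYH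
import Pool.Agent.Lib.MP_8f595d_ag.TWP
import Pool.Agent.Lib.MP_8f595d_ag.TPC
import Pool.Agent.Lib.MP_8f595d_ag.SH.HPA
import Pool.Agent.Lib.MP_8f595d_ag.SH.HSM
import Pool.Agent.Lib.MP_8f595d_ag.SH.HSH

section
section
/-!
# Module VCU: the curves are smooth curves
-/
set_option autoImplicit false

open scoped Topology LinearAlgebra.Projectivization

namespace Pool.Agent.MP_8f595d_ag

theorem specCurves (h1 : SpecLoc) (h2 : SpecConn) (h3 : SpecCover) : SpecCurves := by
  intro K
  refine ⟨fun b => ⟨(h2.2.1 b).1, (h2.2.1 b).2, fun q => ?_⟩,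
    fun l hl => ⟨(h2.2.2 l hl).1, (h2.2.2 l hl).2, fun q => ?_⟩⟩
  · obtain ⟨c, ε, hc⟩ := h3 q
    refine ⟨K.ch c ε, ⟨(c, ε), rfl⟩, by rw [K.source]; exact hc, ?_⟩
    obtain ⟨e1, e2, -⟩ := h1.2 K c ε q hc
    by_cases hbc : b = c
    · subst hbc
      exact ⟨_, e1⟩
    · exact ⟨_, e2 b hbc⟩
  · obtain ⟨c, ε, hc⟩ := h3 q
    refine ⟨K.ch c ε, ⟨(c, ε), rfl⟩, by rw [K.source]; exact hc, ?_⟩
    obtain ⟨-, -, e3⟩ := h1.2 K c ε q hc
    exact ⟨_, e3 l hl⟩

end Pool.Agent.MP_8f595d_ag
end

section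
/-!
# Simple normal crossings and minimality of the boundary
-/
set_option autoImplicit false

open scoped Topology LinearAlgebra.Projectivization

namespace Pool.Agent.MP_8f595d_ag

namespace VSNM

lemma Dset_lt (i : Fin 13) (h : (i : ℕ) < 9) : Dset i = Lt (ln ⟨i, h⟩) := by
  rw [Dset, dif_pos h]

lemma Dset_ge (i : Fin 13) (h : ¬ (i : ℕ) < 9) : Dset i = Eb ⟨(i : ℕ) - 1, by omega⟩ := by
  rw [Dset, dif_neg h]

lemma common (i j : Fin 9) (h : i ≠ j) : ∃ b, b ∈ incl i ∧ b ∈ incl j := by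
  revert i j
  decide

lemma three (b : Fin 12) (h : 8 ≤ (b : ℕ)) :
    3 ≤ (Finset.univ.filter (fun j : Fin 9 => b ∈ incl j)).card := by
  revert b
  decide

/-- The lines are pairwise disjoint in `V`. -/
lemma lines_disj (h1 : SpecLin) (h2 : SpecIntE) (i j : Fin 9) (hij : i ≠ j) :
    Lt (ln i) ∩ Lt (ln j) = ∅ := by
  obtain ⟨b, hb, hb'⟩ := common i j hij
  have hli := h1.2.2.2.2.2.2.2.2.2 i j hij
  refine (h2.2.2.2.1 _ _ hli).1 ⟨b, ?_, ?_⟩
  · exact (h1.2.2.2.2.2.2.2.1 i b).mpr hb
  · exact (h1.2.2.2.2.2.2.2.1 j b).mpr hb'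

lemma same_disj (h1 : SpecLin) (h2 : SpecIntE) (i j : Fin 13) (hij : i ≠ j)
    (h : (i : ℕ) < 9 ↔ (j : ℕ) < 9) : Dset i ∩ Dset j = ∅ := by
  by_cases hi : (i : ℕ) < 9
  · have hj := h.mp hi
    rw [Dset_lt i hi, Dset_lt j hj]
    refine lines_disj h1 h2 _ _ fun h0 => hij ?_
    have := congrArg Fin.val h0
    exact Fin.ext this
  · have hj : ¬ (j : ℕ) < 9 := fun h0 => hi (h.mpr h0)
    rw [Dset_ge i hi, Dset_ge j hj]
    refine h2.2.2.1 _ _ fun h0 => hij ?_
    have := congrArg Fin.val h0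
    simp only at this
    exact Fin.ext (by omega)

end VSNM

open VSNM in
theorem specSNC (h1 : SpecLin) (h2 : SpecIntE) (h3 : SpecTransv) (h4 : SpecNum) : SpecSNC := by
  intro K hSC hD
  have hln : ∀ i : Fin 9, ln i ≠ 0 := h1.2.2.2.2.2.2.2.2.1
  have hne : ∀ i j : Fin 13, i ≠ j → Dset i ≠ Dset j := by
    intro i j hij
    by_cases hi : (i : ℕ) < 9 <;> by_cases hj : (j : ℕ) < 9
    · rw [Dset_lt i hi, Dset_lt j hj]
      refine h2.2.2.2.2.2.2 _ _ (h1.2.2.2.2.2.2.2.2.2 _ _ fun h0 => hij ?_)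
      have := congrArg Fin.val h0
      exact Fin.ext this
    · rw [Dset_lt i hi, Dset_ge j hj]
      exact (h2.2.2.2.2.1 _ _).symm
    · rw [Dset_ge i hi, Dset_lt j hj]
      exact h2.2.2.2.2.1 _ _
    · rw [Dset_ge i hi, Dset_ge j hj]
      refine h2.2.2.2.2.2.1 _ _ fun h0 => hij ?_
      have := congrArg Fin.val h0
      simp only at this
      exact Fin.ext (by omega)
  refine ⟨⟨?_, ?_, ?_⟩, ?_⟩
  · intro i j hij
    by_contra h
    exact hne i j h (congrArg Subtype.val hij)
  · intro i j hij q hq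
    change q ∈ Dset i ∩ Dset j at hq
    change TransvAt K.atl (Dset i) (Dset j) q
    by_cases hs : (i : ℕ) < 9 ↔ (j : ℕ) < 9
    · rw [same_disj h1 h2 i j hij hs] at hq
      exact absurd hq (Set.notMem_empty q)
    · by_cases hi : (i : ℕ) < 9
      · have hj : ¬ (j : ℕ) < 9 := fun h0 => hs ⟨fun _ => h0, fun _ => hi⟩
        rw [Dset_lt i hi, Dset_ge j hj] at hq ⊢
        exact h3.1 K _ _ q (h3.2.1 K _ _ (hln _) q ⟨hq.2, hq.1⟩)
      · have hj : (j : ℕ) < 9 := by
          by_contra h0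
          exact hs ⟨fun h => absurd h hi, fun h => absurd h h0⟩
        rw [Dset_ge i hi, Dset_lt j hj] at hq ⊢
        exact h3.2.1 K _ _ (hln _) q hq
  · intro i j k hij hik hjk
    change Dset i ∩ Dset j ∩ Dset k = ∅
    rw [Set.eq_empty_iff_forall_notMem]
    rintro q ⟨⟨hqi, hqj⟩, hqk⟩
    have key : ∀ a b : Fin 13, a ≠ b → ((a : ℕ) < 9 ↔ (b : ℕ) < 9) → q ∈ Dset a → q ∈ Dset b →
        False := by
      intro a b hab h ha hb
      have := same_disj h1 h2 a b hab h
      exact Set.notMem_empty q (this ▸ ⟨ha, hb⟩)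
    by_cases hi : (i : ℕ) < 9 <;> by_cases hj : (j : ℕ) < 9 <;> by_cases hk : (k : ℕ) < 9
    · exact key i j hij ⟨fun _ => hj, fun _ => hi⟩ hqi hqj
    · exact key i j hij ⟨fun _ => hj, fun _ => hi⟩ hqi hqj
    · exact key i k hik ⟨fun _ => hk, fun _ => hi⟩ hqi hqk
    · exact key j k hjk ⟨fun h => absurd h hj, fun h => absurd h hk⟩ hqj hqk
    · exact key j k hjk ⟨fun _ => hk, fun _ => hj⟩ hqj hqk
    · exact key i k hik ⟨fun h => absurd h hi, fun h => absurd h hk⟩ hqi hqk
    · exact key i j hij ⟨fun h => absurd h hi, fun h => absurd h hj⟩ hqi hqj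
    · exact key i j hij ⟨fun h => absurd h hi, fun h => absurd h hj⟩ hqi hqj
  · intro i
    by_cases hi : (i : ℕ) < 9
    · left
      refine ⟨-3, ?_, by norm_num⟩
      have := (h4 K hSC (hln 0) hD).1 i
      rwa [if_pos hi] at this
    · right
      set b : Fin 12 := ⟨(i : ℕ) - 1, by omega⟩ with hb
      have hb8 : 8 ≤ (b : ℕ) := by
        rw [hb]
        simp only
        omega
      have h5 := three b hb8
      have hinj : Function.Injective (fun j : Fin 9 => (⟨(j : ℕ), by omega⟩ : Fin 13)) := by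
        intro j j' h
        have := congrArg Fin.val h
        exact Fin.ext this
      have h6 : ((Finset.univ.filter (fun j : Fin 9 => b ∈ incl j)).image
          (fun j : Fin 9 => (⟨(j : ℕ), by omega⟩ : Fin 13)) : Set (Fin 13)) ⊆
          {j | j ≠ i ∧ ((Dc K hD i).1 ∩ (Dc K hD j).1).Nonempty} := by
        intro j hj
        simp only [Finset.coe_image, Set.mem_image, Finset.mem_coe, Finset.mem_filter,
          Finset.mem_univ, true_and] at hj
        obtain ⟨j', hj', rfl⟩ := hj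
        refine ⟨fun h0 => ?_, ?_⟩
        · have := congrArg Fin.val h0
          simp only at this
          omega
        · change (Dset i ∩ Dset _).Nonempty
          rw [Dset_ge i hi, Dset_lt _ j'.2]
          have h7 := h2.1 b (ln j') (hln j') ((h1.2.2.2.2.2.2.2.1 j' b).mpr hj')
          rw [← Set.ncard_pos (Set.finite_of_ncard_ne_zero (by rw [h7]; exact one_ne_zero)), h7]
          exact one_pos
      calc 3 ≤ (Finset.univ.filter (fun j : Fin 9 => b ∈ incl j)).card := h5
        _ = ((Finset.univ.filter (fun j : Fin 9 => b ∈ incl j)).image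
          (fun j : Fin 9 => (⟨(j : ℕ), by omega⟩ : Fin 13))).card :=
            (Finset.card_image_of_injective _ hinj).symm
        _ = Set.ncard ((Finset.univ.filter (fun j : Fin 9 => b ∈ incl j)).image
          (fun j : Fin 9 => (⟨(j : ℕ), by omega⟩ : Fin 13)) : Set (Fin 13)) := by
            rw [Set.ncard_coe_finset]
        _ ≤ _ := Set.ncard_le_ncard h6 (Set.toFinite _)

end Pool.Agent.MP_8f595d_ag
end

section
/-!
# Transversality of the curves
-/
set_option autoImplicit false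

open scoped Topology LinearAlgebra.Projectivization

namespace Pool.Agent.MP_8f595d_ag

namespace VTVM

/-- Coefficients `(α, β)` of the affine function `t ↦ dot l d₁ mm₀ + dot l d₂ mm₁`. -/
noncomputable def al (l : Fin 3 → ℂ) (b : Fin 12) (ε : Fin 2) : ℂ :=
  if ε = 0 then dot l (d1 b) else dot l (d2 b)

noncomputable def be (l : Fin 3 → ℂ) (b : Fin 12) (ε : Fin 2) : ℂ :=
  if ε = 0 then dot l (d2 b) else dot l (d1 b)

lemma mm_eq (l : Fin 3 → ℂ) (b : Fin 12) (ε : Fin 2) (y : ℂ × ℂ) :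
    dot l (d1 b) * mm ε y 0 + dot l (d2 b) * mm ε y 1 = al l b ε + be l b ε * y.2 := by
  fin_cases ε
  · simp [mm, al, be]
  · simp [mm, al, be]; ring

lemma dot_add (l z z' : Fin 3 → ℂ) : dot l (z + z') = dot l z + dot l z' := by
  simp only [dot, Pi.add_apply]; ring

lemma dot_smul (l z : Fin 3 → ℂ) (a : ℂ) : dot l (a • z) = a * dot l z := by
  simp only [dot, Pi.smul_apply, smul_eq_mul]; ring

lemma dot_zz (l : Fin 3 → ℂ) (b : Fin 12) (ε : Fin 2) (y : ℂ × ℂ) :
    dot l (zz b ε y) = dot l (bv b) + y.1 * (al l b ε + be l b ε * y.2) := by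
  fin_cases ε
  · simp only [zz, al, be, Fin.zero_eta, if_true, dot_add, dot_smul]; ring
  · simp only [zz, al, be, Fin.mk_one, one_ne_zero, if_false, dot_add, dot_smul]; ring

lemma eqL_zero {l : Fin 3 → ℂ} {b : Fin 12} (h : dot l (bv b) = 0) (ε : Fin 2) :
    eqL l b ε = fun y => al l b ε + be l b ε * y.2 := by
  funext y
  rw [eqL, if_pos h, mm_eq]

lemma eqL_ne {l : Fin 3 → ℂ} {b : Fin 12} (h : dot l (bv b) ≠ 0) (ε : Fin 2) :
    eqL l b ε = fun y => dot l (bv b) + y.1 * (al l b ε + be l b ε * y.2) := by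
  funext y
  rw [eqL, if_neg h, dot_zz]

lemma fd_zero (α β : ℂ) (y v : ℂ × ℂ) :
    fderiv ℂ (fun y : ℂ × ℂ => α + β * y.2) y v = β * v.2 := by
  have h : HasFDerivAt (fun y : ℂ × ℂ => α + β * y.2) (β • ContinuousLinearMap.snd ℂ ℂ ℂ) y :=
    ((hasFDerivAt_snd).const_mul β).const_add α
  rw [h.fderiv]
  simp

lemma fd_zero_eq {β : ℂ} (hβ : β = 0) (α : ℂ) (y : ℂ × ℂ) :
    fderiv ℂ (fun y : ℂ × ℂ => α + β * y.2) y = 0 := by
  refine ContinuousLinearMap.ext fun v => ?_
  rw [fd_zero, hβ, zero_mul]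
  rfl

lemma fd_ne (c α β : ℂ) (y v : ℂ × ℂ) :
    fderiv ℂ (fun y : ℂ × ℂ => c + y.1 * (α + β * y.2)) y v =
      (α + β * y.2) * v.1 + y.1 * β * v.2 := by
  have h : HasFDerivAt (fun y : ℂ × ℂ => c + y.1 * (α + β * y.2))
      (y.1 • (β • ContinuousLinearMap.snd ℂ ℂ ℂ) +
        (α + β * y.2) • ContinuousLinearMap.fst ℂ ℂ ℂ) y :=
    ((hasFDerivAt_fst).mul (((hasFDerivAt_snd).const_mul β).const_add α)).const_add c
  rw [h.fderiv]
  simp
  ring

lemma fd_fst (y v : ℂ × ℂ) : fderiv ℂ (fun y : ℂ × ℂ => y.1) y v = v.1 := by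
  rw [(hasFDerivAt_fst).fderiv]
  rfl

/-- The coefficients `c₀, α, β` determine the linear form. -/
lemma li_coeff (h : SpecLin) {l l' : Fin 3 → ℂ} (hl : LinearIndependent ℂ ![l, l']) (b : Fin 12)
    (ε : Fin 2) (c c' : ℂ) (e0 : c * dot l (bv b) + c' * dot l' (bv b) = 0)
    (e1 : c * al l b ε + c' * al l' b ε = 0) (e2 : c * be l b ε + c' * be l' b ε = 0) :
    c = 0 ∧ c' = 0 := by
  have e1' : c * dot l (d1 b) + c' * dot l' (d1 b) = 0 := by
    fin_cases ε
    · simpa [al] using e1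
    · simpa [be] using e2
  have e2' : c * dot l (d2 b) + c' * dot l' (d2 b) = 0 := by
    fin_cases ε
    · simpa [be] using e2
    · simpa [al] using e1
  have key : ∀ z : Fin 3 → ℂ, c * dot l z + c' * dot l' z = 0 := by
    intro z
    have hz := h.2.1 b z
    rw [hz]
    simp only [dot_add, dot_smul]
    linear_combination (w0 b z) * e0 + (w1 b z) * e1' + (w2 b z) * e2'
  apply LinearIndependent.pair_iff.mp hl c c'
  funext i
  have := key (Pi.single i 1)
  fin_cases i <;> simpa [dot, Pi.single_apply] using this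

end VTVM

open VTVM in
theorem specTransv (h1 : SpecLoc) (h2 : SpecLin) (h3 : SpecCover) : SpecTransv := by
  refine ⟨?_, ?_, ?_⟩
  · rintro K C C' q ⟨e, he, hq, F, G, hF, hG, hli⟩
    refine ⟨e, he, hq, G, F, hG, hF, ?_⟩
    rw [LinearIndependent.pair_iff] at hli ⊢
    intro s t hst
    have := hli t s (by rw [add_comm]; exact hst)
    exact ⟨this.2, this.1⟩
  · rintro K b l hl q ⟨hqE, hqL⟩
    obtain ⟨b', ε, hq⟩ := h3 q
    have hb : b = b' := by
      by_contra hne
      exact hq.2.2 b hne hqE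
    subst hb
    obtain ⟨g1, -, g3⟩ := h1.2 K b ε q hq
    have hF := g1
    have hG := g3 l hl
    refine ⟨K.ch b ε, ⟨(b, ε), rfl⟩, by rw [K.source]; exact hq, _, _, hF, hG, ?_⟩
    have hy1 : (K.ch b ε q).1 = 0 := hF.2.1.self_of_nhds.mp hqE
    have hG0 : eqL l b ε (K.ch b ε q) = 0 := hG.2.1.self_of_nhds.mp hqL
    have hG1 := hG.2.2 hqL
    have h0 : dot l (bv b) = 0 := by
      by_contra hne
      rw [eqL_ne hne] at hG0
      simp only [hy1, zero_mul, add_zero] at hG0
      exact hne hG0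
    rw [LinearIndependent.pair_iff]
    intro s t hst
    have k1 := congrArg (fun L : ℂ × ℂ →L[ℂ] ℂ => L (1, 0)) hst
    simp only [add_apply, smul_apply, eqL_zero h0,
      fd_fst, fd_zero, smul_eq_mul, mul_zero, mul_one, add_zero, zero_apply] at k1
    refine ⟨k1, ?_⟩
    have k2 := congrArg (fun L : ℂ × ℂ →L[ℂ] ℂ => L (0, 1)) hst
    simp only [add_apply, smul_apply, eqL_zero h0,
      fd_fst, fd_zero, smul_eq_mul, mul_zero, mul_one, zero_add, zero_apply] at k2
    refine (mul_eq_zero.mp k2).resolve_right fun hbe => ?_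
    rw [eqL_zero h0] at hG1
    exact hG1 (fd_zero_eq hbe _ _)
  · rintro K l l' hll q ⟨hqL, hqL'⟩
    have hl : l ≠ 0 := by
      have := hll.ne_zero 0
      simpa using this
    have hl' : l' ≠ 0 := by
      have := hll.ne_zero 1
      simpa using this
    obtain ⟨b, ε, hq⟩ := h3 q
    obtain ⟨-, -, g3⟩ := h1.2 K b ε q hq
    have hF := g3 l hl
    have hG := g3 l' hl'
    refine ⟨K.ch b ε, ⟨(b, ε), rfl⟩, by rw [K.source]; exact hq, _, _, hF, hG, ?_⟩
    have hF0 : eqL l b ε (K.ch b ε q) = 0 := hF.2.1.self_of_nhds.mp hqL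
    have hG0 : eqL l' b ε (K.ch b ε q) = 0 := hG.2.1.self_of_nhds.mp hqL'
    have hF1 := hF.2.2 hqL
    have hG1 := hG.2.2 hqL'
    set y := K.ch b ε q with hy
    rw [LinearIndependent.pair_iff]
    intro s t hst
    have k1 := congrArg (fun L : ℂ × ℂ →L[ℂ] ℂ => L (1, 0)) hst
    have k2 := congrArg (fun L : ℂ × ℂ →L[ℂ] ℂ => L (0, 1)) hst
    simp only [add_apply, smul_apply, zero_apply, smul_eq_mul] at k1 k2
    by_cases c0 : dot l (bv b) = 0 <;> by_cases c0' : dot l' (bv b) = 0
    · -- both lines through `b`: impossible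
      exfalso
      rw [eqL_zero c0] at hF0 hF1
      rw [eqL_zero c0'] at hG0
      have h4 := li_coeff h2 hll b ε (be l' b ε) (-(be l b ε)) (by rw [c0, c0']; ring)
        (by linear_combination (be l' b ε) * hF0 - (be l b ε) * hG0) (by ring)
      exact hF1 (fd_zero_eq (neg_eq_zero.mp h4.2) _ _)
    · rw [eqL_zero c0] at hF1
      rw [eqL_ne c0'] at hG0
      rw [eqL_zero c0, eqL_ne c0', fd_zero, fd_ne] at k1 k2
      simp only [mul_zero, mul_one, add_zero, zero_add] at k1 k2
      have hM : al l' b ε + be l' b ε * y.2 ≠ 0 := by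
        intro h0
        apply c0'
        linear_combination hG0 - y.1 * h0
      have ht : t = 0 := (mul_eq_zero.mp k1).resolve_right hM
      rw [ht, zero_mul, add_zero] at k2
      refine ⟨(mul_eq_zero.mp k2).resolve_right ?_, ht⟩
      intro h0
      exact hF1 (fd_zero_eq h0 _ _)
    · rw [eqL_zero c0'] at hG1
      rw [eqL_ne c0] at hF0
      rw [eqL_zero c0', eqL_ne c0, fd_zero, fd_ne] at k1 k2
      simp only [mul_zero, mul_one, add_zero, zero_add] at k1 k2
      have hM : al l b ε + be l b ε * y.2 ≠ 0 := by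
        intro h0
        apply c0
        linear_combination hF0 - y.1 * h0
      have hs : s = 0 := (mul_eq_zero.mp k1).resolve_right hM
      rw [hs, zero_mul, zero_add] at k2
      refine ⟨hs, (mul_eq_zero.mp k2).resolve_right ?_⟩
      intro h0
      exact hG1 (fd_zero_eq h0 _ _)
    · rw [eqL_ne c0] at hF0
      rw [eqL_ne c0'] at hG0
      rw [eqL_ne c0, eqL_ne c0', fd_ne, fd_ne] at k1 k2
      simp only [mul_zero, mul_one, add_zero, zero_add] at k1 k2
      have hy1 : y.1 ≠ 0 := by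
        intro h0
        apply c0
        linear_combination hF0 - (al l b ε + be l b ε * y.2) * h0
      have m2 : s * be l b ε + t * be l' b ε = 0 := by
        have : y.1 * (s * be l b ε + t * be l' b ε) = 0 := by linear_combination k2
        exact (mul_eq_zero.mp this).resolve_left hy1
      have m1 : s * al l b ε + t * al l' b ε = 0 := by
        linear_combination k1 - y.2 * m2
      have m0 : s * dot l (bv b) + t * dot l' (bv b) = 0 := by
        linear_combination s * hF0 + t * hG0 - y.1 * k1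
      exact li_coeff h2 hll b ε s t m0 m1 m2

end Pool.Agent.MP_8f595d_ag
end
end

section
section
/-!
# Final assembly of the strong form
-/
set_option autoImplicit false

open scoped Topology LinearAlgebra.Projectivization Manifold ContDiff

namespace Pool.Agent.MP_8f595d_ag

theorem finalStrong (hCh : SpecCharts) (hc : SpecCover) (hM : SpecMan) (hT : SpecVTop)
    (hCn : SpecConn) (hCu : SpecCurves) (hNum : SpecNumU) (hSNC : SpecSNC) (hEmb : SpecEmb)
    (hKod : SpecKod) (hCan : SpecCanon) (hAc : SpecAcyc) (hLin : SpecLin) : MainTheorem := by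
  obtain ⟨K⟩ := hCh
  have h : SC K := hCu K
  have h9 : ∀ i : Fin 9, ln i ≠ 0 := hLin.2.2.2.2.2.2.2.2.1
  have h0 : ln 0 ≠ 0 := h9 0
  have hD : ∀ i, IsSmoothCurve K.atl (Dset i) := by
    intro i
    unfold Dset
    split_ifs with hi
    · exact h.2 _ (h9 _)
    · exact h.1 _
  have hmin : IsMinimal K.atl (Dc K hD) := by
    intro i hi
    rcases (hSNC K h hD).2 i with ⟨n, hn, hn1⟩ | h3
    · have e1 := ((hNum K h h0 hD).1 i (-1)).mp hi
      have e2 := ((hNum K h h0 hD).1 i n).mp hn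
      exact absurd (e2.trans e1.symm) hn1
    · exact h3
  refine ⟨V, inferInstance, K.charted hc, Dc K hD, hM K hc, hT.1, hT.2, hCn.1, hEmb K,
    (hSNC K h hD).1, hmin, hAc, hKod K h hD,
    ⟨K0 K h h0, hCan K h h0, (hNum K h h0 hD).2⟩,
    ⟨fun i => if (i : ℕ) < 9 then -3 else -1, (hNum K h h0 hD).1, by decide⟩⟩

end Pool.Agent.MP_8f595d_ag
end

section
/-!
# The main theorem
-/
set_option autoImplicit false

namespace Pool.Agent.SH

theorem mLC : SpecLC := specLC
theorem mReal : SpecReal := specReal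
theorem mSdT : SpecSdT := specSdT mLC
theorem mOps : SpecOps := specOps mLC mReal mSdT
theorem mPrism : SpecPrism := specPrism mLC mReal mSdT
theorem mDiam : SpecDiam := specDiam mReal
theorem mSmall : SpecSmall := specSmall mReal mOps mDiam
theorem mMV : SpecMV := specMV mOps mSmall
theorem mHtpy : SpecHtpy := specHtpy mPrism
theorem mZero : SpecZero := specZero
theorem mCirc : SpecCirc := specCirc mMV mHtpy
theorem mGYS : SpecGYS := specGYS mMV mHtpy mZero mCirc
theorem mShrink : SpecShrink := specShrink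
theorem mFam : SpecFam := specFam mGYS
theorem mProjTop : SpecProjTop := specProjTop
theorem mPants : SpecPants := specPants mFam mHtpy mCirc mProjTop
theorem mBridge : SpecBridge := specBridge

end Pool.Agent.SH

namespace Pool.Agent.MP_8f595d_ag

open Pool.Agent.SH (mShrink mFam mHtpy mProjTop mPants mBridge mZero)

theorem mLin : SpecLin := specLin
theorem mCover : SpecCover := specCover mLin
theorem mCharts : SpecCharts := specCharts mLin
theorem mVTop : SpecVTop := specVTop
theorem mTrans : SpecTrans := specTrans mLin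
theorem mMan : SpecMan := specMan mTrans
theorem mLoc : SpecLoc := specLoc mLin
theorem mIntE : SpecIntE := specIntE mLin
theorem mTransv : SpecTransv := specTransv mLoc mLin mCover
theorem mGen : SpecGen := specGen
theorem mDivF : SpecDivF := specDivF mLin mLoc mCover mIntE
theorem mCanon : SpecCanon := specCanon mLin mLoc mCover mTrans mIntE
theorem mNum : SpecNum := specNum mLin mLoc mCover mIntE mTransv mGen
theorem mSNC : SpecSNC := specSNC mLin mIntE mTransv mNum
theorem mEmb : SpecEmb := specEmb mLin mCover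
theorem mPoly : SpecPoly := specPoly
theorem mKod : SpecKod := specKod mPoly mTrans mLoc mCover mLin
theorem mConn : SpecConn := specConn mLin mIntE mGen
theorem mCurves : SpecCurves := specCurves mLoc mConn mCover
theorem mRatio : SpecRatio := specRatio
theorem mDense : SpecDense := specDense
theorem mQuot : SpecQuot := specQuot mRatio
theorem mLiou : SpecLiou := specLiou
theorem mUniq : SpecUniq := specUniq mRatio mDense mQuot mLiou
theorem mCompat : SpecCompat := specCompat mTrans
theorem mRat : SpecRat := specRat mLin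
theorem mNumU : SpecNumU := specNumU mNum mUniq mRat mCompat mVTop mLin
theorem mTub : SpecTub := specTub
theorem mTex : SpecTex := specTex
theorem mLines : SpecLines := specLines
theorem mW : SpecW := specW
theorem mY : SpecY := specY mTub mTex mLines mW mShrink mFam mHtpy
theorem mRel : SpecRel := specRel mTub mLines mShrink mHtpy mProjTop mPants
theorem mX : SpecX := specX mY mRel mLines mFam
theorem mHomeo : SpecHomeo := specHomeo
theorem mPC : SpecPC := specPC mLines
theorem mAcyc : SpecAcyc := specAcyc mX mHomeo mPC mBridge mHtpy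

/-- The main theorem. -/
theorem main : MainTheorem :=
  finalStrong mCharts mCover mMan mVTop mConn mCurves mNumU mSNC mEmb mKod mCanon mAcyc mLin

end Pool.Agent.MP_8f595d_ag
end
end
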