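import Mathlib

/-!
# Definitions for MP_8f595d_ag

Smooth projective complex surfaces with a reduced normal crossings divisor, in the analytic
language (by Chow's theorem and GAGA this is the algebraic notion).

A complex surface is a topological space `V` with a set `𝒜` of charts with values in `ℂ × ℂ`
(the atlas `atlas (ℂ × ℂ) V` of a complex manifold in the main theorem).
-/

set_option autoImplicit false

open scoped Topology LinearAlgebra.Projectivization Manifold ContDiff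

open CategoryTheory

namespace Pool.Agent.MP_8f595d_ag

/-- Charts with values in `ℂ²`. -/
abbrev Cht (V : Type) [TopologicalSpace V] : Type := OpenPartialHomeomorph V (ℂ × ℂ)

section

variable {V : Type} [TopologicalSpace V]

/-- `F` is a reduced local equation of the closed subset `C` at the point `q`, in the chart `e`:
near `q` the set `C` is the zero set of the holomorphic function `F ∘ e`, and the differential
of `F` does not vanish at the point if `q ∈ C`. -/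
def IsLocEq (C : Set V) (q : V) (e : Cht V) (F : ℂ × ℂ → ℂ) : Prop :=
  AnalyticAt ℂ F (e q) ∧ (∀ᶠ x in 𝓝 q, (x ∈ C ↔ F (e x) = 0)) ∧
    (q ∈ C → fderiv ℂ F (e q) ≠ 0)

/-- Smooth (connected, closed) complex curves in `V`. -/
def IsSmoothCurve (𝒜 : Set (Cht V)) (C : Set V) : Prop :=
  IsClosed C ∧ IsConnected C ∧ ∀ q : V, ∃ e ∈ 𝒜, q ∈ e.source ∧ ∃ F : ℂ × ℂ → ℂ, IsLocEq C q e F

/-- The type of smooth curves in `V`. -/
def Curve (𝒜 : Set (Cht V)) : Type := {C : Set V // IsSmoothCurve 𝒜 C}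

/-- Divisors (whose components are smooth curves). -/
abbrev Div (𝒜 : Set (Cht V)) : Type := Curve 𝒜 →₀ ℤ

/-- `f` is a meromorphic function on `V` with divisor `A`: off the curves of a finite set `T` the
function `f` is defined, and near each point `q` it is the product of a holomorphic function
without zeros and of the powers `F_C ^ A(C)` of local equations of the curves `C`. -/
def IsDivOf (𝒜 : Set (Cht V)) (f : V → ℂ) (A : Div 𝒜) : Prop :=
  ∃ T : Finset (Curve 𝒜), A.support ⊆ T ∧ ∀ q : V, ∃ e ∈ 𝒜, q ∈ e.source ∧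
    ∃ F : Curve 𝒜 → ℂ × ℂ → ℂ, (∀ C ∈ T, IsLocEq C.1 q e (F C)) ∧
      ∃ U : ℂ × ℂ → ℂ, AnalyticAt ℂ U (e q) ∧ U (e q) ≠ 0 ∧
        ∀ᶠ x in 𝓝 q, (∀ C ∈ T, x ∉ C.1) → f x = U (e x) * ∏ C ∈ T, (F C (e x)) ^ (A C)

/-- Linear equivalence of divisors. -/
def LinEquiv (𝒜 : Set (Cht V)) (A B : Div 𝒜) : Prop := ∃ f : V → ℂ, IsDivOf 𝒜 f (A - B)

/-- `c` is a meromorphic `2`-form on `V` (`c e` is the coefficient of the form in the chart `e`,
as a function on `V`) with divisor `A`. -/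
def IsFormDivisor (𝒜 : Set (Cht V)) (c : Cht V → V → ℂ) (A : Div 𝒜) : Prop :=
  ∃ T : Finset (Curve 𝒜), A.support ⊆ T ∧
    (∀ e ∈ 𝒜, ∀ e' ∈ 𝒜, ∀ x ∈ e.source ∩ e'.source, (∀ C ∈ T, x ∉ C.1) →
      c e x = c e' x * (fderiv ℂ (fun y => e' (e.symm y)) (e x)).det) ∧
    ∀ q : V, ∃ e ∈ 𝒜, q ∈ e.source ∧
      ∃ F : Curve 𝒜 → ℂ × ℂ → ℂ, (∀ C ∈ T, IsLocEq C.1 q e (F C)) ∧
        ∃ U : ℂ × ℂ → ℂ, AnalyticAt ℂ U (e q) ∧ U (e q) ≠ 0 ∧
          ∀ᶠ x in 𝓝 q, (∀ C ∈ T, x ∉ C.1) → c e x = U (e x) * ∏ C ∈ T, (F C (e x)) ^ (A C)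

/-- `A` is a canonical divisor: the divisor of a meromorphic `2`-form. -/
def IsCanonical (𝒜 : Set (Cht V)) (A : Div 𝒜) : Prop :=
  ∃ c : Cht V → V → ℂ, IsFormDivisor 𝒜 c A

/-- The curves `C` and `C'` meet transversally at `q`: they have local equations with independent
differentials. -/
def TransvAt (𝒜 : Set (Cht V)) (C C' : Set V) (q : V) : Prop :=
  ∃ e ∈ 𝒜, q ∈ e.source ∧ ∃ F G : ℂ × ℂ → ℂ, IsLocEq C q e F ∧ IsLocEq C' q e G ∧
    LinearIndependent ℂ ![fderiv ℂ F (e q), fderiv ℂ G (e q)]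

/-- `C · B = n`, that is `deg 𝒪(B)|_C = n`, for a smooth curve `C` and a divisor `B`: the divisor
`B` is linearly equivalent to a divisor `B'` all of whose components `C'` meet `C` transversally,
and `n` is the number of intersection points counted with the multiplicities `B'(C')`. -/
def CurveDot (𝒜 : Set (Cht V)) (C : Curve 𝒜) (B : Div 𝒜) (n : ℤ) : Prop :=
  ∃ B' : Div 𝒜, LinEquiv 𝒜 B B' ∧
    (∀ C' ∈ B'.support, ∀ q ∈ C.1 ∩ C'.1, TransvAt 𝒜 C.1 C'.1 q) ∧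
    n = ∑ C' ∈ B'.support, B' C' * ((C.1 ∩ C'.1).ncard : ℤ)

/-- The intersection number `A · B = n`: `A · B = ∑ A(C) (C · B)`. -/
def Dot (𝒜 : Set (Cht V)) (A B : Div 𝒜) (n : ℤ) : Prop :=
  ∃ d : Curve 𝒜 → ℤ, (∀ C ∈ A.support, CurveDot 𝒜 C B (d C)) ∧ n = ∑ C ∈ A.support, A C * d C

/-- The self-intersection number of a smooth curve. -/
def SelfInt (𝒜 : Set (Cht V)) (C : Curve 𝒜) (n : ℤ) : Prop :=
  CurveDot 𝒜 C (Finsupp.single C 1) n

/-- Simple normal crossings: smooth curves `D i`, any two of them transversal, no three of them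
through one point. -/
def IsSNC (𝒜 : Set (Cht V)) {r : ℕ} (D : Fin r → Curve 𝒜) : Prop :=
  Function.Injective D ∧
  (∀ i j, i ≠ j → ∀ q ∈ (D i).1 ∩ (D j).1, TransvAt 𝒜 (D i).1 (D j).1 q) ∧
  (∀ i j k, i ≠ j → i ≠ k → j ≠ k → (D i).1 ∩ (D j).1 ∩ (D k).1 = ∅)

/-- Minimality of the boundary `D`: each component of `D` with self-intersection number `-1`
meets at least three other components (so that the image of `D` under its contraction is not a
simple normal crossings divisor). -/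
def IsMinimal (𝒜 : Set (Cht V)) {r : ℕ} (D : Fin r → Curve 𝒜) : Prop :=
  ∀ i, SelfInt 𝒜 (D i) (-1) → 3 ≤ Set.ncard {j | j ≠ i ∧ ((D i).1 ∩ (D j).1).Nonempty}

/-- The open surface `X = V ∖ D`. -/
def opn {𝒜 : Set (Cht V)} {r : ℕ} (D : Fin r → Curve 𝒜) : Set V := (⋃ i, (D i).1)ᶜ

/-- `c` is a holomorphic section of `m (K_V + D)`, i.e. an `m`-fold holomorphic `2`-form on
`V ∖ D` with poles of order at most `m` along `D`.  It is given by its restriction to the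
complement of a finite set `T` of curves containing the components of `D` (and by `0`
elsewhere): `c e x` is the coefficient at `x` of the form in the chart `e`; the last condition
says that `c e` times the `m`-th power of a local equation of `D` extends holomorphically. -/
def IsLogForm (𝒜 : Set (Cht V)) {r : ℕ} (D : Fin r → Curve 𝒜) (m : ℕ) (T : Finset (Curve 𝒜))
    (c : Cht V → V → ℂ) : Prop :=
  (∀ i, D i ∈ T) ∧
  (∀ (e : Cht V) (x : V), ¬ (e ∈ 𝒜 ∧ x ∈ e.source ∧ ∀ C ∈ T, x ∉ C.1) → c e x = 0) ∧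
  (∀ e ∈ 𝒜, ∀ e' ∈ 𝒜, ∀ x ∈ e.source ∩ e'.source, (∀ C ∈ T, x ∉ C.1) →
    c e x = c e' x * (fderiv ℂ (fun y => e' (e.symm y)) (e x)).det ^ m) ∧
  (∀ q : V, ∃ e ∈ 𝒜, q ∈ e.source ∧ ∃ F : Fin r → ℂ × ℂ → ℂ,
    (∀ i, IsLocEq (D i).1 q e (F i)) ∧ ∃ G : ℂ × ℂ → ℂ, AnalyticAt ℂ G (e q) ∧
      ∀ᶠ x in 𝓝 q, (∀ C ∈ T, x ∉ C.1) → c e x * (∏ i, F i (e x)) ^ m = G (e x))

/-- `X = V ∖ D` has logarithmic Kodaira dimension `2`: there is `a > 0` such that
`h⁰(V, m (K_V + D)) ≥ a m²` for infinitely many `m`. -/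
def LogGeneralType (𝒜 : Set (Cht V)) {r : ℕ} (D : Fin r → Curve 𝒜) : Prop :=
  ∃ a : ℝ, 0 < a ∧ ∀ M : ℕ, ∃ m : ℕ, M ≤ m ∧ 0 < m ∧ ∃ T : Finset (Curve 𝒜),
    ∃ W : Submodule ℂ (Cht V → V → ℂ), (∀ c ∈ W, IsLogForm 𝒜 D m T c) ∧
      a * (m : ℝ) ^ 2 ≤ (Module.finrank ℂ W : ℝ)

/-- `V` embeds in a projective space: an injective map to a projective space, given locally by
holomorphic functions, whose differential is injective. -/
def IsProjectiveSurface (V : Type) [TopologicalSpace V] (𝒜 : Set (Cht V)) : Prop :=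
  ∃ (ι : Type) (_ : Fintype ι) (Φ : V → ℙ ℂ (ι → ℂ)), Function.Injective Φ ∧
    ∀ q : V, ∃ e ∈ 𝒜, q ∈ e.source ∧ ∃ s : ℂ × ℂ → ι → ℂ, AnalyticAt ℂ s (e q) ∧
      (∀ᶠ x in 𝓝 q, ∃ h : s (e x) ≠ 0, Φ x = Projectivization.mk ℂ (s (e x)) h) ∧
      ∀ v : ℂ × ℂ, v ≠ 0 → ∀ c : ℂ, fderiv ℂ s (e q) v ≠ c • s (e q)

end

/-- Rational acyclicity, with Mathlib's singular homology. -/
def IsQAcyclic (X : Type) [TopologicalSpace X] : Prop :=
  PathConnectedSpace X ∧ ∀ k : ℕ, 1 ≤ k →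
    Limits.IsZero (((AlgebraicTopology.singularHomologyFunctor (ModuleCat.{0} ℚ) k).obj
      (ModuleCat.of ℚ ℚ)).obj (TopCat.of X))

/-- The assertion: there is a smooth projective complex surface `V` with a minimal simple normal
crossings divisor `D` with `r = 13` components such that `X = V ∖ D` is `ℚ`-acyclic and of
log-general type, and a canonical divisor `K` such that `2` is the one and only number `n` with
`K · (K + D) = n`; moreover the self-intersection numbers `n i` of the components satisfy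
`10 - 3 r - ∑ n i = 2`. -/
def MainTheorem : Prop :=
  ∃ (V : Type) (_ : TopologicalSpace V) (_ : ChartedSpace (ℂ × ℂ) V)
    (D : Fin 13 → Curve (atlas (ℂ × ℂ) V)),
    IsManifold 𝓘(ℂ, ℂ × ℂ) ω V ∧ CompactSpace V ∧ T2Space V ∧ ConnectedSpace V ∧
    IsProjectiveSurface V (atlas (ℂ × ℂ) V) ∧
    IsSNC (atlas (ℂ × ℂ) V) D ∧ IsMinimal (atlas (ℂ × ℂ) V) D ∧
    IsQAcyclic ↥(opn D) ∧ LogGeneralType (atlas (ℂ × ℂ) V) D ∧
    (∃ K : Div (atlas (ℂ × ℂ) V), IsCanonical (atlas (ℂ × ℂ) V) K ∧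
      ∀ n : ℤ, Dot (atlas (ℂ × ℂ) V) K (K + ∑ i, Finsupp.single (D i) 1) n ↔ n = 2) ∧
    ∃ n : Fin 13 → ℤ, (∀ (i : Fin 13) (m : ℤ), SelfInt (atlas (ℂ × ℂ) V) (D i) m ↔ m = n i) ∧
      10 - 3 * 13 - ∑ i, n i = 2

end Pool.Agent.MP_8f595d_ag
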