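import Pool.Agent.Lib.MP_8f595d_ag.VDefs

/-!
# Blow-up of `ℂ²` at finitely many points, strict transforms of lines, tubes (stage 3)
-/

set_option autoImplicit false

open scoped Topology LinearAlgebra.Projectivization

open Pool.Agent.SH (pt1)

namespace Pool.Agent.MP_8f595d_ag

lemma mk1_eq (a c : ℂ) : a * (mk1 a c).rep 1 = c * (mk1 a c).rep 0 := by
  by_cases h : (![a, c] : Fin 2 → ℂ) ≠ 0
  · have h1 : mk1 a c = Projectivization.mk ℂ ![a, c] h := dif_pos h
    obtain ⟨u, hu⟩ := Projectivization.exists_smul_eq_mk_rep ℂ (![a, c] : Fin 2 → ℂ) h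
    rw [h1, ← hu]
    simp only [Pi.smul_apply, Matrix.cons_val_zero, Matrix.cons_val_one, Units.smul_def,
      smul_eq_mul]
    ring
  · rw [not_not] at h
    have ha : a = 0 := by simpa using congrFun h 0
    have hc : c = 0 := by simpa using congrFun h 1
    rw [ha, hc, zero_mul, zero_mul]

section

variable {n : ℕ}

/-- The blow-up of `ℂ²` at the points `P i`. -/
def Bset (P : Fin n → ℂ × ℂ) : Set ((ℂ × ℂ) × (Fin n → P1)) :=
  {q | ∀ i, (q.1.1 - (P i).1) * (q.2 i).rep 1 = (q.1.2 - (P i).2) * (q.2 i).rep 0}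

abbrev Bl (P : Fin n → ℂ × ℂ) : Type := ↥(Bset P)

/-- The strict transform of the line `y = α x + β`. -/
def Ls (P : Fin n → ℂ × ℂ) (l : ℂ × ℂ) : Set (Bl P) :=
  {q | q.1.1.2 = l.1 * q.1.1.1 + l.2 ∧ ∀ i, (P i).2 = l.1 * (P i).1 + l.2 → q.1.2 i = pt1 l.1}

/-- The exceptional curve over `P i`. -/
def Es (P : Fin n → ℂ × ℂ) (i : Fin n) : Set (Bl P) := {q | q.1.1 = P i}

/-- The exceptional curve over `P i` without the point of slope `0`. -/
def Eo (P : Fin n → ℂ × ℂ) (i : Fin n) : Set (Bl P) := {q | q.1.1 = P i ∧ q.1.2 i ≠ pt1 0}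

open Classical in
/-- The points on the line `y = α x + β`. -/
noncomputable def onl (P : Fin n → ℂ × ℂ) (l : ℂ × ℂ) : Finset (Fin n) :=
  Finset.univ.filter (fun i => (P i).2 = l.1 * (P i).1 + l.2)

/-- `∏ (x - x_i)` over the points on the line. -/
noncomputable def Qf (P : Fin n → ℂ × ℂ) (l : ℂ × ℂ) (x : ℂ) : ℂ := ∏ i ∈ onl P l, (x - (P i).1)

/-- `∏ (x - x_j)` over the points `j ≠ i` on the line. -/
noncomputable def Qi (P : Fin n → ℂ × ℂ) (l : ℂ × ℂ) (i : Fin n) (x : ℂ) : ℂ :=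
  ∏ j ∈ (onl P l).erase i, (x - (P j).1)

/-- The point `(x, α x + β + t Q(x))`. -/
noncomputable def lp (P : Fin n → ℂ × ℂ) (l : ℂ × ℂ) (p : ℂ × ℂ) : ℂ × ℂ :=
  (p.1, l.1 * p.1 + l.2 + p.2 * Qf P l p.1)

open Classical in
/-- The tube around the strict transform of a line: the slope at a point `P i` of the line is
`α + t Q_i(x)`. -/
noncomputable def lineMap (P : Fin n → ℂ × ℂ) (l : ℂ × ℂ) (p : ℂ × ℂ) : Bl P :=
  ⟨(lp P l p, fun i => if i ∈ onl P l then pt1 (l.1 + p.2 * Qi P l i p.1)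
      else mk1 ((lp P l p).1 - (P i).1) ((lp P l p).2 - (P i).2)), by
    intro i
    show ((lp P l p).1 - (P i).1) * (if i ∈ onl P l then pt1 (l.1 + p.2 * Qi P l i p.1)
      else mk1 ((lp P l p).1 - (P i).1) ((lp P l p).2 - (P i).2)).rep 1 =
      ((lp P l p).2 - (P i).2) * (if i ∈ onl P l then pt1 (l.1 + p.2 * Qi P l i p.1)
      else mk1 ((lp P l p).1 - (P i).1) ((lp P l p).2 - (P i).2)).rep 0
    by_cases hi : i ∈ onl P l
    · rw [if_pos hi]
      have h1 : pt1 (l.1 + p.2 * Qi P l i p.1) = mk1 1 (l.1 + p.2 * Qi P l i p.1) := by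
        rw [mk1, dif_pos]; rfl
      have h2 := mk1_eq 1 (l.1 + p.2 * Qi P l i p.1)
      rw [h1]
      have h3 : Qf P l p.1 = (p.1 - (P i).1) * Qi P l i p.1 := by
        rw [Qf, Qi, Finset.mul_prod_erase (onl P l) (fun j => p.1 - (P j).1) hi]
      have h4 : (P i).2 = l.1 * (P i).1 + l.2 := by
        rw [onl, Finset.mem_filter] at hi
        exact hi.2
      show (p.1 - (P i).1) * _ = (l.1 * p.1 + l.2 + p.2 * Qf P l p.1 - (P i).2) * _
      rw [h3, h4]
      linear_combination (p.1 - (P i).1) * h2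
    · rw [if_neg hi]
      exact mk1_eq _ _⟩

/-- The domain of `lineMap`. -/
def OmL (P : Fin n → ℂ × ℂ) (l : ℂ × ℂ) : Set (ℂ × ℂ) := {p | ∀ i ∉ onl P l, lp P l p ≠ P i}

/-- The point `P i + (v μ, v)`; `p = (μ, v)`. -/
noncomputable def ep (P : Fin n → ℂ × ℂ) (i : Fin n) (p : ℂ × ℂ) : ℂ × ℂ :=
  ((P i).1 + p.2 * p.1, (P i).2 + p.2)

open Classical in
/-- The tube around `Eo P i`: `p = (μ, v)` goes to `(x, y) = P i + (v μ, v)` with slope
`[μ : 1]` at `P i`. -/
noncomputable def excMap (P : Fin n → ℂ × ℂ) (i : Fin n) (p : ℂ × ℂ) : Bl P :=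
  ⟨(ep P i p, fun j => if j = i then mk1 p.1 1
      else mk1 ((ep P i p).1 - (P j).1) ((ep P i p).2 - (P j).2)), by
    intro j
    show ((ep P i p).1 - (P j).1) * (if j = i then mk1 p.1 1
      else mk1 ((ep P i p).1 - (P j).1) ((ep P i p).2 - (P j).2)).rep 1 =
      ((ep P i p).2 - (P j).2) * (if j = i then mk1 p.1 1
      else mk1 ((ep P i p).1 - (P j).1) ((ep P i p).2 - (P j).2)).rep 0
    by_cases hj : j = i
    · subst hj
      rw [if_pos rfl]
      have h2 := mk1_eq p.1 1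
      show ((P j).1 + p.2 * p.1 - (P j).1) * _ = ((P j).2 + p.2 - (P j).2) * _
      linear_combination p.2 * h2
    · rw [if_neg hj]
      exact mk1_eq _ _⟩

/-- The domain of `excMap`. -/
def OmE (P : Fin n → ℂ × ℂ) (i : Fin n) : Set (ℂ × ℂ) := {p | ∀ j, j ≠ i → ep P i p ≠ P j}

end

/-- The eight affine triple points. -/
noncomputable def Pt : Fin 8 → ℂ × ℂ :=
  ![(0, th), (0, -th), (1, 1), (om, 1), (om ^ 2, 1), (-1, -1), (-om, -1), (-om ^ 2, -1)]

/-- The eight affine lines `y = α x + β`: the lines `ln 1, …, ln 8`. -/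
noncomputable def la : Fin 8 → ℂ × ℂ :=
  ![(0, 1), (0, -1), (-2, th), (-2 * om ^ 2, th), (-2 * om, th),
    (-2, -th), (-2 * om ^ 2, -th), (-2 * om, -th)]

/-- The points on the eight lines. -/
def inl : Fin 8 → Finset (Fin 8) :=
  ![{2, 3, 4}, {5, 6, 7}, {0, 3, 7}, {0, 4, 5}, {0, 2, 6}, {1, 4, 6}, {1, 2, 7}, {1, 3, 5}]

/-- The four horizontal lines through the eight points. -/
noncomputable def lf : Fin 4 → ℂ × ℂ := ![(0, th), (0, -th), (0, 1), (0, -1)]

/-- The complement of the four horizontal lines. -/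
def Yp : Set (Bl Pt) := Set.univ \ ⋃ j : Fin 4, Ls Pt (lf j)

/-- Four of the exceptional curves. -/
def ix : Fin 4 → Fin 8 := ![3, 4, 6, 7]

/-- The complement in `Yp` of four exceptional curves (this is homeomorphic to `ℂ²`). -/
def Wp : Set (Bl Pt) := Yp \ ⋃ j : Fin 4, Eo Pt (ix j)

/-- The complement of the eight lines. -/
def Xp : Set (Bl Pt) := Set.univ \ ⋃ j : Fin 8, Ls Pt (la j)

end Pool.Agent.MP_8f595d_ag
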