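import Pool.Agent.Lib.MP_8f595d_ag.TSpec
import Pool.Agent.Lib.MP_8f595d_ag.VCH

/-!
# Modules TUB, TEX: helper lemmas
-/

set_option autoImplicit false

open scoped Topology LinearAlgebra.Projectivization

open Pool.Agent.SH (pt1 PTube H)

open Pool.Agent.SH.HptM

namespace Pool.Agent.MP_8f595d_ag

namespace TubM

/-- Open embeddings from local right inverses. -/
lemma openEmb {X Y : Type} [TopologicalSpace X] [TopologicalSpace Y] (Ω : Set X) (φ : X → Y)
    (hΩ : IsOpen Ω) (hc : ContinuousOn φ Ω) (hi : Set.InjOn φ Ω)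
    (hg : ∀ p ∈ Ω, ∃ g : Y → X, ContinuousAt g (φ p) ∧ g (φ p) = p ∧
      ∀ᶠ q in 𝓝 (φ p), φ (g q) = q) : Topology.IsOpenEmbedding (Ω.domRestrict φ) := by
  apply Topology.IsOpenEmbedding.of_continuous_injective_isOpenMap
  · exact continuousOn_iff_continuous_domRestrict.mp hc
  · intro a b hab
    exact Subtype.ext (hi a.2 b.2 hab)
  · have h1 : ∀ p ∈ Ω, 𝓝 (φ p) ≤ Filter.map φ (𝓝 p) := by
      intro p hp
      obtain ⟨g, g1, g2, g3⟩ := hg p hp
      have h2 : Filter.map φ (Filter.map g (𝓝 (φ p))) ≤ Filter.map φ (𝓝 p) := by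
        apply Filter.map_mono
        have := g1
        unfold ContinuousAt at this
        rw [g2] at this
        exact this
      refine le_trans ?_ h2
      rw [Filter.map_map]
      have h3 : Filter.map (φ ∘ g) (𝓝 (φ p)) = Filter.map id (𝓝 (φ p)) :=
        Filter.map_congr g3
      rw [h3, Filter.map_id]
    intro U hU
    rw [isOpen_iff_mem_nhds]
    rintro _ ⟨p, hp, rfl⟩
    have h2 := h1 p.1 p.2
    apply h2
    rw [Filter.mem_map]
    have h3 : Subtype.val '' U ∈ 𝓝 (p : X) := by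
      have := hΩ.isOpenMap_subtype_val U hU
      exact this.mem_nhds ⟨p, hp, rfl⟩
    filter_upwards [h3] with x hx
    obtain ⟨u, hu, rfl⟩ := hx
    exact ⟨u, hu, rfl⟩

lemma pt1_eq_mk1 (a : ℂ) : pt1 a = mk1 1 a := by
  rw [mk1, dif_pos]; rfl

lemma pt1_inj {a c : ℂ} (h : pt1 a = pt1 c) : a = c := by
  rw [pt1, pt1, Projectivization.mk_eq_mk_iff'] at h
  obtain ⟨u, hu⟩ := h
  have h0 := congrFun hu 0
  have h1 := congrFun hu 1
  simp at h0 h1
  rw [h0] at h1
  simpa using h1.symm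

lemma pt1_cont : Continuous pt1 := by
  have h := (quot 2).continuous
  have h2 : Continuous (fun a : ℂ => (⟨![1, a], by
      intro h; have := congrFun h 0; simp at this⟩ : {v : Fin 2 → ℂ // v ≠ 0})) := by
    refine Continuous.subtype_mk ?_ _
    refine continuous_pi fun k => ?_
    fin_cases k
    · exact continuous_const
    · exact continuous_id
  exact h.comp h2

/-- The set of slopes different from `[0 : 1]` is open and the slope is a continuous number. -/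
lemma rep0_open : IsOpen {m : P1 | m.rep 0 ≠ 0} :=
  VCHM.isOpen_ne (fun v : Fin 2 → ℂ => v 0) (continuous_apply 0) (fun a v => by simp)

lemma rep1_open : IsOpen {m : P1 | m.rep 1 ≠ 0} :=
  VCHM.isOpen_ne (fun v : Fin 2 → ℂ => v 1) (continuous_apply 1) (fun a v => by simp)

lemma sl_cont : ContinuousOn (fun m : P1 => m.rep 1 / m.rep 0) {m : P1 | m.rep 0 ≠ 0} :=
  VCHM.contOn_div (fun v : Fin 2 → ℂ => v 1) (fun v : Fin 2 → ℂ => v 0) (continuous_apply 1)
    (continuous_apply 0) (fun a v => by simp) (fun a v => by simp)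

lemma sl_cont' : ContinuousOn (fun m : P1 => m.rep 0 / m.rep 1) {m : P1 | m.rep 1 ≠ 0} :=
  VCHM.contOn_div (fun v : Fin 2 → ℂ => v 0) (fun v : Fin 2 → ℂ => v 1) (continuous_apply 0)
    (continuous_apply 1) (fun a v => by simp) (fun a v => by simp)

lemma eq_pt1 {m : P1} (h : m.rep 0 ≠ 0) : pt1 (m.rep 1 / m.rep 0) = m := by
  rw [pt1_eq_mk1]
  apply VCHM.mk1_eq
  · rintro ⟨h1, _⟩; exact one_ne_zero h1
  · field_simp

lemma pt1_rep (a : ℂ) : (pt1 a).rep 0 ≠ 0 ∧ (pt1 a).rep 1 / (pt1 a).rep 0 = a := by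
  obtain ⟨k, hk, h⟩ := VCHM.mk1_rep (a := 1) (c := a) (VCHM.vec_ne (fun h => one_ne_zero h.1))
  rw [pt1_eq_mk1, h]
  simp [hk]

section

variable {n : ℕ} {P : Fin n → ℂ × ℂ}

/-- The slopes are determined away from the points. -/
lemma det (q : Bl P) (i : Fin n) (h : q.1.1 ≠ P i) :
    q.1.2 i = mk1 (q.1.1.1 - (P i).1) (q.1.1.2 - (P i).2) := by
  symm
  apply VCHM.mk1_eq
  · rintro ⟨h1, h2⟩
    exact h (Prod.ext (sub_eq_zero.mp h1) (sub_eq_zero.mp h2))
  · exact q.2 i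

lemma ext_of (q q' : Bl P) (h : q.1.1 = q'.1.1)
    (h2 : ∀ i, q.1.1 = P i → q.1.2 i = q'.1.2 i) : q = q' := by
  apply Subtype.ext
  apply Prod.ext h
  funext i
  by_cases hi : q.1.1 = P i
  · exact h2 i hi
  · rw [det q i hi, det q' i (h ▸ hi), h]

lemma mem_onl {l : ℂ × ℂ} {i : Fin n} : i ∈ onl P l ↔ (P i).2 = l.1 * (P i).1 + l.2 := by
  rw [onl, Finset.mem_filter]; simp

lemma Qf_eq {l : ℂ × ℂ} {i : Fin n} (hi : i ∈ onl P l) (x : ℂ) :
    Qf P l x = (x - (P i).1) * Qi P l i x := by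
  rw [Qf, Qi, Finset.mul_prod_erase (onl P l) (fun j => x - (P j).1) hi]

lemma fst_ne {l : ℂ × ℂ} {i j : Fin n} (hP : Function.Injective P) (hi : i ∈ onl P l)
    (hj : j ∈ onl P l) (hij : i ≠ j) : (P i).1 ≠ (P j).1 := by
  intro h
  apply hij
  apply hP
  apply Prod.ext h
  rw [mem_onl.mp hi, mem_onl.mp hj, h]

lemma Qi_ne {l : ℂ × ℂ} {i : Fin n} (hP : Function.Injective P) (hi : i ∈ onl P l) :
    Qi P l i (P i).1 ≠ 0 := by
  rw [Qi, Finset.prod_ne_zero_iff]
  intro j hj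
  rw [Finset.mem_erase] at hj
  exact sub_ne_zero.mpr (fst_ne hP hi hj.2 hj.1.symm)

lemma exists_root {l : ℂ × ℂ} {x : ℂ} (h : Qf P l x = 0) : ∃ i ∈ onl P l, x = (P i).1 := by
  rw [Qf, Finset.prod_eq_zero_iff] at h
  obtain ⟨i, hi, h⟩ := h
  exact ⟨i, hi, sub_eq_zero.mp h⟩

lemma Qf_cont (l : ℂ × ℂ) : Continuous (Qf P l) := by
  unfold Qf; fun_prop

lemma Qi_cont (l : ℂ × ℂ) (i : Fin n) : Continuous (Qi P l i) := by
  unfold Qi; fun_prop

lemma lp_cont (l : ℂ × ℂ) : Continuous (lp P l) := by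
  have h := Qf_cont (P := P) l
  unfold lp
  fun_prop

end

end TubM

end Pool.Agent.MP_8f595d_ag
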