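import Pool.Agent.Lib.MP_8f595d_ag.TSpec

section
/-!
# Module TFT: tubes around the eight lines and the relations between the meridians
-/
set_option autoImplicit false

open scoped Topology LinearAlgebra.Projectivization

open Pool.Agent.SH (pt1 PTube H)

namespace Pool.Agent.MP_8f595d_ag.TFTM

open Pool.Agent.SH

/-! ### The point `[1 : a]` -/

lemma pt1_inj {a c : ℂ} (h : pt1 a = pt1 c) : a = c := by
  rw [pt1, pt1, Projectivization.mk_eq_mk_iff'] at h
  obtain ⟨u, hu⟩ := h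
  have h0 := congrFun hu 0
  have h1 := congrFun hu 1
  simp at h0 h1
  rw [h0] at h1
  simpa using h1.symm

lemma pt1_cont (hPT : SpecProjTop) : Continuous pt1 := by
  have h := (hPT 2).1.continuous
  have h2 : Continuous (fun a : ℂ => (⟨![1, a], by
      intro h; have := congrFun h 0; simp at this⟩ : {v : Fin 2 → ℂ // v ≠ 0})) := by
    refine Continuous.subtype_mk ?_ _
    refine continuous_pi fun k => ?_
    fin_cases k
    · exact continuous_const
    · exact continuous_id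
  exact h.comp h2

lemma mk1_smul {x : ℂ} (hx : x ≠ 0) (a : ℂ) : mk1 x (a * x) = pt1 a := by
  have h : (![x, a * x] : Fin 2 → ℂ) ≠ 0 := by
    intro h; have := congrFun h 0; simp at this; exact hx this
  rw [mk1, dif_pos h, pt1, Projectivization.mk_eq_mk_iff']
  refine ⟨x, ?_⟩
  funext k
  fin_cases k
  · simp
  · simp [mul_comm]

/-! ### The finite combinatorics -/

/-- The three lines through the point `i`. -/
def el : Fin 8 → Fin 3 → Fin 8 :=
  ![![2, 3, 4], ![5, 6, 7], ![0, 4, 6], ![0, 2, 7], ![0, 3, 5], ![1, 3, 7], ![1, 4, 5], ![1, 2, 6]]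

lemma el_inj : ∀ i : Fin 8, Function.Injective (el i) := by decide

lemma el_filter : ∀ i : Fin 8, Finset.univ.filter (fun j => i ∈ inl j) = Finset.univ.image (el i) := by
  decide

lemma el_mem (i : Fin 8) (k : Fin 3) : i ∈ inl (el i k) := by
  have h : el i k ∈ Finset.univ.filter (fun j => i ∈ inl j) := by
    rw [el_filter]
    exact Finset.mem_image_of_mem _ (Finset.mem_univ k)
  exact (Finset.mem_filter.mp h).2

lemma el_surj {i j : Fin 8} (h : i ∈ inl j) : ∃ k, el i k = j := by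
  have h2 : j ∈ Finset.univ.filter (fun j => i ∈ inl j) :=
    Finset.mem_filter.mpr ⟨Finset.mem_univ _, h⟩
  rw [el_filter] at h2
  obtain ⟨k, -, hk⟩ := Finset.mem_image.mp h2
  exact ⟨k, hk⟩

/-! ### The map from the punctured exceptional curve -/

open Classical in
/-- The point of the exceptional curve over `Pt i` with slope `m`. -/
noncomputable def kap0 (i : Fin 8) (m : P1) : Bl Pt :=
  ⟨(Pt i, fun i' => if i' = i then m else mk1 ((Pt i).1 - (Pt i').1) ((Pt i).2 - (Pt i').2)), by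
    intro i'
    show ((Pt i).1 - (Pt i').1) * (if i' = i then m else
      mk1 ((Pt i).1 - (Pt i').1) ((Pt i).2 - (Pt i').2)).rep 1 = ((Pt i).2 - (Pt i').2) *
      (if i' = i then m else mk1 ((Pt i).1 - (Pt i').1) ((Pt i).2 - (Pt i').2)).rep 0
    by_cases h : i' = i
    · subst h
      rw [sub_self, sub_self, zero_mul, zero_mul]
    · rw [if_neg h]
      exact mk1_eq _ _⟩

lemma kap0_cont (i : Fin 8) : Continuous (kap0 i) := by
  refine Continuous.subtype_mk (Continuous.prodMk continuous_const ?_) _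
  refine continuous_pi fun i' => ?_
  by_cases h : i' = i
  · simp only [h, if_true]; exact continuous_id
  · simp only [h, if_false]; exact continuous_const

lemma kap0_mem (hL : SpecLines) (i : Fin 8) (m : P1)
    (hm : ∀ k : Fin 3, m ≠ pt1 (la (el i k)).1) : kap0 i m ∈ Xp := by
  refine ⟨Set.mem_univ _, fun h => ?_⟩
  obtain ⟨j, hj⟩ := Set.mem_iUnion.mp h
  obtain ⟨h1, h2⟩ := hj
  have h3 : i ∈ inl j := (hL.2.2.1 i j).mp h1
  obtain ⟨k, hk⟩ := el_surj h3
  have h4 := h2 i ((hL.2.2.1 i j).mpr h3)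
  have h5 : (kap0 i m).1.2 i = m := if_pos rfl
  rw [h5] at h4
  rw [← hk] at h4
  exact hm k h4

/-- The map `κ i`. -/
noncomputable def kap (hL : SpecLines) (i : Fin 8) :
    C({m : P1 | ∀ k : Fin 3, m ≠ pt1 (la (el i k)).1}, ↥Xp) :=
  ⟨fun m => ⟨kap0 i m.1, kap0_mem hL i m.1 m.2⟩,
    Continuous.subtype_mk ((kap0_cont i).comp continuous_subtype_val) _⟩

lemma mem_onl (hL : SpecLines) {i j : Fin 8} : i ∈ onl Pt (la j) ↔ i ∈ inl j := by
  rw [onl, Finset.mem_filter]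
  simp only [Finset.mem_univ, true_and]
  exact hL.2.2.1 i j

lemma x_ne (hL : SpecLines) {i i' j : Fin 8} (h : i ∈ inl j) (h' : i' ∈ inl j) (hne : i' ≠ i) :
    (Pt i).1 ≠ (Pt i').1 := by
  intro h1
  have h2 := (hL.2.2.1 i j).mpr h
  have h3 := (hL.2.2.1 i' j).mpr h'
  rw [← h1, ← h2] at h3
  exact hne (hL.1 (Prod.ext h1.symm h3))

lemma lineMap_eq (hL : SpecLines) {i j : Fin 8} (h : i ∈ inl j) (t : ℂ) :
    lineMap Pt (la j) ((Pt i).1, t) = kap0 i (pt1 ((la j).1 + t * Qi Pt (la j) i (Pt i).1)) := by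
  classical
  have h0 := (hL.2.2.1 i j).mpr h
  have hQ : Qf Pt (la j) (Pt i).1 = 0 :=
    Finset.prod_eq_zero ((mem_onl hL).mpr h) (sub_self _)
  have hlp : lp Pt (la j) ((Pt i).1, t) = Pt i := by
    rw [lp]
    refine Prod.ext rfl ?_
    show (la j).1 * (Pt i).1 + (la j).2 + t * Qf Pt (la j) (Pt i).1 = (Pt i).2
    rw [hQ, mul_zero, add_zero, h0]
  apply Subtype.ext
  refine Prod.ext hlp ?_
  funext i'
  show (if i' ∈ onl Pt (la j) then pt1 ((la j).1 + t * Qi Pt (la j) i' (Pt i).1)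
      else mk1 ((lp Pt (la j) ((Pt i).1, t)).1 - (Pt i').1)
        ((lp Pt (la j) ((Pt i).1, t)).2 - (Pt i').2)) =
    (if i' = i then pt1 ((la j).1 + t * Qi Pt (la j) i (Pt i).1) else
      mk1 ((Pt i).1 - (Pt i').1) ((Pt i).2 - (Pt i').2))
  rw [hlp]
  by_cases hi : i' = i
  · subst hi
    rw [if_pos ((mem_onl hL).mpr h), if_pos rfl]
  · rw [if_neg hi]
    by_cases hi2 : i' ∈ onl Pt (la j)
    · rw [if_pos hi2]
      have hi3 := (mem_onl hL).mp hi2
      have h4 : Qi Pt (la j) i' (Pt i).1 = 0 :=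
        Finset.prod_eq_zero (Finset.mem_erase.mpr ⟨fun h => hi h.symm, (mem_onl hL).mpr h⟩)
          (sub_self _)
      rw [h4, mul_zero, add_zero]
      have h5 := (hL.2.2.1 i' j).mpr hi3
      have h6 : (Pt i).2 - (Pt i').2 = (la j).1 * ((Pt i).1 - (Pt i').1) := by
        rw [h0, h5]; ring
      rw [h6]
      exact (mk1_smul (sub_ne_zero.mpr (x_ne hL h hi3 hi)) _).symm
    · rw [if_neg hi2]

lemma Qi_ne (hL : SpecLines) {i j : Fin 8} (h : i ∈ inl j) : Qi Pt (la j) i (Pt i).1 ≠ 0 := by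
  rw [Qi, Finset.prod_ne_zero_iff]
  intro i' hi'
  rw [Finset.mem_erase, mem_onl hL] at hi'
  exact sub_ne_zero.mpr (x_ne hL h hi'.2 hi'.1)

lemma exists_delta (hL : SpecLines) : ∃ δ : ℝ, 0 < δ ∧ ∀ i j j' : Fin 8, j ≠ j' → i ∈ inl j →
    i ∈ inl j' → δ * ‖Qi Pt (la j) i (Pt i).1‖ < ‖(la j).1 - (la j').1‖ := by
  have h : ∀ᶠ δ : ℝ in 𝓝[>] 0, ∀ i j j' : Fin 8, j ≠ j' → i ∈ inl j →
      i ∈ inl j' → δ * ‖Qi Pt (la j) i (Pt i).1‖ < ‖(la j).1 - (la j').1‖ := by
    rw [Filter.eventually_all]; intro i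
    rw [Filter.eventually_all]; intro j
    rw [Filter.eventually_all]; intro j'
    by_cases hj : j ≠ j' ∧ i ∈ inl j ∧ i ∈ inl j'
    · have h1 : 0 < ‖(la j).1 - (la j').1‖ :=
        norm_pos_iff.mpr (sub_ne_zero.mpr (hL.2.2.2.1 i j j' hj.1 hj.2.1 hj.2.2))
      have h2 : Filter.Tendsto (fun δ : ℝ => δ * ‖Qi Pt (la j) i (Pt i).1‖) (𝓝[>] 0) (𝓝 0) := by
        have : Filter.Tendsto (fun δ : ℝ => δ * ‖Qi Pt (la j) i (Pt i).1‖) (𝓝 0)
            (𝓝 (0 * ‖Qi Pt (la j) i (Pt i).1‖)) := (continuous_id.mul continuous_const).tendsto 0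
        rw [zero_mul] at this
        exact this.mono_left nhdsWithin_le_nhds
      filter_upwards [h2.eventually (gt_mem_nhds h1)] with δ hδ _ _ _
      exact hδ
    · filter_upwards with δ h1 h2 h3
      exact absurd ⟨h1, h2, h3⟩ hj
  obtain ⟨δ, h1, h2⟩ := (h.and self_mem_nhdsWithin).exists
  exact ⟨δ, h2, h1⟩


/-- A circle on the projective line minus three points. -/
noncomputable def gam (hPT : SpecProjTop) (a : Fin 3 → ℂ) (k : Fin 3) (c : ℂ) (hc : c ≠ 0)
    (hd : ∀ k', k' ≠ k → ‖c‖ < ‖a k - a k'‖) :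
    C(Circle, {m : P1 | ∀ j : Fin 3, m ≠ pt1 (a j)}) :=
  ⟨fun s => ⟨pt1 (a k + c * (s : ℂ)), fun k' h => by
    have h1 := pt1_inj h
    by_cases hk : k' = k
    · subst hk
      have h2 : c * (s : ℂ) = 0 := by linear_combination h1
      exact (mul_ne_zero hc (Circle.coe_ne_zero s)) h2
    · have h2 : a k - a k' = -(c * (s : ℂ)) := by linear_combination h1
      have h3 := hd k' hk
      rw [h2, norm_neg, norm_mul, Circle.norm_coe, mul_one] at h3
      exact lt_irrefl _ h3⟩,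
    Continuous.subtype_mk ((pt1_cont hPT).comp
      (continuous_const.add (continuous_const.mul continuous_subtype_val))) _⟩

lemma loop_comp {X Y : Type} [TopologicalSpace X] [TopologicalSpace Y] (f : C(X, Y))
    (γ : C(Circle, X)) : loop (f.comp γ) = Hmap 1 f (loop γ) := by
  rw [loop, loop, Hmap_comp]

theorem main (hTub : SpecTub) (hL : SpecLines) (hSh : SpecShrink) (hHt : SpecHtpy)
    (hPT : SpecProjTop) (hPa : SpecPants) : SpecRel := by
  classical
  obtain ⟨δ, hδ, hδ2⟩ := exists_delta hL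
  have hcl : ∀ j, IsClosed (Ls Pt (la j)) := fun j => (hTub 8 Pt hL.1 (la j)).2
  -- the shrinking functions
  have hr : ∀ j : Fin 8, ∃ ρ : C(ℂ, ℝ), (∀ z, 0 < ρ z ∧ ρ z ≤ δ) ∧
      Tube (V := Bl Pt) (Set.univ \ ⋃ j' : {j' : Fin 8 // j' ≠ j}, Ls Pt (la j'.1)) (Ls Pt (la j))
        (fun p => lineMap Pt (la j) (shr ρ p)) := by
    intro j
    have hZ : IsClosed (⋃ j' : {j' : Fin 8 // j' ≠ j}, Ls Pt (la j'.1)) :=
      isClosed_iUnion_of_finite fun j' => hcl j'.1
    obtain ⟨r, hr0, hr1⟩ := hSh (Bl Pt) ℂ Set.univ (Ls Pt (la j))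
      (⋃ j' : {j' : Fin 8 // j' ≠ j}, Ls Pt (la j'.1)) (OmL Pt (la j)) (lineMap Pt (la j))
      (hTub 8 Pt hL.1 (la j)).1 isOpen_univ (isOpen_univ.sdiff hZ) (by
        rw [Set.disjoint_iUnion_left]
        intro j'
        exact hL.2.2.2.2.1 j'.1 j j'.2)
    refine ⟨⟨fun z => min (r z) δ, r.continuous.min continuous_const⟩, fun z => ⟨?_, ?_⟩, ?_⟩
    · exact lt_min (hr0 z) hδ
    · exact min_le_right _ _
    · exact hr1 _ fun z => ⟨lt_min (hr0 z) hδ, min_le_left _ _⟩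
  choose ρ hρ hT using hr
  set φ : Fin 8 → ℂ × ℂ → Bl Pt := fun j p => lineMap Pt (la j) (shr (ρ j) p) with hφdef
  have htubes : Tubes (V := Bl Pt) (T := ℂ) 8 Set.univ (fun j => Ls Pt (la j)) φ := by
    refine ⟨isOpen_univ, fun j => isOpen_univ.sdiff (hcl j), fun j => ?_, fun i j hij => ?_⟩
    · exact ⟨(hT j).emb, Set.subset_univ _, (hT j).cov, (hT j).mem⟩
    · rw [Set.disjoint_left]
      intro q hq hq2
      have h1 := (hT i).sub hq
      exact h1.2 (Set.mem_iUnion.mpr ⟨⟨j, fun h => hij h.symm⟩, hq2⟩)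
  refine ⟨φ, htubes, ?_⟩
  intro hφ z hs i
  -- the tubes avoid the curves off the zero section
  have hX : ∀ (j : Fin 8) (z : ℂ) (t : ℂ), t ≠ 0 → φ j (z, t) ∈ Xp := by
    intro j z t ht
    refine ⟨Set.mem_univ _, fun h => ?_⟩
    obtain ⟨j', hj'⟩ := Set.mem_iUnion.mp h
    by_cases hjj : j = j'
    · subst hjj
      exact ht (((hT j).mem (z, t)).mp hj')
    · exact Set.disjoint_left.mp (htubes.disj j j' hjj) ⟨(z, t), rfl⟩ hj'
  -- a meridian does not depend on the point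
  have hmer : ∀ (j : Fin 8) (z' : ℂ), loop (merid Xp (φ j) (hφ j) z (hs j)) =
      loop (merid Xp (φ j) (hφ j) z' (fun s => hX j z' _ (Circle.coe_ne_zero s))) := by
    intro j z'
    rw [loop, loop, hHt.1 Circle ↥Xp _ _ ?_ 1]
    refine ⟨⟨⟨fun p => ⟨φ j ((1 - ((p.1 : ℝ) : ℂ)) * z + ((p.1 : ℝ) : ℂ) * z', (p.2 : ℂ)),
      hX j _ _ (Circle.coe_ne_zero p.2)⟩, ?_⟩, ?_, ?_⟩⟩
    · refine Continuous.subtype_mk ((hφ j).comp (Continuous.prodMk ?_ ?_)) _
      · have h1 : Continuous fun p : unitInterval × Circle => ((p.1 : ℝ) : ℂ) :=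
          Complex.continuous_ofReal.comp (continuous_subtype_val.comp continuous_fst)
        exact ((continuous_const.sub h1).mul continuous_const).add (h1.mul continuous_const)
      · exact continuous_subtype_val.comp continuous_snd
    · intro s
      apply Subtype.ext
      simp [merid]
    · intro s
      apply Subtype.ext
      simp [merid]
  -- the three circles
  set a : Fin 3 → ℂ := fun k => (la (el i k)).1 with ha
  set c : Fin 3 → ℂ := fun k => ((ρ (el i k) (Pt i).1 / 2 : ℝ) : ℂ) *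
    Qi Pt (la (el i k)) i (Pt i).1 with hc
  have hc0 : ∀ k, c k ≠ 0 := fun k => mul_ne_zero (by
    have := (hρ (el i k) (Pt i).1).1
    exact_mod_cast (by positivity : (ρ (el i k) (Pt i).1 / 2 : ℝ) ≠ 0)) (Qi_ne hL (el_mem i k))
  have hcd : ∀ k k' : Fin 3, k ≠ k' → ‖c k‖ < ‖a k - a k'‖ := by
    intro k k' hkk
    have h1 := hδ2 i (el i k) (el i k') (fun h => hkk (el_inj i h)) (el_mem i k) (el_mem i k')
    refine lt_of_le_of_lt ?_ h1
    simp only [hc, norm_mul, Complex.norm_real, Real.norm_eq_abs]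
    have h2 := hρ (el i k) (Pt i).1
    refine mul_le_mul_of_nonneg_right ?_ (norm_nonneg _)
    rw [abs_of_pos (by linarith [h2.1])]
    linarith [h2.1, h2.2]
  set γ : Fin 3 → C(Circle, {m : P1 | ∀ j : Fin 3, m ≠ pt1 (a j)}) :=
    fun k => gam hPT a k (c k) (hc0 k) (fun k' h => hcd k k' (fun h' => h h'.symm)) with hγ
  have hsum := hPa a c hc0 (fun k k' h => by rw [norm_sub_rev]; exact hcd k' k h.symm) γ (fun k s => rfl)
  rw [el_filter, Finset.sum_image (fun k _ k' _ h => el_inj i h)]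
  have hk : ∀ k : Fin 3, loop (merid Xp (φ (el i k)) (hφ (el i k)) z (hs (el i k))) =
      Hmap 1 (kap hL i) (loop (γ k)) := by
    intro k
    rw [hmer (el i k) (Pt i).1, ← loop_comp]
    congr 1
    ext1 s
    apply Subtype.ext
    show lineMap Pt (la (el i k)) (shr (ρ (el i k)) ((Pt i).1, (s : ℂ))) =
      kap0 i (pt1 (a k + c k * (s : ℂ)))
    have h1 : shr (ρ (el i k)) ((Pt i).1, (s : ℂ)) =
        ((Pt i).1, ((ρ (el i k) (Pt i).1 / 2 : ℝ) : ℂ) * (s : ℂ)) := by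
      rw [shr]
      refine Prod.ext rfl ?_
      show ((ρ (el i k) (Pt i).1 / (1 + ‖(s : ℂ)‖) : ℝ) : ℂ) * (s : ℂ) = _
      rw [Circle.norm_coe]
      norm_num
    rw [h1, lineMap_eq hL (el_mem i k)]
    congr 2
    simp only [ha, hc]
    ring
  rw [Finset.sum_congr rfl fun k _ => hk k, ← map_sum, hsum, map_zero]

end Pool.Agent.MP_8f595d_ag.TFTM

namespace Pool.Agent.MP_8f595d_ag

/-- Module TFT. -/
theorem specRel (hTub : SpecTub) (hL : SpecLines) (hSh : Pool.Agent.SH.SpecShrink)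
    (hHt : Pool.Agent.SH.SpecHtpy) (hPT : Pool.Agent.SH.SpecProjTop)
    (hPa : Pool.Agent.SH.SpecPants) : SpecRel :=
  TFTM.main hTub hL hSh hHt hPT hPa

end Pool.Agent.MP_8f595d_ag
end

section
/-!
# Module TLI: the finite combinatorics of the eight lines
-/
set_option autoImplicit false

open Pool.Agent.SH (pt1)

namespace Pool.Agent.MP_8f595d_ag

namespace TliM

lemma th_sq : th ^ 2 = -3 := by
  unfold th
  have h : ((Real.sqrt 3 : ℝ) : ℂ) ^ 2 = 3 := by
    have : (Real.sqrt 3) ^ 2 = 3 := Real.sq_sqrt (by norm_num)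
    exact_mod_cast this
  rw [mul_pow, h, Complex.I_sq]
  norm_num

lemma om_sq : om ^ 2 = -1 - om := by
  unfold om
  linear_combination (1 / 4 : ℂ) * th_sq

lemma th_eq : th = 1 + 2 * om := by
  unfold om
  ring

lemma om_im : om.im = Real.sqrt 3 / 2 := by
  have h1 : th.im = Real.sqrt 3 := by simp [th]
  have h2 : om = ((1 / 2 : ℝ) : ℂ) * (-1 + th) := by
    unfold om
    push_cast
    ring
  rw [h2, Complex.im_ofReal_mul, Complex.add_im, h1, Complex.neg_im, Complex.one_im]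
  ring

/-- product of Eisenstein integers -/
def emul (x y : ℤ × ℤ) : ℤ × ℤ := (x.1 * y.1 - x.2 * y.2, x.1 * y.2 + x.2 * y.1 - x.2 * y.2)

/-- `(a, b)` stands for `a + b ω` -/
noncomputable def ev (x : ℤ × ℤ) : ℂ := (x.1 : ℂ) + (x.2 : ℂ) * om

lemma ev_mul (x y : ℤ × ℤ) : ev (emul x y) = ev x * ev y := by
  simp only [ev, emul]
  push_cast
  linear_combination (-(x.2 : ℂ) * y.2) * om_sq

lemma ev_add (x y : ℤ × ℤ) : ev (x + y) = ev x + ev y := by
  simp only [ev, Prod.fst_add, Prod.snd_add]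
  push_cast
  ring

lemma ev_inj {x y : ℤ × ℤ} : ev x = ev y ↔ x = y := by
  constructor
  · intro h
    have h0 : (0 : ℝ) < Real.sqrt 3 := Real.sqrt_pos.mpr (by norm_num)
    have h1 := congrArg Complex.im h
    simp only [ev, Complex.add_im, Complex.intCast_im, Complex.mul_im, Complex.intCast_re,
      om_im, zero_mul, add_zero, zero_add] at h1
    have h2 : (x.2 : ℝ) = y.2 := by
      have h3 : (Real.sqrt 3 / 2) ≠ 0 := by positivity
      exact mul_right_cancel₀ h3 h1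
    have h3 : x.2 = y.2 := by exact_mod_cast h2
    have h4 : (x.1 : ℂ) = y.1 := by
      simp only [ev, h3] at h
      exact add_right_cancel h
    have h5 : x.1 = y.1 := by exact_mod_cast h4
    exact Prod.ext h5 h3
  · rintro rfl; rfl

/-- the points -/
def PtZ : Fin 8 → (ℤ × ℤ) × (ℤ × ℤ) :=
  ![((0, 0), (1, 2)), ((0, 0), (-1, -2)), ((1, 0), (1, 0)), ((0, 1), (1, 0)), ((-1, -1), (1, 0)),
    ((-1, 0), (-1, 0)), ((0, -1), (-1, 0)), ((1, 1), (-1, 0))]

/-- the lines -/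
def laZ : Fin 8 → (ℤ × ℤ) × (ℤ × ℤ) :=
  ![((0, 0), (1, 0)), ((0, 0), (-1, 0)), ((-2, 0), (1, 2)), ((2, 2), (1, 2)), ((0, -2), (1, 2)),
    ((-2, 0), (-1, -2)), ((2, 2), (-1, -2)), ((0, -2), (-1, -2))]

/-- the horizontal lines -/
def lfZ : Fin 4 → (ℤ × ℤ) × (ℤ × ℤ) :=
  ![((0, 0), (1, 2)), ((0, 0), (-1, -2)), ((0, 0), (1, 0)), ((0, 0), (-1, 0))]

lemma Pt_eq (i : Fin 8) : Pt i = (ev (PtZ i).1, ev (PtZ i).2) := by
  fin_cases i <;> simp [Pt, PtZ, ev, om_sq, th_eq] <;> ring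

lemma la_eq (i : Fin 8) : la i = (ev (laZ i).1, ev (laZ i).2) := by
  fin_cases i <;> simp [la, laZ, ev, om_sq, th_eq] <;> ring_nf <;> simp

lemma lf_eq (i : Fin 4) : lf i = (ev (lfZ i).1, ev (lfZ i).2) := by
  fin_cases i <;> simp [lf, lfZ, ev, om_sq, th_eq] <;> ring

lemma on_iff (p l : (ℤ × ℤ) × (ℤ × ℤ)) :
    ev p.2 = ev l.1 * ev p.1 + ev l.2 ↔ p.2 = emul l.1 p.1 + l.2 := by
  rw [← ev_mul, ← ev_add, ev_inj]

lemma pt1_inj {a b : ℂ} (h : pt1 a = pt1 b) : a = b := by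
  unfold pt1 at h
  rw [Projectivization.mk_eq_mk_iff'] at h
  obtain ⟨c, hc⟩ := h
  have h0 := congrFun hc 0
  have h1 := congrFun hc 1
  simp only [Pi.smul_apply, Matrix.cons_val_zero, Matrix.cons_val_one, smul_eq_mul,
    mul_one] at h0 h1
  rw [h0, one_mul] at h1
  exact h1.symm

lemma inc (i j : Fin 8) : (Pt i).2 = (la j).1 * (Pt i).1 + (la j).2 ↔ i ∈ inl j := by
  rw [Pt_eq, la_eq]
  simp only
  rw [on_iff]
  revert i j
  decide

lemma slopes : ∀ i j j' : Fin 8, j ≠ j' → i ∈ inl j → i ∈ inl j' → (la j).1 ≠ (la j').1 := by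
  intro i j j' h1 h2 h3
  rw [la_eq, la_eq]
  simp only
  rw [Ne, ev_inj]
  revert i j j'
  decide

lemma system (M : Type) [AddCommGroup M] [Module ℚ M] (μ : Fin 8 → M)
    (h : ∀ i : Fin 8, ∑ j ∈ Finset.univ.filter (fun j => i ∈ inl j), μ j = 0) :
    ∀ j, μ j = 0 := by
  have e0 : μ 2 + μ 3 + μ 4 = 0 := by
    have := h 0
    have h1 : Finset.univ.filter (fun j => (0 : Fin 8) ∈ inl j) = {2, 3, 4} := by decide
    rw [h1] at this
    simpa [add_assoc] using this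
  have e1 : μ 5 + μ 6 + μ 7 = 0 := by
    have := h 1
    have h1 : Finset.univ.filter (fun j => (1 : Fin 8) ∈ inl j) = {5, 6, 7} := by decide
    rw [h1] at this
    simpa [add_assoc] using this
  have e2 : μ 0 + μ 4 + μ 6 = 0 := by
    have := h 2
    have h1 : Finset.univ.filter (fun j => (2 : Fin 8) ∈ inl j) = {0, 4, 6} := by decide
    rw [h1] at this
    simpa [add_assoc] using this
  have e3 : μ 0 + μ 2 + μ 7 = 0 := by
    have := h 3
    have h1 : Finset.univ.filter (fun j => (3 : Fin 8) ∈ inl j) = {0, 2, 7} := by decide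
    rw [h1] at this
    simpa [add_assoc] using this
  have e4 : μ 0 + μ 3 + μ 5 = 0 := by
    have := h 4
    have h1 : Finset.univ.filter (fun j => (4 : Fin 8) ∈ inl j) = {0, 3, 5} := by decide
    rw [h1] at this
    simpa [add_assoc] using this
  have e5 : μ 1 + μ 3 + μ 7 = 0 := by
    have := h 5
    have h1 : Finset.univ.filter (fun j => (5 : Fin 8) ∈ inl j) = {1, 3, 7} := by decide
    rw [h1] at this
    simpa [add_assoc] using this
  have e6 : μ 1 + μ 4 + μ 5 = 0 := by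
    have := h 6
    have h1 : Finset.univ.filter (fun j => (6 : Fin 8) ∈ inl j) = {1, 4, 5} := by decide
    rw [h1] at this
    simpa [add_assoc] using this
  have e7 : μ 1 + μ 2 + μ 6 = 0 := by
    have := h 7
    have h1 : Finset.univ.filter (fun j => (7 : Fin 8) ∈ inl j) = {1, 2, 6} := by decide
    rw [h1] at this
    simpa [add_assoc] using this
  intro j
  fin_cases j
  · change μ 0 = 0
    linear_combination (norm := module) (-1/3 : ℚ) • e0 + (-1/3 : ℚ) • e1 + (1/3 : ℚ) • e2 + (1/3 : ℚ) • e3 + (1/3 : ℚ) • e4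
  · change μ 1 = 0
    linear_combination (norm := module) (-1/3 : ℚ) • e0 + (-1/3 : ℚ) • e1 + (1/3 : ℚ) • e5 + (1/3 : ℚ) • e6 + (1/3 : ℚ) • e7
  · change μ 2 = 0
    linear_combination (norm := module) (1/3 : ℚ) • e0 + (-1/3 : ℚ) • e2 + (1/3 : ℚ) • e3 + (-1/3 : ℚ) • e5 + (1/3 : ℚ) • e7
  · change μ 3 = 0
    linear_combination (norm := module) (1/3 : ℚ) • e0 + (-1/3 : ℚ) • e3 + (1/3 : ℚ) • e4 + (1/3 : ℚ) • e5 + (-1/3 : ℚ) • e6
  · change μ 4 = 0
    linear_combination (norm := module) (1/3 : ℚ) • e0 + (1/3 : ℚ) • e2 + (-1/3 : ℚ) • e4 + (1/3 : ℚ) • e6 + (-1/3 : ℚ) • e7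
  · change μ 5 = 0
    linear_combination (norm := module) (1/3 : ℚ) • e1 + (-1/3 : ℚ) • e2 + (1/3 : ℚ) • e4 + (-1/3 : ℚ) • e5 + (1/3 : ℚ) • e6
  · change μ 6 = 0
    linear_combination (norm := module) (1/3 : ℚ) • e1 + (1/3 : ℚ) • e2 + (-1/3 : ℚ) • e3 + (-1/3 : ℚ) • e6 + (1/3 : ℚ) • e7
  · change μ 7 = 0
    linear_combination (norm := module) (1/3 : ℚ) • e1 + (1/3 : ℚ) • e3 + (-1/3 : ℚ) • e4 + (1/3 : ℚ) • e5 + (-1/3 : ℚ) • e7

end TliM

theorem specLines : SpecLines := by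
  refine ⟨?_, ?_, TliM.inc, TliM.slopes, ?_, ?_, ?_, ?_⟩
  · intro i j h
    rw [TliM.Pt_eq, TliM.Pt_eq, Prod.mk.injEq, TliM.ev_inj, TliM.ev_inj] at h
    revert i j
    decide
  · intro i j h
    rw [TliM.la_eq, TliM.la_eq, Prod.mk.injEq, TliM.ev_inj, TliM.ev_inj] at h
    revert i j
    decide
  · intro j j' hne
    rw [Set.disjoint_left]
    rintro q ⟨h1, h2⟩ ⟨h3, h4⟩
    by_cases hs : (la j).1 = (la j').1
    · have h5 : (la j).2 = (la j').2 := by
        rw [h1, hs] at h3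
        exact add_left_cancel h3
      have h6 : la j = la j' := Prod.ext hs h5
      rw [TliM.la_eq, TliM.la_eq, Prod.mk.injEq, TliM.ev_inj, TliM.ev_inj] at h6
      clear h1 h2 h3 h4 hs h5
      revert j j'
      decide
    · have key : ∀ j j' : Fin 8, j ≠ j' → (TliM.laZ j).1 ≠ (TliM.laZ j').1 →
          ∃ i, i ∈ inl j ∧ i ∈ inl j' := by decide
      have hs' : (TliM.laZ j).1 ≠ (TliM.laZ j').1 := by
        intro hc
        apply hs
        rw [TliM.la_eq, TliM.la_eq]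
        simp only
        rw [hc]
      obtain ⟨i, hi, hi'⟩ := key j j' hne hs'
      have h5 := h2 i ((TliM.inc i j).mpr hi)
      have h6 := h4 i ((TliM.inc i j').mpr hi')
      exact hs (TliM.pt1_inj (h5.symm.trans h6))
  · intro j j' hne
    rw [Set.disjoint_left]
    rintro q ⟨h1, h2⟩ ⟨h3, h4⟩
    rw [h1] at h3
    rw [TliM.lf_eq, TliM.lf_eq] at h3
    simp only at h3
    have h0 : ∀ j : Fin 4, (TliM.lfZ j).1 = (0, 0) := by decide
    have hz : TliM.ev (0, 0) = 0 := by simp [TliM.ev]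
    rw [h0, h0, hz, zero_mul, zero_add, zero_add, TliM.ev_inj] at h3
    clear h1 h2 h4
    revert j j'
    decide
  · intro i j
    rw [TliM.Pt_eq, TliM.lf_eq]
    simp only
    rw [TliM.on_iff]
    revert i j
    decide
  · intro M _ _ μ h
    exact TliM.system M μ h

end Pool.Agent.MP_8f595d_ag
end

section
/-!
# Module TQA: the complement of the divisor is rationally acyclic
-/
set_option autoImplicit false

open scoped Topology

namespace Pool.Agent.MP_8f595d_ag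

open Pool.Agent.SH in
theorem specAcyc (hX : SpecX) (hH : SpecHomeo) (hP : SpecPC) (hB : SH.SpecBridge)
    (hT : SH.SpecHtpy) : SpecAcyc := by
  obtain ⟨e⟩ := hH
  have : PathConnectedSpace ↥Xp := hP
  refine ⟨e.surjective.pathConnectedSpace e.continuous, fun k hk => ?_⟩
  obtain ⟨k, rfl⟩ := Nat.exists_eq_add_of_le' hk
  refine hB _ k ?_
  have := hX k
  have h := hT.2.1 ↥Xp ↥((⋃ i : Fin 13, Dset i)ᶜ : Set V) ⟨e, e.continuous⟩
    ⟨e.symm, e.symm.continuous⟩ (by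
      rw [show (⟨e.symm, e.symm.continuous⟩ : C(_, ↥Xp)).comp ⟨e, e.continuous⟩ =
        ContinuousMap.id _ from ContinuousMap.ext fun x => e.symm_apply_apply x])
    (by
      rw [show (⟨e, e.continuous⟩ : C(↥Xp, _)).comp ⟨e.symm, e.symm.continuous⟩ =
        ContinuousMap.id _ from ContinuousMap.ext fun x => e.apply_symm_apply x]) (k + 1)
  exact h.2.subsingleton

end Pool.Agent.MP_8f595d_ag
end

section
/-!
# Module TXH: rational homology of the complement of the eight lines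
-/
set_option autoImplicit false

open scoped Topology LinearAlgebra.Projectivization

open Pool.Agent.SH (pt1 PTube H loop merid)

namespace Pool.Agent.MP_8f595d_ag

theorem specX (hY : SpecY) (hR : SpecRel) (hL : SpecLines) (hF : Pool.Agent.SH.SpecFam) :
    SpecX := by
  obtain ⟨φ, hT, hrel⟩ := hR
  obtain ⟨hmer, hspan, h2, hk, -, -⟩ :=
    hF (Bl Pt) ℂ 8 Set.univ (fun j => Ls Pt (la j)) φ hT
  have hφ : ∀ j, Continuous (φ j) := fun j => (hT.tube j).emb.continuous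
  have hs : ∀ (j : Fin 8) (s : Circle), φ j ((0 : ℂ), (s : ℂ)) ∈ Xp := fun j s => hmer j 0 s
  have hM := hL.2.2.2.2.2.2.2
  have hz : ∀ j, loop (merid Xp (φ j) (hφ j) 0 (hs j)) = 0 :=
    hM (H 1 ↥Xp) (fun j => loop (merid Xp (φ j) (hφ j) 0 (hs j))) (hrel hφ 0 hs)
  have h1 : Subsingleton (H 1 ↥Xp) := by
    have e : Submodule.span ℚ
        (Set.range fun j => loop (merid Xp (φ j) (hφ j) 0 (hs j))) = ⊤ := hspan 0 hφ hs hY.1
    have e2 : (Set.range fun j => loop (merid Xp (φ j) (hφ j) 0 (hs j))) ⊆ {0} := by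
      rintro _ ⟨j, rfl⟩
      exact hz j
    have e3 : (⊤ : Submodule ℚ (H 1 ↥Xp)) = ⊥ := by
      rw [← e]
      exact le_antisymm ((Submodule.span_mono e2).trans (by rw [Submodule.span_zero_singleton]))
        bot_le
    refine ⟨fun a b => ?_⟩
    have ha : a ∈ (⊤ : Submodule ℚ (H 1 ↥Xp)) := trivial
    have hb : b ∈ (⊤ : Submodule ℚ (H 1 ↥Xp)) := trivial
    rw [e3, Submodule.mem_bot] at ha hb
    rw [ha, hb]
  intro k
  match k with
  | 0 => exact h1
  | 1 => exact h2 h1 hY.2.1 hY.2.2.1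
  | k + 2 => exact hk k (hY.2.2.2 k)

end Pool.Agent.MP_8f595d_ag
end

section
/-!
# Module TYH: homology of the blow-up of `ℂ²` in eight points
-/
set_option autoImplicit false

open scoped Topology LinearAlgebra.Projectivization

open Pool.Agent.SH (pt1 PTube H)

namespace Pool.Agent.MP_8f595d_ag.TYHM

open Pool.Agent.SH

/-! ### The exceptional curves in `Yp` -/

/-- The horizontal line through the point `ix j`. -/
def hl : Fin 4 → Fin 4 := ![2, 2, 3, 3]

lemma ix_inj : Function.Injective ix := by decide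

lemma hl_mem (j : Fin 4) : ix j ∈ (![{0}, {1}, {2, 3, 4}, {5, 6, 7}] : Fin 4 → Finset (Fin 8)) (hl j) := by
  revert j; decide

lemma lf_zero (j : Fin 4) : (lf j).1 = 0 := by
  fin_cases j <;> rfl

lemma rep_ne (m : P1) : m.rep ≠ 0 := m.rep_nonzero

lemma eq_pt1_zero {m : P1} (h : m.rep 1 = 0) : m = pt1 0 := by
  have h0 : m.rep 0 ≠ 0 := by
    intro h0
    apply rep_ne m
    funext k
    fin_cases k
    · exact h0
    · exact h
  rw [← m.mk_rep, pt1, Projectivization.mk_eq_mk_iff']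
  refine ⟨m.rep 0, ?_⟩
  funext k
  fin_cases k
  · simp
  · simp [h]

lemma pt1_zero_rep : (pt1 0 : P1).rep 1 = 0 := by
  obtain ⟨u, hu⟩ := Projectivization.exists_smul_eq_mk_rep ℂ (![1, 0] : Fin 2 → ℂ) (by
    intro h; have := congrFun h 0; simp at this)
  have h := congrFun hu 1
  simp only [Pi.smul_apply, Matrix.cons_val_one, Matrix.cons_val_zero, smul_zero] at h
  exact h.symm

lemma Es_slope (hL : SpecLines) (j : Fin 4) {q : Bl Pt} (hq : q ∈ Es Pt (ix j))
    (h : q.1.2 (ix j) = pt1 0) : q ∈ Ls Pt (lf (hl j)) := by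
  have h0 := (hL.2.2.2.2.2.2.1 (ix j) (hl j)).mpr (hl_mem j)
  rw [lf_zero, zero_mul, zero_add] at h0
  have hq' : q.1.1 = Pt (ix j) := hq
  refine ⟨?_, fun i' hi' => ?_⟩
  · rw [lf_zero, zero_mul, zero_add, hq', h0]
  · rw [lf_zero]
    rw [lf_zero, zero_mul, zero_add] at hi'
    by_cases hi : i' = ix j
    · rw [hi]; exact h
    · apply eq_pt1_zero
      have h1 := q.2 i'
      rw [hq'] at h1
      rw [show (Pt (ix j)).2 - (Pt i').2 = 0 by rw [h0, hi']; ring, zero_mul] at h1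
      have h2 : (Pt (ix j)).1 - (Pt i').1 ≠ 0 := by
        intro h3
        apply hi
        apply hL.1
        refine Prod.ext (sub_eq_zero.mp h3).symm ?_
        rw [h0, hi']
      exact (mul_eq_zero.mp h1).resolve_left h2

lemma Ls_disj_Eo (j k : Fin 4) : Disjoint (Ls Pt (lf k)) (Eo Pt (ix j)) := by
  rw [Set.disjoint_left]
  rintro q ⟨h1, h2⟩ ⟨h3, h4⟩
  rw [h3] at h1
  have := h2 (ix j) h1
  rw [lf_zero] at this
  exact h4 this

theorem main (hTub : SpecTub) (hTex : SpecTex) (hL : SpecLines) (hW : SpecW) (hSh : SpecShrink)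
    (hFam : SpecFam) (hHt : SpecHtpy) : SpecY := by
  classical
  obtain ⟨e⟩ := hW
  have hWc : ContractibleSpace ↥Wp := e.contractibleSpace
  have hW0 : ∀ k : ℕ, Subsingleton (H (k + 1) ↥Wp) := fun k => hHt.2.2.1 ↥Wp k
  have hlcl : ∀ j, IsClosed (Ls Pt (lf j)) := fun j => (hTub 8 Pt hL.1 (lf j)).2
  have hecl : ∀ i, IsClosed (Es Pt i) := fun i => (hTex 8 Pt hL.1 i).2
  have hYo : IsOpen Yp := isOpen_univ.sdiff (isClosed_iUnion_of_finite hlcl)
  -- the family of exceptional curves in Yp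
  have h1 : ∀ j : Fin 4, ∃ φ : ℂ × ℂ → Bl Pt,
      Tube (V := Bl Pt) (Set.univ \ ((⋃ k : Fin 4, Ls Pt (lf k)) ∪
        ⋃ j' : {j' : Fin 4 // j' ≠ j}, Es Pt (ix j'.1))) (Eo Pt (ix j)) φ := by
    intro j
    have hZ : IsClosed ((⋃ k : Fin 4, Ls Pt (lf k)) ∪
        ⋃ j' : {j' : Fin 4 // j' ≠ j}, Es Pt (ix j'.1)) :=
      (isClosed_iUnion_of_finite hlcl).union (isClosed_iUnion_of_finite fun j' => hecl _)
    obtain ⟨r, hr0, hr1⟩ := hSh (Bl Pt) ℂ Set.univ (Eo Pt (ix j))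
      ((⋃ k : Fin 4, Ls Pt (lf k)) ∪ ⋃ j' : {j' : Fin 4 // j' ≠ j}, Es Pt (ix j'.1))
      (OmE Pt (ix j)) (excMap Pt (ix j))
      (hTex 8 Pt hL.1 (ix j)).1 isOpen_univ (isOpen_univ.sdiff hZ) (by
        rw [Set.disjoint_union_left, Set.disjoint_iUnion_left, Set.disjoint_iUnion_left]
        refine ⟨fun k => Ls_disj_Eo j k, fun j' => ?_⟩
        rw [Set.disjoint_left]
        intro q h1 h2
        have h3 : q.1.1 = Pt (ix j'.1) := h1
        have h4 : q.1.1 = Pt (ix j) := h2.1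
        exact j'.2 (ix_inj (hL.1 (h3.symm.trans h4))))
    exact ⟨_, hr1 r fun z => ⟨hr0 z, le_rfl⟩⟩
  choose φ hφ using h1
  have hT1 : Tubes (V := Bl Pt) (T := ℂ) 4 Yp (fun j => Eo Pt (ix j)) φ := by
    refine ⟨hYo, fun j => ?_, fun j => ?_, fun i j hij => ?_⟩
    · have : Yp \ Eo Pt (ix j) = Yp \ Es Pt (ix j) := by
        ext q
        constructor
        · rintro ⟨h1, h2⟩
          refine ⟨h1, fun h3 => h2 ⟨h3, fun h4 => ?_⟩⟩
          exact h1.2 (Set.mem_iUnion.mpr ⟨_, Es_slope hL j h3 h4⟩)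
        · rintro ⟨h1, h2⟩
          exact ⟨h1, fun h3 => h2 h3.1⟩
      rw [this]
      exact hYo.sdiff (hecl _)
    · refine ⟨(hφ j).emb, fun q hq => ?_, (hφ j).cov, (hφ j).mem⟩
      have h2 := (hφ j).sub hq
      exact ⟨Set.mem_univ _, fun h3 => h2.2 (Or.inl h3)⟩
    · rw [Set.disjoint_left]
      intro q hq hq2
      have h2 := (hφ i).sub hq
      exact h2.2 (Or.inr (Set.mem_iUnion.mpr ⟨⟨j, fun h => hij h.symm⟩, hq2.1⟩))
  have hF1 := hFam (Bl Pt) ℂ 4 Yp (fun j => Eo Pt (ix j)) φ hT1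
  obtain ⟨-, -, -, -, hadd1, hadd2⟩ := hF1
  obtain ⟨hY1, hY2⟩ := hadd1 (hW0 0)
  have hW2 : Subsingleton (H 2 ↥(Yp \ ⋃ i : Fin 4, Eo Pt (ix i))) := hW0 1
  obtain ⟨hY3, hY4⟩ := hY2 (Module.Finite.of_finite)
  have hY4' : Module.finrank ℚ (H 2 ↥Yp) ≤ 4 := by
    refine hY4.trans ?_
    rw [Module.finrank_zero_of_subsingleton]
  have hY5 : ∀ k : ℕ, Subsingleton (H (k + 3) ↥Yp) := fun k => hadd2 k (hW0 (k + 2))
  -- the family of horizontal lines in the whole surface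
  have h2 : ∀ j : Fin 4, ∃ φ : ℂ × ℂ → Bl Pt,
      Tube (V := Bl Pt) (Set.univ \ ⋃ j' : {j' : Fin 4 // j' ≠ j}, Ls Pt (lf j'.1))
        (Ls Pt (lf j)) φ := by
    intro j
    have hZ : IsClosed (⋃ j' : {j' : Fin 4 // j' ≠ j}, Ls Pt (lf j'.1)) :=
      isClosed_iUnion_of_finite fun j' => hlcl _
    obtain ⟨r, hr0, hr1⟩ := hSh (Bl Pt) ℂ Set.univ (Ls Pt (lf j))
      (⋃ j' : {j' : Fin 4 // j' ≠ j}, Ls Pt (lf j'.1)) (OmL Pt (lf j)) (lineMap Pt (lf j))
      (hTub 8 Pt hL.1 (lf j)).1 isOpen_univ (isOpen_univ.sdiff hZ) (by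
        rw [Set.disjoint_iUnion_left]
        exact fun j' => hL.2.2.2.2.2.1 j'.1 j j'.2)
    exact ⟨_, hr1 r fun z => ⟨hr0 z, le_rfl⟩⟩
  choose ψ hψ using h2
  have hT2 : Tubes (V := Bl Pt) (T := ℂ) 4 Set.univ (fun j => Ls Pt (lf j)) ψ := by
    refine ⟨isOpen_univ, fun j => isOpen_univ.sdiff (hlcl j), fun j => ?_, fun i j hij => ?_⟩
    · exact ⟨(hψ j).emb, Set.subset_univ _, (hψ j).cov, (hψ j).mem⟩
    · rw [Set.disjoint_left]
      intro q hq hq2
      have h2 := (hψ i).sub hq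
      exact h2.2 (Set.mem_iUnion.mpr ⟨⟨j, fun h => hij h.symm⟩, hq2⟩)
  obtain ⟨-, -, -, -, hadd3, hadd4⟩ := hFam (Bl Pt) ℂ 4 Set.univ (fun j => Ls Pt (lf j)) ψ hT2
  obtain ⟨hU1, hU2⟩ := hadd3 hY1
  obtain ⟨hU3, hU4⟩ := hU2 hY3
  exact ⟨hU1, hU3, hU4.trans (by
    have : Module.finrank ℚ (H 2 ↥(Set.univ \ ⋃ i : Fin 4, Ls Pt (lf i))) ≤ 4 := hY4'
    omega), fun k => hadd4 k (hY5 k)⟩

end Pool.Agent.MP_8f595d_ag.TYHM

namespace Pool.Agent.MP_8f595d_ag

/-- Module TYH. -/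
theorem specY (hTub : SpecTub) (hTex : SpecTex) (hL : SpecLines) (hW : SpecW)
    (hSh : Pool.Agent.SH.SpecShrink) (hFam : Pool.Agent.SH.SpecFam)
    (hHt : Pool.Agent.SH.SpecHtpy) : SpecY :=
  TYHM.main hTub hTex hL hW hSh hFam hHt

end Pool.Agent.MP_8f595d_ag
end
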