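import Pool.Agent.Lib.MP_8f595d_ag.Weak
import Pool.Agent.Lib.MP_8f595d_ag.SH.Spec

/-!
# The surface `V`: blow-up of the projective plane at the 12 triple points of the dual Hesse
arrangement, as a closed algebraic subset of `ℙ² × (ℙ¹)¹²`.
-/

set_option autoImplicit false

open scoped Topology LinearAlgebra.Projectivization

namespace Pool.Agent.MP_8f595d_ag

/-- The projective plane and the projective line, with the quotient topology
(`Pool.Agent.SH.projTop`). -/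
abbrev P2 : Type := ℙ ℂ (Fin 3 → ℂ)
abbrev P1 : Type := ℙ ℂ (Fin 2 → ℂ)

/-- `√-3`. -/
noncomputable def th : ℂ := (Real.sqrt 3 : ℂ) * Complex.I

/-- A primitive cube root of unity. -/
noncomputable def om : ℂ := (-1 + th) / 2

/-- The 12 points (homogeneous coordinates). -/
noncomputable def bv : Fin 12 → Fin 3 → ℂ :=
  ![![1, 0, th], ![1, 0, -th],
    ![1, 1, 1], ![1, om, 1], ![1, om ^ 2, 1],
    ![1, -1, -1], ![1, -om, -1], ![1, -om ^ 2, -1],
    ![0, 1, 0], ![0, -1 / 2, 1], ![0, -om / 2, 1], ![0, -om ^ 2 / 2, 1]]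

/-- The 9 lines (coefficients of linear forms): the line at infinity, `y = ± 1`,
`2x + ω^k (y - θ) = 0`, `2x + ω^k (y + θ) = 0`. -/
noncomputable def ln : Fin 9 → Fin 3 → ℂ :=
  ![![1, 0, 0], ![-1, 0, 1], ![1, 0, 1],
    ![-th, 2, 1], ![-th * om, 2, om], ![-th * om ^ 2, 2, om ^ 2],
    ![th, 2, 1], ![th * om, 2, om], ![th * om ^ 2, 2, om ^ 2]]

/-- The value of the linear form `l` at `z`. -/
def dot (l z : Fin 3 → ℂ) : ℂ := l 0 * z 0 + l 1 * z 1 + l 2 * z 2

/-- Linear coordinates `(w₀, w₁, w₂)` of `ℂ³` adapted to the point `b`: the point is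
`w₁ = w₂ = 0`. -/
noncomputable def w0 (b : Fin 12) (z : Fin 3 → ℂ) : ℂ :=
  if b < 8 then z 0 else if b = 8 then z 1 else z 2

noncomputable def w1 (b : Fin 12) (z : Fin 3 → ℂ) : ℂ :=
  if b < 8 then z 1 - bv b 1 * z 0 else z 0

noncomputable def w2 (b : Fin 12) (z : Fin 3 → ℂ) : ℂ :=
  if b < 8 then z 2 - bv b 2 * z 0 else if b = 8 then z 2 else z 1 - bv b 1 * z 2

/-- The dual basis: `z = w₀ • bv b + w₁ • d1 b + w₂ • d2 b`. -/
noncomputable def d1 (b : Fin 12) : Fin 3 → ℂ := if b < 8 then ![0, 1, 0] else ![1, 0, 0]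

noncomputable def d2 (b : Fin 12) : Fin 3 → ℂ := if b ≤ 8 then ![0, 0, 1] else ![0, 1, 0]

/-- The surface `V ⊆ ℙ² × (ℙ¹)¹²`: pairs `(p, m)` such that for all `b` the vectors
`(w₁(p), w₂(p))` and `m b` are proportional. -/
def Vset : Set (P2 × (Fin 12 → P1)) :=
  {q | ∀ b : Fin 12, w1 b q.1.rep * (q.2 b).rep 1 = w2 b q.1.rep * (q.2 b).rep 0}

/-- The surface `V`. -/
abbrev V : Type := ↥Vset

/-- Polynomial parametrizations of the cone over `V`: `zz b 0 (u, s) = b + u d₁ + u s d₂`,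
`zz b 1 (v, μ) = b + v μ d₁ + v d₂`. -/
noncomputable def zz (b : Fin 12) (ε : Fin 2) (y : ℂ × ℂ) : Fin 3 → ℂ :=
  if ε = 0 then bv b + y.1 • d1 b + (y.1 * y.2) • d2 b
  else bv b + (y.1 * y.2) • d1 b + y.1 • d2 b

/-- The slope vector in the chart `(b, ε)`: `(1, s)` or `(μ, 1)`. -/
noncomputable def mm (ε : Fin 2) (y : ℂ × ℂ) : Fin 2 → ℂ := if ε = 0 then ![1, y.2] else ![y.2, 1]

/-- Total version of the class map `ℂ² ∖ 0 → ℙ¹`. -/
noncomputable def mk1 (a c : ℂ) : P1 :=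
  if h : (![a, c] : Fin 2 → ℂ) ≠ 0 then Projectivization.mk ℂ ![a, c] h
  else Projectivization.mk ℂ ![1, 0] (by intro h; have := congrFun h 0; simp at this)

/-- Total version of the class map `ℂ³ ∖ 0 → ℙ²`. -/
noncomputable def mk2 (z : Fin 3 → ℂ) : P2 :=
  if h : z ≠ 0 then Projectivization.mk ℂ z h
  else Projectivization.mk ℂ ![1, 0, 0] (by intro h; have := congrFun h 0; simp at this)

/-- The source of the chart `(b, ε)`. -/
def Src (b : Fin 12) (ε : Fin 2) : Set V :=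
  {q | w0 b q.1.1.rep ≠ 0 ∧ (q.1.2 b).rep ε ≠ 0 ∧
    ∀ b', b' ≠ b → ¬ (w1 b' q.1.1.rep = 0 ∧ w2 b' q.1.1.rep = 0)}

/-- The target of the chart `(b, ε)`. -/
def Tgt (b : Fin 12) (ε : Fin 2) : Set (ℂ × ℂ) :=
  {y | ∀ b', b' ≠ b → ¬ (w1 b' (zz b ε y) = 0 ∧ w2 b' (zz b ε y) = 0)}

/-- The chart map: `(w₁/w₀, m₁/m₀)` for `ε = 0` and `(w₂/w₀, m₀/m₁)` for `ε = 1`. -/
noncomputable def co (b : Fin 12) (ε : Fin 2) (q : V) : ℂ × ℂ :=
  if ε = 0 then (w1 b q.1.1.rep / w0 b q.1.1.rep, (q.1.2 b).rep 1 / (q.1.2 b).rep 0)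
  else (w2 b q.1.1.rep / w0 b q.1.1.rep, (q.1.2 b).rep 0 / (q.1.2 b).rep 1)

/-- The slopes of the point `pt b ε y`. -/
noncomputable def slp (b : Fin 12) (ε : Fin 2) (y : ℂ × ℂ) (b' : Fin 12) : P1 :=
  if b' = b then mk1 (mm ε y 0) (mm ε y 1) else mk1 (w1 b' (zz b ε y)) (w2 b' (zz b ε y))

/-- The inverse of the chart, with values in `ℙ² × (ℙ¹)¹²`. -/
noncomputable def ptS (b : Fin 12) (ε : Fin 2) (y : ℂ × ℂ) : P2 × (Fin 12 → P1) :=
  (mk2 (zz b ε y), slp b ε y)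

/-- An atlas of `V` with 24 charts, given by the formulas above. -/
structure Charts where
  ch : Fin 12 → Fin 2 → Cht V
  source : ∀ b ε, (ch b ε).source = Src b ε
  target : ∀ b ε, (ch b ε).target = Tgt b ε
  coe : ∀ b ε q, q ∈ Src b ε → ch b ε q = co b ε q
  symm : ∀ b ε y, y ∈ Tgt b ε → ((ch b ε).symm y).1 = ptS b ε y

/-- The atlas. -/
def Charts.atl (K : Charts) : Set (Cht V) := Set.range (fun i : Fin 12 × Fin 2 => K.ch i.1 i.2)

/-- The charts cover `V`. -/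
def SpecCover : Prop := ∀ q : V, ∃ b ε, q ∈ Src b ε

/-- The charted space structure given by the atlas. -/
noncomputable def Charts.charted (K : Charts) (hc : SpecCover) : ChartedSpace (ℂ × ℂ) V where
  atlas := K.atl
  chartAt q := K.ch (hc q).choose (hc q).choose_spec.choose
  mem_chart_source q := by
    rw [K.source]; exact (hc q).choose_spec.choose_spec
  chart_mem_atlas q := ⟨((hc q).choose, (hc q).choose_spec.choose), rfl⟩

/-- The exceptional curve over the point `b`. -/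
def Eb (b : Fin 12) : Set V := {q | w1 b q.1.1.rep = 0 ∧ w2 b q.1.1.rep = 0}

/-- The strict transform of the line with linear form `l`. -/
def Lt (l : Fin 3 → ℂ) : Set V :=
  {q | dot l q.1.1.rep = 0 ∧ ∀ b, dot l (bv b) = 0 →
    dot l (d1 b) * (q.1.2 b).rep 0 + dot l (d2 b) * (q.1.2 b).rep 1 = 0}

/-- Local equation of the strict transform of a line in the chart `(b, ε)`. -/
noncomputable def eqL (l : Fin 3 → ℂ) (b : Fin 12) (ε : Fin 2) (y : ℂ × ℂ) : ℂ :=
  open Classical in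
  if dot l (bv b) = 0 then dot l (d1 b) * mm ε y 0 + dot l (d2 b) * mm ε y 1 else dot l (zz b ε y)

/-- The determinant of `(z, ∂₁ z, ∂₂ z)` for `z = zz b ε`. -/
noncomputable def Jz (b : Fin 12) (ε : Fin 2) (y : ℂ × ℂ) : ℂ :=
  (if b = 8 then -1 else 1) * (if ε = 0 then y.1 else -y.1)

/-- The 13 components of the boundary divisor `D`: the strict transforms of the 9 lines and the
exceptional curves over the 4 points at infinity. -/
noncomputable def Dset (i : Fin 13) : Set V :=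
  if h : (i : ℕ) < 9 then Lt (ln ⟨i, h⟩) else Eb ⟨(i : ℕ) - 1, by omega⟩

end Pool.Agent.MP_8f595d_ag
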