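import Pool.Agent.Lib.MP_8f595d_ag.VDefs

/-!
# The surface `V`: specifications of the modules (stage 2)
-/

set_option autoImplicit false

open scoped Topology LinearAlgebra.Projectivization Manifold ContDiff

namespace Pool.Agent.MP_8f595d_ag

/-! ## Module VBA: linear algebra and the incidence table -/

/-- The points on the 9 lines. -/
def incl : Fin 9 → Finset (Fin 12) :=
  ![{8, 9, 10, 11}, {2, 3, 4, 8}, {5, 6, 7, 8}, {0, 3, 7, 9}, {0, 4, 5, 10}, {0, 2, 6, 11},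
    {1, 4, 6, 9}, {1, 2, 7, 10}, {1, 3, 5, 11}]

def SpecLin : Prop :=
  (th ^ 2 = -3 ∧ om ^ 2 + om + 1 = 0 ∧ om ≠ 0 ∧ th ≠ 0 ∧ th = 2 * om + 1) ∧
  (∀ (b : Fin 12) (z : Fin 3 → ℂ), z = w0 b z • bv b + w1 b z • d1 b + w2 b z • d2 b) ∧
  (∀ (b : Fin 12) (x y : ℂ) (z z' : Fin 3 → ℂ),
    w0 b (x • z + y • z') = x * w0 b z + y * w0 b z' ∧
    w1 b (x • z + y • z') = x * w1 b z + y * w1 b z' ∧
    w2 b (x • z + y • z') = x * w2 b z + y * w2 b z') ∧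
  (∀ b : Fin 12, w0 b (bv b) = 1 ∧ w1 b (bv b) = 0 ∧ w2 b (bv b) = 0 ∧
    w0 b (d1 b) = 0 ∧ w1 b (d1 b) = 1 ∧ w2 b (d1 b) = 0 ∧
    w0 b (d2 b) = 0 ∧ w1 b (d2 b) = 0 ∧ w2 b (d2 b) = 1) ∧
  (∀ (b : Fin 12) (y : ℂ × ℂ), w0 b (zz b 0 y) = 1 ∧ w1 b (zz b 0 y) = y.1 ∧
    w2 b (zz b 0 y) = y.1 * y.2 ∧ w0 b (zz b 1 y) = 1 ∧ w1 b (zz b 1 y) = y.1 * y.2 ∧
    w2 b (zz b 1 y) = y.1) ∧
  (∀ b : Fin 12, bv b ≠ 0) ∧
  (∀ b b' : Fin 12, b ≠ b' → ¬ (w1 b' (bv b) = 0 ∧ w2 b' (bv b) = 0)) ∧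
  (∀ (i : Fin 9) (b : Fin 12), dot (ln i) (bv b) = 0 ↔ b ∈ incl i) ∧
  (∀ i : Fin 9, ln i ≠ 0) ∧
  (∀ i j : Fin 9, i ≠ j → LinearIndependent ℂ ![ln i, ln j])

/-! ## Module VTO: topology of `V` (from SH.SpecProjTop) -/

def SpecVTop : Prop := CompactSpace V ∧ T2Space V

/-! ## Module VCO: the charts cover -/
-- `SpecCover` is in VDefs

/-! ## Module VCH: the charts exist -/

def SpecCharts : Prop := Nonempty Charts

/-! ## Module VTR: the transition maps -/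

def SpecTrans : Prop :=
  ∀ (b : Fin 12) (ε : Fin 2) (b' : Fin 12) (ε' : Fin 2) (K : Charts) (y : ℂ × ℂ),
    y ∈ Tgt b ε → (K.ch b ε).symm y ∈ Src b' ε' →
    AnalyticAt ℂ (fun y => (K.ch b' ε') ((K.ch b ε).symm y)) y ∧
    ∃ g : ℂ, g ≠ 0 ∧
      zz b' ε' ((K.ch b' ε') ((K.ch b ε).symm y)) = g • zz b ε y ∧
      Jz b' ε' ((K.ch b' ε') ((K.ch b ε).symm y)) *
        (fderiv ℂ (fun y => (K.ch b' ε') ((K.ch b ε).symm y)) y).det = g ^ 3 * Jz b ε y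

/-! ## Module VMA: complex manifold (from SpecTrans) -/

def SpecMan : Prop :=
  ∀ (K : Charts) (hc : SpecCover),
    @IsManifold ℂ _ (ℂ × ℂ) _ _ (ℂ × ℂ) _ 𝓘(ℂ, ℂ × ℂ) ω V _ (K.charted hc)

/-! ## Module VCN: connectedness and closedness -/

def SpecConn : Prop :=
  ConnectedSpace V ∧
  (∀ b : Fin 12, IsClosed (Eb b) ∧ IsConnected (Eb b)) ∧
  (∀ l : Fin 3 → ℂ, l ≠ 0 → IsClosed (Lt l) ∧ IsConnected (Lt l))

/-! ## Module VLO: local equations -/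

def SpecLoc : Prop :=
  (∀ (l : Fin 3 → ℂ) (b : Fin 12) (ε : Fin 2) (y : ℂ × ℂ),
    dot l (zz b ε y) = (open Classical in if dot l (bv b) = 0 then y.1 else 1) * eqL l b ε y) ∧
  ∀ (K : Charts) (b : Fin 12) (ε : Fin 2) (q : V), q ∈ Src b ε →
    IsLocEq (Eb b) q (K.ch b ε) (fun y => y.1) ∧
    (∀ b', b' ≠ b → IsLocEq (Eb b') q (K.ch b ε) (fun _ => 1)) ∧
    (∀ l : Fin 3 → ℂ, l ≠ 0 → IsLocEq (Lt l) q (K.ch b ε) (eqL l b ε))

/-! ## Module VCU: smooth curves (from SpecLoc, SpecConn, SpecCover) -/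

/-- The curves `Eb b` and `Lt l` are smooth curves. -/
def SC (K : Charts) : Prop :=
  (∀ b, IsSmoothCurve K.atl (Eb b)) ∧ ∀ l : Fin 3 → ℂ, l ≠ 0 → IsSmoothCurve K.atl (Lt l)

def SpecCurves : Prop := ∀ K : Charts, SC K

def cE (K : Charts) (h : SC K) (b : Fin 12) : Curve K.atl := ⟨Eb b, h.1 b⟩

def cL (K : Charts) (h : SC K) (l : Fin 3 → ℂ) (hl : l ≠ 0) : Curve K.atl := ⟨Lt l, h.2 l hl⟩

/-! ## Module VDF: divisors of rational functions (from SpecLoc, SpecCover, SpecLin, SpecIntE) -/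

open Classical in
def SpecDivF : Prop :=
  ∀ (K : Charts) (h : SC K) (n : ℕ) (l : Fin n → Fin 3 → ℂ) (hl : ∀ j, l j ≠ 0)
    (_ : ∀ i j, i ≠ j → LinearIndependent ℂ ![l i, l j]) (a : Fin n → ℤ), ∑ j, a j = 0 →
    IsDivOf K.atl (fun q => ∏ j, (dot (l j) q.1.1.rep) ^ (a j))
      (∑ j, Finsupp.single (cL K h (l j) (hl j)) (a j) +
        ∑ b, Finsupp.single (cE K h b)
          (∑ j ∈ Finset.univ.filter (fun j => dot (l j) (bv b) = 0), a j))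

/-! ## Module VCA: the canonical divisor (from SpecLoc, SpecTrans, SpecLin, SpecIntE) -/

/-- The divisor of the form `dx ∧ dy`. -/
noncomputable def K0 (K : Charts) (h : SC K) (h0 : ln 0 ≠ 0) : Div K.atl :=
  Finsupp.single (cL K h (ln 0) h0) (-3) +
    ∑ b : Fin 12, Finsupp.single (cE K h b) (if b < 8 then 1 else -2)

def SpecCanon : Prop :=
  ∀ (K : Charts) (h : SC K) (h0 : ln 0 ≠ 0), IsCanonical K.atl (K0 K h h0)

/-! ## Module VIN: intersections of the curves (from SpecLoc, SpecLin) -/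

def SpecIntE : Prop :=
  (∀ (b : Fin 12) (l : Fin 3 → ℂ), l ≠ 0 → dot l (bv b) = 0 → (Eb b ∩ Lt l).ncard = 1) ∧
  (∀ (b : Fin 12) (l : Fin 3 → ℂ), dot l (bv b) ≠ 0 → Eb b ∩ Lt l = ∅) ∧
  (∀ b b' : Fin 12, b ≠ b' → Eb b ∩ Eb b' = ∅) ∧
  (∀ l l' : Fin 3 → ℂ, LinearIndependent ℂ ![l, l'] →
    ((∃ b, dot l (bv b) = 0 ∧ dot l' (bv b) = 0) → Lt l ∩ Lt l' = ∅) ∧
    ((∀ b, ¬ (dot l (bv b) = 0 ∧ dot l' (bv b) = 0)) → (Lt l ∩ Lt l').ncard = 1)) ∧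
  (∀ (b : Fin 12) (l : Fin 3 → ℂ), Eb b ≠ Lt l) ∧
  (∀ b b' : Fin 12, b ≠ b' → Eb b ≠ Eb b') ∧
  (∀ l l' : Fin 3 → ℂ, LinearIndependent ℂ ![l, l'] → Lt l ≠ Lt l')

/-! ## Module VTV: transversality (from SpecLoc, SpecLin, SpecCover) -/

def SpecTransv : Prop :=
  (∀ (K : Charts) (C C' : Set V) (q : V), TransvAt K.atl C C' q → TransvAt K.atl C' C q) ∧
  (∀ (K : Charts) (b : Fin 12) (l : Fin 3 → ℂ), l ≠ 0 → ∀ q ∈ Eb b ∩ Lt l,
    TransvAt K.atl (Eb b) (Lt l) q) ∧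
  (∀ (K : Charts) (l l' : Fin 3 → ℂ), LinearIndependent ℂ ![l, l'] → ∀ q ∈ Lt l ∩ Lt l',
    TransvAt K.atl (Lt l) (Lt l') q)

/-! ## Module VGE: general lines (from SpecLin) -/

def SpecGen : Prop :=
  ∃ (hh : Fin 3 → ℂ) (g : Fin 12 → Fin 3 → ℂ),
    (∀ b, dot hh (bv b) ≠ 0) ∧ (∀ b, dot (g b) (bv b) = 0) ∧
    (∀ b b', b ≠ b' → dot (g b) (bv b') ≠ 0) ∧ hh ≠ 0 ∧ (∀ b, g b ≠ 0) ∧
    (∀ b, LinearIndependent ℂ ![g b, hh]) ∧
    (∀ b b', b ≠ b' → LinearIndependent ℂ ![g b, g b']) ∧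
    (∀ (i : Fin 9) b, LinearIndependent ℂ ![ln i, g b]) ∧
    (∀ i : Fin 9, LinearIndependent ℂ ![ln i, hh])

/-! ## The boundary divisor -/

/-- The components of `D` as smooth curves. -/
def Dc (K : Charts) (h : ∀ i, IsSmoothCurve K.atl (Dset i)) (i : Fin 13) : Curve K.atl :=
  ⟨Dset i, h i⟩

/-! ## Module VNU: intersection numbers
(from SpecDivF, SpecIntE, SpecTransv, SpecGen, SpecLin) -/

def SpecNum : Prop :=
  ∀ (K : Charts) (h : SC K) (h0 : ln 0 ≠ 0) (hD : ∀ i, IsSmoothCurve K.atl (Dset i)),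
    (∀ i : Fin 13, SelfInt K.atl (Dc K hD i) (if (i : ℕ) < 9 then -3 else -1)) ∧
    Dot K.atl (K0 K h h0) (K0 K h h0 + ∑ i, Finsupp.single (Dc K hD i) 1) 2

/-! ## Module VSN: simple normal crossings and minimality
(from SpecIntE, SpecTransv, SpecLin, SpecNum) -/

def SpecSNC : Prop :=
  ∀ (K : Charts) (_ : SC K) (hD : ∀ i, IsSmoothCurve K.atl (Dset i)),
    IsSNC K.atl (Dc K hD) ∧ IsMinimalBoundary K.atl (Dc K hD)

/-! ## Module VEM: projective embedding -/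

def SpecEmb : Prop := ∀ K : Charts, IsProjectiveSurface V K.atl

/-! ## Module VPO: plane curves of degree `18 k` with high multiplicities (only polynomials) -/

def SpecPoly : Prop :=
  ∀ k : ℕ, ∃ W : Submodule ℂ (MvPolynomial (Fin 3) ℂ),
    12 * k ^ 2 + k + 1 ≤ Module.finrank ℂ W ∧
    ∀ P ∈ W, P.IsHomogeneous (18 * k) ∧
      ∀ (b : Fin 12) (ε : Fin 2), ∃ Q : ℂ × ℂ → ℂ, AnalyticOnNhd ℂ Q Set.univ ∧
        ∀ y : ℂ × ℂ, MvPolynomial.eval (zz b ε y) P = y.1 ^ (if b < 8 then 6 * k else 3 * k) * Q y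

/-! ## Module VKO: log-general type (from SpecPoly, SpecTrans, SpecLoc, SpecLin, SpecIntE) -/

def SpecKod : Prop :=
  ∀ (K : Charts) (_ : SC K) (hD : ∀ i, IsSmoothCurve K.atl (Dset i)),
    LogGeneralType K.atl (Dc K hD)

end Pool.Agent.MP_8f595d_ag
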