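import Pool.Agent.Lib.MP_8f595d_ag.Statement

/-!
# Auxiliary weaker versions
-/

set_option autoImplicit false

open scoped Topology LinearAlgebra.Projectivization Manifold ContDiff

namespace Pool.Agent.MP_8f595d_ag

section

variable {V : Type} [TopologicalSpace V]

/-- Minimality of the boundary `D`: each component either has a self-intersection number
different from `-1` or meets at least three other components (so that the image of `D` under its
contraction is not a simple normal crossings divisor). -/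
def IsMinimalBoundary (𝒜 : Set (Cht V)) {r : ℕ} (D : Fin r → Curve 𝒜) : Prop :=
  ∀ i, (∃ n : ℤ, SelfInt 𝒜 (D i) n ∧ n ≠ -1) ∨
    3 ≤ Set.ncard {j | j ≠ i ∧ ((D i).1 ∩ (D j).1).Nonempty}

end

/-- The assertion: there is a smooth projective complex surface `V` with a minimal simple normal
crossings divisor `D` with `r = 13` components such that `X = V ∖ D` is `ℚ`-acyclic and of
log-general type and `K_V · (K_V + D) = 2`; moreover the self-intersection numbers `n i` of the
components satisfy `10 - 3 r - ∑ n i = 2`. -/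
def MainAssertion : Prop :=
  ∃ (V : Type) (_ : TopologicalSpace V) (_ : ChartedSpace (ℂ × ℂ) V)
    (D : Fin 13 → Curve (atlas (ℂ × ℂ) V)),
    IsManifold 𝓘(ℂ, ℂ × ℂ) ω V ∧ CompactSpace V ∧ T2Space V ∧ ConnectedSpace V ∧
    IsProjectiveSurface V (atlas (ℂ × ℂ) V) ∧
    IsSNC (atlas (ℂ × ℂ) V) D ∧ IsMinimalBoundary (atlas (ℂ × ℂ) V) D ∧
    IsQAcyclic ↥(opn D) ∧ LogGeneralType (atlas (ℂ × ℂ) V) D ∧
    (∃ K : Div (atlas (ℂ × ℂ) V), IsCanonical (atlas (ℂ × ℂ) V) K ∧
      Dot (atlas (ℂ × ℂ) V) K (K + ∑ i, Finsupp.single (D i) 1) 2) ∧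
    ∃ n : Fin 13 → ℤ, (∀ i, SelfInt (atlas (ℂ × ℂ) V) (D i) (n i)) ∧
      10 - 3 * 13 - ∑ i, n i = 2

end Pool.Agent.MP_8f595d_ag
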